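import Pool.Agent.RHN.SDefs

/-!
# RHN / SAp: counting in arithmetic progressions

PROOFS.  `count_ap`: `#{n ∈ (N, N+h] : n ≡ c (q), d ∣ n} = h/(q d) + θ`, `|θ| ≤ 1`, for `(d, q) = 1` (Chinese remainder: one class modulo `q d`; a class modulo
`m` has `⌊h/m⌋` or `⌊h/m⌋ + 1` elements in an interval of `h` consecutive integers: `Nat.Ioc_filter_modEq_card` or similar; the difference
to `h/m` is in `[-1, 1]`).
`ap_sum`: `∏_{p∈T} xd n p = 1` if `∏ T ∣ n` (distinct primes: `Finset.prod_primes_dvd`), else `0`.  Exchange the sums: the inner count is `count_ap` with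
`d = ∏ T` (coprime to `q`), `∏_{p ∈ T} xp p = 1/∏ T`.
-/

set_option autoImplicit false

namespace Pool.Agent.RHN

open Finset

theorem count_ap {N h q d c : ℕ} (hq : 1 ≤ q) (hd : 1 ≤ d) (hdq : Nat.Coprime d q) :
    |(((Ioc N (N + h)).filter (fun n => n ≡ c [MOD q] ∧ d ∣ n)).card : ℝ) - (h : ℝ) / (q * d)| ≤ 1 := by
  obtain ⟨c', hc1, hc2⟩ := Nat.chineseRemainder hdq.symm c 0
  have hF : (Ioc N (N + h)).filter (fun n => n ≡ c [MOD q] ∧ d ∣ n) =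
      (Ioc N (N + h)).filter (fun n => n ≡ c' [MOD q * d]) := by
    refine Finset.filter_congr fun n _ => ?_
    rw [← Nat.modEq_and_modEq_iff_modEq_mul hdq.symm, ← Nat.modEq_zero_iff_dvd]
    constructor
    · rintro ⟨h1, h2⟩
      exact ⟨h1.trans hc1.symm, h2.trans hc2.symm⟩
    · rintro ⟨h1, h2⟩
      exact ⟨h1.trans hc1, h2.trans hc2⟩
  have hr : 0 < q * d := Nat.mul_pos hq hd
  have h1 := Nat.Ioc_filter_modEq_card N (N + h) hr c'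
  rw [hF]
  obtain ⟨K, hK⟩ : ∃ K : ℕ, K = ((Ioc N (N + h)).filter (fun n => n ≡ c' [MOD q * d])).card :=
    ⟨_, rfl⟩
  rw [← hK] at h1 ⊢
  have hrq : (0 : ℚ) < ((q * d : ℕ) : ℚ) := by exact_mod_cast hr
  have e : (((N + h : ℕ) : ℚ) - (c' : ℚ)) / ((q * d : ℕ) : ℚ) =
      ((N : ℚ) - c') / ((q * d : ℕ) : ℚ) + (h : ℚ) / ((q * d : ℕ) : ℚ) := by
    push_cast
    ring
  have ht : (0 : ℚ) ≤ (h : ℚ) / ((q * d : ℕ) : ℚ) := by positivity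
  rw [e] at h1
  have h2 : 0 ≤ ⌊((N : ℚ) - c') / ((q * d : ℕ) : ℚ) + (h : ℚ) / ((q * d : ℕ) : ℚ)⌋ -
      ⌊((N : ℚ) - c') / ((q * d : ℕ) : ℚ)⌋ := by
    rw [sub_nonneg]
    exact Int.floor_le_floor (by linarith)
  rw [max_eq_left h2] at h1
  have h3 := Int.floor_le (((N : ℚ) - c') / ((q * d : ℕ) : ℚ) + (h : ℚ) / ((q * d : ℕ) : ℚ))
  have h4 := Int.lt_floor_add_one (((N : ℚ) - c') / ((q * d : ℕ) : ℚ) +
    (h : ℚ) / ((q * d : ℕ) : ℚ))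
  have h5 := Int.floor_le (((N : ℚ) - c') / ((q * d : ℕ) : ℚ))
  have h6 := Int.lt_floor_add_one (((N : ℚ) - c') / ((q * d : ℕ) : ℚ))
  have h7 : ((K : ℤ) : ℚ) = ((⌊((N : ℚ) - c') / ((q * d : ℕ) : ℚ) +
      (h : ℚ) / ((q * d : ℕ) : ℚ)⌋ - ⌊((N : ℚ) - c') / ((q * d : ℕ) : ℚ)⌋ : ℤ) : ℚ) := by
    rw [h1]
  push_cast at h7 h3 h4 h5 h6
  have h8 : |(K : ℚ) - (h : ℚ) / (q * d)| ≤ 1 := by
    rw [abs_le]
    constructor <;> linarith
  have h9 : (((|(K : ℚ) - (h : ℚ) / (q * d)| : ℚ)) : ℝ) ≤ ((1 : ℚ) : ℝ) := Rat.cast_le.2 h8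
  push_cast at h9
  exact h9

theorem ap_sum {N h q c : ℕ} (hq : 1 ≤ q) (𝒯 : Finset (Finset ℕ))
    (hT : ∀ T ∈ 𝒯, ∀ p ∈ T, p.Prime ∧ ¬ p ∣ q) (s : Finset ℕ → ℝ) (hs : ∀ T, |s T| ≤ 1) :
    |∑ n ∈ (Ioc N (N + h)).filter (fun n => n ≡ c [MOD q]), ∑ T ∈ 𝒯, s T * ∏ p ∈ T, xd n p -
      (h : ℝ) / q * ∑ T ∈ 𝒯, s T * ∏ p ∈ T, xp p| ≤ 𝒯.card := by
  have key : ∀ T ∈ 𝒯, |∑ n ∈ (Ioc N (N + h)).filter (fun n => n ≡ c [MOD q]), ∏ p ∈ T, xd n p -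
      (h : ℝ) / q * ∏ p ∈ T, xp p| ≤ 1 := by
    intro T hTm
    have hT' := hT T hTm
    have h1 : ∀ n : ℕ, ∏ p ∈ T, xd n p = if (∏ p ∈ T, p) ∣ n then (1 : ℝ) else 0 := by
      intro n
      unfold xd
      by_cases h2 : (∏ p ∈ T, p) ∣ n
      · rw [if_pos h2]
        refine Finset.prod_eq_one fun p hp => ?_
        rw [if_pos ((Finset.dvd_prod_of_mem _ hp).trans h2)]
      · rw [if_neg h2]
        have h3 : ∃ p ∈ T, ¬ p ∣ n := by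
          by_contra h4
          push Not at h4
          exact h2 (Finset.prod_primes_dvd n (fun p hp => (hT' p hp).1.prime) h4)
        obtain ⟨p, hp, h4⟩ := h3
        refine Finset.prod_eq_zero hp ?_
        rw [if_neg h4]
    have h2 : ∑ n ∈ (Ioc N (N + h)).filter (fun n => n ≡ c [MOD q]), ∏ p ∈ T, xd n p =
        (((Ioc N (N + h)).filter (fun n => n ≡ c [MOD q] ∧ (∏ p ∈ T, p) ∣ n)).card : ℝ) := by
      rw [Finset.sum_congr rfl fun n _ => h1 n, Finset.sum_ite, Finset.sum_const_zero, add_zero,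
        Finset.sum_const, nsmul_eq_mul, mul_one, Finset.filter_filter]
    have h3 : ∏ p ∈ T, xp p = 1 / (((∏ p ∈ T, p : ℕ)) : ℝ) := by
      unfold xp
      rw [Finset.prod_div_distrib, Finset.prod_const_one, Nat.cast_prod]
    have h4 : 1 ≤ ∏ p ∈ T, p := Finset.prod_pos fun p hp => (hT' p hp).1.pos
    have h5 : Nat.Coprime (∏ p ∈ T, p) q := by
      refine Nat.Coprime.prod_left fun p hp => ?_
      exact (Nat.Prime.coprime_iff_not_dvd (hT' p hp).1).2 (hT' p hp).2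
    have h6 := count_ap (N := N) (h := h) (c := c) hq h4 h5
    rw [h2, h3]
    have h7 : (h : ℝ) / q * (1 / (((∏ p ∈ T, p : ℕ)) : ℝ)) =
        (h : ℝ) / (q * (((∏ p ∈ T, p : ℕ)) : ℝ)) := by
      rw [div_mul_div_comm, mul_one]
    rw [h7]
    exact h6
  have h1 : ∑ n ∈ (Ioc N (N + h)).filter (fun n => n ≡ c [MOD q]),
      ∑ T ∈ 𝒯, s T * ∏ p ∈ T, xd n p - (h : ℝ) / q * ∑ T ∈ 𝒯, s T * ∏ p ∈ T, xp p =
      ∑ T ∈ 𝒯, s T * (∑ n ∈ (Ioc N (N + h)).filter (fun n => n ≡ c [MOD q]), ∏ p ∈ T, xd n p -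
      (h : ℝ) / q * ∏ p ∈ T, xp p) := by
    rw [Finset.sum_comm, Finset.mul_sum, ← Finset.sum_sub_distrib]
    refine Finset.sum_congr rfl fun T _ => ?_
    rw [← Finset.mul_sum]
    ring
  rw [h1]
  refine (Finset.abs_sum_le_sum_abs _ _).trans ?_
  have h2 : (𝒯.card : ℝ) = ∑ _T ∈ 𝒯, (1 : ℝ) := by
    rw [Finset.sum_const, nsmul_eq_mul, mul_one]
  rw [h2]
  refine Finset.sum_le_sum fun T hTm => ?_
  rw [abs_mul]
  exact mul_le_one₀ (hs T) (abs_nonneg _) (key T hTm)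

end Pool.Agent.RHN
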