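import Pool.Agent.RHN.SBlk

/-!
# RHN / SIneq: the pointwise inequalities and the main terms

PROOFS.  `prod_ineq`: for `0 ≤ x_j ≤ y_j`: `∏ y_j - ∑_l (y_l - x_l) ∏_{j ≠ l} y_j ≤ ∏ x_j ≤ ∏ y_j` (induction on the finite set).
`up_ge`, `lo_le`: `bonf` (`Helper27.IS.bonf`, `bb b j` even): with `x p = xd n p ∈ {0, 1}` and `V_j = ∏_{p ∈ A_j} (1 - x p)` (which is `0` or `1`):
`V_j ≤ alt ≤ V_j + esy (bb b j + 1)`.  `∏_j V_j = 1` if no prime of `PZ z q` divides `n`, otherwise `0` (`PZ_eq`, `prod_biUnion`).  Upper bound: `∏ V_j ≤ ∏ alt`.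
Lower bound: `prod_ineq` with `x_j = V_j`, `y_j = alt`, `y_l - x_l ≤ esy`, and all `alt ≥ 0`.
Main terms: `M_j = alt (AA z q j) xp (bb b j)`, `V_j = ∏_{AA} (1 - xp p) ≥ exp (-20)`, `E_j = esy (AA z q j) xp (bb b j + 1) ≤ exp 20/2^{2(b+j)+1}`.
`bonf`: `V_j ≤ M_j ≤ V_j + E_j ≤ V_j (1 + η_j)`, `η_j = exp 40 · 2^{-2b-2j-1}`, `∑_j η_j ≤ exp 40 · 4^{-b}`.  `∏_{j<z} V_j = VV z q`.  Hence
`VV ≤ Up ≤ VV exp (∑ η_j)`, and `Lo ≥ VV - ∑_l (E_l/V_l) ∏ M_j ≥ VV (1 - exp (∑ η) ∑ η)`.  With `C = exp 40 · exp (exp 40)`: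
`exp (∑ η) - 1 ≤ (∑ η) exp (∑ η) ≤ C 4^{-b} ≤ C 2^{-b}`.
-/

set_option autoImplicit false

namespace Pool.Agent.RHN

open Finset

open Pool.Agent.Helper27.IS (esy alt)

theorem prod_ineq (J : Finset ℕ) (x y : ℕ → ℝ) (h0 : ∀ j ∈ J, 0 ≤ x j) (h1 : ∀ j ∈ J, x j ≤ y j) :
    ∏ j ∈ J, y j - ∑ l ∈ J, (y l - x l) * ∏ j ∈ J.erase l, y j ≤ ∏ j ∈ J, x j ∧
      ∏ j ∈ J, x j ≤ ∏ j ∈ J, y j := by
  refine ⟨?_, prod_le_prod h0 h1⟩
  induction J using Finset.induction_on with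
  | empty => simp
  | insert a J ha ih =>
    have h0J : ∀ j ∈ J, 0 ≤ x j := fun j hj => h0 j (mem_insert_of_mem hj)
    have h1J : ∀ j ∈ J, x j ≤ y j := fun j hj => h1 j (mem_insert_of_mem hj)
    have hxa := h0 a (mem_insert_self a J)
    have hya := h1 a (mem_insert_self a J)
    have hI := ih h0J h1J
    have hS : 0 ≤ ∑ l ∈ J, (y l - x l) * ∏ j ∈ J.erase l, y j := by
      refine sum_nonneg fun l hl => mul_nonneg (by linarith [h1J l hl]) (prod_nonneg fun j hj => ?_)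
      exact (h0J j (mem_of_mem_erase hj)).trans (h1J j (mem_of_mem_erase hj))
    rw [prod_insert ha, prod_insert ha, sum_insert ha, erase_insert ha]
    have h2 : ∑ l ∈ J, (y l - x l) * ∏ j ∈ (insert a J).erase l, y j =
        y a * ∑ l ∈ J, (y l - x l) * ∏ j ∈ J.erase l, y j := by
      rw [mul_sum]
      refine sum_congr rfl fun l hl => ?_
      have hne : a ≠ l := fun h => ha (h ▸ hl)
      rw [erase_insert_of_ne hne, prod_insert fun h => ha (mem_of_mem_erase h)]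
      ring
    rw [h2]
    have h3 := mul_le_mul_of_nonneg_left hI hxa
    have h4 := mul_le_mul_of_nonneg_right hya hS
    linarith

private theorem si_bonf {z q b : ℕ} {x : ℕ → ℝ} (hx : ∀ p, 0 ≤ x p ∧ x p ≤ 1) (j : ℕ) :
    0 ≤ ∏ p ∈ AA z q j, (1 - x p) ∧
    ∏ p ∈ AA z q j, (1 - x p) ≤ alt (AA z q j) x (bb b j) ∧
    alt (AA z q j) x (bb b j) - ∏ p ∈ AA z q j, (1 - x p) ≤ esy (AA z q j) x (bb b j + 1) := by
  have h := Pool.Agent.Helper27.IS.bonf (AA z q j) x (fun p _ => hx p) (bb b j)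
  have he : (-1 : ℝ) ^ (bb b j) = 1 := by
    unfold bb
    rw [pow_mul, neg_one_sq, one_pow]
  rw [he, one_mul] at h
  refine ⟨prod_nonneg fun p _ => by linarith [(hx p).2], by linarith [h.1], h.2⟩

private theorem si_prod (z q : ℕ) (x : ℕ → ℝ) :
    ∏ j ∈ range z, ∏ p ∈ AA z q j, (1 - x p) = ∏ p ∈ PZ z q, (1 - x p) := by
  rw [PZ_eq, prod_biUnion]
  intro i _ j _ hij
  exact AA_disj z q hij

private theorem si_xd (n p : ℕ) : 0 ≤ xd n p ∧ xd n p ≤ 1 := by
  unfold xd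
  split_ifs <;> norm_num

private theorem si_xp (p : ℕ) : 0 ≤ xp p ∧ xp p ≤ 1 := by
  unfold xp
  refine ⟨by positivity, ?_⟩
  rcases Nat.eq_zero_or_pos p with h | h
  · subst h
    simp
  · have h1 : (1 : ℝ) ≤ p := by exact_mod_cast h
    exact div_le_one_of_le₀ h1 (by linarith)

open Classical in
private theorem si_ind (z q n : ℕ) : ∏ p ∈ PZ z q, (1 - xd n p) =
    (if ∀ p ∈ PZ z q, ¬ p ∣ n then (1 : ℝ) else 0) := by
  split_ifs with h
  · refine prod_eq_one fun p hp => ?_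
    unfold xd
    rw [if_neg (h p hp), sub_zero]
  · push Not at h
    obtain ⟨p, hp, hd⟩ := h
    refine prod_eq_zero hp ?_
    unfold xd
    rw [if_pos hd, sub_self]

open Classical in
theorem up_ge (z q b n : ℕ) :
    (if ∀ p ∈ PZ z q, ¬ p ∣ n then (1 : ℝ) else 0) ≤ Up z q b (xd n) := by
  rw [← si_ind, ← si_prod]
  unfold Up
  exact prod_le_prod (fun j _ => (si_bonf (b := b) (si_xd n) j).1)
    fun j _ => (si_bonf (si_xd n) j).2.1

open Classical in
theorem lo_le (z q b n : ℕ) :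
    Lo z q b (xd n) ≤ (if ∀ p ∈ PZ z q, ¬ p ∣ n then (1 : ℝ) else 0) := by
  rw [← si_ind, ← si_prod]
  refine le_trans ?_ (prod_ineq (range z) (fun j => ∏ p ∈ AA z q j, (1 - xd n p))
    (fun j => alt (AA z q j) (xd n) (bb b j))
    (fun j _ => (si_bonf (b := b) (si_xd n) j).1) fun j _ => (si_bonf (si_xd n) j).2.1).1
  unfold Lo Up
  refine sub_le_sub_left (sum_le_sum fun l _ => ?_) _
  refine mul_le_mul_of_nonneg_right (si_bonf (si_xd n) l).2.2 (prod_nonneg fun j _ => ?_)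
  exact (si_bonf (b := b) (si_xd n) j).1.trans (si_bonf (si_xd n) j).2.1

private theorem si_VV (z q : ℕ) : VV z q = ∏ j ∈ range z, ∏ p ∈ AA z q j, (1 - xp p) := by
  rw [si_prod]
  rfl

private theorem si_VV0 (z q : ℕ) : 0 ≤ VV z q := by
  rw [si_VV]
  exact prod_nonneg fun j _ => (si_bonf (b := 0) si_xp j).1

/-- the relative errors -/
private noncomputable def eta (b j : ℕ) : ℝ := Real.exp 40 / 2 ^ (bb b j + 1)

private theorem eta_nonneg (b j : ℕ) : 0 ≤ eta b j := by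
  unfold eta
  positivity

private theorem si_E (z q b j : ℕ) :
    esy (AA z q j) xp (bb b j + 1) ≤ eta b j * ∏ p ∈ AA z q j, (1 - xp p) := by
  refine (esy_block z q j (bb b j + 1)).trans ?_
  have h1 : Real.exp 20 / 2 ^ (bb b j + 1) = eta b j * Real.exp (-20) := by
    unfold eta
    rw [div_mul_eq_mul_div, ← Real.exp_add]
    norm_num
  rw [h1]
  exact mul_le_mul_of_nonneg_left (prod_block z q j) (eta_nonneg b j)

private theorem si_geo (z : ℕ) : ∑ j ∈ range z, (1 / 4 : ℝ) ^ j ≤ 4 / 3 := by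
  have h := geom_sum_eq (show (1 / 4 : ℝ) ≠ 1 by norm_num) z
  rw [h, div_le_iff_of_neg (by norm_num)]
  have : (0 : ℝ) ≤ (1 / 4) ^ z := by positivity
  linarith

private theorem si_sum (z b : ℕ) : ∑ j ∈ range z, eta b j ≤ Real.exp 40 * (1 / 4) ^ b := by
  have h1 : ∀ j ∈ range z, eta b j = Real.exp 40 * (1 / 4) ^ b * (1 / 2) * (1 / 4) ^ j := by
    intro j _
    unfold eta bb
    have h2 : (2 : ℝ) ^ (2 * (b + j) + 1) = 4 ^ b * 4 ^ j * 2 := by
      rw [pow_add, pow_mul, pow_add]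
      norm_num
    rw [h2]
    simp only [one_div, inv_pow]
    field_simp
  rw [sum_congr rfl h1, ← mul_sum]
  have h2 := si_geo z
  have h3 : 0 ≤ Real.exp 40 * (1 / 4 : ℝ) ^ b := by positivity
  have h4 := mul_le_mul_of_nonneg_left h2 (show 0 ≤ Real.exp 40 * (1 / 4 : ℝ) ^ b * (1 / 2) by
    positivity)
  linarith

private theorem si_upexp (z q b : ℕ) :
    Up z q b xp ≤ VV z q * Real.exp (∑ j ∈ range z, eta b j) := by
  have h1 : Up z q b xp ≤ ∏ j ∈ range z, (∏ p ∈ AA z q j, (1 - xp p)) * (1 + eta b j) := by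
    unfold Up
    refine prod_le_prod (fun j _ => ?_) fun j _ => ?_
    · exact (si_bonf (b := b) si_xp j).1.trans (si_bonf si_xp j).2.1
    · have h2 := (si_bonf (z := z) (q := q) (b := b) si_xp j).2.2
      have h3 := si_E z q b j
      linarith
  refine h1.trans ?_
  rw [prod_mul_distrib, ← si_VV, Real.exp_sum]
  refine mul_le_mul_of_nonneg_left ?_ (si_VV0 z q)
  refine prod_le_prod (fun j _ => by linarith [eta_nonneg b j]) fun j _ => ?_
  rw [add_comm]
  exact Real.add_one_le_exp _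

private theorem si_S (z b : ℕ) :
    (∑ j ∈ range z, eta b j) * Real.exp (∑ j ∈ range z, eta b j) ≤
      Real.exp 40 * Real.exp (Real.exp 40) * (1 / 2) ^ b := by
  have h1 := si_sum z b
  have h0 : 0 ≤ ∑ j ∈ range z, eta b j := sum_nonneg fun j _ => eta_nonneg b j
  have h2 : ∑ j ∈ range z, eta b j ≤ Real.exp 40 := by
    have : (1 / 4 : ℝ) ^ b ≤ 1 := pow_le_one₀ (by norm_num) (by norm_num)
    have := mul_le_mul_of_nonneg_left this (Real.exp_pos 40).le
    linarith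
  have h3 : ∑ j ∈ range z, eta b j ≤ Real.exp 40 * (1 / 2) ^ b := by
    refine h1.trans (mul_le_mul_of_nonneg_left ?_ (Real.exp_pos 40).le)
    exact pow_le_pow_left₀ (by norm_num) (by norm_num) b
  calc (∑ j ∈ range z, eta b j) * Real.exp (∑ j ∈ range z, eta b j)
      ≤ (Real.exp 40 * (1 / 2) ^ b) * Real.exp (Real.exp 40) :=
        mul_le_mul h3 (Real.exp_le_exp.2 h2) (Real.exp_pos _).le (by positivity)
    _ = _ := by ring

theorem main_up (z q b : ℕ) :
    VV z q ≤ Up z q b xp ∧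
      Up z q b xp ≤ VV z q * (1 + Real.exp 40 * Real.exp (Real.exp 40) * (1 / 2) ^ b) := by
  constructor
  · rw [si_VV]
    unfold Up
    exact prod_le_prod (fun j _ => (si_bonf (b := b) si_xp j).1)
      fun j _ => (si_bonf si_xp j).2.1
  · refine (si_upexp z q b).trans (mul_le_mul_of_nonneg_left ?_ (si_VV0 z q))
    have h1 := si_S z b
    set S := ∑ j ∈ range z, eta b j with hS
    have h2 : 1 - S ≤ Real.exp (-S) := by linarith [Real.add_one_le_exp (-S)]
    have h3 := mul_le_mul_of_nonneg_right h2 (Real.exp_pos S).le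
    rw [← Real.exp_add, neg_add_cancel, Real.exp_zero] at h3
    linarith

theorem main_lo (z q b : ℕ) :
    VV z q * (1 - Real.exp 40 * Real.exp (Real.exp 40) * (1 / 2) ^ b) ≤ Lo z q b xp := by
  have hM0 : ∀ j, 0 ≤ alt (AA z q j) xp (bb b j) := fun j =>
    (si_bonf (b := b) si_xp j).1.trans (si_bonf si_xp j).2.1
  have h1 : ∑ l ∈ range z, esy (AA z q l) xp (bb b l + 1) *
      ∏ j ∈ (range z).erase l, alt (AA z q j) xp (bb b j) ≤
      (∑ l ∈ range z, eta b l) * Up z q b xp := by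
    rw [sum_mul]
    refine sum_le_sum fun l hl => ?_
    have h2 : Up z q b xp = alt (AA z q l) xp (bb b l) *
        ∏ j ∈ (range z).erase l, alt (AA z q j) xp (bb b j) := by
      unfold Up
      exact (mul_prod_erase (range z) (fun j => alt (AA z q j) xp (bb b j)) hl).symm
    rw [h2, ← mul_assoc]
    refine mul_le_mul_of_nonneg_right ?_ (prod_nonneg fun j _ => hM0 j)
    exact (si_E z q b l).trans
      (mul_le_mul_of_nonneg_left (si_bonf si_xp l).2.1 (eta_nonneg b l))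
  have h2 := si_upexp z q b
  have h3 := (main_up z q b).1
  have h4 := si_S z b
  have h0 : 0 ≤ ∑ j ∈ range z, eta b j := sum_nonneg fun j _ => eta_nonneg b j
  have h5 := mul_le_mul_of_nonneg_left h2 h0
  have h6 := mul_le_mul_of_nonneg_left h4 (si_VV0 z q)
  unfold Lo
  linarith

end Pool.Agent.RHN
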