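import Pool.Agent.RHN.SBlk

/-!
# RHN / SLev: level of the sieve weights and number of admissible sets

PROOFS.  `ad_prod`: for `T ∈ AD`: `∏_{p ∈ T} p = ∏_{j<z} ∏_{p ∈ T ∩ A_j} p ≤ ∏_j (Y z j)^{bb b j}`, and `Y z j ≤ z^{1/2^j}` (`Y_pow`, real powers), so the
product is `≤ z^{∑_{j<z} 2(b+j)/2^j} ≤ z^{4b+4}` (`∑_{j≥0} 2^{-j} = 2`, `∑_{j≥0} j 2^{-j} = 2`; by induction `∑_{j<n} 2(b+j)/2^j ≤ 4b+4`).
(If some `Y z j = 0`, the block `A_j` is empty; `z ≥ 1`.)
`al_prod`: the same with one more prime `≤ Y z l ≤ z`.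
`prod_inj`: `T ↦ ∏ T` is injective on finite sets of primes (`T` = set of prime factors of the product: `Nat.primeFactors_prod`).
`ad_card`, `al_card`: the products of the admissible sets are distinct elements of `[1, z^{4b+4}]`, resp. `[1, z^{4b+5}]`; the sets `AL z q b l`, `l < z`, are
pairwise disjoint (the index `l` is the only one with `|T ∩ A_l| > bb b l`).
-/

set_option autoImplicit false

namespace Pool.Agent.RHN

open Finset

private lemma Y_rpow (z j : ℕ) : (Y z j : ℝ) ≤ (z : ℝ) ^ (1 / (2 : ℝ) ^ j) := by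
  have h : ((Y z j : ℕ) : ℝ) ^ (2 ^ j) ≤ (z : ℝ) := by exact_mod_cast Y_pow z j
  have h2 : ((Y z j : ℝ) ^ (2 ^ j)) ^ (1 / (2 : ℝ) ^ j) ≤ (z : ℝ) ^ (1 / (2 : ℝ) ^ j) :=
    Real.rpow_le_rpow (by positivity) h (by positivity)
  rw [← Real.rpow_natCast, ← Real.rpow_mul (by positivity)] at h2
  have h3 : (((2 ^ j : ℕ) : ℝ)) * (1 / (2 : ℝ) ^ j) = 1 := by
    push_cast
    field_simp
  rw [h3, Real.rpow_one] at h2
  exact h2

private lemma prod_gen {z q : ℕ} (hz : 1 ≤ z) {T : Finset ℕ} (hT : T ⊆ PZ z q) (c : ℕ → ℕ)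
    (hc : ∀ j ∈ range z, (T ∩ AA z q j).card ≤ c j) :
    ((∏ p ∈ T, p : ℕ) : ℝ) ≤ (z : ℝ) ^ (∑ j ∈ range z, (c j : ℝ) / (2 : ℝ) ^ j) := by
  have hz1 : (1 : ℝ) ≤ z := by exact_mod_cast hz
  have hU : T = (range z).biUnion (fun j => T ∩ AA z q j) := by
    rw [← Finset.inter_biUnion, ← PZ_eq]
    exact (Finset.inter_eq_left.mpr hT).symm
  have e : ∏ p ∈ T, p = ∏ j ∈ range z, ∏ p ∈ T ∩ AA z q j, p := by
    conv_lhs => rw [hU]
    rw [Finset.prod_biUnion]
    intro i _ j _ hij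
    exact (AA_disj z q hij).mono Finset.inter_subset_right Finset.inter_subset_right
  rw [e, Nat.cast_prod]
  have hsum : (z : ℝ) ^ (∑ j ∈ range z, (c j : ℝ) / (2 : ℝ) ^ j) =
      ∏ j ∈ range z, (z : ℝ) ^ ((c j : ℝ) / (2 : ℝ) ^ j) :=
    Real.rpow_sum_of_pos (by linarith) _ _
  rw [hsum]
  apply Finset.prod_le_prod (fun _ _ => by positivity)
  intro j hj
  rw [Nat.cast_prod]
  have h1 : ∏ p ∈ T ∩ AA z q j, (p : ℝ) ≤ ∏ p ∈ T ∩ AA z q j, (z : ℝ) ^ (1 / (2 : ℝ) ^ j) := by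
    apply Finset.prod_le_prod (fun _ _ => by positivity)
    intro p hp
    have hp2 := (AA_mem (Finset.mem_inter.mp hp).2).2.1
    have : (p : ℝ) ≤ (Y z j : ℝ) := by exact_mod_cast hp2
    exact this.trans (Y_rpow z j)
  rw [Finset.prod_const] at h1
  refine h1.trans ?_
  rw [← Real.rpow_natCast, ← Real.rpow_mul (by positivity)]
  apply Real.rpow_le_rpow_of_exponent_le hz1
  have h2 : ((T ∩ AA z q j).card : ℝ) ≤ (c j : ℝ) := by exact_mod_cast hc j hj
  rw [one_div, mul_comm, ← div_eq_mul_inv]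
  gcongr

private lemma sum_bb (b n : ℕ) : ∑ j ∈ range n, ((bb b j : ℕ) : ℝ) / (2 : ℝ) ^ j =
    (4 * b + 4) - (4 * b + 4 * n + 4) / (2 : ℝ) ^ n := by
  induction n with
  | zero => simp
  | succ n ih =>
    rw [Finset.sum_range_succ, ih]
    unfold bb
    push_cast
    field_simp
    ring

private lemma sum_bb_le (b n : ℕ) : ∑ j ∈ range n, ((bb b j : ℕ) : ℝ) / (2 : ℝ) ^ j ≤
    ((4 * b + 4 : ℕ) : ℝ) := by
  rw [sum_bb]
  have : (0 : ℝ) ≤ (4 * b + 4 * n + 4) / (2 : ℝ) ^ n := by positivity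
  push_cast
  linarith

theorem ad_prod {z q b : ℕ} (hz : 1 ≤ z) {T : Finset ℕ} (hT : T ∈ AD z q b) :
    ∏ p ∈ T, p ≤ z ^ (4 * b + 4) := by
  have hz1 : (1 : ℝ) ≤ z := by exact_mod_cast hz
  unfold AD at hT
  rw [Finset.mem_filter, Finset.mem_powerset] at hT
  have h := prod_gen hz hT.1 (bb b) hT.2
  have h2 := h.trans (Real.rpow_le_rpow_of_exponent_le hz1 (sum_bb_le b z))
  rw [Real.rpow_natCast] at h2
  exact_mod_cast h2

theorem al_prod {z q b l : ℕ} (hz : 1 ≤ z) (hl : l < z) {T : Finset ℕ} (hT : T ∈ AL z q b l) :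
    ∏ p ∈ T, p ≤ z ^ (4 * b + 5) := by
  have hz1 : (1 : ℝ) ≤ z := by exact_mod_cast hz
  unfold AL at hT
  rw [Finset.mem_filter, Finset.mem_powerset] at hT
  have h := prod_gen hz hT.1 (fun j => bb b j + if j = l then 1 else 0) (by
    intro j hj
    by_cases hjl : j = l
    · subst hjl
      simp [hT.2.1]
    · simpa [hjl] using hT.2.2 j hj hjl)
  have hs : ∑ j ∈ range z, (((bb b j + if j = l then 1 else 0 : ℕ)) : ℝ) / (2 : ℝ) ^ j ≤
      ((4 * b + 5 : ℕ) : ℝ) := by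
    have e : ∑ j ∈ range z, (((bb b j + if j = l then 1 else 0 : ℕ)) : ℝ) / (2 : ℝ) ^ j =
        ∑ j ∈ range z, ((bb b j : ℕ) : ℝ) / (2 : ℝ) ^ j +
        ∑ j ∈ range z, (if j = l then (1 : ℝ) / (2 : ℝ) ^ j else 0) := by
      rw [← Finset.sum_add_distrib]
      apply Finset.sum_congr rfl
      intro j _
      by_cases hjl : j = l
      · simp [hjl, add_div]
      · simp [hjl]
    rw [e, Finset.sum_ite_eq' (range z) l, if_pos (Finset.mem_range.mpr hl)]
    have h1 := sum_bb_le b z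
    have h2 : (1 : ℝ) / (2 : ℝ) ^ l ≤ 1 := by
      rw [div_le_one (by positivity)]
      exact one_le_pow₀ (by norm_num)
    push_cast at h1 ⊢
    linarith
  have h2 := h.trans (Real.rpow_le_rpow_of_exponent_le hz1 hs)
  rw [Real.rpow_natCast] at h2
  exact_mod_cast h2

theorem prod_inj {T T' : Finset ℕ} (hT : ∀ p ∈ T, p.Prime) (hT' : ∀ p ∈ T', p.Prime)
    (h : ∏ p ∈ T, p = ∏ p ∈ T', p) : T = T' := by
  rw [← Nat.primeFactors_prod hT, ← Nat.primeFactors_prod hT', h]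

private lemma prime_of_sub {z q : ℕ} {T : Finset ℕ} (hT : T ⊆ PZ z q) : ∀ p ∈ T, p.Prime := by
  intro p hp
  have := hT hp
  unfold PZ at this
  exact (Finset.mem_filter.mp this).2.1

theorem ad_card {z q b : ℕ} (hz : 1 ≤ z) : (AD z q b).card ≤ z ^ (4 * b + 4) := by
  have hsub : ∀ T ∈ AD z q b, T ⊆ PZ z q := by
    intro T hT
    unfold AD at hT
    rw [Finset.mem_filter, Finset.mem_powerset] at hT
    exact hT.1
  have : (AD z q b).card ≤ (Icc 1 (z ^ (4 * b + 4))).card := by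
    apply Finset.card_le_card_of_injOn (fun T => ∏ p ∈ T, p)
    · intro T hT
      have hT' : T ∈ AD z q b := hT
      rw [Finset.mem_coe, Finset.mem_Icc]
      refine ⟨?_, ad_prod hz hT'⟩
      exact Finset.prod_pos (fun p hp => (prime_of_sub (hsub T hT') p hp).pos)
    · intro T hT T' hT' h
      exact prod_inj (prime_of_sub (hsub T hT)) (prime_of_sub (hsub T' hT')) h
  simpa using this

theorem al_card {z q b : ℕ} (hz : 1 ≤ z) : ∑ l ∈ range z, (AL z q b l).card ≤ z ^ (4 * b + 5) := by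
  have hsub : ∀ l, ∀ T ∈ AL z q b l, T ⊆ PZ z q := by
    intro l T hT
    unfold AL at hT
    rw [Finset.mem_filter, Finset.mem_powerset] at hT
    exact hT.1
  have hd : ∀ i ∈ range z, ∀ j ∈ range z, i ≠ j → Disjoint (AL z q b i) (AL z q b j) := by
    intro i hi j hj hij
    rw [Finset.disjoint_left]
    intro T hT hT'
    unfold AL at hT hT'
    rw [Finset.mem_filter] at hT hT'
    have h1 := hT.2.1
    have h2 := hT'.2.2 i hi hij
    omega
  rw [← Finset.card_biUnion hd]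
  have : ((range z).biUnion (AL z q b)).card ≤ (Icc 1 (z ^ (4 * b + 5))).card := by
    apply Finset.card_le_card_of_injOn (fun T => ∏ p ∈ T, p)
    · intro T hT
      obtain ⟨l, hl, hT'⟩ := Finset.mem_biUnion.mp (Finset.mem_coe.mp hT)
      rw [Finset.mem_coe, Finset.mem_Icc]
      refine ⟨?_, al_prod hz (Finset.mem_range.mp hl) hT'⟩
      exact Finset.prod_pos (fun p hp => (prime_of_sub (hsub l T hT') p hp).pos)
    · intro T hT T' hT' h
      obtain ⟨l, _, hT1⟩ := Finset.mem_biUnion.mp (Finset.mem_coe.mp hT)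
      obtain ⟨l', _, hT2⟩ := Finset.mem_biUnion.mp (Finset.mem_coe.mp hT')
      exact prod_inj (prime_of_sub (hsub l T hT1)) (prime_of_sub (hsub l' T' hT2)) h
  simpa using this

end Pool.Agent.RHN
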