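import Pool.Agent.RHN.Defs

/-!
# RHN / SVv: upper bound for the sieve product

PROOF.  `VV z q = ∏_{p ≤ z} (1 - 1/p) · ∏_{p ≤ z, p ∣ q} (1 - 1/p)^{-1}`.
`∏_{p ≤ z} (1 - 1/p)^{-1} ≥ ∑_{n ≤ z} 1/n ≥ log z`: every `n ≤ z` is `z`-smooth (Mathlib: Euler products over `Nat.smoothNumbers`, for example
`EulerProduct.summable_and_hasSum_smoothNumbers_prod_primesBelow_geometric` or `..._tsum`, applied to the completely multiplicative function `n ↦ 1/n`; or by hand:
`∏_{p ≤ z} ∑_{k ≤ K} p^{-k}` expands into a sum over `z`-smooth numbers); `harmonic` and `log_add_one_le_harmonic` for the lower bound `log (z+1)`.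
`∏_{p ≤ z, p ∣ q} (1 - 1/p)^{-1} ≤ ∏_{p ∣ q} (1 - 1/p)^{-1} = q/φ(q)` (`Nat.totient_eq_mul_prod_factors`).
-/

set_option autoImplicit false

namespace Pool.Agent.RHN

open Finset

private noncomputable def rcp : ℕ →* ℝ where
  toFun n := ((n : ℕ) : ℝ)⁻¹
  map_one' := by simp
  map_mul' a b := by
    push_cast
    rw [mul_inv]

private theorem log_le_prod {z : ℕ} (hz : 2 ≤ z) :
    Real.log z ≤ ∏ p ∈ (Icc 1 z).filter Nat.Prime, (1 - 1 / (p : ℝ))⁻¹ := by
  classical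
  have h1 : ∀ {p : ℕ}, p.Prime → ‖rcp p‖ < 1 := by
    intro p hp
    have h2 : (1 : ℝ) < p := by exact_mod_cast hp.one_lt
    change ‖((p : ℕ) : ℝ)⁻¹‖ < 1
    rw [norm_inv, Real.norm_of_nonneg (by linarith)]
    exact inv_lt_one_of_one_lt₀ h2
  have h2 := (EulerProduct.summable_and_hasSum_smoothNumbers_prod_primesBelow_geometric h1
    (z + 1)).2
  have h3 : ∏ p ∈ (z + 1).primesBelow, (1 - rcp p)⁻¹ =
      ∏ p ∈ (Icc 1 z).filter Nat.Prime, (1 - 1 / (p : ℝ))⁻¹ := by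
    refine Finset.prod_congr ?_ ?_
    · ext p
      rw [Nat.mem_primesBelow, Finset.mem_filter, Finset.mem_Icc]
      constructor
      · rintro ⟨h4, h5⟩
        exact ⟨⟨h5.one_lt.le, by omega⟩, h5⟩
      · rintro ⟨⟨_, h4⟩, h5⟩
        exact ⟨by omega, h5⟩
    · intro p _
      rw [one_div]
      rfl
  rw [h3] at h2
  have h4 := sum_le_hasSum ((Icc 1 z).subtype (· ∈ (z + 1).smoothNumbers))
    (fun i _ => by
      change 0 ≤ (((i : ℕ) : ℝ))⁻¹
      positivity) h2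
  have h5 : ∑ i ∈ (Icc 1 z).subtype (· ∈ (z + 1).smoothNumbers), rcp (i : ℕ) =
      ∑ i ∈ Icc 1 z, rcp i := by
    refine Finset.sum_subtype_of_mem (fun i => rcp i) ?_
    intro x hx
    rw [Finset.mem_Icc] at hx
    exact Nat.mem_smoothNumbers_of_lt (by omega) (by omega)
  rw [h5] at h4
  refine le_trans ?_ h4
  have h6 := log_add_one_le_harmonic z
  rw [harmonic_eq_sum_Icc] at h6
  have h7 : ((∑ i ∈ Icc 1 z, ((i : ℚ))⁻¹ : ℚ) : ℝ) = ∑ i ∈ Icc 1 z, rcp i := by
    push_cast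
    rfl
  rw [h7] at h6
  refine le_trans (Real.log_le_log (by positivity) ?_) h6
  push_cast
  linarith

private theorem one_sub_pos {p : ℕ} (hp : p.Prime) : (0 : ℝ) < 1 - 1 / (p : ℝ) := by
  have h2 : (1 : ℝ) < p := by exact_mod_cast hp.one_lt
  rw [sub_pos, div_lt_one (by linarith)]
  exact h2

private theorem tot_le (z : ℕ) {q : ℕ} (hq : 1 ≤ q) :
    (q.totient : ℝ) ≤ q * ∏ p ∈ (Icc 1 z).filter (fun p => p.Prime ∧ p ∣ q), (1 - 1 / (p : ℝ)) := by
  have h1 : (q.totient : ℝ) = q * ∏ p ∈ q.primeFactors, (1 - 1 / (p : ℝ)) := by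
    have h2 := Nat.totient_eq_mul_prod_factors q
    have h3 : ((q.totient : ℚ) : ℝ) =
        ((q * ∏ p ∈ q.primeFactors, (1 - (p : ℚ)⁻¹) : ℚ) : ℝ) := by rw [h2]
    push_cast at h3
    rw [h3]
    simp only [one_div]
  rw [h1]
  refine mul_le_mul_of_nonneg_left ?_ (Nat.cast_nonneg q)
  refine Finset.prod_le_prod_of_subset_of_le_one ?_ ?_ ?_
  · intro p hp
    rw [Finset.mem_filter] at hp
    exact Nat.mem_primeFactors.2 ⟨hp.2.1, hp.2.2, by omega⟩
  · intro p hp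
    exact (one_sub_pos (Nat.prime_of_mem_primeFactors hp)).le
  · intro p hp _
    have : 0 ≤ 1 / (p : ℝ) := by positivity
    linarith

theorem VV_le {z q : ℕ} (hz : 2 ≤ z) (hq : 1 ≤ q) :
    0 < VV z q ∧ VV z q / q ≤ 1 / ((q.totient : ℝ) * Real.log z) := by
  classical
  have hV : 0 < VV z q := by
    unfold VV
    refine Finset.prod_pos fun p hp => ?_
    rw [Finset.mem_filter] at hp
    exact one_sub_pos hp.2.1
  refine ⟨hV, ?_⟩
  obtain ⟨W, hW⟩ : ∃ W, W = ∏ p ∈ (Icc 1 z).filter (fun p => p.Prime ∧ p ∣ q),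
    (1 - 1 / (p : ℝ)) := ⟨_, rfl⟩
  have hW0 : 0 < W := by
    rw [hW]
    refine Finset.prod_pos fun p hp => ?_
    rw [Finset.mem_filter] at hp
    exact one_sub_pos hp.2.1
  have h1 : VV z q * W = ∏ p ∈ (Icc 1 z).filter Nat.Prime, (1 - 1 / (p : ℝ)) := by
    have h2 := Finset.prod_filter_mul_prod_filter_not ((Icc 1 z).filter Nat.Prime)
      (fun p => p ∣ q) (fun p => (1 - 1 / (p : ℝ)))
    rw [Finset.filter_filter, Finset.filter_filter] at h2
    rw [← h2, hW, mul_comm]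
    rfl
  have h2 := log_le_prod hz
  rw [Finset.prod_inv_distrib, ← h1] at h2
  have hlog : 0 < Real.log z := Real.log_pos (by exact_mod_cast (show 1 < z by omega))
  have h3 := tot_le z hq
  rw [← hW] at h3
  have hq0 : (0 : ℝ) < q := by exact_mod_cast (show 0 < q by omega)
  have ht : (0 : ℝ) < q.totient := by exact_mod_cast Nat.totient_pos.2 (by omega)
  have h4 : Real.log z * (VV z q * W) ≤ 1 := by
    rw [← le_div_iff₀ (mul_pos hV hW0), one_div]
    exact h2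
  rw [div_le_div_iff₀ hq0 (mul_pos ht hlog), one_mul]
  calc VV z q * (q.totient * Real.log z) ≤ VV z q * ((q * W) * Real.log z) := by gcongr
    _ = q * (Real.log z * (VV z q * W)) := by ring
    _ ≤ q * 1 := by gcongr
    _ = q := mul_one _

end Pool.Agent.RHN
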