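import Pool.Agent.RHN.SExp
import Pool.Agent.RHN.SAp
import Pool.Agent.RHN.SVv
import Pool.Agent.RHN.SIneq
import Pool.Agent.RHN.SLev

/-!
# RHN / SFl: the fundamental lemma of the sieve in arithmetic progressions

PROOFS.  `fl_ap`: for `n ≡ c (q)`, `(c, q) = 1`, no prime divisor of `q` divides `n`, so for `n ≥ 1`: `Rough z n` iff no `p ∈ PZ z q` divides `n`.  So the
count is between `∑ Lo` and `∑ Up` over the `n` (`up_ge`, `lo_le`), `up_expand`, `lo_expand`, `ap_sum`, `ad_card`, `al_card`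
(`z^{4b+4} + z^{4b+5} ≤ z^{4b+8}`, `z ≥ 2`), `main_up`, `main_lo`.  `C = exp 40 · exp (exp 40)`.
`fl_up`: `lam d = ∑_{T ∈ AD z 1 b} (if ∏ T = d then (-1)^|T| else 0)`; at most one `T` (`prod_inj`), so `|lam d| ≤ 1`; `lam d ≠ 0` implies
`1 ≤ d ≤ z^{4b+4}`.  `∑_{d ∣ n} lam d = Up z 1 b (xd n)` for `n ≥ 1` (`up_expand`).  `∑_{n ≤ x} (Up - 1_Rough) ≤ ∑_{n ≤ x} (Up - Lo) ≤
x (main_up - main_lo) + 2 z^{4b+4} + z^{4b+5}` and `VV z 1 ≤ 1/log z`.
-/

set_option autoImplicit false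

namespace Pool.Agent.RHN

open Finset

private theorem PZ_mem {z q p : ℕ} : p ∈ PZ z q ↔ p.Prime ∧ p ≤ z ∧ ¬ p ∣ q := by
  unfold PZ
  rw [mem_filter, mem_Icc]
  constructor
  · rintro ⟨⟨-, h2⟩, h3, h4⟩
    exact ⟨h3, h2, h4⟩
  · rintro ⟨h1, h2, h3⟩
    exact ⟨⟨h1.one_le, h2⟩, h1, h3⟩

private theorem ad_pr {z q b : ℕ} {T : Finset ℕ} (hT : T ∈ AD z q b) :
    ∀ p ∈ T, p.Prime ∧ ¬ p ∣ q := by
  intro p hp
  unfold AD at hT
  rw [mem_filter, mem_powerset] at hT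
  have := PZ_mem.1 (hT.1 hp)
  exact ⟨this.1, this.2.2⟩

private theorem al_pr {z q b l : ℕ} {T : Finset ℕ} (hT : T ∈ AL z q b l) :
    ∀ p ∈ T, p.Prime ∧ ¬ p ∣ q := by
  intro p hp
  unfold AL at hT
  rw [mem_filter, mem_powerset] at hT
  have := PZ_mem.1 (hT.1 hp)
  exact ⟨this.1, this.2.2⟩

private theorem abs_sign (T : Finset ℕ) : |(-1 : ℝ) ^ T.card| ≤ 1 := by
  rw [abs_pow, abs_neg, abs_one, one_pow]

private theorem sum_Up {z b q N h c : ℕ} (hz : 1 ≤ z) (hq : 1 ≤ q) :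
    |∑ n ∈ (Ioc N (N + h)).filter (fun n => n ≡ c [MOD q]), Up z q b (xd n) -
      (h : ℝ) / q * Up z q b xp| ≤ (z : ℝ) ^ (4 * b + 4) := by
  have h1 := ap_sum (N := N) (h := h) (c := c) hq (AD z q b) (fun T hT => ad_pr hT)
    (fun T => (-1 : ℝ) ^ T.card) abs_sign
  have h2 : ((AD z q b).card : ℝ) ≤ (z : ℝ) ^ (4 * b + 4) := by
    exact_mod_cast ad_card (q := q) (b := b) hz
  simp only [up_expand]
  exact h1.trans h2

private theorem sum_Lo {z b q N h c : ℕ} (hz : 1 ≤ z) (hq : 1 ≤ q) :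
    |∑ n ∈ (Ioc N (N + h)).filter (fun n => n ≡ c [MOD q]), Lo z q b (xd n) -
      (h : ℝ) / q * Lo z q b xp| ≤ (z : ℝ) ^ (4 * b + 4) + (z : ℝ) ^ (4 * b + 5) := by
  have h1 := ap_sum (N := N) (h := h) (c := c) hq (AD z q b) (fun T hT => ad_pr hT)
    (fun T => (-1 : ℝ) ^ T.card) abs_sign
  have h2 : ((AD z q b).card : ℝ) ≤ (z : ℝ) ^ (4 * b + 4) := by
    exact_mod_cast ad_card (q := q) (b := b) hz
  have h3 : ∀ l ∈ range z, |∑ n ∈ (Ioc N (N + h)).filter (fun n => n ≡ c [MOD q]),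
      ∑ T ∈ AL z q b l, (-1 : ℝ) ^ T.card * ∏ p ∈ T, xd n p -
      (h : ℝ) / q * ∑ T ∈ AL z q b l, (-1 : ℝ) ^ T.card * ∏ p ∈ T, xp p| ≤
      ((AL z q b l).card : ℝ) := fun l _ =>
    ap_sum (N := N) (h := h) (c := c) hq (AL z q b l) (fun T hT => al_pr hT)
    (fun T => (-1 : ℝ) ^ T.card) abs_sign
  have h4 : ∑ l ∈ range z, ((AL z q b l).card : ℝ) ≤ (z : ℝ) ^ (4 * b + 5) := by
    exact_mod_cast al_card (q := q) (b := b) hz
  simp only [lo_expand]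
  rw [sum_add_distrib, sum_comm (s := (Ioc N (N + h)).filter (fun n => n ≡ c [MOD q]))
    (t := range z), mul_add, add_sub_add_comm, mul_sum (range z), ← sum_sub_distrib]
  refine (abs_add_le _ _).trans (add_le_add (h1.trans h2) ?_)
  exact (abs_sum_le_sum_abs _ _).trans ((sum_le_sum h3).trans h4)

private theorem rough_iff {z q n : ℕ} (hn : 1 ≤ n) (hq : Nat.Coprime n q) :
    (∀ p ∈ PZ z q, ¬ p ∣ n) ↔ Rough z n := by
  constructor
  · intro h
    refine ⟨hn, fun p hp hpz hd => ?_⟩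
    refine h p (PZ_mem.2 ⟨hp, hpz, fun hpq => ?_⟩) hd
    have h2 := Nat.dvd_gcd hd hpq
    rw [Nat.Coprime] at hq
    rw [hq] at h2
    exact hp.one_lt.ne' (Nat.dvd_one.1 h2)
  · intro h p hp
    have := PZ_mem.1 hp
    exact h.2 p this.1 this.2.1

private theorem z_pow {z b : ℕ} (hz : 2 ≤ z) :
    (z : ℝ) ^ (4 * b + 4) + ((z : ℝ) ^ (4 * b + 4) + (z : ℝ) ^ (4 * b + 5)) ≤
      (z : ℝ) ^ (4 * b + 8) := by
  have hz2 : (2 : ℝ) ≤ z := by exact_mod_cast hz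
  have h1 : (0 : ℝ) ≤ (z : ℝ) ^ (4 * b + 4) := by positivity
  have e1 : (z : ℝ) ^ (4 * b + 5) = (z : ℝ) ^ (4 * b + 4) * z := by ring
  have e2 : (z : ℝ) ^ (4 * b + 8) = (z : ℝ) ^ (4 * b + 4) * z ^ 4 := by ring
  rw [e1, e2]
  have h2 : (2 : ℝ) + z ≤ z ^ 2 := by nlinarith
  have h3 : (z : ℝ) ^ 2 ≤ z ^ 4 := pow_le_pow_right₀ (by linarith) (by norm_num)
  calc (z : ℝ) ^ (4 * b + 4) + ((z : ℝ) ^ (4 * b + 4) + (z : ℝ) ^ (4 * b + 4) * z)
      = (z : ℝ) ^ (4 * b + 4) * (2 + z) := by ring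
    _ ≤ (z : ℝ) ^ (4 * b + 4) * z ^ 4 := mul_le_mul_of_nonneg_left (h2.trans h3) h1

private theorem CC_pos : (1 : ℝ) ≤ Real.exp 40 * Real.exp (Real.exp 40) := by
  rw [← Real.exp_add]
  exact Real.one_le_exp (by positivity)

open Classical in
theorem fl_ap : ∃ C : ℝ, 1 ≤ C ∧ ∀ z b q N h c : ℕ, 2 ≤ z → 1 ≤ b → 1 ≤ q → Nat.Coprime c q →
    |(((Ioc N (N + h)).filter (fun n => Rough z n ∧ n ≡ c [MOD q])).card : ℝ) -
      (h : ℝ) / q * VV z q| ≤ C * (1 / 2) ^ b * ((h : ℝ) / q * VV z q) + (z : ℝ) ^ (4 * b + 8) := by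
  refine ⟨Real.exp 40 * Real.exp (Real.exp 40), CC_pos, ?_⟩
  intro z b q N h c hz hb hq hc
  have hz1 : 1 ≤ z := by omega
  have hcount : (((Ioc N (N + h)).filter (fun n => Rough z n ∧ n ≡ c [MOD q])).card : ℝ) =
      ∑ n ∈ (Ioc N (N + h)).filter (fun n => n ≡ c [MOD q]),
        (if ∀ p ∈ PZ z q, ¬ p ∣ n then (1 : ℝ) else 0) := by
    have h1 : (Ioc N (N + h)).filter (fun n => Rough z n ∧ n ≡ c [MOD q]) =
        ((Ioc N (N + h)).filter (fun n => n ≡ c [MOD q])).filter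
          (fun n => ∀ p ∈ PZ z q, ¬ p ∣ n) := by
      ext n
      simp only [mem_filter, mem_Ioc]
      constructor
      · rintro ⟨h2, h3, h4⟩
        have h5 : Nat.Coprime n q := by
          rw [Nat.Coprime, h4.gcd_eq]
          exact hc
        exact ⟨⟨h2, h4⟩, (rough_iff (by omega) h5).2 h3⟩
      · rintro ⟨⟨h2, h4⟩, h3⟩
        have h5 : Nat.Coprime n q := by
          rw [Nat.Coprime, h4.gcd_eq]
          exact hc
        exact ⟨h2, (rough_iff (by omega) h5).1 h3, h4⟩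
    rw [h1, card_filter, Nat.cast_sum]
    refine sum_congr rfl fun n _ => ?_
    split_ifs <;> simp
  rw [hcount]
  have hU := (abs_le.1 (sum_Up (z := z) (b := b) (q := q) (N := N) (h := h) (c := c) hz1 hq)).2
  have hL := (abs_le.1 (sum_Lo (z := z) (b := b) (q := q) (N := N) (h := h) (c := c) hz1 hq)).1
  have h1 : ∑ n ∈ (Ioc N (N + h)).filter (fun n => n ≡ c [MOD q]),
        (if ∀ p ∈ PZ z q, ¬ p ∣ n then (1 : ℝ) else 0) ≤
      ∑ n ∈ (Ioc N (N + h)).filter (fun n => n ≡ c [MOD q]), Up z q b (xd n) :=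
    sum_le_sum fun n _ => up_ge z q b n
  have h2 : ∑ n ∈ (Ioc N (N + h)).filter (fun n => n ≡ c [MOD q]), Lo z q b (xd n) ≤
      ∑ n ∈ (Ioc N (N + h)).filter (fun n => n ≡ c [MOD q]),
        (if ∀ p ∈ PZ z q, ¬ p ∣ n then (1 : ℝ) else 0) :=
    sum_le_sum fun n _ => lo_le z q b n
  have hhq : (0 : ℝ) ≤ (h : ℝ) / q := by positivity
  have h3 := mul_le_mul_of_nonneg_left (main_up z q b).2 hhq
  have h4 := mul_le_mul_of_nonneg_left (main_lo z q b) hhq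
  have h5 := z_pow (b := b) hz
  have h6 : (0 : ℝ) ≤ (z : ℝ) ^ (4 * b + 4) := by positivity
  have h7 : (0 : ℝ) ≤ (z : ℝ) ^ (4 * b + 5) := by positivity
  rw [abs_le]
  constructor
  · linarith
  · linarith

open Classical in
theorem fl_up : ∃ C : ℝ, 1 ≤ C ∧ ∀ z b : ℕ, 2 ≤ z → 1 ≤ b → ∃ lam : ℕ → ℝ, (∀ d, |lam d| ≤ 1) ∧
    (∀ d, lam d ≠ 0 → 1 ≤ d ∧ d ≤ z ^ (4 * b + 4)) ∧
    (∀ n, 1 ≤ n → (if Rough z n then (1 : ℝ) else 0) ≤ ∑ d ∈ n.divisors, lam d) ∧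
    ∀ x : ℕ, ∑ n ∈ Icc 1 x, (∑ d ∈ n.divisors, lam d - (if Rough z n then (1 : ℝ) else 0)) ≤
      C * (1 / 2) ^ b * (x / Real.log z) + (z : ℝ) ^ (4 * b + 8) := by
  refine ⟨2 * (Real.exp 40 * Real.exp (Real.exp 40)), by linarith [CC_pos], ?_⟩
  intro z b hz hb
  have hz1 : 1 ≤ z := by omega
  set lam : ℕ → ℝ := fun d =>
    ∑ T ∈ AD z 1 b, (if ∏ p ∈ T, p = d then (-1 : ℝ) ^ T.card else 0) with hlam
  have huniq : ∀ T ∈ AD z 1 b, lam (∏ p ∈ T, p) = (-1 : ℝ) ^ T.card := by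
    intro T hT
    rw [hlam]
    simp only
    rw [sum_eq_single_of_mem T hT, if_pos rfl]
    intro T' hT' hne
    rw [if_neg]
    intro h
    exact hne (prod_inj (fun p hp => (ad_pr hT' p hp).1) (fun p hp => (ad_pr hT p hp).1) h)
  have hsupp : ∀ d, lam d ≠ 0 → ∃ T ∈ AD z 1 b, ∏ p ∈ T, p = d := by
    intro d hd
    rw [hlam] at hd
    obtain ⟨T, hT, hne⟩ := exists_ne_zero_of_sum_ne_zero hd
    refine ⟨T, hT, ?_⟩
    by_contra h
    rw [if_neg h] at hne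
    exact hne rfl
  have hdiv : ∀ n, 1 ≤ n → ∑ d ∈ n.divisors, lam d = Up z 1 b (xd n) := by
    intro n hn
    rw [hlam, up_expand]
    simp only
    rw [sum_comm]
    refine sum_congr rfl fun T hT => ?_
    rw [sum_ite_eq]
    have hprod : ∏ p ∈ T, xd n p = if ∏ p ∈ T, p ∣ n then (1 : ℝ) else 0 := by
      split_ifs with h
      · refine prod_eq_one fun p hp => ?_
        unfold xd
        rw [if_pos ((dvd_prod_of_mem (fun p => p) hp).trans h)]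
      · have h2 : ∃ p ∈ T, ¬ p ∣ n := by
          by_contra h3
          push Not at h3
          exact h (prod_primes_dvd n (fun p hp => ((ad_pr hT p hp).1).prime) h3)
        obtain ⟨p, hp, hd⟩ := h2
        refine prod_eq_zero hp ?_
        unfold xd
        rw [if_neg hd]
    rw [hprod]
    by_cases h : ∏ p ∈ T, p ∣ n
    · rw [if_pos h, if_pos (Nat.mem_divisors.2 ⟨h, by omega⟩), mul_one]
    · rw [if_neg h, if_neg (fun h' => h (Nat.mem_divisors.1 h').1), mul_zero]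
  have hind : ∀ n, 1 ≤ n → (if Rough z n then (1 : ℝ) else 0) =
      (if ∀ p ∈ PZ z 1, ¬ p ∣ n then (1 : ℝ) else 0) := by
    intro n hn
    have := rough_iff (z := z) hn (Nat.coprime_one_right n)
    by_cases h : Rough z n
    · rw [if_pos h, if_pos (this.2 h)]
    · rw [if_neg h, if_neg (fun h' => h (this.1 h'))]
  refine ⟨lam, ?_, ?_, ?_, ?_⟩
  · intro d
    by_cases hd : lam d = 0
    · rw [hd, abs_zero]
      exact zero_le_one
    · obtain ⟨T, hT, rfl⟩ := hsupp d hd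
      rw [huniq T hT]
      exact abs_sign T
  · intro d hd
    obtain ⟨T, hT, rfl⟩ := hsupp d hd
    exact ⟨Nat.succ_le_of_lt (prod_pos fun p hp => ((ad_pr hT p hp).1).pos), ad_prod hz1 hT⟩
  · intro n hn
    rw [hdiv n hn, hind n hn]
    exact up_ge z 1 b n
  · intro x
    have hIcc : Icc 1 x = (Ioc 0 (0 + x)).filter (fun n => n ≡ 0 [MOD 1]) := by
      ext n
      simp only [mem_filter, mem_Ioc, mem_Icc, Nat.modEq_one, and_true]
      omega
    have h0 : ∑ n ∈ Icc 1 x, (∑ d ∈ n.divisors, lam d - (if Rough z n then (1 : ℝ) else 0)) ≤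
        ∑ n ∈ Icc 1 x, Up z 1 b (xd n) - ∑ n ∈ Icc 1 x, Lo z 1 b (xd n) := by
      rw [← sum_sub_distrib]
      refine sum_le_sum fun n hn => ?_
      have hn1 := (mem_Icc.1 hn).1
      rw [hdiv n hn1, hind n hn1]
      exact sub_le_sub_left (lo_le z 1 b n) _
    have hU := (abs_le.1 (sum_Up (z := z) (b := b) (q := 1) (N := 0) (h := x) (c := 0) hz1
      le_rfl)).2
    have hL := (abs_le.1 (sum_Lo (z := z) (b := b) (q := 1) (N := 0) (h := x) (c := 0) hz1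
      le_rfl)).1
    rw [← hIcc, Nat.cast_one, div_one] at hU hL
    have hx0 : (0 : ℝ) ≤ x := Nat.cast_nonneg x
    have h3 := mul_le_mul_of_nonneg_left (main_up z 1 b).2 hx0
    have h4 := mul_le_mul_of_nonneg_left (main_lo z 1 b) hx0
    have h5 := z_pow (b := b) hz
    have h6 := (VV_le hz (le_refl 1)).2
    rw [Nat.cast_one, div_one, Nat.totient_one, Nat.cast_one, one_mul] at h6
    have h7 : 0 ≤ 2 * (Real.exp 40 * Real.exp (Real.exp 40)) * (1 / 2) ^ b * (x : ℝ) := by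
      positivity
    have h8 := mul_le_mul_of_nonneg_left h6 h7
    have h9 : 2 * (Real.exp 40 * Real.exp (Real.exp 40)) * (1 / 2) ^ b * (x : ℝ) *
        (1 / Real.log z) = 2 * (Real.exp 40 * Real.exp (Real.exp 40)) * (1 / 2) ^ b *
        (x / Real.log z) := by ring
    rw [h9] at h8
    linarith

end Pool.Agent.RHN
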