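import Pool.Agent.RHN.Rhin

/-!
# RHN / EWin: primes in windows `(t, Λ t]`

PROOFS.  `pwin`: `N(x) = #{p ≤ x : p ≡ b (V)}`; `Helper6` `pi_ap_real` (for `(b : ZMod V)`, a unit): `N(x) log x/x → 1/φ(V)` as `x → ∞` (real `x`).  The count is
`N(Λ t) - N(t)`; `N(Λt) log t/t = Λ · N(Λt) log(Λt)/(Λt) · log t/log(Λt) → Λ/φ(V)`.  (`p ≡ b [MOD V] ↔ (p : ZMod V) = b`: `ZMod.natCast_eq_natCast_iff`.)
`rwin`: difference of the sums over `p ≤ ⌊Λ t⌋₊` and `p ≤ ⌊t⌋₊`; `rhin`: both are `o(t/log t)`: for `ε' > 0` and large `t` the norms are at most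
`ε' ⌊Λt⌋/log ⌊Λt⌋ ≤ ε' · 2Λ t/log t`.
-/

set_option autoImplicit false

namespace Pool.Agent.RHN

open Finset Filter Topology Polynomial

/-- primes of the window `(t, Λ t]` in the class `b` modulo `V` -/
noncomputable def WP (V b : ℕ) (Λ t : ℝ) : Finset ℕ :=
  (Ioc ⌊t⌋₊ ⌊Λ * t⌋₊).filter (fun p => p.Prime ∧ p ≡ b [MOD V])

theorem wp_sum {M : Type} [AddCommGroup M] (V b : ℕ) {Λ t : ℝ} (hΛ : 1 < Λ) (ht : 0 ≤ t)
    (f : ℕ → M) :
    ∑ p ∈ WP V b Λ t, f p =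
      ∑ p ∈ (Icc 1 ⌊Λ * t⌋₊).filter (fun p => p.Prime ∧ p ≡ b [MOD V]), f p -
      ∑ p ∈ (Icc 1 ⌊t⌋₊).filter (fun p => p.Prime ∧ p ≡ b [MOD V]), f p := by
  have hle : ⌊t⌋₊ ≤ ⌊Λ * t⌋₊ := Nat.floor_le_floor (by nlinarith)
  rw [eq_sub_iff_add_eq]
  unfold WP
  rw [← Finset.sum_union]
  · congr 1
    ext p
    simp only [mem_union, mem_filter, mem_Ioc, mem_Icc]
    constructor
    · rintro (⟨⟨h1, h2⟩, h3⟩ | ⟨⟨h1, h2⟩, h3⟩)
      · exact ⟨⟨by omega, h2⟩, h3⟩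
      · exact ⟨⟨h1, by omega⟩, h3⟩
    · rintro ⟨⟨h1, h2⟩, h3⟩
      rcases Nat.lt_or_ge ⌊t⌋₊ p with h | h
      · exact Or.inl ⟨⟨h, h2⟩, h3⟩
      · exact Or.inr ⟨⟨h1, h⟩, h3⟩
  · rw [Finset.disjoint_left]
    intro p hp hq
    simp only [mem_filter, mem_Ioc, mem_Icc] at hp hq
    omega

theorem log_ratio {Λ : ℝ} (hΛ : 1 < Λ) :
    Tendsto (fun t : ℝ => Real.log t / Real.log (Λ * t)) atTop (𝓝 1) := by
  have h1 : Tendsto (fun t : ℝ => (Real.log Λ / Real.log t + 1)⁻¹) atTop (𝓝 1) := by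
    have h2 : Tendsto (fun t : ℝ => Real.log Λ / Real.log t) atTop (𝓝 0) :=
      Tendsto.div_atTop tendsto_const_nhds Real.tendsto_log_atTop
    have h3 := (h2.add_const 1).inv₀ (by norm_num)
    simpa using h3
  refine h1.congr' ?_
  filter_upwards [eventually_gt_atTop 1] with t ht
  have h4 : 0 < Real.log t := Real.log_pos ht
  have h5 : 0 < Real.log Λ := Real.log_pos hΛ
  rw [Real.log_mul (by linarith) (by linarith)]
  have h6 : Real.log Λ / Real.log t + 1 = (Real.log Λ + Real.log t) / Real.log t := by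
    field_simp
  rw [h6, inv_div]

theorem pwin {V b : ℕ} (hV : 1 ≤ V) (hb : Nat.Coprime b V) {Λ : ℝ} (hΛ : 1 < Λ) :
    Tendsto (fun t : ℝ => ((WP V b Λ t).card : ℝ) * (Real.log t / t)) atTop
      (𝓝 ((Λ - 1) / (V.totient : ℝ))) := by
  have : NeZero V := ⟨by omega⟩
  obtain ⟨N, hN⟩ : ∃ N : ℝ → ℝ, N = fun x : ℝ => (((Icc 1 ⌊x⌋₊).filter
      (fun p : ℕ => p.Prime ∧ p ≡ b [MOD V])).card : ℝ) := ⟨_, rfl⟩
  have hlim : Tendsto (fun x : ℝ => N x * (Real.log x / x)) atTop (𝓝 (1 / (V.totient : ℝ))) := by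
    have h := Pool.Agent.Helper6.pi_ap_real (q := V) (a := (b : ZMod V))
      ((ZMod.isUnit_iff_coprime b V).mpr hb)
    refine h.congr ?_
    intro x
    rw [hN]
    simp only [ZMod.natCast_eq_natCast_iff]
    rw [mul_div_assoc]
  have hscale : Tendsto (fun t : ℝ => Λ * t) atTop atTop :=
    Tendsto.const_mul_atTop (by linarith) tendsto_id
  have h1 : Tendsto (fun t : ℝ => N (Λ * t) * (Real.log t / t)) atTop
      (𝓝 (1 / (V.totient : ℝ) * (Λ * 1))) := by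
    have h2 := (hlim.comp hscale).mul ((log_ratio hΛ).const_mul Λ)
    refine h2.congr' ?_
    filter_upwards [eventually_gt_atTop 1] with t ht
    have h3 : 0 < Real.log (Λ * t) := Real.log_pos (by nlinarith)
    have h4 : (0 : ℝ) < t := by linarith
    have h5 : (0 : ℝ) < Λ := by linarith
    simp only [Function.comp_apply]
    field_simp
  have h6 := h1.sub hlim
  have h7 : 1 / (V.totient : ℝ) * (Λ * 1) - 1 / (V.totient : ℝ) = (Λ - 1) / (V.totient : ℝ) := by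
    ring
  rw [h7] at h6
  refine h6.congr' ?_
  filter_upwards [eventually_ge_atTop 0] with t ht
  have h8 : ((WP V b Λ t).card : ℝ) = N (Λ * t) - N t := by
    have h9 := wp_sum (M := ℝ) V b hΛ ht (fun _ => 1)
    simp only [sum_const, nsmul_eq_mul, mul_one] at h9
    rw [hN]
    exact h9
  rw [h8]
  ring

theorem small_floor {R : ℕ → ℝ} (hR0 : ∀ n, 0 ≤ R n)
    (hR : ∀ ε : ℝ, 0 < ε → ∃ x₀ : ℕ, ∀ x : ℕ, x₀ ≤ x → R x ≤ ε * x / Real.log x)
    {c : ℝ} (hc : 1 ≤ c) :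
    Tendsto (fun t : ℝ => R ⌊c * t⌋₊ * (Real.log t / t)) atTop (𝓝 0) := by
  rw [Metric.tendsto_atTop]
  intro ε hε
  have hc0 : 0 < c := by linarith
  obtain ⟨x₀, hx₀⟩ := hR (ε / (4 * c)) (by positivity)
  refine ⟨max 4 (x₀ + 1), ?_⟩
  intro t ht
  have ht4 : (4 : ℝ) ≤ t := le_trans (le_max_left _ _) ht
  have htx : (x₀ : ℝ) + 1 ≤ t := le_trans (le_max_right _ _) ht
  have ht0 : (0 : ℝ) < t := by linarith
  have hct : t ≤ c * t := by nlinarith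
  have hxle : (⌊c * t⌋₊ : ℝ) ≤ c * t := Nat.floor_le (by positivity)
  have hxge : c * t - 1 < (⌊c * t⌋₊ : ℝ) := Nat.sub_one_lt_floor _
  have hxx : x₀ ≤ ⌊c * t⌋₊ := by
    apply Nat.le_floor
    linarith
  have h1 := hx₀ _ hxx
  have hsq : Real.sqrt t ≤ (⌊c * t⌋₊ : ℝ) := by
    have h2 : 2 ≤ Real.sqrt t := by
      rw [show (2 : ℝ) = Real.sqrt 4 by
        rw [show (4 : ℝ) = 2 ^ 2 by norm_num, Real.sqrt_sq (by norm_num)]]
      exact Real.sqrt_le_sqrt ht4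
    have h3 : Real.sqrt t * Real.sqrt t = t := Real.mul_self_sqrt ht0.le
    nlinarith
  have hlog : Real.log t / 2 ≤ Real.log (⌊c * t⌋₊ : ℝ) := by
    have h4 : Real.log (Real.sqrt t) = Real.log t / 2 := Real.log_sqrt ht0.le
    rw [← h4]
    exact Real.log_le_log (Real.sqrt_pos.mpr ht0) hsq
  have hlt : 0 < Real.log t := Real.log_pos (by linarith)
  have hlx : 0 < Real.log (⌊c * t⌋₊ : ℝ) := by linarith
  have h5 : R ⌊c * t⌋₊ ≤ ε / (4 * c) * (c * t) / (Real.log t / 2) := by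
    refine h1.trans ?_
    apply div_le_div₀ (by positivity) _ (by positivity) hlog
    exact mul_le_mul_of_nonneg_left hxle (by positivity)
  have h6 : ε / (4 * c) * (c * t) / (Real.log t / 2) * (Real.log t / t) = ε / 2 := by
    field_simp
    ring
  have h7 : R ⌊c * t⌋₊ * (Real.log t / t) ≤ ε / 2 := by
    rw [← h6]
    exact mul_le_mul_of_nonneg_right h5 (by positivity)
  have h8 : 0 ≤ R ⌊c * t⌋₊ * (Real.log t / t) := mul_nonneg (hR0 _) (by positivity)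
  rw [Real.dist_eq, sub_zero, abs_of_nonneg h8]
  linarith

theorem rwin {P : ℤ[X]} (hP : 1 ≤ P.natDegree) {θ : ℝ} (hθ : Irrational θ) {V : ℕ} (hV : 1 ≤ V)
    (b : ℕ) {Λ : ℝ} (hΛ : 1 < Λ) :
    Tendsto (fun t : ℝ => ‖∑ p ∈ WP V b Λ t, ee (θ * pe P p)‖ * (Real.log t / t)) atTop
      (𝓝 0) := by
  obtain ⟨R, hR⟩ : ∃ R : ℕ → ℝ, R = fun x : ℕ =>
      ‖∑ p ∈ (Icc 1 x).filter (fun p => p.Prime ∧ p ≡ b [MOD V]), ee (θ * pe P p)‖ := ⟨_, rfl⟩
  have hR0 : ∀ n, 0 ≤ R n := by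
    intro n
    rw [hR]
    exact norm_nonneg _
  have hRs : ∀ ε : ℝ, 0 < ε → ∃ x₀ : ℕ, ∀ x : ℕ, x₀ ≤ x → R x ≤ ε * x / Real.log x := by
    intro ε hε
    obtain ⟨x₀, h⟩ := rhin P hP θ hθ V hV b ε hε
    refine ⟨x₀, fun x hx => ?_⟩
    rw [hR]
    exact h x hx
  have h1 := small_floor hR0 hRs (c := Λ) hΛ.le
  have h2 := small_floor hR0 hRs (c := 1) le_rfl
  have h3 := h1.add h2
  rw [add_zero] at h3
  refine squeeze_zero' ?_ ?_ h3
  · filter_upwards [eventually_ge_atTop 1] with t ht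
    have h4 : 0 ≤ Real.log t := Real.log_nonneg ht
    positivity
  · filter_upwards [eventually_ge_atTop 1] with t ht
    have h4 : 0 ≤ Real.log t := Real.log_nonneg ht
    have h5 : 0 ≤ Real.log t / t := by positivity
    rw [wp_sum V b hΛ (by linarith : (0 : ℝ) ≤ t), ← add_mul, one_mul]
    refine mul_le_mul_of_nonneg_right ?_ h5
    rw [hR]
    exact norm_sub_le _ _

end Pool.Agent.RHN
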