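import Pool.Agent.RHN.HSg

/-!
# RHN / HSlow: the difference `e = a - c q` is slow

PROOFS.  `e_sg`: let `m > q.natDegree`.  Eventually `deriv^[m] e = deriv^[m] a` (the `m`-th derivative of the polynomial is `0`; all derivatives exist eventually by
`hf_iter`), which has constant sign by `hf_sg`; descend with `sg_of_deriv`: `Sg (deriv^[i] e)` for all `i`.
`te_sg`: `ψ_m(t) = t deriv^[m+1] e t + m deriv^[m] e t` is eventually the `m`-th derivative of `ψ_0(t) = t e'(t)` (induction).  Let `m > q.natDegree`, `u = deriv^[m] a`, `u' = deriv u`, both germs in `S`,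
`ψ_m = t u' + m u` eventually.  If `u' = 0` eventually: `ψ_m = m u`, `Sg` by `hf_sg`.  Otherwise the germ of `u'` is not `0`, there is an inverse germ in `S`, so `w = u/u'` has germ in
`S`, `u' ≠ 0` eventually, and `ψ_m = u' (t + m w)`.  `(t + m w)' = 1 + m w'` has germ in `S`, so `Sg` (`hf_sg`), so `Sg (t + m w)` by `sg_of_deriv`; the product of two functions with `Sg` has
`Sg`.  Descend with `sg_of_deriv`: `Sg ψ_i` for all `i ≤ m`, in particular `Sg (deriv (t e'))`.
`te_lim`: `lim_of_deriv` for `t e'(t)`.  If the limit were `+∞`: for every `K`, `e'(t) ≥ K/t` eventually, `e(t) ≥ K log t - C_K`, so `|e/log| → ∞`, contrary to the hypothesis; similarly `-∞`.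
`slow_of`: `e` is continuous and `e ≠ 0` on some `[t₀, ∞)` and `|e| → ∞`, so `sg e → +∞` with `sg = ±1`.  Given `τ`: `Λ = 1 + τ/(|L|+1)`.  Given `T₀`: `T₁ ≥ max T₀ 1` such that on `[T₁, ∞)` `e` is
differentiable with `|t e'(t)| ≤ |L| + 1`.  `R₀ = sg e(T₁)`; for `r ≥ R₀` there is `t ≥ T₁` with `sg e(t) = r` (intermediate value theorem, `sg e → ∞`), i.e. `e t = sg r`.  For
`u ∈ [t, Λ t]`: `|e u - e t| ≤ ((|L|+1)/t)(Λ - 1) t = τ` (mean value inequality).
-/

set_option autoImplicit false

namespace Pool.Agent.RHN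

open Filter Topology Polynomial

private lemma hs_congr_deriv {f g : ℝ → ℝ} (h : f =ᶠ[atTop] g) : deriv f =ᶠ[atTop] deriv g := by
  obtain ⟨t₀, ht₀⟩ := eventually_atTop.1 h
  filter_upwards [eventually_gt_atTop t₀] with t ht
  apply Filter.EventuallyEq.deriv_eq
  filter_upwards [lt_mem_nhds ht] with s hs
  exact ht₀ s (le_of_lt hs)

private lemma hs_congr_diff {f g : ℝ → ℝ} (h : f =ᶠ[atTop] g)
    (hg : ∀ᶠ t in atTop, DifferentiableAt ℝ g t) : ∀ᶠ t in atTop, DifferentiableAt ℝ f t := by
  obtain ⟨t₀, ht₀⟩ := eventually_atTop.1 h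
  filter_upwards [eventually_gt_atTop t₀, hg] with t ht h2
  refine h2.congr_of_eventuallyEq ?_
  filter_upwards [lt_mem_nhds ht] with s hs
  exact ht₀ s (le_of_lt hs)

private lemma hs_congr_sg {f g : ℝ → ℝ} (h : f =ᶠ[atTop] g) (hg : Sg g) : Sg f := by
  rcases hg with hg | hg | hg
  · left
    filter_upwards [h, hg] with t h1 h2
    rw [h1]; exact h2
  · right; left
    filter_upwards [h, hg] with t h1 h2
    rw [h1]; exact h2
  · right; right
    filter_upwards [h, hg] with t h1 h2
    rw [h1]; exact h2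

private lemma hs_sg_mul {f g : ℝ → ℝ} (hf : Sg f) (hg : Sg g) : Sg (fun t => f t * g t) := by
  rcases hf with hf | hf | hf
  · rcases hg with hg | hg | hg
    · left
      filter_upwards [hf, hg] with t h1 h2
      exact mul_pos h1 h2
    · right; left
      filter_upwards [hg] with t h2
      rw [h2, mul_zero]
    · right; right
      filter_upwards [hf, hg] with t h1 h2
      exact mul_neg_of_pos_of_neg h1 h2
  · right; left
    filter_upwards [hf] with t h1
    rw [h1, zero_mul]
  · rcases hg with hg | hg | hg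
    · right; right
      filter_upwards [hf, hg] with t h1 h2
      exact mul_neg_of_neg_of_pos h1 h2
    · right; left
      filter_upwards [hg] with t h2
      rw [h2, mul_zero]
    · left
      filter_upwards [hf, hg] with t h1 h2
      exact mul_pos_of_neg_of_neg h1 h2

private lemma hs_iter {S : Subring (Germ (atTop : Filter ℝ) ℝ)} (hS : Hf S) {a : ℝ → ℝ}
    (ha : (a : Germ (atTop : Filter ℝ) ℝ) ∈ S) (P : ℝ[X]) (i : ℕ) :
    deriv^[i] (fun t => a t - P.eval t) =ᶠ[atTop]
      (fun t => deriv^[i] a t - (derivative^[i] P).eval t) := by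
  induction i with
  | zero => exact EventuallyEq.rfl
  | succ i ih =>
    simp only [Function.iterate_succ_apply']
    refine (hs_congr_deriv ih).trans ?_
    filter_upwards [(hf_iter hS ha i).2] with t ht
    rw [deriv_fun_sub ht (Polynomial.differentiableAt _), Polynomial.deriv]

private lemma hs_e {S : Subring (Germ (atTop : Filter ℝ) ℝ)} (hS : Hf S) {a : ℝ → ℝ}
    (ha : (a : Germ (atTop : Filter ℝ) ℝ) ∈ S) (P : ℝ[X]) (i : ℕ) :
    Sg (deriv^[i] fun t => a t - P.eval t) ∧
      ∀ᶠ t in atTop, DifferentiableAt ℝ (deriv^[i] fun t => a t - P.eval t) t := by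
  have hd : ∀ i, ∀ᶠ t in atTop, DifferentiableAt ℝ (deriv^[i] fun t => a t - P.eval t) t := by
    intro i
    refine hs_congr_diff (hs_iter hS ha P i) ?_
    filter_upwards [(hf_iter hS ha i).2] with t ht
    exact ht.fun_sub (Polynomial.differentiableAt _)
  refine ⟨?_, hd i⟩
  have key : ∀ k i, P.natDegree < i + k → Sg (deriv^[i] fun t => a t - P.eval t) := by
    intro k
    induction k with
    | zero =>
      intro i hi
      refine hs_congr_sg (hs_iter hS ha P i) ?_
      rw [Polynomial.iterate_derivative_eq_zero (by simpa using hi)]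
      simp only [eval_zero, sub_zero]
      exact hf_sg hS (hf_iter hS ha i).1
    | succ k ih =>
      intro i hi
      refine sg_of_deriv (hd i) ?_
      have := ih (i + 1) (by omega)
      rwa [Function.iterate_succ_apply'] at this
  exact key (P.natDegree + 1) i (by omega)

private lemma hs_te {e : ℝ → ℝ} (hd : ∀ i, ∀ᶠ t in atTop, DifferentiableAt ℝ (deriv^[i] e) t)
    (i : ℕ) : deriv^[i] (fun t => t * deriv e t) =ᶠ[atTop]
      fun t => t * deriv^[i + 1] e t + i * deriv^[i] e t := by
  induction i with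
  | zero => exact Eventually.of_forall fun t => by simp
  | succ i ih =>
    rw [Function.iterate_succ_apply']
    refine (hs_congr_deriv ih).trans ?_
    filter_upwards [hd i, hd (i + 1)] with t h1 h2
    have h3 : HasDerivAt (deriv^[i] e) (deriv^[i + 1] e t) t := by
      rw [Function.iterate_succ_apply']
      exact h1.hasDerivAt
    have h4 : HasDerivAt (deriv^[i + 1] e) (deriv^[i + 1 + 1] e t) t := by
      rw [Function.iterate_succ_apply' deriv (i + 1)]
      exact h2.hasDerivAt
    have h5 : HasDerivAt (fun t => t * deriv^[i + 1] e t + i * deriv^[i] e t)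
        (1 * deriv^[i + 1] e t + t * deriv^[i + 1 + 1] e t + i * deriv^[i + 1] e t) t :=
      ((hasDerivAt_id' t).fun_mul h4).fun_add (h3.const_mul (i : ℝ))
    rw [h5.deriv]
    push_cast
    ring

private lemma hs_psi {S : Subring (Germ (atTop : Filter ℝ) ℝ)} (hS : Hf S) {u : ℝ → ℝ}
    (hu : (u : Germ (atTop : Filter ℝ) ℝ) ∈ S) (m : ℕ) (hm : 1 ≤ m) :
    Sg (fun t => t * deriv u t + m * u t) := by
  have hu' := (hf_deriv hS hu).2
  have hm0 : (0 : ℝ) < m := by exact_mod_cast hm
  by_cases h0 : ((deriv u : ℝ → ℝ) : Germ (atTop : Filter ℝ) ℝ) = 0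
  · have h1 : deriv u =ᶠ[atTop] fun _ => 0 := Germ.coe_eq.1 h0
    refine hs_congr_sg (g := fun t => m * u t) ?_ ?_
    · filter_upwards [h1] with t ht
      rw [ht]; ring
    · exact hs_sg_mul (Or.inl (Eventually.of_forall fun _ => hm0)) (hf_sg hS hu)
  · obtain ⟨h, hh, hfh⟩ := hS.1 _ hu' h0
    induction h using Germ.inductionOn with
    | h k =>
    have h2 : (fun t => deriv u t * k t) =ᶠ[atTop] fun _ => 1 := Germ.coe_eq.1 hfh
    have hw : ((fun t => u t * k t : ℝ → ℝ) : Germ (atTop : Filter ℝ) ℝ) ∈ S :=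
      S.mul_mem hu hh
    have hwd := hf_deriv hS hw
    have h3 : Sg (fun t => t + m * (u t * k t)) := by
      refine sg_of_deriv ?_ ?_
      · filter_upwards [hwd.1] with t ht
        exact differentiableAt_fun_id.fun_add (ht.const_mul _)
      · refine hs_congr_sg (g := fun t => 1 + m * deriv (fun t => u t * k t) t) ?_ ?_
        · filter_upwards [hwd.1] with t ht
          have h6 : HasDerivAt (fun t => t + m * (u t * k t))
              (1 + m * deriv (fun t => u t * k t) t) t :=
            (hasDerivAt_id' t).fun_add (ht.hasDerivAt.const_mul (m : ℝ))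
          exact h6.deriv
        · apply hf_sg hS
          have h4 : ((fun t => 1 + m * deriv (fun t => u t * k t) t : ℝ → ℝ) :
              Germ (atTop : Filter ℝ) ℝ) =
              1 + m • ((deriv (fun t => u t * k t) : ℝ → ℝ) : Germ (atTop : Filter ℝ) ℝ) := by
            have h5 : (fun t => 1 + m * deriv (fun t => u t * k t) t : ℝ → ℝ) =
              (1 : ℝ → ℝ) + m • (deriv (fun t => u t * k t)) := by
              funext t
              simp
            rw [h5]
            rfl
          rw [h4]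
          exact S.add_mem S.one_mem (nsmul_mem hwd.2 m)
    refine hs_congr_sg (g := fun t => deriv u t * (t + m * (u t * k t))) ?_
      (hs_sg_mul (hf_sg hS hu') h3)
    filter_upwards [h2] with t ht
    have h7 : deriv u t * (t + m * (u t * k t)) =
        t * deriv u t + m * u t * (deriv u t * k t) := by ring
    rw [h7, ht, mul_one]

private lemma hs_main {S : Subring (Germ (atTop : Filter ℝ) ℝ)} (hS : Hf S) {a : ℝ → ℝ}
    (ha : (a : Germ (atTop : Filter ℝ) ℝ) ∈ S) (P : ℝ[X]) :
    Sg (deriv fun t => t * deriv (fun t => a t - P.eval t) t) ∧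
      ∀ᶠ t in atTop, DifferentiableAt ℝ
        (fun t => t * deriv (fun t => a t - P.eval t) t) t := by
  have hd := fun i => (hs_e hS ha P i).2
  have hte := hs_te hd
  have hdd : ∀ i, ∀ᶠ t in atTop, DifferentiableAt ℝ
      (deriv^[i] (fun t => t * deriv (fun t => a t - P.eval t) t)) t := by
    intro i
    refine hs_congr_diff (hte i) ?_
    filter_upwards [hd i, hd (i + 1)] with t h1 h2
    exact (differentiableAt_fun_id.fun_mul h2).fun_add (h1.const_mul _)
  refine ⟨?_, hdd 0⟩
  have hm : Sg (deriv^[P.natDegree + 1] (fun t => t * deriv (fun t => a t - P.eval t) t)) := by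
    refine hs_congr_sg (hte _) ?_
    refine hs_congr_sg (g := fun t => t * deriv (deriv^[P.natDegree + 1] a) t +
      (P.natDegree + 1 : ℕ) * deriv^[P.natDegree + 1] a t) ?_
      (hs_psi hS (hf_iter hS ha (P.natDegree + 1)).1 _ (by omega))
    filter_upwards [hs_iter hS ha P (P.natDegree + 1), hs_iter hS ha P (P.natDegree + 1 + 1)]
      with t h1 h2
    rw [h1, h2, Polynomial.iterate_derivative_eq_zero (by omega),
      Polynomial.iterate_derivative_eq_zero (by omega), eval_zero, sub_zero, sub_zero,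
      Function.iterate_succ_apply' deriv (P.natDegree + 1)]
  have key : ∀ k i, i + k = P.natDegree + 1 →
      Sg (deriv^[i] (fun t => t * deriv (fun t => a t - P.eval t) t)) := by
    intro k
    induction k with
    | zero =>
      intro i hi
      rw [show i = P.natDegree + 1 by omega]
      exact hm
    | succ k ih =>
      intro i hi
      refine sg_of_deriv (hdd i) ?_
      have := ih (i + 1) (by omega)
      rwa [Function.iterate_succ_apply'] at this
  exact key P.natDegree 1 (by omega)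

private lemma hs_big {e : ℝ → ℝ} (hd : ∀ᶠ t in atTop, DifferentiableAt ℝ e t)
    (hg : Tendsto (fun t => t * deriv e t) atTop atTop) :
    Tendsto (fun t => e t / Real.log t) atTop atTop := by
  rw [tendsto_atTop]
  intro K
  have h1 := hg.eventually_ge_atTop (K + 1)
  obtain ⟨t₀, ht₀⟩ := eventually_atTop.1 ((hd.and h1).and (eventually_ge_atTop (1 : ℝ)))
  have hder : ∀ t, t₀ ≤ t → HasDerivAt (fun t => e t - (K + 1) * Real.log t)
      (deriv e t - (K + 1) * t⁻¹) t := by
    intro t ht
    obtain ⟨⟨h2, _⟩, h4⟩ := ht₀ t ht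
    exact h2.hasDerivAt.fun_sub ((Real.hasDerivAt_log (by linarith)).const_mul _)
  have hm : MonotoneOn (fun t => e t - (K + 1) * Real.log t) (Set.Ici t₀) := by
    apply monotoneOn_of_deriv_nonneg (convex_Ici t₀)
    · intro t ht
      exact (hder t ht).continuousAt.continuousWithinAt
    · intro t ht
      rw [interior_Ici] at ht
      exact (hder t (le_of_lt ht)).differentiableAt.differentiableWithinAt
    · intro t ht
      rw [interior_Ici] at ht
      rw [(hder t (le_of_lt ht)).deriv]
      obtain ⟨⟨_, h3⟩, h4⟩ := ht₀ t (le_of_lt ht)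
      have ht1 : 0 < t := by linarith
      have h5 : deriv e t - (K + 1) * t⁻¹ = (t * deriv e t - (K + 1)) / t := by
        field_simp
      rw [h5]
      exact div_nonneg (by linarith) ht1.le
  filter_upwards [eventually_ge_atTop t₀, Real.tendsto_log_atTop.eventually_ge_atTop
    (max 1 (-(e t₀ - (K + 1) * Real.log t₀)))] with t ht hlog
  have h2 := hm (Set.mem_Ici.2 le_rfl) (Set.mem_Ici.2 ht) ht
  have hl1 : 1 ≤ Real.log t := le_trans (le_max_left _ _) hlog
  have hl2 : -(e t₀ - (K + 1) * Real.log t₀) ≤ Real.log t := le_trans (le_max_right _ _) hlog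
  rw [le_div_iff₀ (by linarith)]
  simp only at h2
  linarith

private lemma hs_poly (c : ℝ) (q : ℤ[X]) (t : ℝ) :
    c * aeval t q = (Polynomial.C c * q.map (algebraMap ℤ ℝ)).eval t := by
  rw [eval_mul, eval_C, eval_map_algebraMap]

private lemma hs_slow {e : ℝ → ℝ} (hd : ∀ᶠ t in atTop, DifferentiableAt ℝ e t)
    (hL : ∃ L : ℝ, Tendsto (fun t : ℝ => t * deriv e t) atTop (𝓝 L)) {sg : ℝ}
    (hsg : sg = 1 ∨ sg = -1) (hinf : Tendsto (fun t => sg * e t) atTop atTop) : Slow e := by
  have hss : sg * sg = 1 := by rcases hsg with rfl | rfl <;> norm_num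
  refine ⟨sg, hsg, fun τ hτ => ?_⟩
  obtain ⟨L, hL⟩ := hL
  have hM : 0 < |L| + 1 := by positivity
  refine ⟨1 + τ / (|L| + 1), by linarith [div_pos hτ hM], fun T₀ => ?_⟩
  have h1 : ∀ᶠ t in atTop, |t * deriv e t| < |L| + 1 :=
    (hL.abs).eventually_lt_const (by linarith)
  obtain ⟨T₁, hT₁⟩ := eventually_atTop.1 ((hd.and h1).and
    ((eventually_ge_atTop T₀).and (eventually_ge_atTop (1 : ℝ))))
  refine ⟨sg * e T₁, fun r hr => ?_⟩
  obtain ⟨t₂, ht₂⟩ := eventually_atTop.1 (hinf.eventually_ge_atTop r)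
  have h2 : r ≤ sg * e (max T₁ t₂) := ht₂ _ (le_max_right _ _)
  have hcont : ContinuousOn (fun t => sg * e t) (Set.Icc T₁ (max T₁ t₂)) := by
    intro t ht
    exact (continuousAt_const.mul (hT₁ t ht.1).1.1.continuousAt).continuousWithinAt
  obtain ⟨t, ht, htr⟩ := intermediate_value_Icc (le_max_left T₁ t₂) hcont ⟨hr, h2⟩
  simp only at htr
  have het : e t = sg * r := by
    rw [← htr, ← mul_assoc, hss, one_mul]
  obtain ⟨⟨_, _⟩, h3, h4⟩ := hT₁ t ht.1
  have ht0 : 0 < t := by linarith
  refine ⟨t, h3, fun u hu1 hu2 => ?_⟩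
  rw [← het]
  have h5 : ‖e u - e t‖ ≤ ((|L| + 1) / t) * ‖u - t‖ := by
    refine Convex.norm_image_sub_le_of_norm_deriv_le (s := Set.Icc t u) ?_ ?_ (convex_Icc t u)
      ⟨le_rfl, hu1⟩ ⟨hu1, le_rfl⟩
    · intro s hs
      exact (hT₁ s (ht.1.trans hs.1)).1.1
    · intro s hs
      have h6 := (hT₁ s (ht.1.trans hs.1)).1.2
      have hs0 : 0 < s := by linarith [hs.1]
      rw [abs_mul, abs_of_pos hs0] at h6
      rw [Real.norm_eq_abs, le_div_iff₀ ht0]
      have h7 : |deriv e s| * t ≤ s * |deriv e s| := by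
        rw [mul_comm s]
        exact mul_le_mul_of_nonneg_left hs.1 (abs_nonneg _)
      linarith
  rw [Real.norm_eq_abs, Real.norm_eq_abs, abs_of_nonneg (by linarith : 0 ≤ u - t)] at h5
  refine h5.trans ?_
  rw [div_mul_eq_mul_div, div_le_iff₀ ht0]
  have h8 : u - t ≤ τ / (|L| + 1) * t := by
    have : (1 + τ / (|L| + 1)) * t = t + τ / (|L| + 1) * t := by ring
    linarith
  calc (|L| + 1) * (u - t) ≤ (|L| + 1) * (τ / (|L| + 1) * t) :=
        mul_le_mul_of_nonneg_left h8 hM.le
    _ = τ * t := by field_simp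

theorem e_sg {S : Subring (Germ (atTop : Filter ℝ) ℝ)} (hS : Hf S) {a : ℝ → ℝ}
    (ha : (a : Germ (atTop : Filter ℝ) ℝ) ∈ S) (c : ℝ) (q : ℤ[X]) (i : ℕ) :
    Sg (deriv^[i] fun t : ℝ => a t - c * aeval t q) ∧
      ∀ᶠ t in atTop, DifferentiableAt ℝ (deriv^[i] fun t : ℝ => a t - c * aeval t q) t := by
  simp only [hs_poly]
  exact hs_e hS ha _ i

theorem te_sg {S : Subring (Germ (atTop : Filter ℝ) ℝ)} (hS : Hf S) {a : ℝ → ℝ}
    (ha : (a : Germ (atTop : Filter ℝ) ℝ) ∈ S) (c : ℝ) (q : ℤ[X]) :
    Sg (deriv fun t : ℝ => t * deriv (fun t : ℝ => a t - c * aeval t q) t) := by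
  simp only [hs_poly]
  exact (hs_main hS ha _).1

theorem te_lim {S : Subring (Germ (atTop : Filter ℝ) ℝ)} (hS : Hf S) {a : ℝ → ℝ}
    (ha : (a : Germ (atTop : Filter ℝ) ℝ) ∈ S) (c : ℝ) (q : ℤ[X])
    (h : ¬ Tendsto (fun t : ℝ => |(a t - c * aeval t q) / Real.log t|) atTop atTop) :
    ∃ L : ℝ, Tendsto (fun t : ℝ => t * deriv (fun t : ℝ => a t - c * aeval t q) t) atTop (𝓝 L) := by
  simp only [hs_poly] at h ⊢
  have h1 := hs_main hS ha (Polynomial.C c * q.map (algebraMap ℤ ℝ))
  have h2 := (hs_e hS ha (Polynomial.C c * q.map (algebraMap ℤ ℝ)) 0).2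
  rw [Function.iterate_zero, id] at h2
  rcases lim_of_deriv h1.2 h1.1 with h3 | h3 | h3
  · exfalso
    apply h
    exact tendsto_abs_atTop_atTop.comp (hs_big h2 h3)
  · exfalso
    apply h
    have h4 : Tendsto (fun t => (-(a t - (Polynomial.C c * q.map (algebraMap ℤ ℝ)).eval t)) /
        Real.log t) atTop atTop := by
      refine hs_big (e := fun t => -(a t - (Polynomial.C c * q.map (algebraMap ℤ ℝ)).eval t))
        ?_ ?_
      · filter_upwards [h2] with t ht
        exact ht.fun_neg
      · refine (tendsto_neg_atBot_atTop.comp h3).congr fun t => ?_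
        simp only [Function.comp]
        rw [deriv.fun_neg]
        ring
    refine (tendsto_abs_atTop_atTop.comp h4).congr fun t => ?_
    simp only [Function.comp]
    rw [neg_div, abs_neg]
  · exact h3

theorem slow_of {e : ℝ → ℝ} (hd : ∀ᶠ t in atTop, DifferentiableAt ℝ e t)
    (hL : ∃ L : ℝ, Tendsto (fun t : ℝ => t * deriv e t) atTop (𝓝 L))
    (hinf : Tendsto (fun t => |e t|) atTop atTop) : Slow e := by
  obtain ⟨t₀, ht₀⟩ := eventually_atTop.1 (hd.and (hinf.eventually_ge_atTop 1))
  have hne : ∀ t, t₀ ≤ t → e t ≠ 0 := by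
    intro t ht h0
    have := (ht₀ t ht).2
    rw [h0, abs_zero] at this
    linarith
  have hcont : ∀ t, ContinuousOn e (Set.Icc t₀ t) := by
    intro t s hs
    exact (ht₀ s hs.1).1.continuousAt.continuousWithinAt
  rcases lt_or_gt_of_ne (hne t₀ le_rfl) with h1 | h1
  · refine hs_slow hd hL (Or.inr rfl) (hinf.congr' ?_)
    filter_upwards [eventually_ge_atTop t₀] with t ht
    have h3 : e t < 0 := by
      by_contra h2
      push Not at h2
      obtain ⟨s, hs, hs'⟩ := intermediate_value_Icc ht (hcont t) ⟨h1.le, h2⟩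
      exact hne s hs.1 hs'
    rw [abs_of_neg h3]
    ring
  · refine hs_slow hd hL (Or.inl rfl) (hinf.congr' ?_)
    filter_upwards [eventually_ge_atTop t₀] with t ht
    have h3 : 0 < e t := by
      by_contra h2
      push Not at h2
      obtain ⟨s, hs, hs'⟩ := intermediate_value_Icc' ht (hcont t) ⟨h2, h1.le⟩
      exact hne s hs.1 hs'
    rw [abs_of_pos h3]
    ring

theorem slow_shift {e : ℝ → ℝ} (h : Slow e) (c₀ : ℝ) : Slow fun t => e t + c₀ := by
  obtain ⟨sg, hsg, h⟩ := h
  have hss : sg * sg = 1 := by rcases hsg with rfl | rfl <;> norm_num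
  refine ⟨sg, hsg, fun τ hτ => ?_⟩
  obtain ⟨Λ, hΛ, h⟩ := h τ hτ
  refine ⟨Λ, hΛ, fun T₀ => ?_⟩
  obtain ⟨R₀, h⟩ := h T₀
  refine ⟨R₀ + sg * c₀, fun r hr => ?_⟩
  obtain ⟨t, ht, h⟩ := h (r - sg * c₀) (by linarith)
  refine ⟨t, ht, fun u hu1 hu2 => ?_⟩
  have h1 := h u hu1 hu2
  have h2 : e u + c₀ - sg * r = e u - sg * (r - sg * c₀) := by
    have : sg * (r - sg * c₀) = sg * r - (sg * sg) * c₀ := by ring
    rw [this, hss]
    ring
  rw [h2]
  exact h1

end Pool.Agent.RHN
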