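import Pool.Agent.RHN.Defs
import Pool.Agent.Helper27.IS.Brun

/-!
# RHN / SDefs: definitions for the sieve

Blocks of primes: `Y z 0 = z`, `Y z (j+1) = √(Y z j)`, `AA z q j` = primes in `(Y z (j+1), Y z j]` not dividing `q`.
`esy`, `alt` are the elementary symmetric functions and their truncated alternating sums of `Helper27.IS.Brun`.
-/

set_option autoImplicit false

namespace Pool.Agent.RHN

open Finset

open Pool.Agent.Helper27.IS (esy alt)

/-- iterated square roots -/
def Y (z : ℕ) : ℕ → ℕ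
  | 0 => z
  | j + 1 => Nat.sqrt (Y z j)

/-- blocks of primes -/
def AA (z q j : ℕ) : Finset ℕ := (Ioc (Y z (j + 1)) (Y z j)).filter (fun p => p.Prime ∧ ¬ p ∣ q)

/-- the truncation parameters -/
def bb (b j : ℕ) : ℕ := 2 * (b + j)

/-- all primes `≤ z` not dividing `q` -/
def PZ (z q : ℕ) : Finset ℕ := (Icc 1 z).filter (fun p => p.Prime ∧ ¬ p ∣ q)

/-- admissible sets for the upper bound -/
def AD (z q b : ℕ) : Finset (Finset ℕ) :=
  (PZ z q).powerset.filter (fun T => ∀ j ∈ range z, (T ∩ AA z q j).card ≤ bb b j)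

/-- admissible sets for the `l`-th correction of the lower bound -/
def AL (z q b l : ℕ) : Finset (Finset ℕ) :=
  (PZ z q).powerset.filter (fun T => (T ∩ AA z q l).card = bb b l + 1 ∧
    ∀ j ∈ range z, j ≠ l → (T ∩ AA z q j).card ≤ bb b j)

/-- the upper function -/
noncomputable def Up (z q b : ℕ) (x : ℕ → ℝ) : ℝ := ∏ j ∈ range z, alt (AA z q j) x (bb b j)

/-- the lower function -/
noncomputable def Lo (z q b : ℕ) (x : ℕ → ℝ) : ℝ :=
  Up z q b x - ∑ l ∈ range z, esy (AA z q l) x (bb b l + 1) *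
    ∏ j ∈ (range z).erase l, alt (AA z q j) x (bb b j)

/-- the indicator of `p ∣ n` -/
noncomputable def xd (n p : ℕ) : ℝ := if p ∣ n then 1 else 0

/-- the density `1/p` -/
noncomputable def xp (p : ℕ) : ℝ := 1 / (p : ℝ)

end Pool.Agent.RHN
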