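import Pool.Agent.RHN.Defs

/-!
# RHN / Grid: decomposition of a bilinear sum into short multiplicative blocks

PROOF.  If `z² > y + h` both sums are empty.  Let `s_i = z (1+κ)^i`, `I_i = (s_i, s_{i+1}]` (natural numbers: `Ioc ⌊s_i⌋₊ ⌊s_{i+1}⌋₊`), a partition of
`(z, ∞)`.  The left side is `∑_{m, n} u m v n f(mn)` over the pairs with `mn ∈ (y, y+h]` (`m = d`, `n = e/d`), `m, n > z`.  Call a pair of blocks `(i, i')` inner if
`y ≤ s_i s_{i'}` and `s_{i+1} s_{i'+1} ≤ y + h`; then all `(m, n) ∈ I_i × I_{i'}` have `mn ∈ (y, y+h]`.  If `(m,n)` is not in an inner pair but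
`mn ∈ (y, y+h]`, then `mn ≤ (1+κ)² s_i s_{i'} < (1+κ)² y` or `mn > s_i s_{i'} > (y+h)/(1+κ)²`: `mn` lies in one of two intervals of lengths
`((1+κ)² - 1) y ≤ (9/4) κ y` and `(1 - (1+κ)^{-2})(y+h) ≤ 2 κ (y+h)`; they contain at most `5 κ (y+h) + 2` integers `e`, and each contributes at
most `∑_{d ∣ e} |u d| |v (e/d)| ≤ T`.
Inner pairs: `s_i s_{i'} ≤ y + h`, so the hypothesis gives at most `E (κ s_i)(κ s_{i'})` for the pair.  For fixed `i` the inner `i'` form an interval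
`[p, r]` and `∑ κ s_{i'} = s_{r+1} - s_p ≤ (y+h)/s_{i+1} - y/s_i ≤ h/s_i`.  So the sum over `i'` is `≤ E κ h`.  The number of `i` with an inner
partner is at most `log(y+h)/log(1+κ)` (`z (1+κ)^{i+1} ≤ s_{i+1} ≤ (y+h)/z`, `z ≥ 1`) `≤ 2 log(y+h)/κ` (`log(1+κ) ≥ κ/2`).
-/

set_option autoImplicit false

namespace Pool.Agent.RHN

open Finset

/-- the grid -/
private noncomputable def gs (z : ℕ) (κ : ℝ) (i : ℕ) : ℝ := z * (1 + κ) ^ i

private lemma gs_succ (z : ℕ) (κ : ℝ) (i : ℕ) : gs z κ (i + 1) = (1 + κ) * gs z κ i := by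
  unfold gs
  rw [pow_succ]
  ring

private lemma gs_pos {z : ℕ} (hz : 2 ≤ z) {κ : ℝ} (hκ : 0 < κ) (i : ℕ) : (z : ℝ) ≤ gs z κ i := by
  unfold gs
  have h1 : (1 : ℝ) ≤ (1 + κ) ^ i := one_le_pow₀ (by linarith)
  have h2 : (0 : ℝ) ≤ z := Nat.cast_nonneg z
  nlinarith

private lemma gs_mono {z : ℕ} (hz : 2 ≤ z) {κ : ℝ} (hκ : 0 < κ) : Monotone (gs z κ) := by
  refine monotone_nat_of_le_succ fun i => ?_
  rw [gs_succ]
  have h1 := gs_pos hz hκ i
  have h2 : (0 : ℝ) ≤ z := Nat.cast_nonneg z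
  nlinarith

private lemma gs_exists {z : ℕ} (hz : 2 ≤ z) {κ : ℝ} (hκ : 0 < κ) (n : ℕ) :
    ∃ i, (n : ℝ) ≤ gs z κ (i + 1) := by
  obtain ⟨i, hi⟩ := pow_unbounded_of_one_lt (n : ℝ) (show (1 : ℝ) < 1 + κ by linarith)
  refine ⟨i, ?_⟩
  have h1 : (1 + κ) ^ i ≤ gs z κ i := by
    unfold gs
    have h2 : (2 : ℝ) ≤ z := by exact_mod_cast hz
    have h3 : (0 : ℝ) < (1 + κ) ^ i := pow_pos (by linarith) i
    nlinarith
  exact hi.le.trans (h1.trans (gs_mono hz hκ (Nat.le_succ i)))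

/-- the index of the block -/
private lemma gs_idx {z : ℕ} (hz : 2 ≤ z) {κ : ℝ} (hκ : 0 < κ) :
    ∃ idx : ℕ → ℕ, ∀ n, z < n → ∀ i, idx n = i ↔ gs z κ i < n ∧ (n : ℝ) ≤ gs z κ (i + 1) := by
  classical
  refine ⟨fun n => Nat.find (gs_exists hz hκ n), fun n hn i => ?_⟩
  have h0 : gs z κ (Nat.find (gs_exists hz hκ n)) < n := by
    rcases Nat.eq_zero_or_pos (Nat.find (gs_exists hz hκ n)) with h | h
    · rw [h]
      unfold gs
      rw [pow_zero, mul_one]
      exact_mod_cast hn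
    · have h1 := Nat.find_min (gs_exists hz hκ n)
        (m := Nat.find (gs_exists hz hκ n) - 1) (by omega)
      rw [Nat.sub_add_cancel h] at h1
      exact not_le.1 h1
  have h1 := Nat.find_spec (gs_exists hz hκ n)
  constructor
  · rintro rfl
    exact ⟨h0, h1⟩
  · rintro ⟨h2, h3⟩
    beta_reduce
    set j := Nat.find (gs_exists hz hκ n) with hj
    rcases lt_trichotomy j i with h | h | h
    · exact absurd (h1.trans (gs_mono hz hκ (Nat.succ_le_of_lt h))) (not_le.2 h2)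
    · exact h
    · exact absurd (h3.trans (gs_mono hz hκ (Nat.succ_le_of_lt h))) (not_le.2 h0)

/-- telescoping -/
private lemma gs_tel {s : ℕ → ℝ} (hs : Monotone s) (J : Finset ℕ) {a b : ℝ}
    (hJ : ∀ j ∈ J, a ≤ s j ∧ s (j + 1) ≤ b) (hab : a ≤ b ∨ J.Nonempty) :
    ∑ j ∈ J, (s (j + 1) - s j) ≤ b - a := by
  rcases J.eq_empty_or_nonempty with rfl | hne
  · rw [Finset.sum_empty]
    rcases hab with h | h
    · linarith
    · exact absurd h Finset.not_nonempty_empty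
  · have h1 : J ⊆ Ico (J.min' hne) (J.max' hne + 1) := by
      intro j hj
      rw [Finset.mem_Ico]
      exact ⟨J.min'_le j hj, Nat.lt_succ_of_le (J.le_max' j hj)⟩
    have h2 : ∑ j ∈ J, (s (j + 1) - s j) ≤ ∑ j ∈ Ico (J.min' hne) (J.max' hne + 1),
        (s (j + 1) - s j) := by
      refine Finset.sum_le_sum_of_subset_of_nonneg h1 fun j _ _ => ?_
      have := hs (Nat.le_succ j)
      exact sub_nonneg.2 this
    have h3 : ∑ j ∈ Ico (J.min' hne) (J.max' hne + 1), (s (j + 1) - s j) =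
        s (J.max' hne + 1) - s (J.min' hne) := by
      rw [Finset.sum_Ico_eq_sub _ (by
        have := J.min'_le _ (J.max'_mem hne)
        omega), Finset.sum_range_sub, Finset.sum_range_sub]
      ring
    have h4 := (hJ _ (J.min'_mem hne)).1
    have h5 := (hJ _ (J.max'_mem hne)).2
    linarith

/-- the exceptional integers -/
private lemma gs_card {y h : ℕ} {κ : ℝ} (hκ : 0 < κ) (hκ4 : κ ≤ 1 / 4) :
    ((((Ioc y (y + h)).filter fun e : ℕ => (e : ℝ) < (1 + κ) ^ 2 * y ∨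
      ((y : ℝ) + h) / (1 + κ) ^ 2 < e).card : ℕ) : ℝ) ≤ 5 * κ * ((y : ℝ) + h) + 2 := by
  have hy : (0 : ℝ) ≤ y := Nat.cast_nonneg y
  have hh : (0 : ℝ) ≤ h := Nat.cast_nonneg h
  have h1 : (Ioc y (y + h)).filter (fun e : ℕ => (e : ℝ) < (1 + κ) ^ 2 * y ∨
      ((y : ℝ) + h) / (1 + κ) ^ 2 < e) ⊆ Ioc y ⌊(1 + κ) ^ 2 * y⌋₊ ∪
      Ioc ⌊((y : ℝ) + h) / (1 + κ) ^ 2⌋₊ (y + h) := by
    intro e he
    rw [Finset.mem_filter, Finset.mem_Ioc] at he
    rw [Finset.mem_union, Finset.mem_Ioc, Finset.mem_Ioc]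
    rcases he.2 with h2 | h2
    · exact Or.inl ⟨he.1.1, Nat.le_floor h2.le⟩
    · exact Or.inr ⟨(Nat.floor_lt (by positivity)).2 h2, he.1.2⟩
  have h2 : (Ioc y ⌊(1 + κ) ^ 2 * y⌋₊).card ≤ ⌊(1 + κ) ^ 2 * (y : ℝ)⌋₊ - y := by
    rw [Nat.card_Ioc]
  have h3 := (Finset.card_le_card h1).trans (Finset.card_union_le _ _)
  rw [Nat.card_Ioc, Nat.card_Ioc] at h3
  have h4 : y ≤ ⌊(1 + κ) ^ 2 * (y : ℝ)⌋₊ := by
    refine Nat.le_floor ?_
    nlinarith [mul_nonneg hκ.le hy, mul_nonneg (sq_nonneg κ) hy]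
  have h5 : ⌊((y : ℝ) + h) / (1 + κ) ^ 2⌋₊ ≤ y + h := by
    have h6 : ((y : ℝ) + h) / (1 + κ) ^ 2 ≤ ((y + h : ℕ) : ℝ) := by
      rw [div_le_iff₀ (by positivity)]
      push_cast
      nlinarith [mul_nonneg hκ.le (add_nonneg hy hh), mul_nonneg (sq_nonneg κ) (add_nonneg hy hh)]
    exact (Nat.floor_le_floor h6).trans (Nat.floor_natCast _).le
  have h6 : ((((Ioc y (y + h)).filter fun e : ℕ => (e : ℝ) < (1 + κ) ^ 2 * y ∨
      ((y : ℝ) + h) / (1 + κ) ^ 2 < e).card : ℕ) : ℝ) ≤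
      ((⌊(1 + κ) ^ 2 * (y : ℝ)⌋₊ : ℝ) - y) + ((y : ℝ) + h - ⌊((y : ℝ) + h) / (1 + κ) ^ 2⌋₊) := by
    have h7 : (((Ioc y (y + h)).filter fun e : ℕ => (e : ℝ) < (1 + κ) ^ 2 * y ∨
      ((y : ℝ) + h) / (1 + κ) ^ 2 < e).card : ℝ) ≤
      (((⌊(1 + κ) ^ 2 * (y : ℝ)⌋₊ - y) + ((y + h) - ⌊((y : ℝ) + h) / (1 + κ) ^ 2⌋₊) : ℕ) : ℝ) := by
      exact_mod_cast h3
    rw [Nat.cast_add, Nat.cast_sub h4, Nat.cast_sub h5, Nat.cast_add] at h7
    exact h7
  have h7 := Nat.floor_le (show 0 ≤ (1 + κ) ^ 2 * (y : ℝ) by positivity)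
  have h8 := (Nat.lt_floor_add_one (((y : ℝ) + h) / (1 + κ) ^ 2)).le
  have h9 : (1 - 2 * κ) * ((y : ℝ) + h) ≤ ((y : ℝ) + h) / (1 + κ) ^ 2 := by
    rw [le_div_iff₀ (by positivity)]
    have h10 : (1 - 2 * κ) * (1 + κ) ^ 2 ≤ 1 := by nlinarith [pow_pos hκ 3, sq_nonneg κ]
    have h11 : 0 ≤ (y : ℝ) + h := by positivity
    nlinarith
  have h10 : (1 + κ) ^ 2 * (y : ℝ) ≤ y + 9 / 4 * κ * y := by nlinarith [mul_nonneg hκ.le hy]
  have h11 : κ * (y : ℝ) ≤ κ * ((y : ℝ) + h) := mul_le_mul_of_nonneg_left (by linarith) hκ.le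
  nlinarith

private lemma gs_log {κ : ℝ} (hκ : 0 < κ) (hκ4 : κ ≤ 1 / 4) : κ / 2 ≤ Real.log (1 + κ) := by
  have h1 := Real.one_sub_inv_le_log_of_pos (show 0 < 1 + κ by linarith)
  refine le_trans ?_ h1
  rw [div_le_iff₀ two_pos]
  have h2 : (1 + κ)⁻¹ ≤ 1 - κ / 2 := by
    rw [inv_le_iff_one_le_mul₀ (by linarith)]
    nlinarith
  linarith

theorem grid {z y h : ℕ} {κ E T : ℝ} (hz : 2 ≤ z) (hκ : 0 < κ) (hκ4 : κ ≤ 1 / 4) (hE : 0 ≤ E)
    (hT : 0 ≤ T) (f : ℕ → ℂ) (hf : ∀ n, ‖f n‖ ≤ 1) (u v : ℕ → ℝ) (hu : ∀ n, u n ≠ 0 → z < n)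
    (hv : ∀ n, v n ≠ 0 → z < n)
    (hTT : ∀ e : ℕ, 1 ≤ e → e ≤ y + h → ∑ d ∈ e.divisors, |u d| * |v (e / d)| ≤ T)
    (hblk : ∀ s t : ℝ, (z : ℝ) ≤ s → (z : ℝ) ≤ t → (y : ℝ) ≤ s * t → s * t ≤ (y : ℝ) + h →
      ‖∑ m ∈ Ioc ⌊s⌋₊ ⌊(1 + κ) * s⌋₊, ∑ n ∈ Ioc ⌊t⌋₊ ⌊(1 + κ) * t⌋₊,
        ((u m * v n : ℝ) : ℂ) * f (m * n)‖ ≤ E * (κ * s) * (κ * t)) :
    ‖∑ e ∈ Ioc y (y + h), ((∑ d ∈ e.divisors, u d * v (e / d) : ℝ) : ℂ) * f e‖ ≤
      2 * E * h * Real.log ((y : ℝ) + h) + T * (5 * κ * ((y : ℝ) + h) + 2) := by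
  classical
  have hy0 : (0 : ℝ) ≤ y := Nat.cast_nonneg y
  have hh0 : (0 : ℝ) ≤ h := Nat.cast_nonneg h
  have hz1 : (2 : ℝ) ≤ z := by exact_mod_cast hz
  obtain ⟨idx, hidx⟩ := gs_idx hz hκ
  set s : ℕ → ℝ := gs z κ with hs
  have hsz : ∀ i, (z : ℝ) ≤ s i := gs_pos hz hκ
  have hs0 : ∀ i, (0 : ℝ) < s i := fun i => by linarith [hsz i]
  have hss : ∀ i, s (i + 1) = (1 + κ) * s i := gs_succ z κ
  have hsm : Monotone s := gs_mono hz hκ
  let inn : ℕ × ℕ → Prop := fun q => (y : ℝ) ≤ s q.1 * s q.2 ∧ s (q.1 + 1) * s (q.2 + 1) ≤ (y : ℝ) + h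
  let Inn : ℕ × ℕ → Prop := fun p => z < p.1 ∧ z < p.2 ∧ inn (idx p.1, idx p.2)
  let term : ℕ × ℕ → ℂ := fun p => ((u p.1 * v p.2 : ℝ) : ℂ) * f (p.1 * p.2)
  set S : Finset (ℕ × ℕ) := (Ioc y (y + h)).biUnion fun e => e.divisorsAntidiagonal with hS
  have hmemS : ∀ p : ℕ × ℕ, p ∈ S ↔ y < p.1 * p.2 ∧ p.1 * p.2 ≤ y + h := by
    intro p
    rw [hS, Finset.mem_biUnion]
    constructor
    · rintro ⟨e, he, hp⟩
      rw [Nat.mem_divisorsAntidiagonal] at hp
      rw [hp.1]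
      exact Finset.mem_Ioc.1 he
    · rintro ⟨h1, h2⟩
      refine ⟨p.1 * p.2, Finset.mem_Ioc.2 ⟨h1, h2⟩, ?_⟩
      rw [Nat.mem_divisorsAntidiagonal]
      exact ⟨rfl, by omega⟩
  have hdisj : ((Ioc y (y + h) : Finset ℕ) : Set ℕ).PairwiseDisjoint
      fun e => e.divisorsAntidiagonal := by
    intro a _ b _ hab
    refine Finset.disjoint_left.2 fun p hp hp' => hab ?_
    rw [Nat.mem_divisorsAntidiagonal] at hp hp'
    exact hp.1.symm.trans hp'.1
  -- the left side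
  have hL : ∑ e ∈ Ioc y (y + h), ((∑ d ∈ e.divisors, u d * v (e / d) : ℝ) : ℂ) * f e =
      ∑ e ∈ Ioc y (y + h), ∑ p ∈ e.divisorsAntidiagonal, term p := by
    refine Finset.sum_congr rfl fun e _ => ?_
    rw [← Nat.sum_divisorsAntidiagonal (f := fun a b => u a * v b), Complex.ofReal_sum,
      Finset.sum_mul]
    refine Finset.sum_congr rfl fun p hp => ?_
    rw [Nat.mem_divisorsAntidiagonal] at hp
    change _ = ((u p.1 * v p.2 : ℝ) : ℂ) * f (p.1 * p.2)
    rw [hp.1]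
  have hsplit : ∑ e ∈ Ioc y (y + h), ∑ p ∈ e.divisorsAntidiagonal, term p =
      ∑ p ∈ S.filter Inn, term p +
        ∑ e ∈ Ioc y (y + h), ∑ p ∈ e.divisorsAntidiagonal.filter (fun p => ¬ Inn p), term p := by
    have h1 : ∑ p ∈ S.filter Inn, term p =
        ∑ e ∈ Ioc y (y + h), ∑ p ∈ e.divisorsAntidiagonal.filter Inn, term p := by
      rw [Finset.sum_filter, hS, Finset.sum_biUnion hdisj]
      refine Finset.sum_congr rfl fun e _ => ?_
      rw [Finset.sum_filter]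
    rw [h1, ← Finset.sum_add_distrib]
    refine Finset.sum_congr rfl fun e _ => ?_
    exact (Finset.sum_filter_add_sum_filter_not _ _ _).symm
  rw [hL, hsplit]
  refine (norm_add_le _ _).trans (add_le_add ?_ ?_)
  · -- the inner pairs
    set X : ℝ := 2 * Real.log ((y : ℝ) + h) / κ with hX
    have hcount : ∀ q : ℕ × ℕ, inn q → q.1 < ⌊X⌋₊ ∧ q.2 < ⌊X⌋₊ := by
      have key : ∀ i j, s (i + 1) * s (j + 1) ≤ (y : ℝ) + h → i < ⌊X⌋₊ := by
        intro i j hij
        have h1 : s (i + 1) ≤ (y : ℝ) + h := by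
          refine le_trans ?_ hij
          have h2 := hsz (j + 1)
          have h3 := hs0 (i + 1)
          nlinarith
        have h2 : (1 + κ) ^ (i + 1) ≤ (y : ℝ) + h := by
          refine le_trans ?_ h1
          rw [hs]
          unfold gs
          have h3 : (0 : ℝ) < (1 + κ) ^ (i + 1) := pow_pos (by linarith) _
          nlinarith
        have h3 := Real.log_le_log (pow_pos (by linarith) _) h2
        rw [Real.log_pow] at h3
        have h4 := gs_log hκ hκ4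
        have h5 : ((i + 1 : ℕ) : ℝ) ≤ X := by
          rw [hX, le_div_iff₀ hκ]
          have h6 : (0 : ℝ) ≤ ((i + 1 : ℕ) : ℝ) := Nat.cast_nonneg _
          nlinarith
        exact Nat.lt_of_succ_le (Nat.le_floor h5)
      intro q hq
      refine ⟨key q.1 q.2 hq.2, key q.2 q.1 ?_⟩
      rw [mul_comm]
      exact hq.2
    have hX0 : 0 ≤ X ∨ ⌊X⌋₊ = 0 := by
      rcases le_or_gt 0 X with h1 | h1
      · exact Or.inl h1
      · exact Or.inr (Nat.floor_of_nonpos h1.le)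
    set t : Finset (ℕ × ℕ) := (range ⌊X⌋₊ ×ˢ range ⌊X⌋₊).filter inn with ht
    have hmaps : ∀ p ∈ S.filter Inn, (idx p.1, idx p.2) ∈ t := by
      intro p hp
      have h1 := (Finset.mem_filter.1 hp).2
      rw [ht, Finset.mem_filter, Finset.mem_product, Finset.mem_range, Finset.mem_range]
      exact ⟨hcount _ h1.2.2, h1.2.2⟩
    rw [← Finset.sum_fiberwise_of_maps_to (g := fun p : ℕ × ℕ => (idx p.1, idx p.2)) hmaps]
    have hfib : ∀ q ∈ t, ‖∑ p ∈ (S.filter Inn).filter (fun p => (idx p.1, idx p.2) = q), term p‖ ≤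
        E * (κ * s q.1) * (κ * s q.2) := by
      intro q hq
      have hqi : inn q := (Finset.mem_filter.1 hq).2
      have h1 : (S.filter Inn).filter (fun p => (idx p.1, idx p.2) = q) =
          Ioc ⌊s q.1⌋₊ ⌊(1 + κ) * s q.1⌋₊ ×ˢ Ioc ⌊s q.2⌋₊ ⌊(1 + κ) * s q.2⌋₊ := by
        ext p
        rw [Finset.mem_filter, Finset.mem_filter, Finset.mem_product, Finset.mem_Ioc,
          Finset.mem_Ioc, hmemS, ← hss, ← hss, Nat.floor_lt (hs0 _).le, Nat.floor_lt (hs0 _).le,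
          Nat.le_floor_iff (hs0 _).le, Nat.le_floor_iff (hs0 _).le]
        constructor
        · rintro ⟨⟨-, h2, h3, -⟩, h4⟩
          have h5 : idx p.1 = q.1 := congrArg Prod.fst h4
          have h6 : idx p.2 = q.2 := congrArg Prod.snd h4
          exact ⟨(hidx _ h2 _).1 h5, (hidx _ h3 _).1 h6⟩
        · rintro ⟨h2, h3⟩
          have h4 : z < p.1 := by
            have : (z : ℝ) < p.1 := (hsz q.1).trans_lt h2.1
            exact_mod_cast this
          have h5 : z < p.2 := by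
            have : (z : ℝ) < p.2 := (hsz q.2).trans_lt h3.1
            exact_mod_cast this
          have h6 := (hidx _ h4 q.1).2 h2
          have h7 := (hidx _ h5 q.2).2 h3
          have h8 : (idx p.1, idx p.2) = q := Prod.ext h6 h7
          have hp1 : (0 : ℝ) < p.1 := (hs0 _).trans h2.1
          have hp2 : (0 : ℝ) < p.2 := (hs0 _).trans h3.1
          refine ⟨⟨⟨?_, ?_⟩, h4, h5, ?_⟩, h8⟩
          · have : (y : ℝ) < ((p.1 * p.2 : ℕ) : ℝ) := by
              rw [Nat.cast_mul]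
              exact hqi.1.trans_lt (mul_lt_mul'' h2.1 h3.1 (hs0 _).le (hs0 _).le)
            exact_mod_cast this
          · have : ((p.1 * p.2 : ℕ) : ℝ) ≤ ((y + h : ℕ) : ℝ) := by
              rw [Nat.cast_mul, Nat.cast_add]
              exact (mul_le_mul h2.2 h3.2 hp2.le (hs0 _).le).trans hqi.2
            exact_mod_cast this
          · rw [h8]
            exact hqi
      rw [h1, Finset.sum_product]
      refine hblk (s q.1) (s q.2) (hsz _) (hsz _) hqi.1 (le_trans ?_ hqi.2)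
      exact mul_le_mul (hsm (Nat.le_succ _)) (hsm (Nat.le_succ _)) (hs0 _).le (hs0 _).le
    refine (norm_sum_le _ _).trans ((Finset.sum_le_sum hfib).trans ?_)
    have hrow : ∀ i ∈ range ⌊X⌋₊, ∑ j ∈ (range ⌊X⌋₊).filter (fun j => inn (i, j)),
        E * (κ * s i) * (κ * s j) ≤ E * κ * h := by
      intro i _
      have h1 : ∑ j ∈ (range ⌊X⌋₊).filter (fun j => inn (i, j)), (s (j + 1) - s j) ≤
          ((y : ℝ) + h) / s i - y / s i := by
        refine gs_tel hsm _ (fun j hj => ?_) (Or.inl ?_)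
        · have h2 : inn (i, j) := (Finset.mem_filter.1 hj).2
          refine ⟨?_, ?_⟩
          · rw [div_le_iff₀ (hs0 i), mul_comm]
            exact h2.1
          · rw [le_div_iff₀ (hs0 i)]
            have h3 := h2.2
            have h4 : s i ≤ s (i + 1) := hsm (Nat.le_succ i)
            change s (i + 1) * s (j + 1) ≤ (y : ℝ) + h at h3
            nlinarith [hs0 (j + 1)]
        · exact div_le_div_of_nonneg_right (by linarith) (hs0 i).le
      have h2 : ∑ j ∈ (range ⌊X⌋₊).filter (fun j => inn (i, j)), E * (κ * s i) * (κ * s j) =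
          E * κ * s i * ∑ j ∈ (range ⌊X⌋₊).filter (fun j => inn (i, j)), (s (j + 1) - s j) := by
        rw [Finset.mul_sum]
        refine Finset.sum_congr rfl fun j _ => ?_
        rw [hss]
        ring
      rw [h2]
      have h3 : ((y : ℝ) + h) / s i - y / s i = h / s i := by ring
      rw [h3] at h1
      have h4 : E * κ * s i * (h / s i) = E * κ * h := by
        have := (hs0 i).ne'
        field_simp
      rw [← h4]
      exact mul_le_mul_of_nonneg_left h1 (mul_nonneg (mul_nonneg hE hκ.le) (hs0 i).le)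
    have hsum : ∑ q ∈ t, E * (κ * s q.1) * (κ * s q.2) =
        ∑ i ∈ range ⌊X⌋₊, ∑ j ∈ (range ⌊X⌋₊).filter (fun j => inn (i, j)),
          E * (κ * s i) * (κ * s j) := by
      rw [ht, Finset.sum_filter, Finset.sum_product]
      refine Finset.sum_congr rfl fun i _ => ?_
      rw [Finset.sum_filter]
    rw [hsum]
    refine (Finset.sum_le_sum hrow).trans ?_
    rw [Finset.sum_const, Finset.card_range, nsmul_eq_mul]
    rcases hX0 with h1 | h1
    · have h2 := Nat.floor_le h1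
      calc (⌊X⌋₊ : ℝ) * (E * κ * h) ≤ X * (E * κ * h) :=
            mul_le_mul_of_nonneg_right h2 (mul_nonneg (mul_nonneg hE hκ.le) hh0)
        _ = 2 * E * h * Real.log ((y : ℝ) + h) := by
            rw [hX]
            field_simp
    · rw [h1, Nat.cast_zero, zero_mul]
      have h2 : 0 ≤ Real.log ((y : ℝ) + h) := by
        have h3 : (0 : ℝ) ≤ Real.log ((y + h : ℕ) : ℝ) := Real.log_natCast_nonneg _
        rwa [Nat.cast_add] at h3
      positivity
  · -- the other pairs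
    set Q : Finset ℕ := (Ioc y (y + h)).filter fun e : ℕ => (e : ℝ) < (1 + κ) ^ 2 * y ∨
      ((y : ℝ) + h) / (1 + κ) ^ 2 < e with hQ
    have hone : ∀ e ∈ Ioc y (y + h),
        ‖∑ p ∈ e.divisorsAntidiagonal.filter (fun p => ¬ Inn p), term p‖ ≤
        if (e : ℝ) < (1 + κ) ^ 2 * y ∨ ((y : ℝ) + h) / (1 + κ) ^ 2 < e then T else 0 := by
      intro e he
      rw [Finset.mem_Ioc] at he
      split_ifs with hcase
      · refine (norm_sum_le _ _).trans ?_
        have h1 : ∑ p ∈ e.divisorsAntidiagonal.filter (fun p => ¬ Inn p), ‖term p‖ ≤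
            ∑ p ∈ e.divisorsAntidiagonal, |u p.1| * |v p.2| := by
          refine (Finset.sum_le_sum_of_subset_of_nonneg (Finset.filter_subset _ _)
            fun p _ _ => norm_nonneg _).trans (Finset.sum_le_sum fun p _ => ?_)
          change ‖((u p.1 * v p.2 : ℝ) : ℂ) * f (p.1 * p.2)‖ ≤ _
          rw [norm_mul, Complex.norm_real, Real.norm_eq_abs, abs_mul]
          have h2 := hf (p.1 * p.2)
          have h3 : 0 ≤ |u p.1| * |v p.2| := by positivity
          nlinarith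
        refine h1.trans ?_
        rw [Nat.sum_divisorsAntidiagonal (f := fun a b => |u a| * |v b|)]
        exact hTT e (by omega) he.2
      · rw [Finset.sum_eq_zero, norm_zero]
        intro p hp
        rw [Finset.mem_filter, Nat.mem_divisorsAntidiagonal] at hp
        obtain ⟨⟨hpe, -⟩, hnot⟩ := hp
        change ((u p.1 * v p.2 : ℝ) : ℂ) * f (p.1 * p.2) = 0
        by_cases hu0 : u p.1 = 0
        · rw [hu0]; simp
        by_cases hv0 : v p.2 = 0
        · rw [hv0]; simp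
        exfalso
        push Not at hcase
        have h1 := hu _ hu0
        have h2 := hv _ hv0
        obtain ⟨h3, h4⟩ := (hidx _ h1 _).1 rfl
        obtain ⟨h5, h6⟩ := (hidx _ h2 _).1 rfl
        have hp1 : (0 : ℝ) < p.1 := (hs0 _).trans h3
        have hp2 : (0 : ℝ) < p.2 := (hs0 _).trans h5
        have he1 : (e : ℝ) = (p.1 : ℝ) * p.2 := by rw [← hpe, Nat.cast_mul]
        apply hnot
        refine ⟨h1, h2, ?_, ?_⟩
        · change (y : ℝ) ≤ s (idx p.1) * s (idx p.2)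
          by_contra hcon
          push Not at hcon
          have h7 : (e : ℝ) ≤ s (idx p.1 + 1) * s (idx p.2 + 1) := by
            rw [he1]
            exact mul_le_mul h4 h6 hp2.le (hs0 _).le
          rw [hss, hss] at h7
          have h8 : (1 + κ) * s (idx p.1) * ((1 + κ) * s (idx p.2)) < (1 + κ) ^ 2 * y := by
            have h9 : (0 : ℝ) < (1 + κ) ^ 2 := by positivity
            nlinarith
          linarith [hcase.1]
        · change s (idx p.1 + 1) * s (idx p.2 + 1) ≤ (y : ℝ) + h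
          by_contra hcon
          push Not at hcon
          have h7 : s (idx p.1) * s (idx p.2) < e := by
            rw [he1]
            exact mul_lt_mul'' h3 h5 (hs0 _).le (hs0 _).le
          rw [hss, hss] at hcon
          have h8 := hcase.2
          rw [le_div_iff₀ (by positivity)] at h8
          have h9 : (0 : ℝ) < (1 + κ) ^ 2 := by positivity
          nlinarith
    refine (norm_sum_le _ _).trans ((Finset.sum_le_sum hone).trans ?_)
    rw [← Finset.sum_filter, ← hQ, Finset.sum_const, nsmul_eq_mul, mul_comm]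
    exact mul_le_mul_of_nonneg_left (gs_card hκ hκ4) hT

end Pool.Agent.RHN
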