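import Pool.Agent.RHN.Defs

/-!
# RHN / PPow: prime powers

PROOF.  For `n = p^k` the weight is `Λ n/log n = 1/k`, and `0` if `n` is not a prime power (`Λ 1 = 0`).  The primes `p > z` are rough and have
weight `1`; the primes `p ≤ z` are not rough (difference `≤ z` in total).  The `n = p^k ≤ x` with `k ≥ 2`: `k ≤ log x/log 2`, `p ≤ √x`, so there are at most
`√x · log x/log 2 ≤ 4 √x log x` of them, each with weight at most `1`.
-/

set_option autoImplicit false

namespace Pool.Agent.RHN

open Finset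

private theorem pp_card {y h x : ℕ} (hxy : y + h ≤ x) :
    (((Ioc y (y + h)).filter (fun n => IsPrimePow n ∧ ¬ n.Prime)).card : ℕ) ≤
      Nat.sqrt x * Nat.log 2 x := by
  classical
  have hsub : (Ioc y (y + h)).filter (fun n => IsPrimePow n ∧ ¬ n.Prime) ⊆
      ((Icc 1 (Nat.sqrt x)) ×ˢ (Icc 1 (Nat.log 2 x))).image (fun q => q.1 ^ q.2) := by
    intro n hn
    obtain ⟨hn1, hn2, hn3⟩ := mem_filter.1 hn
    rw [mem_Ioc] at hn1
    obtain ⟨p, k, hp, hk, rfl⟩ := hn2
    have hp' : p.Prime := hp.nat_prime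
    have hk2 : 2 ≤ k := by
      by_contra hlt
      have hk1 : k = 1 := by omega
      rw [hk1, pow_one] at hn3
      exact hn3 hp'
    have hx : p ^ k ≤ x := hn1.2.trans hxy
    have hx0 : x ≠ 0 := by
      have := pow_pos hp'.pos k
      omega
    rw [mem_image]
    refine ⟨(p, k), ?_, rfl⟩
    rw [mem_product, mem_Icc, mem_Icc]
    refine ⟨⟨hp'.one_lt.le, ?_⟩, by omega, ?_⟩
    · rw [Nat.le_sqrt']
      exact (Nat.pow_le_pow_right hp'.pos hk2).trans hx
    · exact (Nat.le_log_iff_pow_le (by norm_num) hx0).2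
        ((Nat.pow_le_pow_left hp'.two_le k).trans hx)
  refine (card_le_card hsub).trans (card_image_le.trans ?_)
  rw [card_product, Nat.card_Icc, Nat.card_Icc]
  simp

open Classical in
theorem pp_err (f : ℕ → ℂ) (hf : ∀ n, ‖f n‖ ≤ 1) {z y h x : ℕ} (hx : 2 ≤ x) (hxy : y + h ≤ x) :
    ‖∑ n ∈ Ioc y (y + h), ((if Rough z n then ArithmeticFunction.vonMangoldt n / Real.log n else 0 : ℝ) : ℂ) *
      f n - ∑ p ∈ (Ioc y (y + h)).filter Nat.Prime, f p‖ ≤ z + 4 * Real.sqrt x * Real.log x := by
  rw [sum_filter, ← sum_sub_distrib]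
  have hterm : ∀ n ∈ Ioc y (y + h),
      ‖((if Rough z n then ArithmeticFunction.vonMangoldt n / Real.log n else 0 : ℝ) : ℂ) * f n -
        (if n.Prime then f n else 0)‖ ≤
      (if n.Prime ∧ n ≤ z then (1 : ℝ) else 0) + (if IsPrimePow n ∧ ¬ n.Prime then (1 : ℝ) else 0) := by
    intro n hn
    rw [mem_Ioc] at hn
    by_cases hp : n.Prime
    · rw [if_pos hp, if_neg (not_and_not_right.2 fun _ => hp :
        ¬ (IsPrimePow n ∧ ¬ n.Prime)), add_zero]
      by_cases hz : n ≤ z
      · have h1 : ¬ Rough z n := fun h => h.2 n hp hz dvd_rfl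
        rw [if_neg h1, if_pos ⟨hp, hz⟩]
        simpa using hf n
      · have h1 : Rough z n := by
          refine ⟨hp.one_lt.le, fun q hq hqz hqn => ?_⟩
          have := (Nat.prime_dvd_prime_iff_eq hq hp).1 hqn
          omega
        have h2 : Real.log n ≠ 0 := by
          have : (1 : ℝ) < n := by exact_mod_cast hp.one_lt
          exact (Real.log_pos this).ne'
        rw [if_pos h1, ArithmeticFunction.vonMangoldt_apply_prime hp, div_self h2,
          if_neg (fun h => hz h.2)]
        simp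
    · rw [if_neg hp, if_neg (fun h => hp h.1 : ¬ (n.Prime ∧ n ≤ z)), zero_add, sub_zero, norm_mul]
      by_cases hq : IsPrimePow n
      · rw [if_pos (⟨hq, hp⟩ : IsPrimePow n ∧ ¬ n.Prime)]
        have h1 : ‖((if Rough z n then ArithmeticFunction.vonMangoldt n / Real.log n else 0 : ℝ) : ℂ)‖
            ≤ 1 := by
          rw [Complex.norm_real, Real.norm_eq_abs]
          split_ifs
          · have h3 : (0 : ℝ) ≤ Real.log n := Real.log_natCast_nonneg n
            rw [abs_of_nonneg (div_nonneg ArithmeticFunction.vonMangoldt_nonneg h3)]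
            exact div_le_one_of_le₀ ArithmeticFunction.vonMangoldt_le_log h3
          · rw [abs_zero]
            exact zero_le_one
        calc _ ≤ 1 * 1 := mul_le_mul h1 (hf n) (norm_nonneg _) zero_le_one
          _ = 1 := one_mul 1
      · have h1 : ArithmeticFunction.vonMangoldt n = 0 :=
          ArithmeticFunction.vonMangoldt_eq_zero_iff.2 hq
        rw [if_neg (fun h => hq h.1 : ¬ (IsPrimePow n ∧ ¬ n.Prime)), h1, zero_div]
        simp
  refine (norm_sum_le _ _).trans ((sum_le_sum hterm).trans ?_)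
  rw [sum_add_distrib, ← sum_filter, ← sum_filter, sum_const, sum_const, nsmul_eq_mul, nsmul_eq_mul,
    mul_one, mul_one]
  refine add_le_add ?_ ?_
  · have h1 : (Ioc y (y + h)).filter (fun n => n.Prime ∧ n ≤ z) ⊆ Icc 1 z := by
      intro n hn
      obtain ⟨-, h2, h3⟩ := mem_filter.1 hn
      rw [mem_Icc]
      exact ⟨h2.one_lt.le, h3⟩
    have h2 := card_le_card h1
    rw [Nat.card_Icc] at h2
    have h3 : ((Ioc y (y + h)).filter (fun n => n.Prime ∧ n ≤ z)).card ≤ z := by omega
    exact_mod_cast h3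
  · have h1 : (((Ioc y (y + h)).filter (fun n => IsPrimePow n ∧ ¬ n.Prime)).card : ℝ) ≤
        (Nat.sqrt x : ℝ) * (Nat.log 2 x : ℝ) := by exact_mod_cast pp_card hxy
    refine h1.trans ?_
    have h2 : (Nat.sqrt x : ℝ) ≤ Real.sqrt x := Real.nat_sqrt_le_real_sqrt
    have hx1 : (1 : ℝ) ≤ x := by
      have : (2 : ℝ) ≤ x := by exact_mod_cast hx
      linarith
    have h3 : (Nat.log 2 x : ℝ) ≤ 4 * Real.log x := by
      have h4 : (2 : ℝ) ^ Nat.log 2 x ≤ x := by
        exact_mod_cast Nat.pow_log_le_self 2 (by omega)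
      have h5 : (Nat.log 2 x : ℝ) * Real.log 2 ≤ Real.log x := by
        rw [← Real.log_pow]
        exact Real.log_le_log (by positivity) h4
      have h6 := Real.log_two_gt_d9
      have h7 : (0 : ℝ) ≤ Nat.log 2 x := Nat.cast_nonneg _
      nlinarith
    calc (Nat.sqrt x : ℝ) * (Nat.log 2 x : ℝ) ≤ Real.sqrt x * (4 * Real.log x) :=
          mul_le_mul h2 h3 (Nat.cast_nonneg _) (Real.sqrt_nonneg _)
      _ = 4 * Real.sqrt x * Real.log x := by ring

end Pool.Agent.RHN
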