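import Pool.Agent.RHN.Lin
import Pool.Agent.RHN.Grid
import Pool.Agent.RHN.PPow

/-!
# RHN / MM: common part of Maj and Min (parameters, Linnik decomposition of a sum over primes, grid for the powers of `U`)
-/

set_option autoImplicit false

namespace Pool.Agent.RHN

open Finset Filter

theorem mm_small (C : ℕ) {c : ℝ} (hc : 0 < c) :
    ∀ᶠ x : ℕ in atTop, Real.log x ^ C ≤ c * x := by
  have h := (Real.isLittleO_pow_log_id_atTop (n := C)).def hc
  have h2 := tendsto_natCast_atTop_atTop.eventually h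
  filter_upwards [h2, eventually_ge_atTop 1] with x hx hx1
  have h3 : 0 ≤ Real.log (x : ℝ) := Real.log_nonneg (by exact_mod_cast hx1)
  rw [Real.norm_of_nonneg (pow_nonneg h3 C), id, Real.norm_of_nonneg (Nat.cast_nonneg x)] at hx
  exact hx

theorem mm_log (A : ℝ) : ∀ᶠ x : ℕ in atTop, A ≤ Real.log x :=
  (Real.tendsto_log_atTop.comp tendsto_natCast_atTop_atTop).eventually_ge_atTop A

theorem mm_sqrt (C : ℕ) {c : ℝ} (hc : 0 < c) :
    ∀ᶠ x : ℕ in atTop, Real.log x ^ C ≤ c * Real.sqrt x := by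
  filter_upwards [mm_small (2 * C) (c := c ^ 2) (by positivity), eventually_ge_atTop 1] with x hx hx1
  have h3 : 0 ≤ Real.log (x : ℝ) := Real.log_nonneg (by exact_mod_cast hx1)
  refine (pow_le_pow_iff_left₀ (pow_nonneg h3 C) (by positivity) two_ne_zero).mp ?_
  rw [← pow_mul, mul_pow, Real.sq_sqrt (Nat.cast_nonneg x), mul_comm C 2]
  exact hx

/-- the sieving level `z ≍ x^{1/s}` -/
theorem mm_z (s : ℕ) (hs : 1 ≤ s) : ∃ zf : ℕ → ℕ, (∀ x, zf x ^ s ≤ x ∧ x < (zf x + 1) ^ s) ∧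
    Tendsto zf atTop atTop ∧
    (∀ x : ℕ, 1 ≤ x → 2 ≤ zf x → Real.log x ≤ 2 * s * Real.log (zf x)) ∧
    ∀ C : ℕ, ∀ c : ℝ, 0 < c → ∀ᶠ x : ℕ in atTop, Real.log x ^ C ≤ c * Real.sqrt (zf x) := by
  have hex : ∀ x : ℕ, ∃ z : ℕ, z ^ s ≤ x ∧ x < (z + 1) ^ s := by
    intro x
    have h0 : ∃ z : ℕ, x < (z + 1) ^ s :=
      ⟨x, (Nat.lt_succ_self x).trans_le (Nat.le_self_pow (by omega) _)⟩
    classical
    refine ⟨Nat.find h0, ?_, Nat.find_spec h0⟩
    rcases Nat.eq_zero_or_pos (Nat.find h0) with h | h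
    · rw [h, zero_pow (by omega)]
      exact Nat.zero_le _
    · have h1 := Nat.find_min h0 (m := Nat.find h0 - 1) (by omega)
      push Not at h1
      rwa [Nat.sub_add_cancel h] at h1
  choose zf hz using hex
  have hlim : Tendsto zf atTop atTop := by
    rw [tendsto_atTop]
    intro N
    filter_upwards [eventually_ge_atTop (N ^ s)] with x hx
    by_contra hlt
    push Not at hlt
    have h1 : (zf x + 1) ^ s ≤ N ^ s := Nat.pow_le_pow_left hlt s
    have h2 := (hz x).2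
    omega
  have hlog : ∀ x : ℕ, 1 ≤ x → 2 ≤ zf x → Real.log x ≤ 2 * s * Real.log (zf x) := by
    intro x hx h2
    have h3 : (x : ℝ) ≤ ((zf x : ℝ) ^ 2) ^ s := by
      have h4 : x ≤ ((zf x) ^ 2) ^ s := by
        refine (hz x).2.le.trans (Nat.pow_le_pow_left ?_ s)
        nlinarith
      exact_mod_cast h4
    have h5 : (0 : ℝ) < x := by exact_mod_cast hx
    have h6 := Real.log_le_log h5 h3
    rw [Real.log_pow, Real.log_pow] at h6
    push_cast at h6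
    linarith
  refine ⟨zf, hz, hlim, hlog, fun C c hc => ?_⟩
  have hc' : 0 < c / (2 * (s : ℝ)) ^ C := by
    have : (0 : ℝ) < s := by exact_mod_cast hs
    positivity
  filter_upwards [hlim.eventually (mm_sqrt C hc'), hlim.eventually_ge_atTop 2,
    eventually_ge_atTop 1] with x h1 h2 h3
  have h4 := hlog x h3 h2
  have hs0 : (0 : ℝ) < s := by exact_mod_cast hs
  have h5 : 0 ≤ Real.log (x : ℝ) := Real.log_nonneg (by exact_mod_cast h3)
  calc Real.log x ^ C ≤ (2 * s * Real.log (zf x)) ^ C := pow_le_pow_left₀ h5 h4 C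
    _ = (2 * (s : ℝ)) ^ C * Real.log (zf x) ^ C := mul_pow _ _ _
    _ ≤ (2 * (s : ℝ)) ^ C * (c / (2 * (s : ℝ)) ^ C * Real.sqrt (zf x)) :=
        mul_le_mul_of_nonneg_left h1 (by positivity)
    _ = c * Real.sqrt (zf x) := by
        have : (2 * (s : ℝ)) ^ C ≠ 0 := by positivity
        field_simp

/-- the sieving exponent -/
theorem mm_b (A : ℝ) {c : ℝ} (hc : 0 < c) : ∃ b : ℕ, 1 ≤ b ∧
    ((8 * b + 16 : ℕ) : ℝ) * (A * (1 / 2) ^ b) ≤ c := by
  have h1 : Tendsto (fun n : ℕ => (n : ℝ) * (1 / 2 : ℝ) ^ n) atTop (nhds 0) :=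
    tendsto_self_mul_const_pow_of_lt_one (by norm_num) (by norm_num)
  have h2 : Tendsto (fun n : ℕ => (1 / 2 : ℝ) ^ n) atTop (nhds 0) :=
    tendsto_pow_atTop_nhds_zero_of_lt_one (by norm_num) (by norm_num)
  have h3 : Tendsto (fun n : ℕ => 8 * A * ((n : ℝ) * (1 / 2 : ℝ) ^ n) + 16 * A * (1 / 2 : ℝ) ^ n) atTop
      (nhds (8 * A * 0 + 16 * A * 0)) := (h1.const_mul (8 * A)).add (h2.const_mul (16 * A))
  rw [mul_zero, mul_zero, add_zero] at h3
  obtain ⟨b, hb1, hb2⟩ := ((h3.eventually (gt_mem_nhds hc)).and (eventually_ge_atTop 1)).exists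
  refine ⟨b, hb2, ?_⟩
  push_cast
  have : (8 * (b : ℝ) + 16) * (A * (1 / 2) ^ b) =
      8 * A * ((b : ℝ) * (1 / 2 : ℝ) ^ b) + 16 * A * (1 / 2 : ℝ) ^ b := by ring
  rw [this]
  exact hb1.le

/-- Linnik decomposition of a sum over primes -/
theorem mm_dec (f : ℕ → ℂ) (hf : ∀ n, ‖f n‖ ≤ 1) {z y h x J : ℕ} (hx : 2 ≤ x)
    (hz : 1 ≤ z) (hxy : y + h ≤ x) (hJ : x < (z + 1) ^ (J + 1)) :
    ‖∑ p ∈ (Ioc y (y + h)).filter Nat.Prime, f p‖ ≤
      ∑ j ∈ Icc 1 J, ‖∑ n ∈ Ioc y (y + h), (((UU z ^ j) n : ℝ) : ℂ) * f n‖ +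
        (z + 4 * Real.sqrt x * Real.log x) := by
  classical
  have h1 : ∀ n ∈ Ioc y (y + h), (if Rough z n then ArithmeticFunction.vonMangoldt n / Real.log n
      else 0 : ℝ) = ∑ j ∈ Icc 1 J, ((-1 : ℝ) ^ (j + 1) / j) * (UU z ^ j) n := by
    intro n hn
    obtain ⟨hn1, hn2⟩ := mem_Ioc.mp hn
    have hn0 : 1 ≤ n := by omega
    have hlt : n < (z + 1) ^ (J + 1) := by omega
    have h2 := lin_id hn0 hlt
    rcases Nat.eq_or_lt_of_le hn0 with h3 | h3
    · subst h3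
      have h4 : ∑ j ∈ Icc 1 J, ((-1 : ℝ) ^ (j + 1) / j) * (UU z ^ j) 1 = 0 := by
        refine Finset.sum_eq_zero fun j hj => ?_
        have hj1 := (mem_Icc.mp hj).1
        have h5 : (UU z ^ j) 1 = 0 := by
          by_contra h6
          have h7 := (pow_supp h6).1
          have h8 : z + 1 ≤ (z + 1) ^ j := Nat.le_self_pow (by omega) _
          omega
        rw [h5, mul_zero]
      rw [h4]
      simp
    · have hlog : 0 < Real.log (n : ℝ) := Real.log_pos (by exact_mod_cast h3)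
      have h4 : ∑ j ∈ Icc 1 J, ((-1 : ℝ) ^ (j + 1) / j) * (UU z ^ j) n =
          (if Rough z n then ArithmeticFunction.vonMangoldt n else 0) / Real.log n := by
        rw [← h2]
        field_simp
      rw [h4]
      split_ifs
      · rfl
      · rw [zero_div]
  have h2 : ∑ n ∈ Ioc y (y + h), ((if Rough z n then ArithmeticFunction.vonMangoldt n / Real.log n
      else 0 : ℝ) : ℂ) * f n =
      ∑ j ∈ Icc 1 J, (((-1 : ℝ) ^ (j + 1) / j : ℝ) : ℂ) *
        ∑ n ∈ Ioc y (y + h), (((UU z ^ j) n : ℝ) : ℂ) * f n := by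
    simp_rw [Finset.mul_sum]
    rw [Finset.sum_comm]
    refine Finset.sum_congr rfl fun n hn => ?_
    rw [h1 n hn]
    push_cast
    rw [Finset.sum_mul]
    refine Finset.sum_congr rfl fun j _ => ?_
    ring
  have h3 := pp_err f hf (z := z) hx hxy
  rw [h2] at h3
  have h4 : ‖∑ j ∈ Icc 1 J, (((-1 : ℝ) ^ (j + 1) / j : ℝ) : ℂ) *
        ∑ n ∈ Ioc y (y + h), (((UU z ^ j) n : ℝ) : ℂ) * f n‖ ≤
      ∑ j ∈ Icc 1 J, ‖∑ n ∈ Ioc y (y + h), (((UU z ^ j) n : ℝ) : ℂ) * f n‖ := by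
    refine (norm_sum_le _ _).trans (Finset.sum_le_sum fun j hj => ?_)
    have hj1 := (mem_Icc.mp hj).1
    have hj : (1 : ℝ) ≤ j := by exact_mod_cast hj1
    rw [norm_mul, Complex.norm_real, Real.norm_eq_abs, abs_div, abs_pow, abs_neg, abs_one, one_pow,
      abs_of_nonneg (by linarith : (0 : ℝ) ≤ j)]
    have h5 : 1 / (j : ℝ) ≤ 1 := by
      rw [div_le_one (by linarith)]
      exact hj
    exact mul_le_of_le_one_left (norm_nonneg _) h5
  have h5 := norm_sub_norm_le (∑ p ∈ (Ioc y (y + h)).filter Nat.Prime, f p)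
    (∑ j ∈ Icc 1 J, (((-1 : ℝ) ^ (j + 1) / j : ℝ) : ℂ) *
        ∑ n ∈ Ioc y (y + h), (((UU z ^ j) n : ℝ) : ℂ) * f n)
  rw [norm_sub_rev] at h5
  linarith

/-- the restricted power -/
noncomputable def Vj (z j x : ℕ) (n : ℕ) : ℝ := if n ≤ x then (UU z ^ (j - 1)) n else 0

theorem Vj_abs {z J x : ℕ} (hJ : x < (z + 1) ^ (J + 1)) {j : ℕ} (hj : j ≤ J) (n : ℕ) :
    |Vj z j x n| ≤ (2 : ℝ) ^ (J * J) := by
  unfold Vj
  split_ifs with h
  · rw [abs_of_nonneg (pow_nonneg' z (j - 1) n)]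
    refine (pow_le' (h.trans_lt hJ) (j - 1)).trans ?_
    exact pow_le_pow_right₀ (by norm_num) (Nat.mul_le_mul_left _ (by omega))
  · rw [abs_zero]
    positivity

theorem Vj_supp {z j x : ℕ} (hj : 2 ≤ j) {n : ℕ} (h : Vj z j x n ≠ 0) : z < n ∧ Rough z n := by
  unfold Vj at h
  split_ifs at h with h1
  · have h2 := pow_supp h
    have h3 : z + 1 ≤ (z + 1) ^ (j - 1) := Nat.le_self_pow (by omega) _
    exact ⟨by omega, h2.2⟩
  · exact absurd rfl h

theorem UU_supp {z n : ℕ} (h : UU z n ≠ 0) : z < n ∧ Rough z n := by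
  have h1 : (UU z ^ 1) n ≠ 0 := by rwa [pow_one]
  have h2 := pow_supp h1
  rw [pow_one] at h2
  exact ⟨by omega, h2.2⟩

theorem UU_abs (z n : ℕ) : |UU z n| ≤ 1 := by
  classical
  rw [UU_apply]
  split_ifs <;> simp

/-- grid decomposition for the powers of `U` -/
theorem mm_grid {z y h x J j : ℕ} {κ E : ℝ} (hz : 2 ≤ z) (hκ : 0 < κ) (hκ4 : κ ≤ 1 / 4) (hE : 0 ≤ E)
    (hJ : x < (z + 1) ^ (J + 1)) (hj2 : 2 ≤ j) (hjJ : j ≤ J) (hxy : y + h ≤ x)
    (f : ℕ → ℂ) (hf : ∀ n, ‖f n‖ ≤ 1)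
    (hblk : ∀ s t : ℝ, (z : ℝ) ≤ s → (z : ℝ) ≤ t → (y : ℝ) ≤ s * t → s * t ≤ (y : ℝ) + h →
      ‖∑ m ∈ Ioc ⌊s⌋₊ ⌊(1 + κ) * s⌋₊, ∑ n ∈ Ioc ⌊t⌋₊ ⌊(1 + κ) * t⌋₊,
        ((UU z m * Vj z j x n : ℝ) : ℂ) * f (m * n)‖ ≤ E * (κ * s) * (κ * t)) :
    ‖∑ e ∈ Ioc y (y + h), (((UU z ^ j) e : ℝ) : ℂ) * f e‖ ≤
      2 * E * h * Real.log ((y : ℝ) + h) + (2 : ℝ) ^ (J * J) * (5 * κ * ((y : ℝ) + h) + 2) := by
  have hpow : ∀ e : ℕ, 1 ≤ e → e ≤ x → (UU z ^ j) e = ∑ d ∈ e.divisors, UU z d * Vj z j x (e / d) := by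
    intro e he1 hex
    have h1 : UU z ^ j = UU z * UU z ^ (j - 1) := by
      rw [← pow_succ']
      congr 1
      omega
    rw [h1, ArithmeticFunction.mul_apply,
      Nat.sum_divisorsAntidiagonal (fun a b => UU z a * (UU z ^ (j - 1)) b)]
    refine Finset.sum_congr rfl fun d hd => ?_
    have h2 : e / d ≤ x := (Nat.div_le_self e d).trans hex
    unfold Vj
    rw [if_pos h2]
  have hT : ∀ e : ℕ, 1 ≤ e → e ≤ y + h →
      ∑ d ∈ e.divisors, |UU z d| * |Vj z j x (e / d)| ≤ (2 : ℝ) ^ (J * J) := by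
    intro e he1 he2
    have hex : e ≤ x := he2.trans hxy
    have h1 : ∑ d ∈ e.divisors, |UU z d| * |Vj z j x (e / d)| = (UU z ^ j) e := by
      rw [hpow e he1 hex]
      refine Finset.sum_congr rfl fun d _ => ?_
      have h2 : 0 ≤ UU z d := by
        have := pow_nonneg' z 1 d
        rwa [pow_one] at this
      have h3 : 0 ≤ Vj z j x (e / d) := by
        unfold Vj
        split_ifs
        · exact pow_nonneg' z _ _
        · exact le_rfl
      rw [abs_of_nonneg h2, abs_of_nonneg h3]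
    rw [h1]
    refine (pow_le' (hex.trans_lt hJ) j).trans ?_
    exact pow_le_pow_right₀ (by norm_num) (Nat.mul_le_mul_left _ hjJ)
  have h1 := grid hz hκ hκ4 hE (T := (2 : ℝ) ^ (J * J)) (by positivity) f hf (UU z) (Vj z j x)
    (fun n hn => (UU_supp hn).1) (fun n hn => (Vj_supp hj2 hn).1) hT hblk
  refine le_trans (le_of_eq ?_) h1
  congr 1
  refine Finset.sum_congr rfl fun e he => ?_
  obtain ⟨he1, he2⟩ := mem_Ioc.mp he
  rw [hpow e (by omega) (he2.trans hxy)]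

end Pool.Agent.RHN
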