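import Pool.Agent.RHN.Defs

/-!
# RHN / EHz: the spectral measure of a set

PROOF.  Let `c n = μ.real (A ∩ T^{-|n|} A)`.  For `j, k ≥ 0`: `μ.real (T^{-j} A ∩ T^{-k} A) = c (j - k)` (invariance: `T^{-j}A ∩ T^{-k}A = T^{-j}(A ∩ T^{-(k-j)}A)` for `j ≤ k`).
For `N ≥ 1` let `D_N(ξ) = (1/N) ∑_{j,k<N} c(j-k) fourier (k-j) ξ = (1/N) ∫_X |∑_{j<N} fourier (-j) ξ · 1_A(T^j x)|² dμ(x) ≥ 0`, a trigonometric polynomial, and
`σ_N = volume.withDensity D_N` on `UnitAddCircle` (`volume` is the Haar probability measure, `∫ fourier m = [m = 0]`).  `∫ fourier n dσ_N = max(0, 1 - |n|/N) c n`.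
If `c 0 = 0`: all `c n = 0` (`0 ≤ c n ≤ c 0`), `σ = 0`.  Otherwise `σ_N/c 0` are probability measures on the compact metrizable space `UnitAddCircle`; `ProbabilityMeasure` of a compact
space is compact (instance in `Mathlib.MeasureTheory.Measure.Prokhorov`; compare `Pool.Agent.VINO.Riesz`), so there is a cluster point `ρ`;
`ν ↦ ∫ fourier n dν` is continuous, and `∫ fourier n d(σ_N/c 0) → c n/c 0`, so `∫ fourier n dρ = c n/c 0`.  `σ = c 0 • ρ`.
-/

set_option autoImplicit false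

namespace Pool.Agent.RHN

open MeasureTheory Filter Topology

private lemma ehz_int (n : ℤ) :
    ∫ t, fourier n t ∂(AddCircle.haarAddCircle : Measure UnitAddCircle) =
      if n = 0 then 1 else 0 := by
  split_ifs with h
  · rw [h]
    have h1 : (fun t : UnitAddCircle => (fourier 0 t : ℂ)) = fun _ => 1 := by
      ext t
      exact fourier_zero
    rw [h1, integral_const, probReal_univ, one_smul]
  · exact integral_eq_zero_of_add_right_eq_neg (μ := AddCircle.haarAddCircle)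
      (fourier_add_half_inv_index h one_pos)

/-- the number of pairs with a given difference -/
private lemma ehz_count (N n : ℕ) :
    ∑ j ∈ Finset.range N, ∑ k ∈ Finset.range N, (if ((k : ℤ) - j + n = 0) then (1 : ℂ) else 0) =
      ((N - n : ℕ) : ℂ) := by
  rw [Finset.sum_comm]
  have h1 : ∀ k ∈ Finset.range N, ∑ j ∈ Finset.range N,
      (if ((k : ℤ) - j + n = 0) then (1 : ℂ) else 0) = if k < N - n then 1 else 0 := by
    intro k _
    have h2 : ∀ j ∈ Finset.range N, (if ((k : ℤ) - j + n = 0) then (1 : ℂ) else 0) =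
        if k + n = j then 1 else 0 := by
      intro j _
      congr 1
      apply propext
      omega
    rw [Finset.sum_congr rfl h2, Finset.sum_ite_eq]
    simp only [Finset.mem_range]
    congr 1
    apply propext
    omega
  rw [Finset.sum_congr rfl h1, ← Finset.sum_filter, Finset.sum_const, nsmul_eq_mul, mul_one]
  congr 2
  have h3 : (Finset.range N).filter (fun k => k < N - n) = Finset.range (N - n) := by
    ext k
    simp only [Finset.mem_filter, Finset.mem_range]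
    omega
  rw [h3, Finset.card_range]

private lemma ehz_integrable {f : UnitAddCircle → ℂ} (hf : Continuous f) :
    Integrable f AddCircle.haarAddCircle :=
  hf.integrable_of_hasCompactSupport (HasCompactSupport.of_compactSpace f)

private lemma ehz_integrableR {f : UnitAddCircle → ℝ} (hf : Continuous f) :
    Integrable f AddCircle.haarAddCircle :=
  hf.integrable_of_hasCompactSupport (HasCompactSupport.of_compactSpace f)

/-- the trigonometric polynomial -/
private noncomputable def PN (c : ℤ → ℝ) (N : ℕ) (ξ : UnitAddCircle) : ℂ :=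
  (N : ℂ)⁻¹ * ∑ j ∈ Finset.range N, ∑ k ∈ Finset.range N,
    (c ((j : ℤ) - k) : ℂ) * fourier ((k : ℤ) - j) ξ

private lemma PN_cont (c : ℤ → ℝ) (N : ℕ) : Continuous (PN c N) := by
  unfold PN
  refine continuous_const.mul (continuous_finsetSum _ fun j _ => continuous_finsetSum _ fun k _ => ?_)
  exact continuous_const.mul (fourier _).continuous

private lemma PN_int (c : ℤ → ℝ) (N n : ℕ) :
    ∫ ξ, PN c N ξ * fourier (n : ℤ) ξ ∂(AddCircle.haarAddCircle : Measure UnitAddCircle) =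
      (N : ℂ)⁻¹ * (((N - n : ℕ) : ℂ) * (c n : ℂ)) := by
  have h1 : ∀ ξ : UnitAddCircle, PN c N ξ * fourier (n : ℤ) ξ = (N : ℂ)⁻¹ *
      ∑ j ∈ Finset.range N, ∑ k ∈ Finset.range N,
        (c ((j : ℤ) - k) : ℂ) * fourier ((k : ℤ) - j + n) ξ := by
    intro ξ
    unfold PN
    rw [mul_assoc, Finset.sum_mul]
    congr 1
    refine Finset.sum_congr rfl fun j _ => ?_
    rw [Finset.sum_mul]
    refine Finset.sum_congr rfl fun k _ => ?_
    rw [fourier_add, mul_assoc]
  simp only [h1]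
  rw [integral_const_mul]
  congr 1
  rw [integral_finsetSum _ fun j _ => ?_]
  · have h2 : ∀ j ∈ Finset.range N, ∫ ξ, ∑ k ∈ Finset.range N,
        (c ((j : ℤ) - k) : ℂ) * fourier ((k : ℤ) - j + n) ξ
          ∂(AddCircle.haarAddCircle : Measure UnitAddCircle) =
        ∑ k ∈ Finset.range N, (c n : ℂ) * (if ((k : ℤ) - j + n = 0) then (1 : ℂ) else 0) := by
      intro j _
      rw [integral_finsetSum _ fun k _ => ?_]
      · refine Finset.sum_congr rfl fun k _ => ?_
        rw [integral_const_mul, ehz_int]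
        by_cases h : ((k : ℤ) - j + n = 0)
        · rw [if_pos h, show (j : ℤ) - k = n by omega]
        · rw [if_neg h, mul_zero, mul_zero]
      · exact ehz_integrable (continuous_const.mul (fourier _).continuous)
    rw [Finset.sum_congr rfl h2]
    simp only [← Finset.mul_sum]
    rw [ehz_count, mul_comm]
  · exact ehz_integrable (continuous_finsetSum _ fun k _ =>
      continuous_const.mul (fourier _).continuous)

section corr

variable {X : Type} [MeasurableSpace X] (μ : Measure X) [IsProbabilityMeasure μ] (T : X → X)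
    (hT : MeasurePreserving T μ μ) (A : Set X) (hA : MeasurableSet A)

include hT hA

omit [IsProbabilityMeasure μ] in
private lemma corr (j k : ℕ) : μ.real ((T^[j]) ⁻¹' A ∩ (T^[k]) ⁻¹' A) =
    μ.real (A ∩ (T^[((j : ℤ) - k).natAbs]) ⁻¹' A) := by
  have key : ∀ j k : ℕ, j ≤ k → μ.real ((T^[j]) ⁻¹' A ∩ (T^[k]) ⁻¹' A) =
      μ.real (A ∩ (T^[k - j]) ⁻¹' A) := by
    intro j k hjk
    have h1 : (T^[j]) ⁻¹' A ∩ (T^[k]) ⁻¹' A = (T^[j]) ⁻¹' (A ∩ (T^[k - j]) ⁻¹' A) := by
      rw [Set.preimage_inter, ← Set.preimage_comp, ← Function.iterate_add, Nat.sub_add_cancel hjk]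
    have h2 : MeasurableSet (A ∩ (T^[k - j]) ⁻¹' A) :=
      hA.inter ((hT.iterate (k - j)).measurable hA)
    rw [h1, measureReal_def, measureReal_def, (hT.iterate j).measure_preimage h2.nullMeasurableSet]
  rcases le_total j k with h | h
  · rw [key j k h]
    congr 4
    omega
  · rw [Set.inter_comm, key k j h]
    congr 4
    omega

private lemma PN_nonneg (N : ℕ) (ξ : UnitAddCircle) :
    ∃ d : ℝ, 0 ≤ d ∧ PN (fun n => μ.real (A ∩ (T^[n.natAbs]) ⁻¹' A)) N ξ = d := by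
  obtain ⟨E, hE⟩ : ∃ E : ℕ → Set X, ∀ j, E j = (T^[j]) ⁻¹' A := ⟨_, fun _ => rfl⟩
  have hEm : ∀ j, MeasurableSet (E j) := fun j => by
    rw [hE]; exact (hT.iterate j).measurable hA
  obtain ⟨S, hS⟩ : ∃ S : X → ℂ, ∀ x, S x = ∑ j ∈ Finset.range N,
    fourier (-(j : ℤ)) ξ * (E j).indicator (fun _ => (1 : ℂ)) x := ⟨_, fun _ => rfl⟩
  refine ⟨(N : ℝ)⁻¹ * ∫ x, Complex.normSq (S x) ∂μ,
    mul_nonneg (by positivity) (integral_nonneg fun x => Complex.normSq_nonneg _), ?_⟩
  have h1 : ∀ x, ((Complex.normSq (S x) : ℝ) : ℂ) = ∑ j ∈ Finset.range N, ∑ k ∈ Finset.range N,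
      fourier ((k : ℤ) - j) ξ * (E j ∩ E k).indicator (fun _ => (1 : ℂ)) x := by
    intro x
    rw [← Complex.mul_conj, hS, map_sum, Finset.sum_mul_sum]
    refine Finset.sum_congr rfl fun j _ => Finset.sum_congr rfl fun k _ => ?_
    rw [map_mul, ← fourier_neg, neg_neg, sub_eq_neg_add, fourier_add]
    have h2 : (starRingEnd ℂ) ((E k).indicator (fun _ => (1 : ℂ)) x) =
        (E k).indicator (fun _ => (1 : ℂ)) x := by
      by_cases h : x ∈ E k
      · rw [Set.indicator_of_mem h, map_one]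
      · rw [Set.indicator_of_notMem h, map_zero]
    have h3 : (E j ∩ E k).indicator (fun _ => (1 : ℂ)) x =
        (E j).indicator (fun _ => (1 : ℂ)) x * (E k).indicator (fun _ => (1 : ℂ)) x := by
      by_cases h : x ∈ E j
      · by_cases h' : x ∈ E k
        · rw [Set.indicator_of_mem h, Set.indicator_of_mem h', Set.indicator_of_mem (show x ∈ E j ∩ E k from ⟨h, h'⟩), mul_one]
        · rw [Set.indicator_of_notMem h', Set.indicator_of_notMem (fun h2 : x ∈ E j ∩ E k => h' h2.2), mul_zero]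
      · rw [Set.indicator_of_notMem h, Set.indicator_of_notMem (fun h2 : x ∈ E j ∩ E k => h h2.1), zero_mul]
    rw [h2, h3]
    ring
  have h4 : ∀ j k : ℕ, Integrable (fun x => fourier ((k : ℤ) - j) ξ *
      (E j ∩ E k).indicator (fun _ => (1 : ℂ)) x) μ := by
    intro j k
    exact ((integrable_const (1 : ℂ)).indicator ((hEm j).inter (hEm k))).const_mul _
  have h5 : ((∫ x, Complex.normSq (S x) ∂μ : ℝ) : ℂ) = ∑ j ∈ Finset.range N,
      ∑ k ∈ Finset.range N, fourier ((k : ℤ) - j) ξ * (μ.real (E j ∩ E k) : ℂ) := by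
    rw [← integral_complex_ofReal]
    simp only [h1]
    rw [integral_finsetSum _ fun j _ => integrable_finsetSum _ fun k _ => h4 j k]
    refine Finset.sum_congr rfl fun j _ => ?_
    rw [integral_finsetSum _ fun k _ => h4 j k]
    refine Finset.sum_congr rfl fun k _ => ?_
    rw [integral_const_mul, integral_indicator_const _ ((hEm j).inter (hEm k))]
    simp
  rw [Complex.ofReal_mul, h5]
  unfold PN
  push_cast
  congr 1
  refine Finset.sum_congr rfl fun j _ => Finset.sum_congr rfl fun k _ => ?_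
  rw [hE, hE, corr μ T hT A hA, mul_comm]

end corr

theorem herglotz {X : Type} [MeasurableSpace X] (μ : Measure X) [IsProbabilityMeasure μ] (T : X → X)
    (hT : MeasurePreserving T μ μ) (A : Set X) (hA : MeasurableSet A) :
    ∃ σ : Measure UnitAddCircle, IsFiniteMeasure σ ∧ ∀ n : ℤ,
      ∫ ξ, fourier n ξ ∂σ = ((μ.real (A ∩ (T^[n.natAbs]) ⁻¹' A) : ℝ) : ℂ) := by
  obtain ⟨c, hc⟩ : ∃ c : ℤ → ℝ, c = fun n => μ.real (A ∩ (T^[n.natAbs]) ⁻¹' A) := ⟨_, rfl⟩
  have hc' : ∀ n : ℤ, μ.real (A ∩ (T^[n.natAbs]) ⁻¹' A) = c n := fun n => by rw [hc]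
  have hcneg : ∀ n : ℤ, c (-n) = c n := fun n => by rw [hc]; simp only [Int.natAbs_neg]
  have hcnn : ∀ n, 0 ≤ c n := fun n => by rw [hc]; exact measureReal_nonneg
  have hcle : ∀ n, c n ≤ c 0 := fun n => by
    rw [hc]
    refine measureReal_mono ?_
    intro x hx
    exact ⟨hx.1, hx.1⟩
  -- it is enough to treat natural numbers
  have hred : ∀ σ : Measure UnitAddCircle, (∀ n : ℕ, ∫ ξ, fourier (n : ℤ) ξ ∂σ = (c n : ℂ)) →
      ∀ n : ℤ, ∫ ξ, fourier n ξ ∂σ = ((μ.real (A ∩ (T^[n.natAbs]) ⁻¹' A) : ℝ) : ℂ) := by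
    intro σ hσ n
    rw [hc']
    obtain ⟨m, hm⟩ := Int.eq_nat_or_neg n
    rcases hm with rfl | rfl
    · exact hσ m
    · simp only [fourier_neg]
      rw [integral_conj, hσ m, Complex.conj_ofReal, hcneg]
  by_cases h0 : c 0 = 0
  · refine ⟨0, inferInstance, hred 0 fun n => ?_⟩
    have : c n = 0 := le_antisymm (h0 ▸ hcle n) (hcnn n)
    rw [integral_zero_measure, this, Complex.ofReal_zero]
  have hpos : 0 < c 0 := lt_of_le_of_ne (hcnn 0) (Ne.symm h0)
  -- densities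
  obtain ⟨D, hD⟩ : ∃ D : ℕ → UnitAddCircle → ℝ, ∀ N ξ, D N ξ = (c 0)⁻¹ * (PN c (N + 1) ξ).re :=
    ⟨_, fun _ _ => rfl⟩
  have hDnn : ∀ N ξ, 0 ≤ D N ξ := by
    intro N ξ
    obtain ⟨d, hd, he⟩ := PN_nonneg μ T hT A hA (N + 1) ξ
    rw [← hc] at he
    rw [hD, he, Complex.ofReal_re]
    positivity
  have hDP : ∀ N ξ, ((D N ξ : ℝ) : ℂ) = (c 0 : ℂ)⁻¹ * PN c (N + 1) ξ := by
    intro N ξ
    obtain ⟨d, hd, he⟩ := PN_nonneg μ T hT A hA (N + 1) ξ
    rw [← hc] at he
    rw [hD, he, Complex.ofReal_re]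
    push_cast
    rfl
  have hDc : ∀ N, Continuous (D N) := by
    intro N
    have : D N = fun ξ => (c 0)⁻¹ * (PN c (N + 1) ξ).re := funext (hD N)
    rw [this]
    exact continuous_const.mul (Complex.continuous_re.comp (PN_cont c (N + 1)))
  have hint : ∀ N (n : ℕ), ∫ ξ, (D N ξ : ℂ) * fourier (n : ℤ) ξ
      ∂(AddCircle.haarAddCircle : Measure UnitAddCircle) =
      (c 0 : ℂ)⁻¹ * (((N + 1 : ℕ) : ℂ)⁻¹ * (((N + 1 - n : ℕ) : ℂ) * (c n : ℂ))) := by
    intro N n
    rw [← PN_int c (N + 1) n, ← integral_const_mul]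
    refine integral_congr_ae (Filter.Eventually.of_forall fun ξ => ?_)
    simp only [hDP]
    ring
  obtain ⟨R, hR⟩ : ∃ R : ℕ → Measure UnitAddCircle, ∀ N, R N =
    (AddCircle.haarAddCircle : Measure UnitAddCircle).withDensity fun ξ => ENNReal.ofReal (D N ξ) :=
    ⟨_, fun _ => rfl⟩
  have hRint : ∀ N (n : ℕ), ∫ ξ, fourier (n : ℤ) ξ ∂(R N) =
      (c 0 : ℂ)⁻¹ * (((N + 1 : ℕ) : ℂ)⁻¹ * (((N + 1 - n : ℕ) : ℂ) * (c n : ℂ))) := by
    intro N n
    rw [hR, integral_withDensity_eq_integral_toReal_smul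
      (show Measurable fun ξ => ENNReal.ofReal (D N ξ) from
        ENNReal.measurable_ofReal.comp (hDc N).measurable)
      (Filter.Eventually.of_forall fun ξ => ENNReal.ofReal_lt_top), ← hint N n]
    refine integral_congr_ae (Filter.Eventually.of_forall fun ξ => ?_)
    simp only
    rw [ENNReal.toReal_ofReal (hDnn N ξ), Complex.real_smul]
  have hRprob : ∀ N, IsProbabilityMeasure (R N) := by
    intro N
    constructor
    rw [hR, withDensity_apply _ MeasurableSet.univ, Measure.restrict_univ,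
      ← ofReal_integral_eq_lintegral_ofReal (ehz_integrableR (hDc N))
        (Filter.Eventually.of_forall fun ξ => hDnn N ξ)]
    have h1 := hint N 0
    have h2 : (fun ξ : UnitAddCircle => (D N ξ : ℂ) * fourier ((0 : ℕ) : ℤ) ξ) =
        fun ξ => (D N ξ : ℂ) := by
      funext ξ
      rw [Nat.cast_zero, fourier_zero, mul_one]
    rw [h2, integral_complex_ofReal] at h1
    have h3 : (c 0 : ℂ)⁻¹ * (((N + 1 : ℕ) : ℂ)⁻¹ * (((N + 1 - 0 : ℕ) : ℂ) * (c (0 : ℕ) : ℂ))) = 1 := by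
      have e1 : (c 0 : ℂ) ≠ 0 := by exact_mod_cast h0
      have e2 : ((N + 1 : ℕ) : ℂ) ≠ 0 := by exact_mod_cast Nat.succ_ne_zero N
      rw [Nat.sub_zero, Nat.cast_zero, inv_mul_cancel_left₀ e2, inv_mul_cancel₀ e1]
    rw [h3] at h1
    have h4 : ∫ ξ, D N ξ ∂(AddCircle.haarAddCircle : Measure UnitAddCircle) = 1 := by
      exact_mod_cast h1
    rw [h4, ENNReal.ofReal_one]
  -- cluster point
  obtain ⟨Q, hQ⟩ : ∃ Q : ℕ → ProbabilityMeasure UnitAddCircle, ∀ N, (Q N : Measure UnitAddCircle) =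
    R N := ⟨fun N => ⟨R N, hRprob N⟩, fun _ => rfl⟩
  obtain ⟨U, hU⟩ : ∃ U : Ultrafilter ℕ, (U : Filter ℕ) ≤ atTop :=
    ⟨hyperfilter ℕ, Nat.hyperfilter_le_atTop⟩
  obtain ⟨ρ, hlim⟩ : ∃ ρ : ProbabilityMeasure UnitAddCircle, Tendsto Q U (𝓝 ρ) :=
    ⟨(U.map Q).lim, (U.map Q).le_nhds_lim⟩
  have hρ : ∀ n : ℕ, ∫ ξ, fourier (n : ℤ) ξ ∂(ρ : Measure UnitAddCircle) = (c 0 : ℂ)⁻¹ * (c n : ℂ) := by
    intro n
    have h1 : Tendsto (fun N => ∫ ξ, fourier (n : ℤ) ξ ∂(Q N : Measure UnitAddCircle)) U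
        (𝓝 (∫ ξ, fourier (n : ℤ) ξ ∂(ρ : Measure UnitAddCircle))) :=
      (ProbabilityMeasure.tendsto_iff_forall_integral_rclike_tendsto ℂ).1 hlim
        (BoundedContinuousFunction.mkOfCompact (fourier (n : ℤ)))
    have h2 : Tendsto (fun N : ℕ => (c 0 : ℂ)⁻¹ * (((N + 1 : ℕ) : ℂ)⁻¹ *
        (((N + 1 - n : ℕ) : ℂ) * (c n : ℂ)))) atTop (𝓝 ((c 0 : ℂ)⁻¹ * (c n : ℂ))) := by
      have h3 : Tendsto (fun N : ℕ => ((N + 1 : ℕ) : ℝ)⁻¹ * ((N + 1 - n : ℕ) : ℝ)) atTop (𝓝 1) := by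
        have h4 : Tendsto (fun N : ℕ => 1 - (n : ℝ) * ((N + 1 : ℕ) : ℝ)⁻¹) atTop (𝓝 (1 - n * 0)) := by
          refine tendsto_const_nhds.sub (tendsto_const_nhds.mul ?_)
          exact tendsto_inv_atTop_zero.comp
            (tendsto_natCast_atTop_atTop.comp (tendsto_add_atTop_nat 1))
        rw [mul_zero, sub_zero] at h4
        refine h4.congr' ?_
        filter_upwards [eventually_ge_atTop n] with N hN
        have e2 : ((N + 1 : ℕ) : ℝ) ≠ 0 := by exact_mod_cast Nat.succ_ne_zero N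
        rw [Nat.cast_sub (by omega : n ≤ N + 1), mul_sub, inv_mul_cancel₀ e2]
        ring
      have h5 : Tendsto (fun N : ℕ => ((((N + 1 : ℕ) : ℝ)⁻¹ * ((N + 1 - n : ℕ) : ℝ) : ℝ) : ℂ))
          atTop (𝓝 ((1 : ℝ) : ℂ)) := (Complex.continuous_ofReal.tendsto 1).comp h3
      have h6 := (h5.const_mul ((c 0 : ℂ)⁻¹)).mul_const (c n : ℂ)
      rw [Complex.ofReal_one, mul_one] at h6
      refine h6.congr fun N => ?_
      push_cast
      ring
    have h3 : (fun N => ∫ ξ, fourier (n : ℤ) ξ ∂(Q N : Measure UnitAddCircle)) = fun N : ℕ =>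
        (c 0 : ℂ)⁻¹ * (((N + 1 : ℕ) : ℂ)⁻¹ * (((N + 1 - n : ℕ) : ℂ) * (c n : ℂ))) := by
      funext N
      rw [hQ, hRint]
    rw [h3] at h1
    exact tendsto_nhds_unique h1 (h2.mono_left hU)
  refine ⟨ENNReal.ofReal (c 0) • (ρ : Measure UnitAddCircle), ?_, hred _ fun n => ?_⟩
  · exact Measure.smul_finite _ ENNReal.ofReal_ne_top
  · rw [integral_smul_measure, hρ, ENNReal.toReal_ofReal hpos.le, Complex.real_smul]
    have e1 : (c 0 : ℂ) ≠ 0 := by exact_mod_cast h0
    rw [mul_inv_cancel_left₀ e1]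

end Pool.Agent.RHN
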