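import Pool.Agent.RHN.Defs

/-!
# RHN / ECrit: a criterion for sets of nice recurrence

PROOF.  `σ(𝒞) = ∑_{c ∈ 𝒞} σ {c}` (countable), so there is a finite `F ⊆ 𝒞` with `σ(𝒞 \ F) ≤ ε/4`.  Take `P`, `w` for `F`, `g_j(ξ) = ∑_p w_{j,p} fourier (s p) ξ`; `|g_j| ≤ 1`,
`g_j(0) = 1`, `Re g_j ≥ 0` on `F`, `g_j → 0` off `𝒞`.  `∫ Re g_j dσ = ∫_{\{0\}} + ∫_{F \ \{0\}} + ∫_{𝒞 \ (F ∪ \{0\})} + ∫_{𝒞ᶜ \ \{0\}} ≥ σ{0} + 0 - ε/4 + o(1)` (dominated convergence for
the last term; `0 ∉ 𝒞ᶜ` automatically, because `g_j(0) = 1`).  So for large `j ≥ N`: `∑_p w_{j,p} Re ∫ fourier (s p) dσ = ∫ Re g_j dσ > σ{0} - ε`, and as the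
weights are nonnegative with sum `1`, some `p ∈ P j` has `Re ∫ fourier (s p) dσ > σ{0} - ε`; `p` is prime and `p ≥ j ≥ N`.
-/

set_option autoImplicit false

namespace Pool.Agent.RHN

open MeasureTheory Filter Topology

/-- the hypothesis of the criterion -/
def CritHyp (s : ℕ → ℤ) (𝒞 : Set UnitAddCircle) : Prop :=
  ∀ F : Finset UnitAddCircle, (∀ ξ ∈ F, ξ ∈ 𝒞) → ∃ (P : ℕ → Finset ℕ) (w : ℕ → ℕ → ℝ),
    (∀ j, ∀ p ∈ P j, p.Prime ∧ j ≤ p ∧ 0 ≤ w j p) ∧ (∀ j, ∑ p ∈ P j, w j p = 1) ∧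
    (∀ ξ ∈ F, ∀ j, ∀ p ∈ P j, w j p ≠ 0 → 0 ≤ (fourier (s p) ξ).re) ∧
    ∀ ξ, ξ ∉ 𝒞 → Tendsto (fun j => ∑ p ∈ P j, (w j p : ℂ) * fourier (s p) ξ) atTop (𝓝 0)

/-- a countable set is a finite set up to a small measure -/
theorem crit_fin (𝒞 : Set UnitAddCircle) (h𝒞 : 𝒞.Countable) (σ : Measure UnitAddCircle)
    [IsFiniteMeasure σ] (ε : ℝ) (hε : 0 < ε) :
    ∃ F : Finset UnitAddCircle, (∀ ξ ∈ F, ξ ∈ 𝒞) ∧ σ.real (𝒞 \ F) ≤ ε := by
  classical
  rcases 𝒞.eq_empty_or_nonempty with h0 | h0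
  · refine ⟨∅, fun ξ h => absurd h (Finset.notMem_empty ξ), ?_⟩
    rw [h0]
    simp [hε.le]
  obtain ⟨f, hf⟩ := h𝒞.exists_eq_range h0
  have hanti : Antitone fun n : ℕ => 𝒞 \ ((Finset.range n).image f : Set UnitAddCircle) := by
    intro m n hmn
    refine Set.sdiff_subset_sdiff_right ?_
    intro x hx
    rw [Finset.mem_coe, Finset.mem_image] at hx ⊢
    obtain ⟨a, ha, hax⟩ := hx
    exact ⟨a, Finset.mem_range.2 ((Finset.mem_range.1 ha).trans_le hmn), hax⟩
  have hinter : ⋂ n : ℕ, 𝒞 \ ((Finset.range n).image f : Set UnitAddCircle) = ∅ := by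
    rw [Set.eq_empty_iff_forall_notMem]
    intro x hx
    rw [Set.mem_iInter] at hx
    have h1 : x ∈ 𝒞 := (hx 0).1
    rw [hf] at h1
    obtain ⟨n, rfl⟩ := h1
    refine (hx (n + 1)).2 ?_
    rw [Finset.mem_coe, Finset.mem_image]
    exact ⟨n, Finset.mem_range.2 (Nat.lt_succ_self n), rfl⟩
  have hmeas : ∀ n : ℕ, MeasurableSet (𝒞 \ ((Finset.range n).image f : Set UnitAddCircle)) :=
    fun n => h𝒞.measurableSet.diff (Finset.measurableSet _)
  have hlim : Tendsto (fun n : ℕ => σ (𝒞 \ ((Finset.range n).image f : Set UnitAddCircle)))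
      atTop (𝓝 0) := by
    have h1 := tendsto_measure_iInter_atTop (μ := σ) (fun n => (hmeas n).nullMeasurableSet) hanti
      ⟨0, measure_ne_top _ _⟩
    rw [hinter, measure_empty] at h1
    exact h1
  have hlim' : Tendsto
      (fun n : ℕ => σ.real (𝒞 \ ((Finset.range n).image f : Set UnitAddCircle)))
      atTop (𝓝 0) := by
    have h1 := (ENNReal.tendsto_toReal ENNReal.zero_ne_top).comp hlim
    rw [ENNReal.toReal_zero] at h1
    exact h1
  obtain ⟨n, hn⟩ := (hlim'.eventually (gt_mem_nhds hε)).exists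
  refine ⟨(Finset.range n).image f, fun ξ hξ => ?_, hn.le⟩
  rw [Finset.mem_image] at hξ
  obtain ⟨a, _, rfl⟩ := hξ
  rw [hf]
  exact ⟨a, rfl⟩

theorem crit (s : ℕ → ℤ) (𝒞 : Set UnitAddCircle) (h𝒞 : 𝒞.Countable) (hyp : CritHyp s 𝒞)
    (σ : Measure UnitAddCircle) [IsFiniteMeasure σ] (ε : ℝ) (hε : 0 < ε) (N : ℕ) :
    ∃ p : ℕ, p.Prime ∧ N ≤ p ∧ σ.real {0} - ε < (∫ ξ, fourier (s p) ξ ∂σ).re := by
  classical
  -- `0 ∈ 𝒞`
  have h0𝒞 : (0 : UnitAddCircle) ∈ 𝒞 := by
    by_contra h0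
    obtain ⟨P, w, h1, h2, _, h4⟩ := hyp ∅ (fun ξ h => absurd h (Finset.notMem_empty ξ))
    have h5 := h4 0 h0
    have h6 : ∀ j, ∑ p ∈ P j, (w j p : ℂ) * fourier (s p) (0 : UnitAddCircle) = 1 := by
      intro j
      simp only [fourier_eval_zero, mul_one]
      exact_mod_cast h2 j
    simp only [h6] at h5
    exact one_ne_zero (tendsto_nhds_unique tendsto_const_nhds h5)
  obtain ⟨F0, hF0, hσF0⟩ := crit_fin 𝒞 h𝒞 σ (ε / 4) (by linarith)
  obtain ⟨F, hF⟩ : ∃ F : Finset UnitAddCircle, F = insert 0 F0 := ⟨_, rfl⟩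
  have hF𝒞 : ∀ ξ ∈ F, ξ ∈ 𝒞 := by
    intro ξ hξ
    rw [hF, Finset.mem_insert] at hξ
    rcases hξ with rfl | h
    · exact h0𝒞
    · exact hF0 ξ h
  obtain ⟨P, w, h1, h2, h3, h4⟩ := hyp F hF𝒞
  obtain ⟨g, hg⟩ : ∃ g : ℕ → UnitAddCircle → ℂ, ∀ j ξ, g j ξ =
      ∑ p ∈ P j, (w j p : ℂ) * fourier (s p) ξ :=
    ⟨fun j ξ => ∑ p ∈ P j, (w j p : ℂ) * fourier (s p) ξ, fun j ξ => rfl⟩
  have hgc : ∀ j, Continuous (g j) := by
    intro j
    have : g j = fun ξ => ∑ p ∈ P j, (w j p : ℂ) * fourier (s p) ξ := funext fun ξ => hg j ξ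
    rw [this]
    exact continuous_finsetSum _ fun p _ => continuous_const.mul (fourier (s p)).continuous
  have hg1 : ∀ j ξ, ‖g j ξ‖ ≤ 1 := by
    intro j ξ
    rw [hg]
    refine le_trans ?_ (le_of_eq (h2 j))
    refine (norm_sum_le _ _).trans (Finset.sum_le_sum fun p hp => ?_)
    rw [norm_mul, Complex.norm_real, Real.norm_of_nonneg (h1 j p hp).2.2]
    have h5 : ‖(fourier (s p) ξ : ℂ)‖ = 1 := by
      rw [fourier_apply]
      exact Circle.norm_coe _
    rw [h5, mul_one]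
  have hgr : ∀ j ξ, |(g j ξ).re| ≤ 1 := fun j ξ => (Complex.abs_re_le_norm _).trans (hg1 j ξ)
  have hg0 : ∀ j, g j 0 = 1 := by
    intro j
    rw [hg]
    simp only [fourier_eval_zero, mul_one]
    exact_mod_cast h2 j
  have hgF : ∀ j, ∀ ξ ∈ F, 0 ≤ (g j ξ).re := by
    intro j ξ hξ
    rw [hg, Complex.re_sum]
    refine Finset.sum_nonneg fun p hp => ?_
    rw [Complex.re_ofReal_mul]
    by_cases hw : w j p = 0
    · rw [hw, zero_mul]
    · exact mul_nonneg (h1 j p hp).2.2 (h3 ξ hξ j p hp hw)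
  have hint : ∀ j, Integrable (fun ξ => (g j ξ).re) σ := by
    intro j
    refine Integrable.of_bound (C := 1) ?_ (Eventually.of_forall fun ξ => ?_)
    · exact (Complex.continuous_re.comp (hgc j)).aestronglyMeasurable
    · rw [Real.norm_eq_abs]
      exact hgr j ξ
  have hm𝒞 : MeasurableSet 𝒞 := h𝒞.measurableSet
  have hmF : MeasurableSet (𝒞 \ (F0 : Set UnitAddCircle)) := hm𝒞.diff (Finset.measurableSet _)
  -- the last term
  have hlim : Tendsto (fun j => ∫ ξ in 𝒞ᶜ, (g j ξ).re ∂σ) atTop (𝓝 0) := by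
    have h5 := tendsto_integral_of_dominated_convergence (μ := σ.restrict 𝒞ᶜ)
      (F := fun j ξ => (g j ξ).re) (f := fun _ => (0 : ℝ)) (fun _ => (1 : ℝ))
      (fun j => (Complex.continuous_re.comp (hgc j)).aestronglyMeasurable)
      (integrable_const _) (fun j => Eventually.of_forall fun ξ => by
        rw [Real.norm_eq_abs]
        exact hgr j ξ) ?_
    · simpa using h5
    · rw [ae_restrict_iff' hm𝒞.compl]
      refine Eventually.of_forall fun ξ hξ => ?_
      have h6 := h4 ξ hξ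
      simp only [← hg] at h6
      have h7 := (Complex.continuous_re.tendsto 0).comp h6
      rw [Complex.zero_re] at h7
      exact h7
  -- the lower bound
  have hlow : ∀ j, σ.real {0} - σ.real (𝒞 \ (F0 : Set UnitAddCircle)) +
      ∫ ξ in 𝒞ᶜ, (g j ξ).re ∂σ ≤ ∫ ξ, (g j ξ).re ∂σ := by
    intro j
    have e1 : ∫ ξ, (({0} : Set UnitAddCircle).indicator (fun _ => (1 : ℝ)) ξ -
        (𝒞 \ (F0 : Set UnitAddCircle)).indicator (fun _ => (1 : ℝ)) ξ +
        (𝒞ᶜ).indicator (fun ξ => (g j ξ).re) ξ) ∂σ ≤ ∫ ξ, (g j ξ).re ∂σ := by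
      refine integral_mono ?_ (hint j) fun ξ => ?_
      · exact (((integrable_const _).indicator (measurableSet_singleton 0)).sub
          ((integrable_const _).indicator hmF)).add ((hint j).indicator hm𝒞.compl)
      · show ({0} : Set UnitAddCircle).indicator (fun _ => (1 : ℝ)) ξ -
          (𝒞 \ (F0 : Set UnitAddCircle)).indicator (fun _ => (1 : ℝ)) ξ +
          (𝒞ᶜ).indicator (fun ξ => (g j ξ).re) ξ ≤ (g j ξ).re
        by_cases hξ0 : ξ = 0
        · subst hξ0
          rw [Set.indicator_of_mem (Set.mem_singleton _),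
            Set.indicator_of_notMem (s := 𝒞ᶜ) (fun h => h h0𝒞), hg0]
          have h5 : 0 ≤ (𝒞 \ (F0 : Set UnitAddCircle)).indicator (fun _ => (1 : ℝ)) 0 :=
            Set.indicator_nonneg (fun _ _ => zero_le_one) _
          simp only [Complex.one_re]
          linarith
        · rw [Set.indicator_of_notMem (s := {0}) hξ0]
          by_cases hξ : ξ ∈ 𝒞
          · rw [Set.indicator_of_notMem (s := 𝒞ᶜ) (fun h => h hξ)]
            by_cases hξF : ξ ∈ F0
            · rw [Set.indicator_of_notMem (fun h => h.2 hξF)]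
              have h5 := hgF j ξ (by rw [hF]; exact Finset.mem_insert_of_mem hξF)
              linarith
            · have hmem : ξ ∈ 𝒞 \ (F0 : Set UnitAddCircle) := Set.mem_sdiff_of_mem hξ hξF
              rw [Set.indicator_of_mem hmem]
              have h5 := neg_le_of_abs_le (hgr j ξ)
              linarith
          · rw [Set.indicator_of_mem (show ξ ∈ 𝒞ᶜ from hξ),
              Set.indicator_of_notMem (fun h => hξ h.1)]
            linarith
    refine le_trans (le_of_eq ?_) e1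
    rw [integral_add, integral_sub, integral_indicator_const _ (measurableSet_singleton 0),
      integral_indicator_const _ hmF, integral_indicator hm𝒞.compl, smul_eq_mul, smul_eq_mul,
      mul_one, mul_one]
    · exact (integrable_const _).indicator (measurableSet_singleton 0)
    · exact (integrable_const _).indicator hmF
    · exact ((integrable_const _).indicator (measurableSet_singleton 0)).sub
          ((integrable_const _).indicator hmF)
    · exact (hint j).indicator hm𝒞.compl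
  obtain ⟨j, hj1, hj2⟩ := ((hlim.eventually (lt_mem_nhds (show -(ε / 4) < 0 by linarith))).and
    (eventually_ge_atTop N)).exists
  have hbig : σ.real {0} - ε < ∫ ξ, (g j ξ).re ∂σ := by
    have h5 := hlow j
    linarith
  -- the integral of `g j`
  have hfint : ∀ p, Integrable (fun ξ => (fourier (s p) ξ : ℂ)) σ := by
    intro p
    refine Integrable.of_bound (C := 1) (fourier (s p)).continuous.aestronglyMeasurable
      (Eventually.of_forall fun ξ => ?_)
    rw [fourier_apply]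
    exact (Circle.norm_coe _).le
  have hsum : ∫ ξ, (g j ξ).re ∂σ = ∑ p ∈ P j, w j p * (∫ ξ, fourier (s p) ξ ∂σ).re := by
    have e1 : ∫ ξ, (g j ξ).re ∂σ = (∫ ξ, g j ξ ∂σ).re := by
      have h5 : Integrable (g j) σ := by
        refine Integrable.of_bound (C := 1) (hgc j).aestronglyMeasurable
          (Eventually.of_forall fun ξ => hg1 j ξ)
      exact integral_re h5
    rw [e1]
    simp only [hg]
    rw [integral_finsetSum _ fun p _ => (hfint p).const_mul _, Complex.re_sum]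
    refine Finset.sum_congr rfl fun p _ => ?_
    rw [integral_const_mul, Complex.re_ofReal_mul]
  rw [hsum] at hbig
  by_contra hcon
  push Not at hcon
  have h5 : ∑ p ∈ P j, w j p * (∫ ξ, fourier (s p) ξ ∂σ).re ≤
      ∑ p ∈ P j, w j p * (σ.real {0} - ε) := by
    refine Finset.sum_le_sum fun p hp => ?_
    exact mul_le_mul_of_nonneg_left (hcon p (h1 j p hp).1 (hj2.trans (h1 j p hp).2.1))
      (h1 j p hp).2.2
  rw [← Finset.sum_mul, h2 j, one_mul] at h5
  linarith

end Pool.Agent.RHN
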