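import Pool.Agent.RHN.Defs

/-!
# RHN / ETrig: from trigonometric polynomials to continuous functions; bump functions

PROOFS.  `trig_lim`: both sides are linear in `Φ`, and bounded: `|(∑_{p ∈ P j} u Φ(y))/n_j| ≤ C ‖Φ‖`, `|c ∫ Φ| ≤ |c| ‖Φ‖`.  For `Φ = fourier m` it is the hypothesis
(`∫ fourier m = [m = 0]` for the Haar probability measure `volume` on `UnitAddCircle`).  The span of the `fourier m` is dense (`span_fourier_closure_eq_top`); approximate `Φ` within `δ`.
`bump`: `φ(y) = max 0 (1 - |fract y - (α+β)/2|/((β-α)/2))`; the function of the real variable is continuous and `1`-periodic (it vanishes for `fract y` near `0` and near `1`),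
so it descends to the circle (`Function.Periodic.lift`, or `AddCircle.liftIco`, `AddCircle.liftIco_continuous`).  `∫ φ > 0` (positive at one point, continuous, nonnegative).
`bump_mul`: `y ↦ φ(y) e(-x fract y)` is `1`-periodic and continuous, since `φ` vanishes near the integers.
-/

set_option autoImplicit false

namespace Pool.Agent.RHN

open MeasureTheory Filter Topology

private lemma coe_fract (x : ℝ) : ((Int.fract x : ℝ) : UnitAddCircle) = (x : UnitAddCircle) := by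
  have h : x = Int.fract x + ((⌊x⌋ : ℤ) : ℝ) := (Int.fract_add_floor x).symm
  conv_rhs => rw [h]
  rw [AddCircle.coe_add]
  have h2 : (((⌊x⌋ : ℤ) : ℝ) : UnitAddCircle) = 0 := by
    rw [AddCircle.coe_eq_zero_iff]
    exact ⟨⌊x⌋, by simp⟩
  rw [h2, add_zero]

private lemma exists_lift {B : Type} [TopologicalSpace B] {f : ℝ → B} (hf : Continuous f)
    (h01 : f 0 = f 1) : ∃ Φ : C(UnitAddCircle, B), ∀ x : ℝ,
      Φ (x : UnitAddCircle) = f (Int.fract x) := by
  haveI : Fact ((0 : ℝ) < 1) := ⟨one_pos⟩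
  refine ⟨⟨AddCircle.liftIco (1 : ℝ) 0 f, AddCircle.liftIco_continuous ?_ ?_⟩, fun x => ?_⟩
  · rw [zero_add]
    exact h01
  · exact hf.continuousOn
  · show AddCircle.liftIco (1 : ℝ) 0 f (x : UnitAddCircle) = f (Int.fract x)
    rw [← coe_fract x]
    exact AddCircle.liftIco_coe_apply ⟨Int.fract_nonneg x, by
      rw [zero_add]
      exact Int.fract_lt_one x⟩

private lemma integrable_cm {E : Type} [NormedAddCommGroup E] (Φ : C(UnitAddCircle, E)) :
    Integrable (fun x => Φ x) :=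
  Φ.continuous.integrable_of_hasCompactSupport (HasCompactSupport.of_compactSpace _)

private lemma vol_univ : (volume : Measure UnitAddCircle).real Set.univ = 1 := by
  have h := AddCircle.measure_univ (T := (1 : ℝ))
  rw [Measure.real]
  rw [show (volume : Measure UnitAddCircle) Set.univ = ENNReal.ofReal 1 from h]
  simp

private lemma integral_fourier (m : ℤ) :
    ∫ ξ : UnitAddCircle, fourier m ξ = if m = 0 then (1 : ℂ) else 0 := by
  split_ifs with h
  · subst h
    have h1 : ∀ ξ : UnitAddCircle, (fourier 0 ξ : ℂ) = 1 := fun ξ => by simp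
    simp_rw [h1]
    rw [integral_const, vol_univ, one_smul]
  · exact integral_eq_zero_of_add_right_eq_neg (μ := (volume : Measure UnitAddCircle))
      (fourier_add_half_inv_index (T := 1) h one_pos)

theorem trig_lim (P : ℕ → Finset ℕ) (nn : ℕ → ℝ) (C : ℝ) (hn : ∀ j, 0 < nn j)
    (hcard : ∀ j, ((P j).card : ℝ) ≤ C * nn j) (u : ℕ → ℕ → ℂ) (hu : ∀ j p, ‖u j p‖ ≤ 1)
    (y : ℕ → ℕ → UnitAddCircle) (c : ℂ)
    (h0 : ∀ m : ℤ, Tendsto (fun j => (∑ p ∈ P j, u j p * fourier m (y j p)) / (nn j : ℂ)) atTop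
      (𝓝 (if m = 0 then c else 0))) (Φ : C(UnitAddCircle, ℂ)) :
    Tendsto (fun j => (∑ p ∈ P j, u j p * Φ (y j p)) / (nn j : ℂ)) atTop (𝓝 (c * ∫ ξ, Φ ξ)) := by
  have hC : 0 ≤ C := by
    have h1 := hcard 0
    have h2 : (0 : ℝ) ≤ ((P 0).card : ℝ) := Nat.cast_nonneg _
    by_contra hlt
    rw [not_le] at hlt
    have := mul_neg_of_neg_of_pos hlt (hn 0)
    linarith
  let S : Submodule ℂ C(UnitAddCircle, ℂ) :=
    { carrier := {Φ | Tendsto (fun j => (∑ p ∈ P j, u j p * Φ (y j p)) / (nn j : ℂ)) atTop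
        (𝓝 (c * ∫ ξ, Φ ξ))}
      add_mem' := by
        intro Φ Ψ h1 h2
        have h3 := Tendsto.add h1 h2
        have h4 : c * ∫ ξ, (Φ + Ψ) ξ = (c * ∫ ξ, Φ ξ) + c * ∫ ξ, Ψ ξ := by
          rw [← mul_add, ← integral_add (integrable_cm Φ) (integrable_cm Ψ)]
          rfl
        show Tendsto (fun j => (∑ p ∈ P j, u j p * (Φ + Ψ) (y j p)) / (nn j : ℂ)) atTop
          (𝓝 (c * ∫ ξ, (Φ + Ψ) ξ))
        rw [h4]
        refine h3.congr fun j => ?_
        rw [← add_div, ← Finset.sum_add_distrib]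
        congr 1
        refine Finset.sum_congr rfl fun p _ => ?_
        rw [ContinuousMap.add_apply, mul_add]
      zero_mem' := by
        show Tendsto (fun j => (∑ p ∈ P j, u j p * (0 : C(UnitAddCircle, ℂ)) (y j p)) /
          (nn j : ℂ)) atTop (𝓝 (c * ∫ ξ, (0 : C(UnitAddCircle, ℂ)) ξ))
        simp
      smul_mem' := by
        intro a Φ h1
        have h3 := Tendsto.const_mul a h1
        show Tendsto (fun j => (∑ p ∈ P j, u j p * (a • Φ) (y j p)) / (nn j : ℂ)) atTop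
          (𝓝 (c * ∫ ξ, (a • Φ) ξ))
        have h4 : c * ∫ ξ, (a • Φ) ξ = a * (c * ∫ ξ, Φ ξ) := by
          have h5 : ∫ ξ, (a • Φ) ξ = a * ∫ ξ, Φ ξ := by
            rw [← integral_const_mul]
            rfl
          rw [h5]
          ring
        rw [h4]
        refine h3.congr fun j => ?_
        rw [← mul_div_assoc, Finset.mul_sum]
        congr 1
        refine Finset.sum_congr rfl fun p _ => ?_
        rw [ContinuousMap.smul_apply, smul_eq_mul]
        ring }
  have hspan : Submodule.span ℂ (Set.range (@fourier 1)) ≤ S := by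
    rw [Submodule.span_le]
    rintro _ ⟨m, rfl⟩
    show Tendsto (fun j => (∑ p ∈ P j, u j p * fourier m (y j p)) / (nn j : ℂ)) atTop
      (𝓝 (c * ∫ ξ : UnitAddCircle, fourier m ξ))
    rw [integral_fourier]
    have h1 := h0 m
    split_ifs with h
    · rw [if_pos h] at h1
      rw [mul_one]
      exact h1
    · rw [if_neg h] at h1
      rw [mul_zero]
      exact h1
  have hclosed : IsClosed (S : Set C(UnitAddCircle, ℂ)) := by
    refine isClosed_of_closure_subset fun Φ hΦ => ?_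
    rw [Metric.mem_closure_iff] at hΦ
    show Tendsto (fun j => (∑ p ∈ P j, u j p * Φ (y j p)) / (nn j : ℂ)) atTop
      (𝓝 (c * ∫ ξ, Φ ξ))
    rw [Metric.tendsto_atTop]
    intro ε hε
    obtain ⟨δ, hδ, hδε⟩ : ∃ δ : ℝ, 0 < δ ∧ (C + ‖c‖) * δ < ε / 2 := by
      refine ⟨ε / 2 / (C + ‖c‖ + 1), by positivity, ?_⟩
      rw [mul_div_assoc', div_lt_iff₀ (by positivity)]
      nlinarith [norm_nonneg c]
    obtain ⟨Ψ, hΨ, hd⟩ := hΦ δ hδ
    have hΨ' : Tendsto (fun j => (∑ p ∈ P j, u j p * Ψ (y j p)) / (nn j : ℂ)) atTop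
      (𝓝 (c * ∫ ξ, Ψ ξ)) := hΨ
    rw [Metric.tendsto_atTop] at hΨ'
    obtain ⟨N, hN⟩ := hΨ' (ε / 2) (half_pos hε)
    refine ⟨N, fun j hj => ?_⟩
    have h1 := hN j hj
    have hnorm : ∀ ξ, ‖Φ ξ - Ψ ξ‖ ≤ δ := fun ξ => by
      rw [← dist_eq_norm]
      exact (ContinuousMap.dist_apply_le_dist ξ).trans hd.le
    have h2 : ‖(∑ p ∈ P j, u j p * Φ (y j p)) / (nn j : ℂ) -
        (∑ p ∈ P j, u j p * Ψ (y j p)) / (nn j : ℂ)‖ ≤ C * δ := by
      rw [← sub_div, ← Finset.sum_sub_distrib, norm_div, Complex.norm_real,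
        Real.norm_of_nonneg (hn j).le, div_le_iff₀ (hn j)]
      calc ‖∑ p ∈ P j, (u j p * Φ (y j p) - u j p * Ψ (y j p))‖
          ≤ ∑ p ∈ P j, ‖u j p * Φ (y j p) - u j p * Ψ (y j p)‖ := norm_sum_le _ _
        _ ≤ ∑ _p ∈ P j, δ := by
            refine Finset.sum_le_sum fun p _ => ?_
            rw [← mul_sub, norm_mul]
            calc ‖u j p‖ * ‖Φ (y j p) - Ψ (y j p)‖ ≤ 1 * δ :=
                  mul_le_mul (hu j p) (hnorm _) (norm_nonneg _) zero_le_one
              _ = δ := one_mul δ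
        _ = ((P j).card : ℝ) * δ := by rw [Finset.sum_const, nsmul_eq_mul]
        _ ≤ C * nn j * δ := mul_le_mul_of_nonneg_right (hcard j) hδ.le
        _ = C * δ * nn j := by ring
    have h3 : ‖c * (∫ ξ, Φ ξ) - c * ∫ ξ, Ψ ξ‖ ≤ ‖c‖ * δ := by
      rw [← mul_sub, norm_mul, ← integral_sub (integrable_cm Φ) (integrable_cm Ψ)]
      refine mul_le_mul_of_nonneg_left ?_ (norm_nonneg c)
      have h4 := norm_integral_le_of_norm_le_const (μ := (volume : Measure UnitAddCircle))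
        (f := fun ξ => Φ ξ - Ψ ξ) (C := δ) (Eventually.of_forall hnorm)
      rw [vol_univ, mul_one] at h4
      exact h4
    rw [dist_eq_norm] at h1 ⊢
    have h5 : (∑ p ∈ P j, u j p * Φ (y j p)) / (nn j : ℂ) - c * ∫ ξ, Φ ξ =
        ((∑ p ∈ P j, u j p * Φ (y j p)) / (nn j : ℂ) -
          (∑ p ∈ P j, u j p * Ψ (y j p)) / (nn j : ℂ)) +
        ((∑ p ∈ P j, u j p * Ψ (y j p)) / (nn j : ℂ) - c * ∫ ξ, Ψ ξ) -
        (c * (∫ ξ, Φ ξ) - c * ∫ ξ, Ψ ξ) := by ring
    rw [h5]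
    refine (norm_sub_le _ _).trans_lt ?_
    have h6 := norm_add_le ((∑ p ∈ P j, u j p * Φ (y j p)) / (nn j : ℂ) -
          (∑ p ∈ P j, u j p * Ψ (y j p)) / (nn j : ℂ))
        ((∑ p ∈ P j, u j p * Ψ (y j p)) / (nn j : ℂ) - c * ∫ ξ, Ψ ξ)
    have h7 : C * δ + ‖c‖ * δ = (C + ‖c‖) * δ := by ring
    linarith
  have htop : (⊤ : Submodule ℂ C(UnitAddCircle, ℂ)) ≤ S := by
    haveI : Fact ((0 : ℝ) < 1) := ⟨one_pos⟩
    have h1 := span_fourier_closure_eq_top (T := (1 : ℝ))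
    have h2 := Submodule.topologicalClosure_minimal _ hspan hclosed
    exact h1 ▸ h2
  exact htop (Submodule.mem_top (x := Φ))

theorem bump {α β : ℝ} (hα : 0 < α) (hαβ : α < β) (hβ : β < 1) : ∃ φ : C(UnitAddCircle, ℝ),
    (∀ y, 0 ≤ φ y) ∧ (∀ x : ℝ, φ (x : UnitAddCircle) ≠ 0 → α < Int.fract x ∧ Int.fract x < β) ∧
    0 < ∫ ξ, φ ξ := by
  have hd : 0 < (β - α) / 2 := by linarith
  have hf : Continuous fun t : ℝ => max 0 (1 - |t - (α + β) / 2| / ((β - α) / 2)) := by
    fun_prop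
  have hz : ∀ t : ℝ, (β - α) / 2 ≤ |t - (α + β) / 2| →
      max 0 (1 - |t - (α + β) / 2| / ((β - α) / 2)) = 0 := by
    intro t ht
    apply max_eq_left
    have h1 : 1 ≤ |t - (α + β) / 2| / ((β - α) / 2) := (one_le_div hd).2 ht
    linarith
  have h01 : (fun t : ℝ => max 0 (1 - |t - (α + β) / 2| / ((β - α) / 2))) 0 =
      (fun t : ℝ => max 0 (1 - |t - (α + β) / 2| / ((β - α) / 2))) 1 := by
    show max 0 (1 - |0 - (α + β) / 2| / ((β - α) / 2)) =
      max 0 (1 - |1 - (α + β) / 2| / ((β - α) / 2))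
    rw [hz 0 (by rw [abs_of_nonpos (by linarith)]; linarith),
      hz 1 (by rw [abs_of_nonneg (by linarith)]; linarith)]
  obtain ⟨φ, hφ⟩ := exists_lift hf h01
  have hnn : ∀ y, 0 ≤ φ y := by
    intro y
    obtain ⟨x, rfl⟩ := QuotientAddGroup.mk_surjective y
    have h1 := hφ x
    show 0 ≤ φ (x : UnitAddCircle)
    rw [h1]
    exact le_max_left _ _
  refine ⟨φ, hnn, fun x hx => ?_, ?_⟩
  · rw [hφ] at hx
    have h1 : |Int.fract x - (α + β) / 2| < (β - α) / 2 := by
      by_contra hge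
      rw [not_lt] at hge
      exact hx (hz _ hge)
    rw [abs_lt] at h1
    constructor <;> linarith [h1.1, h1.2]
  · refine φ.continuous.integral_pos_of_hasCompactSupport_nonneg_nonzero
      (HasCompactSupport.of_compactSpace _) hnn (x := (((α + β) / 2 : ℝ) : UnitAddCircle)) ?_
    rw [hφ, Int.fract_eq_self.2 ⟨by linarith, by linarith⟩, sub_self, abs_zero, zero_div,
      sub_zero, max_eq_right zero_le_one]
    exact one_ne_zero

theorem bump_mul {α β : ℝ} (hα : 0 < α) (hαβ : α < β) (hβ : β < 1) (φ : C(UnitAddCircle, ℝ))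
    (hφ : ∀ x : ℝ, φ (x : UnitAddCircle) ≠ 0 → α < Int.fract x ∧ Int.fract x < β) (x : ℝ) :
    ∃ Φ : C(UnitAddCircle, ℂ), ∀ y : ℝ,
      Φ (y : UnitAddCircle) = (φ (y : UnitAddCircle) : ℂ) * ee (-(x * Int.fract y)) := by
  have hz : ∀ n : ℤ, φ (((n : ℝ) : ℝ) : UnitAddCircle) = 0 := by
    intro n
    by_contra h
    have h1 := (hφ (n : ℝ) h).1
    rw [Int.fract_intCast] at h1
    linarith
  have hf : Continuous fun t : ℝ => (φ (t : UnitAddCircle) : ℂ) * ee (-(x * t)) := by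
    unfold ee
    have h1 : Continuous fun t : ℝ => ((φ (t : UnitAddCircle) : ℝ) : ℂ) :=
      Complex.continuous_ofReal.comp (φ.continuous.comp (AddCircle.continuous_mk' 1))
    refine h1.mul ?_
    fun_prop
  obtain ⟨Φ, hΦ⟩ := exists_lift hf (by
    show (φ ((0 : ℝ) : UnitAddCircle) : ℂ) * ee (-(x * 0)) =
      (φ ((1 : ℝ) : UnitAddCircle) : ℂ) * ee (-(x * 1))
    have h1 := hz 0
    have h2 := hz 1
    rw [Int.cast_zero] at h1
    rw [Int.cast_one] at h2
    rw [h1, h2, Complex.ofReal_zero, zero_mul, zero_mul])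
  refine ⟨Φ, fun y => ?_⟩
  rw [hΦ, coe_fract]

end Pool.Agent.RHN
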