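import Pool.Agent.RHN.Defs

/-!
# RHN / HDefs: Hardy fields, slow functions
-/

set_option autoImplicit false

namespace Pool.Agent.RHN

open Filter Topology

/-- the properties of a Hardy field (a subring of the germs at `+∞`) -/
def Hf (S : Subring (Germ (atTop : Filter ℝ) ℝ)) : Prop :=
  (∀ g ∈ S, g ≠ 0 → ∃ h ∈ S, g * h = 1) ∧
  (∀ g ∈ S, ∃ f : ℝ → ℝ, (f : Germ (atTop : Filter ℝ) ℝ) = g ∧
    (∀ᶠ t in atTop, DifferentiableAt ℝ f t) ∧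
    ((deriv f : ℝ → ℝ) : Germ (atTop : Filter ℝ) ℝ) ∈ S)

/-- eventually of constant sign -/
def Sg (f : ℝ → ℝ) : Prop :=
  (∀ᶠ t in atTop, 0 < f t) ∨ (∀ᶠ t in atTop, f t = 0) ∨ (∀ᶠ t in atTop, f t < 0)

/-- `e` varies slowly and takes all values near `+∞` (or near `-∞`) on multiplicative windows -/
def Slow (e : ℝ → ℝ) : Prop :=
  ∃ sg : ℝ, (sg = 1 ∨ sg = -1) ∧ ∀ τ : ℝ, 0 < τ → ∃ Λ : ℝ, 1 < Λ ∧ ∀ T₀ : ℝ, ∃ R₀ : ℝ,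
    ∀ r : ℝ, R₀ ≤ r → ∃ t : ℝ, T₀ ≤ t ∧ ∀ u : ℝ, t ≤ u → u ≤ Λ * t → |e u - sg * r| ≤ τ

end Pool.Agent.RHN
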