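import Pool.Agent.RHN.CNon
import Pool.Agent.RHN.EWin
import Pool.Agent.RHN.ECrit
import Pool.Agent.RHN.ETrig
import Pool.Agent.RHN.HDefs

/-!
# RHN / CIrr: irrational leading factor `c`

PROOF.  `𝒞 = {ρ + κ/c}`.  Let `F ⊆ 𝒞` be finite; `V`, `τ` from `nonneg_irr`, `Λ`, `sg` from `Slow` (`e t = a t - c q(t)`).  `α = 2τ/V < β = 3τ/V < 1`, `φ` from `bump`.  For
`i : ℕ` take `T₀ = max i 2 + 1`, `R₀`, and an integer `J_i` such that `r_i := -(c q(1)) + c V J_i` satisfies `sg r_i ≥ R₀` (possible: `c V ≠ 0`); `Slow` with `r = sg r_i` (`sg · sg r_i = r_i`):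
`t_i ≥ T₀` with `|e u - r_i| ≤ τ` on `[t_i, Λ t_i]`.  `P_i = WP V 1 Λ t_i`; `p ∈ P_i` has `t_i < p ≤ Λ t_i` (as `⌊t_i⌋₊ < p ≤ ⌊Λ t_i⌋₊`).  `n_i = t_i/log t_i > 0`,
`y_i(p) = ((c q(p) + r_i)/V : UnitAddCircle)`.
(1) `trig_lim` with `u = 1`: for `m ≠ 0`: `fourier m (y_i p) = e(m r_i/V) e((m c/V) q(p))`, `rwin` with `θ = m c/V` irrational, `t_i → ∞`; for `m = 0`: `|P_i|/n_i → c₀ := (Λ-1)/φ(V) > 0` (`pwin`).  So
`Z_i := ∑_{p ∈ P_i} φ(y_i p)` has `Z_i/n_i → c₀ ∫ φ > 0`.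
(2) for `ξ ∉ 𝒞`, `ξ = x` (real lift): `Φ` from `bump_mul` with `V x` (so `Φ(y) = φ(y) e(-V x fract y)`).  For `p ∈ P_i` with `φ(y_i p) ≠ 0`: `floor_irr` (`a = a p`, `x = c q(p)`, `r = r_i`): `⌊a p⌋ = V ⌊Y⌋`,
`Y = (c q(p) + r_i)/V`, so `fourier ⌊a p⌋ ξ = e(x V ⌊Y⌋) = e(x V Y) e(-x V fract Y)`.  Hence `φ(y_i p) fourier ⌊a p⌋ ξ = u_i(p) Φ(y_i p)`, `u_i(p) = e(x (c q(p) + r_i))` (also if `φ(y_i p) = 0`).
`trig_lim` with this `u`, `c = 0`: `u fourier m (y) = e((x + m/V) r_i) e(((x + m/V) c) q(p))` and `(x + m/V) c` is irrational, because `(x + m/V) c = κ` rational would give `ξ = κ/c - m/V ∈ 𝒞`; `rwin`.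
So `∑ φ(y_i p) fourier ⌊a p⌋ ξ/n_i → 0`.
(3) `w_i p = φ(y_i p)/Z_i`; for `i ≥ i₀` `Z_i > 0`; shift the index by `i₀`.  `0 ≤ Re fourier ⌊a p⌋ ξ` for `ξ ∈ F` if `w_i p ≠ 0`: `nonneg_irr` with `k = ⌊a p⌋ = V ⌊Y⌋`,
`ω = c q(p) + r_i - V⌊Y⌋`, `|ω| ≤ 3 τ` (`floor_irr`); `p ≡ 1 (V)`.
-/

set_option autoImplicit false

namespace Pool.Agent.RHN

open MeasureTheory Filter Topology Polynomial

private theorem ci_pe (q : ℤ[X]) (n : ℕ) : aeval (n : ℝ) q = pe q n := by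
  unfold pe
  have h1 : ((n : ℕ) : ℝ) = algebraMap ℤ ℝ (n : ℤ) := by simp
  rw [h1, aeval_algebraMap_apply, coe_aeval_eq_eval]
  rfl

private theorem ci_int {A : ℝ} (hA : A ≠ 0) (B : ℝ) : ∃ J : ℤ, B ≤ A * J := by
  rcases lt_or_gt_of_ne hA with h | h
  · refine ⟨⌊B / A⌋, ?_⟩
    have h1 := Int.floor_le (B / A)
    have h2 := mul_le_mul_of_nonpos_left h1 h.le
    rwa [mul_div_cancel₀ _ hA] at h2
  · refine ⟨⌈B / A⌉, ?_⟩
    have h1 := Int.le_ceil (B / A)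
    have h2 := mul_le_mul_of_nonneg_left h1 h.le
    rwa [mul_div_cancel₀ _ hA] at h2

/-- the windows -/
private theorem ci_win {e : ℝ → ℝ} (hS : Slow e) {c : ℝ} (hc : c ≠ 0) (b : ℝ) {V : ℕ}
    (hV : 1 ≤ V) {τ : ℝ} (hτ : 0 < τ) : ∃ Λ : ℝ, 1 < Λ ∧ ∃ (t : ℕ → ℝ) (J : ℕ → ℤ),
      (∀ i : ℕ, (i : ℝ) + 3 ≤ t i) ∧ ∀ (i : ℕ) (u : ℝ), t i ≤ u → u ≤ Λ * t i →
        |e u - (b + c * V * J i)| ≤ τ := by
  obtain ⟨sg, hsg, h⟩ := hS
  obtain ⟨Λ, hΛ, h1⟩ := h τ hτ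
  have hsg0 : sg ≠ 0 := by
    rcases hsg with h | h <;> rw [h] <;> norm_num
  have hsg2 : sg * sg = 1 := by
    rcases hsg with h | h <;> rw [h] <;> norm_num
  have hV0 : (V : ℝ) ≠ 0 := by
    have : 0 < V := hV
    exact_mod_cast this.ne'
  have h2 : ∀ i : ℕ, ∃ (t : ℝ) (J : ℤ), (i : ℝ) + 3 ≤ t ∧ ∀ u, t ≤ u → u ≤ Λ * t →
      |e u - (b + c * V * J)| ≤ τ := by
    intro i
    obtain ⟨R₀, hR⟩ := h1 ((i : ℝ) + 3)
    obtain ⟨J, hJ⟩ := ci_int (A := sg * (c * V)) (mul_ne_zero hsg0 (mul_ne_zero hc hV0))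
      (R₀ - sg * b)
    obtain ⟨t, ht, h3⟩ := hR (sg * (b + c * V * J)) (by linarith)
    refine ⟨t, J, ht, fun u hu1 hu2 => ?_⟩
    have h4 := h3 u hu1 hu2
    rw [← mul_assoc, hsg2, one_mul] at h4
    exact h4
  choose t J ht hJ using h2
  exact ⟨Λ, hΛ, t, J, ht, hJ⟩

private theorem ci_mem {V : ℕ} {Λ t : ℝ} (ht : 0 ≤ Λ * t) {p : ℕ} (hp : p ∈ WP V 1 Λ t) :
    p.Prime ∧ p ≡ 1 [MOD V] ∧ t ≤ p ∧ (p : ℝ) ≤ Λ * t := by
  unfold WP at hp
  rw [Finset.mem_filter, Finset.mem_Ioc] at hp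
  refine ⟨hp.2.1, hp.2.2, (Nat.lt_of_floor_lt hp.1.1).le, ?_⟩
  exact (Nat.le_floor_iff ht).1 hp.1.2

theorem case_irr {a : ℝ → ℝ} {c : ℝ} (hc : Irrational c) (q : ℤ[X]) (hq : 1 ≤ q.natDegree)
    (hS : Slow fun t : ℝ => a t - c * aeval t q) :
    CritHyp (fun p : ℕ => ⌊a p⌋) {ξ | ∃ ρ κ : ℚ, ξ = ((ρ + κ / c : ℝ) : UnitAddCircle)} := by
  intro F hF
  obtain ⟨V, hV, τ, hτ, hτ1, hnn⟩ := nonneg_irr hc.ne_zero q F hF
  obtain ⟨Λ, hΛ, t, J, ht, hw⟩ := ci_win hS hc.ne_zero (-(c * pe q 1)) hV hτ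
  have hV0 : (0 : ℝ) < V := by exact_mod_cast hV
  have hV1 : (1 : ℝ) ≤ V := by exact_mod_cast hV
  obtain ⟨r, hr⟩ : ∃ r : ℕ → ℝ, r = fun i => -(c * pe q 1) + c * V * J i := ⟨_, rfl⟩
  obtain ⟨φ, hφ0, hφ1, hφ2⟩ := bump (α := 2 * τ / V) (β := 3 * τ / V) (by positivity)
    (by
      rw [div_lt_div_iff_of_pos_right hV0]
      linarith)
    (by
      rw [div_lt_one hV0]
      linarith)
  have htpos : ∀ i, 0 < t i := fun i => by
    have h1 := ht i
    have h2 : (0 : ℝ) ≤ (i : ℝ) := Nat.cast_nonneg i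
    linarith
  have hlog : ∀ i, 0 < Real.log (t i) := fun i => by
    have h1 := ht i
    have h2 : (0 : ℝ) ≤ (i : ℝ) := Nat.cast_nonneg i
    exact Real.log_pos (by linarith)
  have htt : Tendsto t atTop atTop := by
    refine tendsto_atTop_mono (fun i => ?_) tendsto_natCast_atTop_atTop
    have := ht i
    linarith
  obtain ⟨nn, hnndef⟩ : ∃ nn : ℕ → ℝ, nn = fun i => t i / Real.log (t i) := ⟨_, rfl⟩
  have hnpos : ∀ i, 0 < nn i := fun i => by
    rw [hnndef]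
    exact div_pos (htpos i) (hlog i)
  have hninv : ∀ i, Real.log (t i) / t i = (nn i)⁻¹ := fun i => by
    rw [hnndef]
    simp only
    rw [inv_div]
  obtain ⟨P, hP⟩ : ∃ P : ℕ → Finset ℕ, P = fun i => WP V 1 Λ (t i) := ⟨_, rfl⟩
  have hPm : ∀ i, ∀ p ∈ P i, p.Prime ∧ p ≡ 1 [MOD V] ∧ t i ≤ p ∧ (p : ℝ) ≤ Λ * t i := by
    intro i p hp
    rw [hP] at hp
    exact ci_mem (mul_nonneg (by linarith) (htpos i).le) hp
  have hcop : Nat.Coprime 1 V := Nat.coprime_one_left V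
  have hcount : Tendsto (fun i => ((P i).card : ℝ) / nn i) atTop
      (𝓝 ((Λ - 1) / (V.totient : ℝ))) := by
    have h1 := (pwin hV hcop hΛ).comp htt
    refine h1.congr fun i => ?_
    simp only [Function.comp_apply]
    rw [hninv, div_eq_mul_inv, hP]
  obtain ⟨C, hC⟩ : ∃ C : ℝ, ∀ i, ((P i).card : ℝ) ≤ C * nn i := by
    obtain ⟨C, hC⟩ := hcount.bddAbove_range
    refine ⟨C, fun i => ?_⟩
    have h1 : ((P i).card : ℝ) / nn i ≤ C := hC ⟨i, rfl⟩
    rwa [div_le_iff₀ (hnpos i)] at h1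
  obtain ⟨y, hy⟩ : ∃ y : ℕ → ℕ → UnitAddCircle,
      y = fun i p => (((c * pe q p + r i) / V : ℝ) : UnitAddCircle) := ⟨_, rfl⟩
  -- exponential sums over the windows
  have hexp : ∀ (θ : ℝ) (_ : Irrational θ) (g : ℕ → ℝ),
      Tendsto (fun i => (∑ p ∈ P i, ee (g i) * ee (θ * pe q p)) / (nn i : ℂ)) atTop (𝓝 0) := by
    intro θ hθ g
    have h1 := (rwin hq hθ hV 1 hΛ).comp htt
    rw [tendsto_zero_iff_norm_tendsto_zero]
    refine h1.congr fun i => ?_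
    simp only [Function.comp_apply]
    rw [norm_div, ← Finset.mul_sum, norm_mul, norm_ee, one_mul, Complex.norm_real,
      Real.norm_of_nonneg (hnpos i).le, hninv, div_eq_mul_inv, hP]
  have hfr : ∀ (m : ℤ) (i p : ℕ), fourier m (y i p) =
      ee (m * r i / V) * ee (m * c / V * pe q p) := by
    intro m i p
    rw [hy, ee_fourier, ← ee_add]
    congr 1
    ring
  -- (1)
  have hc0 : 0 < (Λ - 1) / (V.totient : ℝ) := by
    have h1 : (0 : ℝ) < V.totient := by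
      exact_mod_cast Nat.totient_pos.2 hV
    exact div_pos (by linarith) h1
  obtain ⟨Φ₀, hΦ₀⟩ : ∃ Φ₀ : C(UnitAddCircle, ℂ), ∀ y, Φ₀ y = (φ y : ℂ) :=
    ⟨⟨fun y => (φ y : ℂ), Complex.continuous_ofReal.comp φ.continuous⟩, fun _ => rfl⟩
  have hZ : Tendsto (fun i => (∑ p ∈ P i, φ (y i p)) / nn i) atTop
      (𝓝 ((Λ - 1) / (V.totient : ℝ) * ∫ ξ, φ ξ)) := by
    have h1 := trig_lim P nn C hnpos hC (fun _ _ => 1) (fun _ _ => by simp) y
      (((Λ - 1) / (V.totient : ℝ) : ℝ) : ℂ) (by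
        intro m
        by_cases hm : m = 0
        · rw [if_pos hm, hm]
          have h2 : Tendsto (fun i => ((((P i).card : ℝ) / nn i : ℝ) : ℂ)) atTop
              (𝓝 (((Λ - 1) / (V.totient : ℝ) : ℝ) : ℂ)) :=
            (Complex.continuous_ofReal.tendsto _).comp hcount
          refine h2.congr fun i => ?_
          simp
        · rw [if_neg hm]
          have hθ : Irrational (m * c / V) := by
            refine Irrational.div_natCast (Irrational.intCast_mul hc hm) ?_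
            omega
          refine (hexp (m * c / V) hθ fun i => m * r i / V).congr fun i => ?_
          congr 1
          refine Finset.sum_congr rfl fun p _ => ?_
          rw [one_mul, hfr]) Φ₀
    have h2 : (((Λ - 1) / (V.totient : ℝ) : ℝ) : ℂ) * ∫ ξ, Φ₀ ξ =
        (((Λ - 1) / (V.totient : ℝ) * ∫ ξ, φ ξ : ℝ) : ℂ) := by
      simp only [hΦ₀]
      rw [integral_complex_ofReal, ← Complex.ofReal_mul]
    rw [h2] at h1
    have h3 := (Complex.continuous_re.tendsto _).comp h1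
    rw [Complex.ofReal_re] at h3
    refine h3.congr fun i => ?_
    simp only [Function.comp_apply, one_mul, hΦ₀]
    rw [← Complex.ofReal_sum, ← Complex.ofReal_div, Complex.ofReal_re]
  have hZpos : 0 < (Λ - 1) / (V.totient : ℝ) * ∫ ξ, φ ξ := mul_pos hc0 hφ2
  obtain ⟨Z, hZd⟩ : ∃ Z : ℕ → ℝ, Z = fun i => ∑ p ∈ P i, φ (y i p) := ⟨_, rfl⟩
  have hZ' : Tendsto (fun i => Z i / nn i) atTop
      (𝓝 ((Λ - 1) / (V.totient : ℝ) * ∫ ξ, φ ξ)) := by
    rw [hZd]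
    exact hZ
  obtain ⟨i₀, hi₀⟩ : ∃ i₀, ∀ i, i₀ ≤ i → 0 < Z i := by
    obtain ⟨i₀, h1⟩ := eventually_atTop.1 (hZ'.eventually_const_lt hZpos)
    refine ⟨i₀, fun i hi => ?_⟩
    have h2 := h1 i hi
    rcases div_pos_iff.1 h2 with h3 | h3
    · exact h3.1
    · exact absurd h3.2 (not_lt.2 (hnpos i).le)
  -- floors
  have hfloor : ∀ i, ∀ p ∈ P i, φ (y i p) ≠ 0 →
      ⌊a p⌋ = V * ⌊(c * pe q p + r i) / V⌋ ∧
        |c * pe q p + r i - V * ⌊(c * pe q p + r i) / V⌋| ≤ 3 * τ := by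
    intro i p hp hne
    rw [hy] at hne
    obtain ⟨h1, h2⟩ := hφ1 _ hne
    obtain ⟨-, -, h3, h4⟩ := hPm i p hp
    have h5 := hw i p h3 h4
    rw [ci_pe] at h5
    refine floor_irr hV hτ hτ1 h1 h2 ?_
    rw [hr]
    exact h5
  -- (2)
  have hoff : ∀ ξ : UnitAddCircle, ξ ∉ {ξ : UnitAddCircle | ∃ ρ κ : ℚ,
      ξ = ((ρ + κ / c : ℝ) : UnitAddCircle)} →
      Tendsto (fun i => (∑ p ∈ P i, (φ (y i p) : ℂ) * fourier ⌊a p⌋ ξ) / (nn i : ℂ)) atTop
        (𝓝 0) := by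
    intro ξ hξ
    obtain ⟨x, rfl⟩ := QuotientAddGroup.mk_surjective ξ
    obtain ⟨Φ, hΦ⟩ := bump_mul (α := 2 * τ / V) (β := 3 * τ / V) (by positivity)
      (by
        rw [div_lt_div_iff_of_pos_right hV0]
        linarith)
      (by
        rw [div_lt_one hV0]
        linarith) φ hφ1 (V * x)
    have h1 := trig_lim P nn C hnpos hC (fun i p => ee (x * (c * pe q p + r i)))
      (fun _ _ => (norm_ee _).le) y 0 (by
        intro m
        rw [ite_self]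
        have hθ : Irrational ((x + m / V) * c) := by
          by_contra hno
          unfold Irrational at hno
          rw [not_not] at hno
          obtain ⟨κ, hκ⟩ := hno
          apply hξ
          refine ⟨-(m / V : ℚ), κ, ?_⟩
          have h2 : x = ((-(m / V : ℚ) : ℚ) : ℝ) + κ / c := by
            rw [hκ, mul_div_cancel_right₀ _ hc.ne_zero]
            push_cast
            ring
          conv_lhs => rw [h2]
        refine (hexp ((x + m / V) * c) hθ fun i => (x + m / V) * r i).congr fun i => ?_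
        congr 1
        refine Finset.sum_congr rfl fun p _ => ?_
        rw [hfr, ← ee_add, ← ee_add, ← ee_add]
        congr 1
        ring) Φ
    rw [zero_mul] at h1
    refine h1.congr fun i => ?_
    congr 1
    refine Finset.sum_congr rfl fun p hp => ?_
    have e0 : Φ (y i p) = (φ (y i p) : ℂ) *
        ee (-(V * x * Int.fract ((c * pe q p + r i) / V))) := by
      rw [hy]
      exact hΦ _
    rw [e0]
    by_cases hne : φ (y i p) = 0
    · rw [hne]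
      simp
    · obtain ⟨h2, -⟩ := hfloor i p hp hne
      have e1 : fourier ⌊a p⌋ ((x : ℝ) : UnitAddCircle) =
          ee (x * (c * pe q p + r i)) *
            ee (-(V * x * Int.fract ((c * pe q p + r i) / V))) := by
        rw [ee_fourier, ← ee_add, h2]
        congr 1
        have h3 : (c * pe q p + r i) / V = ⌊(c * pe q p + r i) / V⌋ +
            Int.fract ((c * pe q p + r i) / V) := (Int.floor_add_fract _).symm
        have h4 : c * pe q p + r i = V * ((c * pe q p + r i) / V) := by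
          field_simp
        have h5 : c * pe q p + r i = V * (⌊(c * pe q p + r i) / V⌋ +
            Int.fract ((c * pe q p + r i) / V)) := by
          rw [← h3]
          exact h4
        push_cast
        linear_combination (-x) * h5
      have e2 : fourier ⌊a p⌋ ((x : ℝ) : UnitAddCircle) =
          fourier ⌊a p⌋ (QuotientAddGroup.mk x : UnitAddCircle) := rfl
      rw [← e2, e1]
      ring
  -- (3)
  refine ⟨fun j => P (j + i₀), fun j p => φ (y (j + i₀) p) / Z (j + i₀), ?_, ?_, ?_, ?_⟩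
  · intro j p hp
    obtain ⟨h1, -, h2, -⟩ := hPm _ p hp
    refine ⟨h1, ?_, div_nonneg (hφ0 _) (hi₀ _ (Nat.le_add_left _ _)).le⟩
    have h3 := ht (j + i₀)
    push_cast at h3
    have h4 : (0 : ℝ) ≤ (i₀ : ℝ) := Nat.cast_nonneg i₀
    have h5 : (j : ℝ) ≤ p := by linarith
    exact_mod_cast h5
  · intro j
    rw [← Finset.sum_div]
    have h1 : ∑ p ∈ P (j + i₀), φ (y (j + i₀) p) = Z (j + i₀) := by rw [hZd]
    rw [h1]
    exact div_self (hi₀ _ (Nat.le_add_left _ _)).ne'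
  · intro ξ hξ j p hp hne
    have hne' : φ (y (j + i₀) p) ≠ 0 := by
      intro h
      apply hne
      simp only
      rw [h, zero_div]
    obtain ⟨h1, h2⟩ := hfloor _ p hp hne'
    obtain ⟨-, h3, -, -⟩ := hPm _ p hp
    refine hnn ξ hξ ⌊a p⌋ ⌊(c * pe q p + r (j + i₀)) / V⌋ (J (j + i₀)) p _ h3 h1 ?_ h2
    rw [h1, hr]
    push_cast
    ring
  · intro ξ hξ
    have h1 := hoff ξ hξ
    have h2 : Tendsto (fun i => ((Z i / nn i : ℝ) : ℂ)) atTop
        (𝓝 (((Λ - 1) / (V.totient : ℝ) * ∫ ξ, φ ξ : ℝ) : ℂ)) :=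
      (Complex.continuous_ofReal.tendsto _).comp hZ'
    have h3 := h1.div h2 (by
      intro h
      exact hZpos.ne' (Complex.ofReal_eq_zero.1 h))
    rw [zero_div] at h3
    have h4 := h3.comp (tendsto_add_atTop_nat i₀)
    refine h4.congr fun j => ?_
    simp only [Function.comp_apply, Pi.div_apply]
    have hn0 : (nn (j + i₀) : ℂ) ≠ 0 := by
      intro h
      exact (hnpos (j + i₀)).ne' (Complex.ofReal_eq_zero.1 h)
    rw [Complex.ofReal_div, div_div_div_cancel_right₀ hn0, Finset.sum_div]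
    refine Finset.sum_congr rfl fun p _ => ?_
    rw [Complex.ofReal_div]
    ring

end Pool.Agent.RHN
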