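import Pool.Agent.RHN.Defs

/-!
# RHN / CNon: nonnegativity at the exceptional frequencies, floors

PROOFS.  `nonneg_irr`: choose for every `ξ ∈ F` rationals `ρ, κ` with `ξ = ρ + κ/c`; `V` = product of all their denominators, `τ ≤ 1/10` with `12 τ |κ| ≤ |c|` for all of them.
For `k = V m`, `p ≡ 1 (V)`, `k = c q(p) + (-c q(1) + c V j) - ω`: `fourier k ξ = e(k ρ) e(k κ/c)`, `k ρ = V m ρ ∈ ℤ`,
`k κ/c = κ (q(p) - q(1)) + κ V j - κ ω/c`, and `V ∣ q(p) - q(1)` (`Polynomial.sub_dvd_eval_sub`), `κ V ∈ ℤ`, so `fourier k ξ = e(-κ ω/c)`,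
`|κ ω/c| ≤ 3 τ |κ|/|c| ≤ 1/4`, real part `cos(2π κ ω/c) ≥ 0`.
`nonneg_rat`: `V` = common denominator: `fourier k ξ = e(k ρ) = 1`.
`floor_irr`: let `m = ⌊(c Q + r)/V⌋`, `c Q + r = V m + ω`, `ω = V fract ∈ (2τ, 3τ)`; `a = V m + ω + (a - c Q - r)`, so `V m + τ < a < V m + 4 τ < V m + 1`.
-/

set_option autoImplicit false

namespace Pool.Agent.RHN

open Polynomial

private theorem rat_int {V : ℕ} (r : ℚ) (hV : r.den ∣ V) (n : ℤ) :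
    ∃ z : ℤ, (V : ℝ) * n * (r : ℝ) = z := by
  obtain ⟨t, rfl⟩ := hV
  refine ⟨t * n * r.num, ?_⟩
  have h1 : (r : ℝ) * (r.den : ℝ) = r.num := by exact_mod_cast Rat.mul_den_eq_num r
  push_cast
  rw [← h1]
  ring

private theorem ee_re (x : ℝ) : (ee x).re = Real.cos (2 * Real.pi * x) := by
  unfold ee
  rw [show 2 * Real.pi * Complex.I * (x : ℂ) = ((2 * Real.pi * x : ℝ) : ℂ) * Complex.I by
    push_cast; ring]
  exact Complex.exp_ofReal_mul_I_re _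

theorem nonneg_irr {c : ℝ} (hc : c ≠ 0) (q : ℤ[X]) (F : Finset UnitAddCircle)
    (hF : ∀ ξ ∈ F, ∃ ρ κ : ℚ, ξ = ((ρ + κ / c : ℝ) : UnitAddCircle)) :
    ∃ V : ℕ, 1 ≤ V ∧ ∃ τ : ℝ, 0 < τ ∧ τ ≤ 1 / 10 ∧ ∀ ξ ∈ F, ∀ (k m j : ℤ) (p : ℕ) (ω : ℝ),
      p ≡ 1 [MOD V] → k = V * m → (k : ℝ) = c * pe q p + (-(c * pe q 1) + c * V * j) - ω →
      |ω| ≤ 3 * τ → 0 ≤ (fourier k ξ).re := by
  classical
  have hF' : ∀ ξ : UnitAddCircle, ∃ rk : ℚ × ℚ, ξ ∈ F →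
      ξ = ((rk.1 + rk.2 / c : ℝ) : UnitAddCircle) := by
    intro ξ
    by_cases h : ξ ∈ F
    · obtain ⟨ρ, κ, hk⟩ := hF ξ h
      exact ⟨(ρ, κ), fun _ => hk⟩
    · exact ⟨(0, 0), fun h' => absurd h' h⟩
  choose g hg using hF'
  have hcpos : 0 < |c| := abs_pos.2 hc
  have hM : ∀ ξ ∈ F, |((g ξ).2 : ℝ)| ≤ ∑ η ∈ F, |((g η).2 : ℝ)| := fun ξ h =>
    Finset.single_le_sum (f := fun η => |((g η).2 : ℝ)|) (fun _ _ => abs_nonneg _) h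
  have hM0 : 0 ≤ ∑ η ∈ F, |((g η).2 : ℝ)| := Finset.sum_nonneg fun _ _ => abs_nonneg _
  obtain ⟨M, hMM⟩ : ∃ M : ℝ, M = ∑ η ∈ F, |((g η).2 : ℝ)| := ⟨_, rfl⟩
  rw [← hMM] at hM0
  have hM1 : 0 < M + 1 := by linarith
  refine ⟨∏ ξ ∈ F, ((g ξ).1.den * (g ξ).2.den), ?_, min (1 / 10) (|c| / (12 * (M + 1))), ?_,
    min_le_left _ _, ?_⟩
  · exact Nat.succ_le_of_lt (Finset.prod_pos fun ξ _ =>
      Nat.mul_pos (g ξ).1.den_pos (g ξ).2.den_pos)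
  · exact lt_min (by norm_num) (by positivity)
  · intro ξ hξ k m j p ω hp hk hkc hω
    have hdiv : ((g ξ).1.den * (g ξ).2.den) ∣ ∏ ξ ∈ F, ((g ξ).1.den * (g ξ).2.den) :=
      Finset.dvd_prod_of_mem (fun ξ => (g ξ).1.den * (g ξ).2.den) hξ
    obtain ⟨V, hV⟩ : ∃ V, V = ∏ ξ ∈ F, ((g ξ).1.den * (g ξ).2.den) := ⟨_, rfl⟩
    rw [← hV] at hdiv hp hk hkc
    have hd1 : (g ξ).1.den ∣ V := dvd_trans (dvd_mul_right _ _) hdiv
    have hd2 : (g ξ).2.den ∣ V := dvd_trans (dvd_mul_left _ _) hdiv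
    obtain ⟨ρ, hρ⟩ : ∃ ρ, ρ = (g ξ).1 := ⟨_, rfl⟩
    obtain ⟨κ, hκ⟩ : ∃ κ, κ = (g ξ).2 := ⟨_, rfl⟩
    have hξe := hg ξ hξ
    rw [← hρ] at hd1
    rw [← hκ] at hd2
    rw [← hρ, ← hκ] at hξe
    -- divisibility
    have hpV : (V : ℤ) ∣ (p : ℤ) - 1 := by
      have h1 := (Nat.modEq_iff_dvd.1 hp.symm)
      simpa using h1
    have hqV : (V : ℤ) ∣ q.eval (p : ℤ) - q.eval 1 :=
      dvd_trans hpV (Polynomial.sub_dvd_eval_sub (p : ℤ) 1 q)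
    obtain ⟨u, hu⟩ := hqV
    have hpe : pe q p - pe q 1 = (V : ℝ) * u := by
      unfold pe
      have h2 : ((q.eval (p : ℤ) - q.eval 1 : ℤ) : ℝ) = ((V * u : ℤ) : ℝ) := by rw [hu]
      push_cast at h2
      simpa using h2
    obtain ⟨z1, hz1⟩ := rat_int ρ hd1 m
    obtain ⟨z2, hz2⟩ := rat_int κ hd2 (u + j)
    have hkr : (k : ℝ) = (V : ℝ) * m := by
      rw [hk]
      push_cast
      rfl
    have hval : (k : ℝ) * ((ρ : ℝ) + κ / c) = -(κ * ω / c) + ((z1 + z2 : ℤ) : ℝ) := by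
      rw [mul_add]
      have h3 : (k : ℝ) * ρ = z1 := by rw [hkr, hz1]
      have h4 : (k : ℝ) * (κ / c) = z2 - κ * ω / c := by
        have h5 : (k : ℝ) = c * (V * (u + j)) - ω := by
          rw [hkc, mul_add, ← hpe]
          ring
        rw [h5, ← hz2]
        push_cast
        field_simp
      rw [h3, h4]
      push_cast
      ring
    rw [hξe, ee_fourier, hval, ee_add_int, ee_re]
    have hb : |κ * ω / c| ≤ 1 / 4 := by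
      rw [abs_div, div_le_iff₀ hcpos, abs_mul]
      have h6 : |(κ : ℝ)| ≤ M := by
        rw [hκ, hMM]
        exact hM ξ hξ
      have h7 : |ω| ≤ 3 * (|c| / (12 * (M + 1))) :=
        hω.trans (mul_le_mul_of_nonneg_left (min_le_right _ _) (by norm_num))
      have h8 : |(κ : ℝ)| * |ω| ≤ (M + 1) * (3 * (|c| / (12 * (M + 1)))) :=
        mul_le_mul (by linarith) h7 (abs_nonneg _) hM1.le
      refine h8.trans (le_of_eq ?_)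
      field_simp
      norm_num
    refine Real.cos_nonneg_of_neg_pi_div_two_le_of_le ?_ ?_
    · have h9 := (abs_le.1 hb).2
      nlinarith [Real.pi_pos]
    · have h9 := (abs_le.1 hb).1
      nlinarith [Real.pi_pos]

theorem nonneg_rat (F : Finset UnitAddCircle) (hF : ∀ ξ ∈ F, ∃ ρ : ℚ, ξ = ((ρ : ℝ) : UnitAddCircle)) :
    ∃ V : ℕ, 1 ≤ V ∧ ∀ ξ ∈ F, ∀ m : ℤ, fourier (V * m) ξ = 1 := by
  classical
  have hF' : ∀ ξ : UnitAddCircle, ∃ ρ : ℚ, ξ ∈ F → ξ = ((ρ : ℝ) : UnitAddCircle) := by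
    intro ξ
    by_cases h : ξ ∈ F
    · obtain ⟨ρ, hk⟩ := hF ξ h
      exact ⟨ρ, fun _ => hk⟩
    · exact ⟨0, fun h' => absurd h' h⟩
  choose g hg using hF'
  refine ⟨∏ ξ ∈ F, (g ξ).den, Nat.succ_le_of_lt (Finset.prod_pos fun ξ _ => (g ξ).den_pos),
    fun ξ hξ m => ?_⟩
  have hdiv : (g ξ).den ∣ ∏ ξ ∈ F, (g ξ).den :=
    Finset.dvd_prod_of_mem (fun ξ => (g ξ).den) hξ
  obtain ⟨V, hV⟩ : ∃ V, V = ∏ ξ ∈ F, (g ξ).den := ⟨_, rfl⟩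
  rw [← hV] at hdiv ⊢
  obtain ⟨z, hz⟩ := rat_int (g ξ) hdiv m
  rw [hg ξ hξ, ee_fourier]
  push_cast
  rw [hz, ee_int]

theorem floor_irr {V : ℕ} (hV : 1 ≤ V) {τ x r a : ℝ} (hτ : 0 < τ) (hτ1 : τ ≤ 1 / 10)
    (h1 : 2 * τ / V < Int.fract ((x + r) / V)) (h2 : Int.fract ((x + r) / V) < 3 * τ / V)
    (ha : |a - x - r| ≤ τ) :
    ⌊a⌋ = V * ⌊(x + r) / V⌋ ∧ |x + r - V * ⌊(x + r) / V⌋| ≤ 3 * τ := by
  have hVr : (0 : ℝ) < V := by exact_mod_cast hV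
  obtain ⟨m, hm⟩ : ∃ m : ℤ, m = ⌊(x + r) / V⌋ := ⟨_, rfl⟩
  have h3 : Int.fract ((x + r) / V) * (V : ℝ) = x + r - V * m := by
    rw [hm, ← Int.self_sub_floor, mul_comm, mul_sub, mul_div_cancel₀ _ hVr.ne']
  rw [div_lt_iff₀ hVr, h3] at h1
  rw [lt_div_iff₀ hVr, h3] at h2
  obtain ⟨h4, h5⟩ := abs_le.1 ha
  rw [← hm]
  constructor
  · rw [Int.floor_eq_iff]
    push_cast
    constructor <;> linarith
  · rw [abs_le]
    constructor <;> linarith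

end Pool.Agent.RHN
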