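import Pool.Agent.RHN.CNon
import Pool.Agent.RHN.EWin
import Pool.Agent.RHN.ECrit
import Pool.Agent.RHN.HDefs

/-!
# RHN / CRat: rational leading factor `c ≠ 0`

PROOF.  `F ⊆ 𝒞` finite, `V₀` from `nonneg_rat`, `v = c.den`, `V = V₀ v`.  `Slow` with `τ = 1/10`: `sg`, `Λ`.  For `i : ℕ` take `T₀ = max i 2 + 1`, `R₀`, an integer `J_i` with `sg r_i ≥ R₀` for
`r_i = -(c q(1)) + V₀ J_i + 1/2`, and `t_i ≥ T₀` with `|a u - c q(u) - r_i| ≤ 1/10` on `[t_i, Λ t_i]`.  `P_i = WP V 1 Λ t_i`.  For `p ∈ P_i`: `V₀ v ∣ p - 1 ∣ q(p) - q(1)`, so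
`c (q(p) - q(1)) = V₀ m` with an integer `m`, `a p = V₀ (m + J_i) + 1/2 ± 1/10`, `⌊a p⌋ = V₀ (m + J_i)`: `fourier ⌊a p⌋ ξ = 1` for `ξ ∈ F`.  `w_i p = 1/|P_i|`, `|P_i| > 0` for `i ≥ i₀` (`pwin`;
shift the index).  `ξ ∉ 𝒞`: a real lift `x` is irrational; `fourier ⌊a p⌋ ξ = e(x ⌊a p⌋) = e(x (V₀ J_i - c q(1))) e((x c) q(p))`, `x c` irrational: `rwin` and `pwin`:
`|∑ w fourier| = (‖∑_p e(x c q(p))‖/n_i)/(|P_i|/n_i) → 0`, `n_i = t_i/log t_i`.
-/

set_option autoImplicit false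

namespace Pool.Agent.RHN

open MeasureTheory Filter Topology Polynomial

theorem aeval_pe99 (q : ℤ[X]) (p : ℕ) : aeval (p : ℝ) q = pe q p := by
  unfold pe
  rw [aeval_def, eval₂_eq_eval_map]
  have := Polynomial.eval_intCast_map (Int.castRingHom ℝ) q (p : ℤ)
  simpa using this

theorem floor99 {x : ℝ} {m : ℤ} (h : |x - (m + 1 / 2)| ≤ 1 / 10) : ⌊x⌋ = m := by
  rw [abs_le] at h
  rw [Int.floor_eq_iff]
  constructor <;> linarith [h.1, h.2]

theorem divs99 (q : ℤ[X]) {V p : ℕ} (h : p ≡ 1 [MOD V]) :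
    ∃ s : ℤ, q.eval (p : ℤ) - q.eval 1 = V * s := by
  have h1 : ((V : ℕ) : ℤ) ∣ (p : ℤ) - 1 := by
    have := (Int.natCast_modEq_iff.2 h).symm.dvd
    simpa using this
  obtain ⟨s, hs⟩ := h1.trans (Polynomial.sub_dvd_eval_sub (p : ℤ) 1 q)
  exact ⟨s, hs⟩

theorem exJ99 {sg : ℝ} (hsg : sg = 1 ∨ sg = -1) {V₀ : ℕ} (hV₀ : 1 ≤ V₀) (R y : ℝ) :
    ∃ J : ℤ, R ≤ sg * (y + V₀ * J + 1 / 2) := by
  have hV : (1 : ℝ) ≤ V₀ := by exact_mod_cast hV₀
  obtain ⟨N, hN⟩ := exists_nat_ge (|R| + |y| + 1)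
  have hNn : (0 : ℝ) ≤ N := N.cast_nonneg
  have hVN : (N : ℝ) ≤ V₀ * N := by nlinarith
  have h1 := le_abs_self R
  have h2 := neg_abs_le y
  have h3 := le_abs_self y
  rcases hsg with h | h
  · refine ⟨N, ?_⟩
    rw [h]
    push_cast
    linarith
  · refine ⟨-(N : ℤ), ?_⟩
    rw [h]
    push_cast
    linarith

theorem win_facts99 {V b : ℕ} {Λ t : ℝ} (ht : 0 ≤ t) (hΛ : 1 < Λ) {p : ℕ} (hp : p ∈ WP V b Λ t) :
    p.Prime ∧ p ≡ b [MOD V] ∧ t ≤ p ∧ (p : ℝ) ≤ Λ * t := by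
  unfold WP at hp
  rw [Finset.mem_filter, Finset.mem_Ioc] at hp
  obtain ⟨⟨h1, h2⟩, h3, h4⟩ := hp
  refine ⟨h3, h4, ((Nat.floor_lt ht).1 h1).le, ?_⟩
  exact (Nat.le_floor_iff (by positivity)).1 h2

theorem case_rat {a : ℝ → ℝ} {c : ℚ} (hc : c ≠ 0) (q : ℤ[X]) (hq : 1 ≤ q.natDegree)
    (hS : Slow fun t : ℝ => a t - (c : ℝ) * aeval t q) :
    CritHyp (fun p : ℕ => ⌊a p⌋) {ξ | ∃ ρ : ℚ, ξ = ((ρ : ℝ) : UnitAddCircle)} := by
  intro F hF
  obtain ⟨V₀, hV₀, hrat⟩ := nonneg_rat F hF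
  obtain ⟨sg, hsg, hS⟩ := hS
  obtain ⟨Λ, hΛ, hS⟩ := hS (1 / 10) (by norm_num)
  have hden : 1 ≤ c.den := c.pos
  set V : ℕ := V₀ * c.den with hVdef
  have hV : 1 ≤ V := Nat.mul_pos hV₀ hden
  have hpw := pwin (V := V) (b := 1) hV (Nat.coprime_one_left V) hΛ
  have hlim : 0 < (Λ - 1) / (V.totient : ℝ) := by
    refine div_pos (by linarith) ?_
    exact_mod_cast Nat.totient_pos.2 hV
  obtain ⟨T₁, hT₁⟩ := Filter.eventually_atTop.1 (hpw.eventually_const_lt hlim)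
  have hch : ∀ j : ℕ, ∃ (t : ℝ) (J : ℤ), max T₁ ((j : ℝ) + 2) ≤ t ∧ ∀ u, t ≤ u → u ≤ Λ * t →
      |a u - c * aeval u q - (-(c * pe q 1) + V₀ * J + 1 / 2)| ≤ 1 / 10 := by
    intro j
    obtain ⟨R₀, hR⟩ := hS (max T₁ ((j : ℝ) + 2))
    obtain ⟨J, hJ⟩ := exJ99 hsg hV₀ R₀ (-(c * pe q 1))
    obtain ⟨t, ht, htu⟩ := hR _ hJ
    refine ⟨t, J, ht, fun u h1 h2 => ?_⟩
    have h3 := htu u h1 h2
    have h4 : sg * (sg * (-(c * pe q 1) + V₀ * J + 1 / 2)) = -(c * pe q 1) + V₀ * J + 1 / 2 := by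
      rcases hsg with h | h <;> rw [h] <;> ring
    rw [h4] at h3
    exact h3
  choose t J ht hu using hch
  have ht1 : ∀ j, T₁ ≤ t j := fun j => (le_max_left _ _).trans (ht j)
  have ht2 : ∀ j : ℕ, (j : ℝ) + 2 ≤ t j := fun j => (le_max_right _ _).trans (ht j)
  have ht0 : ∀ j : ℕ, 0 ≤ t j := fun j => by
    have := ht2 j
    have h2 : (0 : ℝ) ≤ j := j.cast_nonneg
    linarith
  have htend : Tendsto t atTop atTop := by
    refine tendsto_atTop_mono (fun j => (by linarith [ht2 j] : (j : ℝ) ≤ t j))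
      tendsto_natCast_atTop_atTop
  have hcard : ∀ j, ((WP V 1 Λ (t j)).card : ℝ) ≠ 0 := by
    intro j h
    have := hT₁ (t j) (ht1 j)
    rw [h, zero_mul] at this
    exact lt_irrefl _ this
  have key : ∀ j, ∀ p ∈ WP V 1 Λ (t j), ∃ M : ℤ, ⌊a p⌋ = V₀ * M ∧
      ((⌊a p⌋ : ℤ) : ℝ) = c * pe q p + (-(c * pe q 1) + V₀ * J j) := by
    intro j p hp
    obtain ⟨hpp, hmod, h1, h2⟩ := win_facts99 (ht0 j) hΛ hp
    have h3 := hu j p h1 h2
    rw [aeval_pe99] at h3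
    obtain ⟨s, hs⟩ := divs99 q hmod
    have hs2 : pe q p - pe q 1 = (V : ℝ) * s := by
      unfold pe
      have : ((q.eval (p : ℤ) - q.eval 1 : ℤ) : ℝ) = ((V * s : ℤ) : ℝ) := by rw [hs]
      push_cast at this ⊢
      exact this
    have hcden : (c : ℝ) * c.den = c.num := by
      exact_mod_cast Rat.mul_den_eq_num c
    have hkey : (c : ℝ) * pe q p - c * pe q 1 = V₀ * ((c.num * s : ℤ) : ℝ) := by
      rw [← mul_sub, hs2, hVdef]
      push_cast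
      calc (c : ℝ) * ((V₀ : ℝ) * c.den * s) = V₀ * ((c * c.den) * s) := by ring
        _ = _ := by rw [hcden]
    have hfl : ⌊a p⌋ = V₀ * (c.num * s + J j) := by
      apply floor99
      have : a p - (((V₀ * (c.num * s + J j) : ℤ) : ℝ) + 1 / 2) =
          a p - c * pe q p - (-(c * pe q 1) + V₀ * J j + 1 / 2) := by
        push_cast
        push_cast at hkey
        linear_combination hkey
      rw [this]
      exact h3
    refine ⟨_, hfl, ?_⟩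
    rw [hfl]
    push_cast
    push_cast at hkey
    linear_combination -hkey
  refine ⟨fun j => WP V 1 Λ (t j), fun j _ => 1 / ((WP V 1 Λ (t j)).card : ℝ), ?_, ?_, ?_, ?_⟩
  · intro j p hp
    obtain ⟨hpp, hmod, h1, h2⟩ := win_facts99 (ht0 j) hΛ hp
    refine ⟨hpp, ?_, by positivity⟩
    have : (j : ℝ) ≤ p := by linarith [ht2 j]
    exact_mod_cast this
  · intro j
    rw [Finset.sum_const, nsmul_eq_mul]
    exact mul_one_div_cancel (hcard j)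
  · intro ξ hξ j p hp _
    obtain ⟨M, hM, -⟩ := key j p hp
    simp only []
    rw [hM, hrat ξ hξ M]
    simp
  · intro ξ hξ
    obtain ⟨x, rfl⟩ := QuotientAddGroup.mk_surjective ξ
    have hx : Irrational x := by
      rintro ⟨ρ, hρ⟩
      exact hξ ⟨ρ, by rw [hρ]⟩
    have hxc : Irrational (x * c) := hx.mul_ratCast hc
    have hrw := (rwin hq hxc hV 1 hΛ).comp htend
    have hpw2 := hpw.comp htend
    have hquot := hrw.div hpw2 hlim.ne'
    rw [zero_div] at hquot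
    rw [tendsto_zero_iff_norm_tendsto_zero]
    refine hquot.congr' ?_
    refine Filter.Eventually.of_forall fun j => ?_
    simp only [Function.comp_apply, Pi.div_apply]
    have hlog : Real.log (t j) / t j ≠ 0 := by
      have h1 := ht2 j
      have h2 : (0 : ℝ) ≤ j := j.cast_nonneg
      have : 0 < Real.log (t j) := Real.log_pos (by linarith)
      exact (div_pos this (by linarith)).ne'
    rw [mul_div_mul_right _ _ hlog]
    have hsum : ∑ p ∈ WP V 1 Λ (t j), (((1 / ((WP V 1 Λ (t j)).card : ℝ) : ℝ)) : ℂ) *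
        fourier ⌊a p⌋ (x : UnitAddCircle) =
        ((1 / ((WP V 1 Λ (t j)).card : ℝ) : ℝ) : ℂ) * (ee ((-(c * pe q 1) + V₀ * J j) * x) *
          ∑ p ∈ WP V 1 Λ (t j), ee (x * c * pe q p)) := by
      rw [Finset.mul_sum, Finset.mul_sum]
      refine Finset.sum_congr rfl fun p hp => ?_
      obtain ⟨M, hM, hM2⟩ := key j p hp
      rw [ee_fourier, hM2, ← ee_add]
      congr 2
      ring
    have hsum2 : ∑ p ∈ WP V 1 Λ (t j), (((1 / ((WP V 1 Λ (t j)).card : ℝ) : ℝ)) : ℂ) *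
        fourier ⌊a p⌋ ((QuotientAddGroup.mk x : UnitAddCircle)) =
        ((1 / ((WP V 1 Λ (t j)).card : ℝ) : ℝ) : ℂ) * (ee ((-(c * pe q 1) + V₀ * J j) * x) *
          ∑ p ∈ WP V 1 Λ (t j), ee (x * c * pe q p)) := hsum
    rw [hsum2, norm_mul, norm_mul, norm_ee, one_mul, Complex.norm_real, Real.norm_eq_abs,
      abs_of_nonneg (by positivity)]
    rw [div_eq_mul_one_div, mul_comm]

end Pool.Agent.RHN
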