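import Pool.Agent.RHN.Defs

/-!
# RHN / Geo: geometric sums, differencing

PROOFS.  `ee_ge`: `|e(x) - 1| = 2 |sin (π x)|`; with `x = n + t`, `|t| = nd x ≤ 1/2`: `|sin (π t)| ≥ 2 |t|`
(`Real.mul_le_sin`: `2/π * y ≤ sin y` for `0 ≤ y ≤ π/2`).  Mathlib: `Complex.norm_exp_I_mul_ofReal_sub_one` or
`Real.norm_exp_I_mul_ofReal_sub_one`: `‖exp (I x) - 1‖ = ‖2 sin (x/2)‖`.
`geo_le`: `(e(g) - 1) ∑_{m = a}^{a+L-1} e(g m) = e(g(a+L)) - e(g a)` (telescoping), norm `≤ 2`.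
`geo_zero`: the same identity: `e(g M) = 1` and `e(g) ≠ 1`; `∑_{m=1}^M e(g m) (e(g) - 1) = e(g)(e(gM) - 1) = 0`.
`vdc`: `|∑ f|^2 = ∑_{m, m'} f(m') conj f(m)`, sort by `h = m' - m`, `|h| < L`: for given `h` the `m` with `m`, `m + h ∈ [a, a+L)`
form `[a + max 0 (-h), a + max 0 (-h) + (L - |h|))`.
-/

set_option autoImplicit false

namespace Pool.Agent.RHN

open Finset ComplexConjugate

private theorem geo_aux (t : ℝ) (ht : |t| ≤ 1 / 2) : 4 * |t| ≤ ‖ee t - 1‖ := by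
  have h1 : ee t = Complex.exp (Complex.I * ((2 * Real.pi * t : ℝ) : ℂ)) := by
    unfold ee
    congr 1
    push_cast
    ring
  rw [h1, Complex.norm_exp_I_mul_ofReal_sub_one, norm_mul, Real.norm_eq_abs, Real.norm_eq_abs,
    abs_of_pos (by norm_num : (0 : ℝ) < 2)]
  have h2 : 2 * Real.pi * t / 2 = Real.pi * t := by ring
  rw [h2]
  have h3 : |Real.sin (Real.pi * t)| = Real.sin (Real.pi * |t|) := by
    rcases le_total 0 t with h | h
    · rw [abs_of_nonneg h] at ht ⊢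
      exact abs_of_nonneg (Real.sin_nonneg_of_nonneg_of_le_pi (by positivity)
        (by nlinarith [Real.pi_pos]))
    · rw [abs_of_nonpos h] at ht ⊢
      have h4 : Real.sin (Real.pi * t) = -Real.sin (Real.pi * -t) := by
        rw [mul_neg, Real.sin_neg, neg_neg]
      rw [h4, abs_neg]
      exact abs_of_nonneg (Real.sin_nonneg_of_nonneg_of_le_pi
        (mul_nonneg Real.pi_pos.le (by linarith)) (by nlinarith [Real.pi_pos]))
  rw [h3]
  have h4 := Real.mul_le_sin (x := Real.pi * |t|) (by positivity)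
    (by nlinarith [Real.pi_pos, abs_nonneg t])
  have h5 : 2 / Real.pi * (Real.pi * |t|) = 2 * |t| := by
    field_simp
  rw [h5] at h4
  linarith

theorem ee_ge (x : ℝ) : 4 * nd x ≤ ‖ee x - 1‖ := by
  obtain ⟨n, hn⟩ := exists_nd x
  have h1 : ee x = ee (x - n) := by
    rw [← ee_add_int (x - n) n]
    congr 1
    ring
  have h2 : |x - n| ≤ 1 / 2 := hn ▸ nd_le_half x
  rw [hn, h1]
  exact geo_aux _ h2

private theorem geo_tel (g : ℝ) (a : ℤ) (L : ℕ) :
    (ee g - 1) * ∑ m ∈ Ico a (a + L), ee (g * m) = ee (g * (a + L)) - ee (g * a) := by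
  induction L with
  | zero => simp
  | succ L ih =>
    have h1 : Ico a (a + ((L + 1 : ℕ) : ℤ)) = insert (a + (L : ℤ)) (Ico a (a + L)) := by
      ext m
      simp only [mem_insert, mem_Ico]
      push_cast
      omega
    rw [h1, sum_insert (by simp), mul_add, ih]
    have h2 : ee (g * (a + ((L + 1 : ℕ) : ℝ))) = ee g * ee (g * (a + L)) := by
      rw [← ee_add]
      congr 1
      push_cast
      ring
    have h3 : ee (g * ((a + (L : ℤ) : ℤ) : ℝ)) = ee (g * (a + L)) := by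
      push_cast
      rfl
    rw [h2, h3]
    ring

theorem geo_le (g : ℝ) (a : ℤ) (L : ℕ) :
    ‖∑ m ∈ Ico a (a + L), ee (g * m)‖ * (2 * nd g) ≤ 1 := by
  have h1 := geo_tel g a L
  have h2 : ‖ee g - 1‖ * ‖∑ m ∈ Ico a (a + L), ee (g * m)‖ ≤ 2 := by
    rw [← norm_mul, h1]
    refine (norm_sub_le _ _).trans ?_
    rw [norm_ee, norm_ee]
    norm_num
  have h3 := ee_ge g
  have h4 := mul_le_mul_of_nonneg_right h3 (norm_nonneg (∑ m ∈ Ico a (a + L), ee (g * m)))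
  linarith

theorem geo_zero {g : ℝ} {M : ℕ} (hM : ∃ n : ℤ, g * M = n) (hg : ∀ n : ℤ, g ≠ n) :
    ∑ m ∈ Icc 1 M, ee (g * (m : ℝ)) = 0 := by
  obtain ⟨n, hn⟩ := hM
  have h1 : (ee g - 1) * ∑ m ∈ Icc 1 M, ee (g * (m : ℝ)) = ee (g * (M + 1)) - ee g := by
    clear hn
    induction M with
    | zero => simp
    | succ M ih =>
      rw [sum_Icc_succ_top (by omega), mul_add, ih]
      have h2 : ee (g * (((M + 1 : ℕ) : ℝ) + 1)) = ee g * ee (g * ((M + 1 : ℕ) : ℝ)) := by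
        rw [← ee_add]
        congr 1
        ring
      rw [h2]
      push_cast
      ring
  have h2 : ee (g * (M + 1)) = ee g := by
    have h3 : g * (M + 1) = g + n := by
      rw [← hn]
      ring
    rw [h3, ee_add_int]
  rw [h2, sub_self] at h1
  refine (mul_eq_zero.1 h1).resolve_left fun h => ?_
  have h3 := ee_ge g
  rw [h, norm_zero] at h3
  obtain ⟨m, hm⟩ := exists_nd g
  have h4 : nd g = 0 := le_antisymm (by linarith) (nd_nonneg g)
  rw [hm, abs_eq_zero, sub_eq_zero] at h4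
  exact hg m h4

theorem vdc (f : ℤ → ℂ) (a : ℤ) (L : ℕ) :
    ‖∑ m ∈ Ico a (a + L), f m‖ ^ 2 ≤
      ∑ h ∈ Ioo (-(L : ℤ)) L, ‖∑ m ∈ Ico (a + max 0 (-h)) (a + max 0 (-h) + ((L - h.natAbs : ℕ) : ℤ)),
        f (m + h) * conj (f m)‖ := by
  have h1 : ((‖∑ m ∈ Ico a (a + L), f m‖ ^ 2 : ℝ) : ℂ) =
      ∑ q ∈ Ico a (a + (L : ℤ)) ×ˢ Ico a (a + (L : ℤ)), f q.1 * conj (f q.2) := by
    rw [sum_product, ← Complex.normSq_eq_norm_sq, ← Complex.mul_conj, map_sum, sum_mul_sum]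
  have h2 : ∑ q ∈ Ico a (a + (L : ℤ)) ×ˢ Ico a (a + (L : ℤ)), f q.1 * conj (f q.2) =
      ∑ h ∈ Ioo (-(L : ℤ)) L, ∑ m ∈ Ico (a + max 0 (-h))
        (a + max 0 (-h) + ((L - h.natAbs : ℕ) : ℤ)), f (m + h) * conj (f m) := by
    rw [← sum_fiberwise_of_maps_to (s := Ico a (a + (L : ℤ)) ×ˢ Ico a (a + (L : ℤ)))
      (t := Ioo (-(L : ℤ)) L) (g := fun q : ℤ × ℤ => q.1 - q.2) ?_
      (fun q : ℤ × ℤ => f q.1 * conj (f q.2))]
    · refine sum_congr rfl fun h hh => ?_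
      refine sum_nbij' (fun q : ℤ × ℤ => q.2) (fun m : ℤ => (m + h, m)) ?_ ?_ ?_ ?_ ?_
      · rintro ⟨x, y⟩ hq
        simp only [mem_filter, mem_product, mem_Ico, mem_Ioo] at hq hh ⊢
        omega
      · intro m hm
        simp only [mem_filter, mem_product, mem_Ico, mem_Ioo] at hm hh ⊢
        omega
      · rintro ⟨x, y⟩ hq
        simp only [mem_filter, mem_product, mem_Ico] at hq ⊢
        refine Prod.ext ?_ rfl
        show y + h = x
        omega
      · intro m hm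
        rfl
      · rintro ⟨x, y⟩ hq
        simp only [mem_filter, mem_product, mem_Ico] at hq ⊢
        have h3 : y + h = x := by omega
        rw [h3]
    · rintro ⟨x, y⟩ hq
      simp only [mem_product, mem_Ico, mem_Ioo] at hq ⊢
      omega
  have h3 : ‖((‖∑ m ∈ Ico a (a + L), f m‖ ^ 2 : ℝ) : ℂ)‖ =
      ‖∑ m ∈ Ico a (a + L), f m‖ ^ 2 := by
    rw [Complex.norm_real, Real.norm_of_nonneg (by positivity)]
  rw [← h3, h1, h2]
  exact norm_sum_le _ _

end Pool.Agent.RHN
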