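import Pool.Agent.RHN.CNon
import Pool.Agent.RHN.EWin
import Pool.Agent.RHN.ECrit
import Pool.Agent.RHN.HDefs
import Pool.Agent.RHN.Geo

/-!
# RHN / CSlow: `a` itself is slow

PROOF.  `F ⊆ 𝒞` finite, `V` from `nonneg_rat`; `Slow` with `τ = 1/10`: `sg ∈ {1, -1}`, `Λ`.  By `pwin` (`V = 1`) the windows `(t, Λ t]` contain a prime for `t ≥ t₀`.  For every `j` take
`T₀ = max t₀ j + 1` and the corresponding `R₀`, and `M_j` with `V M_j ≥ |R₀| + 2`.  For `0 ≤ i ≤ j`: `r = sg (sg V (M_j + i) + 1/2) = V (M_j + i) ± 1/2 ≥ R₀`, so there are `t ≥ T₀` and a prime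
`p_{j,i} ∈ (t, Λt]` with `|a p_{j,i} - (sg V (M_j+i) + 1/2)| ≤ 1/10`, i.e. `⌊a p_{j,i}⌋ = sg V (M_j + i)` (an integer; `sg = ±1`).  The `p_{j,i}`, `0 ≤ i ≤ j`, are distinct.
`P_j = {p_{j,i} : 0 ≤ i ≤ j}`, `w = 1/(j+1)`.  `ξ ∈ F`: `fourier = 1`.  `ξ ∉ 𝒞`: lift `x` irrational, `∑_i e(x sg V (M_j + i))` is a geometric sum with ratio `e(± x V) ≠ 1`, bounded by
`1/(2 nd (x V))` (`geo_le`), so the average tends to `0`.
-/

set_option autoImplicit false

namespace Pool.Agent.RHN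

open MeasureTheory Filter Topology

private theorem nd_pos_of_irr {g : ℝ} (hg : Irrational g) : 0 < nd g := by
  rcases (nd_nonneg g).lt_or_eq with h | h
  · exact h
  · exfalso
    obtain ⟨n, hn⟩ := exists_nd g
    rw [← h] at hn
    have h1 : g - n = 0 := abs_eq_zero.mp hn.symm
    exact hg ⟨n, by push_cast; linarith⟩

theorem case_slow {a : ℝ → ℝ} (hS : Slow a) :
    CritHyp (fun p : ℕ => ⌊a p⌋) {ξ | ∃ ρ : ℚ, ξ = ((ρ : ℝ) : UnitAddCircle)} := by
  intro F hF
  obtain ⟨V, hV, hFV⟩ := nonneg_rat F hF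
  obtain ⟨sg, hsg, hsl⟩ := hS
  obtain ⟨Λ, hΛ, hT⟩ := hsl (1 / 10) (by norm_num)
  have hV0 : (1 : ℝ) ≤ (V : ℝ) := by exact_mod_cast hV
  obtain ⟨s, hs, hs2⟩ : ∃ s : ℤ, (s : ℝ) = sg ∧ s * s = 1 := by
    rcases hsg with h | h
    · exact ⟨1, by rw [h]; simp, by norm_num⟩
    · exact ⟨-1, by rw [h]; simp, by norm_num⟩
  have hs2' : (s : ℝ) * s = 1 := by exact_mod_cast hs2
  have hsg1 : |sg| ≤ 1 := by rcases hsg with h | h <;> rw [h] <;> simp
  -- primes in the windows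
  obtain ⟨t₀, ht₀⟩ : ∃ t₀ : ℝ, ∀ t, t₀ ≤ t → ∃ p : ℕ, p.Prime ∧ t ≤ p ∧ (p : ℝ) ≤ Λ * t := by
    have h1 := pwin (V := 1) (b := 0) le_rfl (by simp) hΛ
    have h2 : (0 : ℝ) < (Λ - 1) / ((1 : ℕ).totient : ℝ) := by
      simp only [Nat.totient_one, Nat.cast_one, div_one]
      linarith
    obtain ⟨t₀, ht₀⟩ := ((h1.eventually_const_lt h2).and (eventually_ge_atTop (0 : ℝ))).exists_forall_of_atTop
    refine ⟨t₀, fun t ht => ?_⟩
    obtain ⟨h3, h4⟩ := ht₀ t ht
    have h5 : (WP 1 0 Λ t).card ≠ 0 := by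
      intro h
      rw [h] at h3
      simp at h3
    obtain ⟨p, hp⟩ := Finset.card_ne_zero.mp h5
    unfold WP at hp
    rw [Finset.mem_filter, Finset.mem_Ioc] at hp
    refine ⟨p, hp.2.1, ?_, ?_⟩
    · exact ((Nat.floor_lt h4).mp hp.1.1).le
    · exact (Nat.le_floor_iff (by nlinarith)).mp hp.1.2
  -- the primes
  have hmain : ∀ j : ℕ, ∃ M : ℤ, ∀ i : ℕ, ∃ p : ℕ, p.Prime ∧ j ≤ p ∧
      ⌊a p⌋ = V * (s * (M + i)) := by
    intro j
    obtain ⟨R₀, hR₀⟩ := hT (max t₀ j + 1)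
    refine ⟨⌈|R₀| + 2⌉, fun i => ?_⟩
    set M : ℤ := ⌈|R₀| + 2⌉ with hM
    have hM1 : |R₀| + 2 ≤ (M : ℝ) := Int.le_ceil _
    set k : ℤ := V * (s * (M + i)) with hk
    have hkr : (k : ℝ) = V * (s * (M + i)) := by rw [hk]; push_cast; ring
    have hr : R₀ ≤ sg * ((k : ℝ) + 1 / 2) := by
      rw [hkr, ← hs]
      have h1 : (s : ℝ) * (V * (s * (M + i)) + 1 / 2) = (s * s) * (V * (M + i)) + s * (1 / 2) := by
        ring
      rw [h1, hs2', hs]
      have h2 := (abs_le.mp hsg1).1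
      have h3 := le_abs_self R₀
      have h4 : (0 : ℝ) ≤ (i : ℝ) := Nat.cast_nonneg i
      have h5 := abs_nonneg R₀
      nlinarith
    obtain ⟨t, ht, hu⟩ := hR₀ _ hr
    obtain ⟨p, hp, hp1, hp2⟩ := ht₀ t (by
      have := le_max_left t₀ (j : ℝ)
      linarith)
    refine ⟨p, hp, ?_, ?_⟩
    · have := le_max_right t₀ (j : ℝ)
      have h6 : (j : ℝ) ≤ p := by linarith
      exact_mod_cast h6
    · have h7 := hu p hp1 hp2
      have h8 : sg * (sg * ((k : ℝ) + 1 / 2)) = (k : ℝ) + 1 / 2 := by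
        rw [← hs, ← mul_assoc, hs2', one_mul]
      rw [h8] at h7
      rw [Int.floor_eq_iff]
      have := abs_le.mp h7
      constructor <;> linarith [this.1, this.2]
  choose M p hp hjp hfl using hmain
  have hinj : ∀ j, Function.Injective (p j) := by
    intro j i i' h
    have h1 := hfl j i
    have h2 := hfl j i'
    rw [h, h2] at h1
    have hVz : (V : ℤ) ≠ 0 := by exact_mod_cast (by omega : V ≠ 0)
    have h3 := mul_left_cancel₀ hVz h1
    have hsz : s ≠ 0 := by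
      intro h0
      rw [h0] at hs2
      simp at hs2
    have h4 := mul_left_cancel₀ hsz h3
    have h5 : (i' : ℤ) = i := by linarith
    exact_mod_cast h5.symm
  refine ⟨fun j => (Finset.range (j + 1)).image (p j), fun j _ => 1 / ((j : ℝ) + 1), ?_, ?_, ?_, ?_⟩
  · intro j q hq
    simp only [Finset.mem_image, Finset.mem_range] at hq
    obtain ⟨i, hi, rfl⟩ := hq
    exact ⟨hp j i, hjp j i, by positivity⟩
  · intro j
    rw [Finset.sum_image (fun x _ y _ h => hinj j h)]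
    simp only [Finset.sum_const, Finset.card_range, nsmul_eq_mul]
    push_cast
    field_simp
  · intro ξ hξ j q hq _
    simp only [Finset.mem_image, Finset.mem_range] at hq
    obtain ⟨i, hi, rfl⟩ := hq
    simp only
    rw [hfl j i, hFV ξ hξ]
    simp
  · intro ξ hξ
    obtain ⟨x, rfl⟩ := QuotientAddGroup.mk_surjective ξ
    have hx : Irrational x := by
      rintro ⟨ρ, hρ⟩
      exact hξ ⟨ρ, by rw [hρ]⟩
    set g : ℝ := s * V * x with hg
    have hgi : Irrational g := by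
      rw [hg]
      have h1 : ((s : ℝ) * V * x) = ((s * V : ℤ) : ℝ) * x := by push_cast; ring
      rw [h1]
      refine hx.intCast_mul ?_
      intro h0
      rcases mul_eq_zero.mp h0 with h | h
      · rw [h] at hs2; simp at hs2
      · have : V = 0 := by exact_mod_cast h
        omega
    have hnd := nd_pos_of_irr hgi
    have hsum : ∀ j : ℕ, ∑ q ∈ (Finset.range (j + 1)).image (p j),
        ((1 / ((j : ℝ) + 1) : ℝ) : ℂ) * fourier ⌊a q⌋ (QuotientAddGroup.mk x : UnitAddCircle) =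
        ((1 / ((j : ℝ) + 1) : ℝ) : ℂ) * ∑ m ∈ Finset.Ico (M j) (M j + ((j + 1 : ℕ) : ℤ)), ee (g * m) := by
      intro j
      rw [Finset.sum_image (fun x _ y _ h => hinj j h), ← Finset.mul_sum]
      congr 1
      have h1 : Finset.Ico (M j) (M j + ((j + 1 : ℕ) : ℤ)) =
          (Finset.range (j + 1)).image (fun i : ℕ => M j + (i : ℤ)) := by
        ext m
        simp only [Finset.mem_Ico, Finset.mem_image, Finset.mem_range]
        constructor
        · rintro ⟨h1, h2⟩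
          refine ⟨(m - M j).toNat, ?_, ?_⟩ <;> omega
        · rintro ⟨i, hi, rfl⟩
          push_cast
          omega
      rw [h1, Finset.sum_image (fun x _ y _ h => by simpa using h)]
      refine Finset.sum_congr rfl fun i _ => ?_
      rw [hfl j i]
      have h2 := ee_fourier ((V : ℤ) * (s * (M j + (i : ℤ)))) x
      refine Eq.trans h2 ?_
      congr 1
      rw [hg]
      push_cast
      ring
    have hlim : Tendsto (fun j : ℕ => (1 / (2 * nd g)) * (1 / ((j : ℝ) + 1))) atTop (𝓝 0) := by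
      have := tendsto_one_div_add_atTop_nhds_zero_nat (𝕜 := ℝ)
      simpa using this.const_mul (1 / (2 * nd g))
    refine squeeze_zero_norm (fun j => ?_) hlim
    show ‖∑ q ∈ (Finset.range (j + 1)).image (p j),
        ((1 / ((j : ℝ) + 1) : ℝ) : ℂ) * fourier ⌊a q⌋ (QuotientAddGroup.mk x : UnitAddCircle)‖ ≤ _
    rw [hsum j, norm_mul, Complex.norm_real, Real.norm_eq_abs,
      abs_of_nonneg (by positivity : (0 : ℝ) ≤ 1 / ((j : ℝ) + 1))]
    have h3 := geo_le g (M j) (j + 1)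
    have h4 : ‖∑ m ∈ Finset.Ico (M j) (M j + ((j + 1 : ℕ) : ℤ)), ee (g * m)‖ ≤ 1 / (2 * nd g) := by
      rw [le_div_iff₀ (by positivity)]
      exact h3
    have h5 := mul_le_mul_of_nonneg_left h4 (by positivity : (0 : ℝ) ≤ 1 / ((j : ℝ) + 1))
    linarith

end Pool.Agent.RHN
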