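import Mathlib

/-!
# RHN / Defs: definitions and elementary facts

MP_43aa00_an: recurrence along `⌊a(p)⌋`, `p` prime, for Hardy functions `a` with
`a - c q = O(log t)` for some `c`, `q`.
-/

set_option autoImplicit false

namespace Pool.Agent.RHN

open Finset

/-- `e(x) = exp(2 π i x)` -/
noncomputable def ee (x : ℝ) : ℂ := Complex.exp (2 * Real.pi * Complex.I * x)

/-- distance to the nearest integer -/
noncomputable def nd (x : ℝ) : ℝ := |x - round x|

/-- `n ≥ 1` has no prime factor `≤ z` -/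
def Rough (z n : ℕ) : Prop := 1 ≤ n ∧ ∀ p : ℕ, p.Prime → p ≤ z → ¬ p ∣ n

open Classical in
/-- indicator of the `z`-rough numbers -/
noncomputable def RR (z : ℕ) : ArithmeticFunction ℝ :=
  ⟨fun n => if Rough z n then 1 else 0, by simp [Rough]⟩

/-- indicator of the `z`-rough numbers `> 1` -/
noncomputable def UU (z : ℕ) : ArithmeticFunction ℝ := RR z - 1

/-- the sieve product over the primes `≤ z` not dividing `q` -/
noncomputable def VV (z q : ℕ) : ℝ :=
  ∏ p ∈ (Icc 1 z).filter (fun p => p.Prime ∧ ¬ p ∣ q), (1 - 1 / (p : ℝ))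

/-- the value of an integer polynomial at a natural number, as a real number -/
noncomputable def pe (K : Polynomial ℤ) (n : ℕ) : ℝ := ((K.eval (n : ℤ) : ℤ) : ℝ)

/-- `F` has small bilinear form on the units modulo `q` -/
def Bil (q : ℕ) [NeZero q] (F : ZMod q → ℂ) (η : ℝ) : Prop :=
  ∀ g₁ g₂ : (ZMod q)ˣ → ℂ, (∀ b, ‖g₁ b‖ ≤ 1) → (∀ b, ‖g₂ b‖ ≤ 1) →
    ‖∑ b₁ : (ZMod q)ˣ, ∑ b₂ : (ZMod q)ˣ, g₁ b₁ * g₂ b₂ * F ((b₁ * b₂ : (ZMod q)ˣ) : ZMod q)‖ ≤
      η * (q.totient : ℝ) ^ 2

/-! ### `ee` -/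

theorem ee_add (x y : ℝ) : ee (x + y) = ee x * ee y := by
  unfold ee
  rw [← Complex.exp_add]
  congr 1
  push_cast
  ring

theorem ee_zero : ee 0 = 1 := by simp [ee]

theorem norm_ee (x : ℝ) : ‖ee x‖ = 1 := by
  unfold ee
  rw [show 2 * Real.pi * Complex.I * (x : ℂ) = ((2 * Real.pi * x : ℝ) : ℂ) * Complex.I by
    push_cast; ring]
  exact Complex.norm_exp_ofReal_mul_I _

theorem ee_ne_zero (x : ℝ) : ee x ≠ 0 := by
  intro h
  have := norm_ee x
  rw [h, norm_zero] at this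
  exact zero_ne_one this

theorem ee_int (n : ℤ) : ee n = 1 := by
  unfold ee
  have := Complex.exp_int_mul_two_pi_mul_I n
  rw [← this]
  congr 1
  push_cast
  ring

theorem ee_nat (n : ℕ) : ee n = 1 := by
  have := ee_int n
  rwa [Int.cast_natCast] at this

theorem ee_add_int (x : ℝ) (n : ℤ) : ee (x + n) = ee x := by
  rw [ee_add, ee_int, mul_one]

theorem ee_neg (x : ℝ) : ee (-x) = (ee x)⁻¹ := by
  refine eq_inv_of_mul_eq_one_left ?_
  rw [← ee_add, neg_add_cancel, ee_zero]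

theorem ee_sub (x y : ℝ) : ee (x - y) = ee x / ee y := by
  rw [sub_eq_add_neg, ee_add, ee_neg, div_eq_mul_inv]

theorem conj_ee (x : ℝ) : (starRingEnd ℂ) (ee x) = ee (-x) := by
  unfold ee
  rw [← Complex.exp_conj]
  congr 1
  simp only [map_mul, Complex.conj_ofReal, Complex.conj_I, Complex.ofReal_neg]
  rw [Complex.conj_ofNat]
  ring

theorem ee_sub_one_le (x : ℝ) : ‖ee x - 1‖ ≤ 2 * Real.pi * |x| := by
  unfold ee
  rw [show 2 * Real.pi * Complex.I * (x : ℂ) = Complex.I * ((2 * Real.pi * x : ℝ) : ℂ) by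
    push_cast; ring]
  have := Real.norm_exp_I_mul_ofReal_sub_one_le (x := 2 * Real.pi * x)
  refine this.trans (le_of_eq ?_)
  rw [Real.norm_eq_abs, abs_mul, abs_of_pos (by positivity)]

theorem norm_ee_sub_ee (x y : ℝ) : ‖ee x - ee y‖ ≤ 2 * Real.pi * |x - y| := by
  have : ee x - ee y = ee y * (ee (x - y) - 1) := by
    rw [ee_sub]
    field_simp [ee_ne_zero y]
  rw [this, norm_mul, norm_ee, one_mul]
  exact ee_sub_one_le _

theorem ee_fourier (n : ℤ) (x : ℝ) : fourier n (x : UnitAddCircle) = ee (n * x) := by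
  rw [fourier_coe_apply]
  unfold ee
  congr 1
  push_cast
  ring

/-! ### `nd` -/

theorem nd_nonneg (x : ℝ) : 0 ≤ nd x := abs_nonneg _

theorem nd_le_half (x : ℝ) : nd x ≤ 1 / 2 := abs_sub_round x

theorem nd_le_abs (x : ℝ) (n : ℤ) : nd x ≤ |x - n| := round_le x n

theorem exists_nd (x : ℝ) : ∃ n : ℤ, nd x = |x - n| := ⟨round x, rfl⟩

theorem nd_zero : nd 0 = 0 := by simp [nd]

theorem nd_add_int (x : ℝ) (n : ℤ) : nd (x + n) = nd x := by
  unfold nd
  rw [round_add_intCast]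
  push_cast
  congr 1
  ring

theorem nd_sub_int (x : ℝ) (n : ℤ) : nd (x - n) = nd x := by
  have := nd_add_int x (-n)
  push_cast at this
  rwa [← sub_eq_add_neg] at this

theorem nd_neg (x : ℝ) : nd (-x) = nd x := by
  apply le_antisymm
  · obtain ⟨n, hn⟩ := exists_nd x
    have := nd_le_abs (-x) (-n)
    rw [hn]
    refine this.trans (le_of_eq ?_)
    push_cast
    rw [← abs_neg]
    congr 1
    ring
  · obtain ⟨n, hn⟩ := exists_nd (-x)
    have := nd_le_abs x (-n)
    rw [hn]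
    refine this.trans (le_of_eq ?_)
    push_cast
    rw [← abs_neg]
    congr 1
    ring

theorem nd_add_le (x y : ℝ) : nd (x + y) ≤ nd x + nd y := by
  obtain ⟨n, hn⟩ := exists_nd x
  obtain ⟨m, hm⟩ := exists_nd y
  have := nd_le_abs (x + y) (n + m)
  rw [hn, hm]
  refine this.trans ?_
  push_cast
  rw [show x + y - ((n : ℝ) + m) = (x - n) + (y - m) by ring]
  exact abs_add_le _ _

theorem nd_sub_le (x y : ℝ) : nd (x - y) ≤ nd x + nd y := by
  have := nd_add_le x (-y)
  rwa [nd_neg, ← sub_eq_add_neg] at this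

theorem nd_nat_mul_le (k : ℕ) (x : ℝ) : nd (k * x) ≤ k * nd x := by
  induction k with
  | zero => simp [nd_zero]
  | succ k ih =>
    push_cast
    have := nd_add_le (k * x) x
    rw [show ((k : ℝ) + 1) * x = k * x + x by ring]
    linarith

theorem nd_eq_abs {x : ℝ} (hx : |x| ≤ 1 / 2) : nd x = |x| := by
  apply le_antisymm
  · have := nd_le_abs x 0
    simpa using this
  · obtain ⟨n, hn⟩ := exists_nd x
    rw [hn]
    rcases eq_or_ne n 0 with h | h
    · rw [h]; simp
    · have h1 : (1 : ℝ) ≤ |(n : ℝ)| := by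
        rw [← Int.cast_abs]
        exact_mod_cast Int.one_le_abs h
      have h2 : |(n : ℝ)| ≤ |x - n| + |x| := by
        rw [← abs_neg (x - n)]
        refine le_trans (le_of_eq ?_) (abs_add_le _ _)
        congr 1
        ring
      linarith

theorem ee_sub_one_le_nd (x : ℝ) : ‖ee x - 1‖ ≤ 2 * Real.pi * nd x := by
  obtain ⟨n, hn⟩ := exists_nd x
  rw [hn]
  have h1 : ee x = ee (x - n) := by
    rw [← ee_add_int (x - n) n]
    congr 1
    ring
  rw [h1]
  exact ee_sub_one_le _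

end Pool.Agent.RHN
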