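import Pool.Agent.RHN.Defs

/-!
# RHN / EKhi: the atom at zero of the spectral measure

PROOF.  `(1/N²) ∑_{j,k<N} ∫ fourier (j-k) dσ = ∫ |(1/N) ∑_{j<N} fourier j ξ|² dσ(ξ) → σ.real {0}` by dominated convergence (the integrand is bounded by `1`, is `1` at
`ξ = 0` and tends to `0` for `ξ ≠ 0`: geometric sum).  On the other hand it equals `(1/N²) ∑_{j,k<N} μ.real(T^{-j}A ∩ T^{-k}A) = ∫ ((1/N) ∑_{j<N} 1_A(T^j x))² dμ(x)
≥ (∫ (1/N) ∑_{j<N} 1_A(T^j x) dμ(x))² = (μ.real A)²`.
-/

set_option autoImplicit false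

namespace Pool.Agent.RHN

open MeasureTheory

/-- the exponential sum -/
private noncomputable def SN (N : ℕ) (ξ : UnitAddCircle) : ℂ :=
  ∑ j ∈ Finset.range N, fourier (j : ℤ) ξ

private theorem SN_cont (N : ℕ) : Continuous (SN N) := by
  unfold SN
  exact continuous_finsetSum _ fun j _ => (fourier (j : ℤ)).continuous

private theorem norm_four (n : ℤ) (ξ : UnitAddCircle) : ‖fourier n ξ‖ = 1 := by
  rw [fourier_apply]
  exact Circle.norm_coe _

private theorem SN_le (N : ℕ) (ξ : UnitAddCircle) : ‖SN N ξ‖ ≤ N := by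
  unfold SN
  refine (norm_sum_le _ _).trans ?_
  simp only [norm_four, Finset.sum_const, Finset.card_range, nsmul_eq_mul, mul_one, le_refl]

private theorem SN_zero (N : ℕ) : SN N 0 = N := by
  unfold SN
  have h : ∀ j ∈ Finset.range N, fourier (j : ℤ) (0 : UnitAddCircle) = 1 := by
    intro j _
    rw [fourier_apply, smul_zero, AddCircle.toCircle_zero]
    rfl
  rw [Finset.sum_congr rfl h]
  simp

private theorem SN_bd {ξ : UnitAddCircle} (hξ : ξ ≠ 0) : ∃ C : ℝ, ∀ N, ‖SN N ξ‖ ≤ C := by
  set z : ℂ := fourier (1 : ℤ) ξ with hz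
  have hz1 : z ≠ 1 := by
    intro h
    apply hξ
    apply AddCircle.injective_toCircle (T := 1) one_ne_zero
    rw [AddCircle.toCircle_zero]
    rw [hz, fourier_apply, one_smul] at h
    exact Circle.ext (by rw [h]; rfl)
  have hp : ∀ j : ℕ, fourier (j : ℤ) ξ = z ^ j := by
    intro j
    rw [hz, fourier_apply, fourier_apply, one_smul, natCast_zsmul, AddCircle.toCircle_nsmul]
    rfl
  have hn : ‖z‖ = 1 := norm_four _ _
  have hpos : 0 < ‖z - 1‖ := norm_pos_iff.mpr (sub_ne_zero.mpr hz1)
  refine ⟨2 / ‖z - 1‖, fun N => ?_⟩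
  have h1 : SN N ξ * (z - 1) = z ^ N - 1 := by
    unfold SN
    rw [Finset.sum_congr rfl fun j _ => hp j]
    exact geom_sum_mul z N
  rw [le_div_iff₀ hpos, ← norm_mul, h1]
  refine (norm_sub_le _ _).trans ?_
  rw [norm_pow, hn, one_pow, norm_one]
  norm_num

private theorem SN_sq (N : ℕ) (ξ : UnitAddCircle) :
    ((‖SN N ξ‖ ^ 2 : ℝ) : ℂ) =
      ∑ j ∈ Finset.range N, ∑ k ∈ Finset.range N, fourier ((j : ℤ) - (k : ℤ)) ξ := by
  rw [Complex.ofReal_pow, ← Complex.mul_conj']
  unfold SN
  rw [map_sum, Finset.sum_mul_sum]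
  refine Finset.sum_congr rfl fun j _ => Finset.sum_congr rfl fun k _ => ?_
  rw [← fourier_neg, ← fourier_add, sub_eq_add_neg]

private theorem four_int (σ : Measure UnitAddCircle) [IsFiniteMeasure σ] (n : ℤ) :
    Integrable (fun ξ => fourier n ξ) σ := by
  refine Integrable.of_bound (fourier n).continuous.aestronglyMeasurable 1 ?_
  exact Filter.Eventually.of_forall fun ξ => (norm_four n ξ).le

private theorem SN_int (σ : Measure UnitAddCircle) [IsFiniteMeasure σ] (N : ℕ) :
    ((∫ ξ, ‖SN N ξ‖ ^ 2 ∂σ : ℝ) : ℂ) =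
      ∑ j ∈ Finset.range N, ∑ k ∈ Finset.range N, ∫ ξ, fourier ((j : ℤ) - (k : ℤ)) ξ ∂σ := by
  rw [← integral_complex_ofReal]
  simp only [SN_sq]
  rw [integral_finsetSum _ fun j _ => integrable_finsetSum _ fun k _ => four_int σ _]
  refine Finset.sum_congr rfl fun j _ => ?_
  rw [integral_finsetSum _ fun k _ => four_int σ _]

private theorem atom_lim (σ : Measure UnitAddCircle) [IsFiniteMeasure σ] :
    Filter.Tendsto (fun N : ℕ => ∫ ξ, ‖SN N ξ‖ ^ 2 / (N : ℝ) ^ 2 ∂σ) Filter.atTop
      (nhds (σ.real {0})) := by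
  rw [← integral_indicator_one (measurableSet_singleton (0 : UnitAddCircle))]
  refine tendsto_integral_of_dominated_convergence (fun _ => 1) (fun N => ?_)
    (integrable_const _) (fun N => Filter.Eventually.of_forall fun ξ => ?_)
    (Filter.Eventually.of_forall fun ξ => ?_)
  · exact (((SN_cont N).norm.pow 2).div_const _).aestronglyMeasurable
  · rw [Real.norm_eq_abs, abs_of_nonneg (by positivity)]
    rcases Nat.eq_zero_or_pos N with h | h
    · rw [h]
      simp
    · have h1 : (0 : ℝ) < N := by exact_mod_cast h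
      rw [div_le_one (by positivity)]
      exact pow_le_pow_left₀ (norm_nonneg _) (SN_le N ξ) 2
  · by_cases hξ : ξ = 0
    · subst hξ
      rw [Set.indicator_of_mem (Set.mem_singleton _), Pi.one_apply]
      refine tendsto_const_nhds.congr' ?_
      filter_upwards [Filter.eventually_gt_atTop 0] with N hN
      rw [SN_zero]
      have h1 : (N : ℝ) ≠ 0 := by exact_mod_cast hN.ne'
      rw [Complex.norm_natCast]
      field_simp
    · rw [Set.indicator_of_notMem (by simpa using hξ)]
      obtain ⟨C, hC⟩ := SN_bd hξ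
      have hC0 : 0 ≤ C := (norm_nonneg _).trans (hC 0)
      have h1 : Filter.Tendsto (fun N : ℕ => C ^ 2 / (N : ℝ) ^ 2) Filter.atTop (nhds 0) := by
        refine Filter.Tendsto.div_atTop tendsto_const_nhds ?_
        exact (Filter.tendsto_pow_atTop two_ne_zero).comp tendsto_natCast_atTop_atTop
      refine squeeze_zero (fun N => by positivity) (fun N => ?_) h1
      exact div_le_div_of_nonneg_right (pow_le_pow_left₀ (norm_nonneg _) (hC N) 2) (by positivity)

theorem atom_ge {X : Type} [MeasurableSpace X] (μ : Measure X) [IsProbabilityMeasure μ] (T : X → X)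
    (hT : MeasurePreserving T μ μ) (A : Set X) (hA : MeasurableSet A) (σ : Measure UnitAddCircle)
    [IsFiniteMeasure σ] (h : ∀ n : ℤ,
      ∫ ξ, fourier n ξ ∂σ = ((μ.real (A ∩ (T^[n.natAbs]) ⁻¹' A) : ℝ) : ℂ)) :
    μ.real A ^ 2 ≤ σ.real {0} := by
  set B : ℕ → Set X := fun j => (T^[j]) ⁻¹' A with hB
  have hBm : ∀ j, MeasurableSet (B j) := fun j => (hT.iterate j).measurable hA
  have hBr : ∀ j, μ.real (B j) = μ.real A := fun j =>
    (hT.iterate j).measureReal_preimage hA.nullMeasurableSet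
  have hle : ∀ j k : ℕ, j ≤ k → μ.real (B j ∩ B k) = μ.real (A ∩ (T^[k - j]) ⁻¹' A) := by
    intro j k hjk
    have h1 : B j ∩ B k = (T^[j]) ⁻¹' (A ∩ (T^[k - j]) ⁻¹' A) := by
      ext x
      simp only [hB, Set.mem_inter_iff, Set.mem_preimage]
      rw [← Function.iterate_add_apply, Nat.sub_add_cancel hjk]
    rw [h1]
    exact (hT.iterate j).measureReal_preimage
      (hA.inter ((hT.iterate (k - j)).measurable hA)).nullMeasurableSet
  have hBB : ∀ j k : ℕ, μ.real (B j ∩ B k) =
      μ.real (A ∩ (T^[((j : ℤ) - (k : ℤ)).natAbs]) ⁻¹' A) := by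
    intro j k
    rcases le_total j k with hjk | hjk
    · rw [hle j k hjk]
      have h1 : ((j : ℤ) - (k : ℤ)).natAbs = k - j := by omega
      rw [h1]
    · rw [Set.inter_comm, hle k j hjk]
      have h1 : ((j : ℤ) - (k : ℤ)).natAbs = j - k := by omega
      rw [h1]
  -- the inequality for every `N`
  have hN : ∀ N : ℕ, ((N : ℝ) * μ.real A) ^ 2 ≤ ∫ ξ, ‖SN N ξ‖ ^ 2 ∂σ := by
    intro N
    have h1 : ∫ ξ, ‖SN N ξ‖ ^ 2 ∂σ =
        ∑ j ∈ Finset.range N, ∑ k ∈ Finset.range N, μ.real (B j ∩ B k) := by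
      have h2 := SN_int σ N
      simp only [h] at h2
      have h3 : (∑ j ∈ Finset.range N, ∑ k ∈ Finset.range N,
          ((μ.real (A ∩ (T^[((j : ℤ) - (k : ℤ)).natAbs]) ⁻¹' A) : ℝ) : ℂ)) =
          ((∑ j ∈ Finset.range N, ∑ k ∈ Finset.range N, μ.real (B j ∩ B k) : ℝ) : ℂ) := by
        push_cast
        simp only [hBB]
      rw [h3] at h2
      exact_mod_cast h2
    rw [h1]
    -- functions
    set f : X → ℝ := fun x => ∑ j ∈ Finset.range N, (B j).indicator 1 x with hf
    have hind : ∀ j, Integrable ((B j).indicator (1 : X → ℝ)) μ := fun j =>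
      (integrable_const (1 : ℝ)).indicator (hBm j)
    have hfi : Integrable f μ := integrable_finsetSum _ fun j _ => hind j
    have hf1 : ∫ x, f x ∂μ = N * μ.real A := by
      rw [hf, integral_finsetSum _ fun j _ => hind j]
      simp only [integral_indicator_one (hBm _), hBr]
      simp
    have hf2 : ∀ x, f x ^ 2 = ∑ j ∈ Finset.range N, ∑ k ∈ Finset.range N,
        (B j ∩ B k).indicator 1 x := by
      intro x
      rw [sq, hf]
      simp only
      rw [Finset.sum_mul_sum]
      refine Finset.sum_congr rfl fun j _ => Finset.sum_congr rfl fun k _ => ?_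
      by_cases h1 : x ∈ B j
      · by_cases h2 : x ∈ B k
        · have hm : x ∈ B j ∩ B k := Set.mem_inter h1 h2
          rw [Set.indicator_of_mem h1, Set.indicator_of_mem h2, Set.indicator_of_mem hm]
          simp
        · have hm : x ∉ B j ∩ B k := fun h3 => h2 (Set.mem_of_mem_inter_right h3)
          rw [Set.indicator_of_notMem h2, Set.indicator_of_notMem hm, mul_zero]
      · have hm : x ∉ B j ∩ B k := fun h3 => h1 (Set.mem_of_mem_inter_left h3)
        rw [Set.indicator_of_notMem h1, Set.indicator_of_notMem hm, zero_mul]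
    have hind2 : ∀ j k, Integrable ((B j ∩ B k).indicator (1 : X → ℝ)) μ := fun j k =>
      (integrable_const (1 : ℝ)).indicator ((hBm j).inter (hBm k))
    have hf2i : Integrable (fun x => f x ^ 2) μ := by
      simp only [hf2]
      exact integrable_finsetSum _ fun j _ => integrable_finsetSum _ fun k _ => hind2 j k
    have hf3 : ∫ x, f x ^ 2 ∂μ =
        ∑ j ∈ Finset.range N, ∑ k ∈ Finset.range N, μ.real (B j ∩ B k) := by
      simp only [hf2]
      rw [integral_finsetSum _ fun j _ => integrable_finsetSum _ fun k _ => hind2 j k]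
      refine Finset.sum_congr rfl fun j _ => ?_
      rw [integral_finsetSum _ fun k _ => hind2 j k]
      refine Finset.sum_congr rfl fun k _ => ?_
      rw [integral_indicator_one ((hBm j).inter (hBm k))]
    rw [← hf3, ← hf1]
    set c := ∫ x, f x ∂μ with hc
    have h4 : 0 ≤ ∫ x, (f x - c) ^ 2 ∂μ := integral_nonneg fun x => sq_nonneg _
    have h5 : ∫ x, (f x - c) ^ 2 ∂μ = ∫ x, f x ^ 2 ∂μ - c ^ 2 := by
      have h6 : ∀ x, (f x - c) ^ 2 = f x ^ 2 - 2 * c * f x + c ^ 2 := fun x => by ring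
      simp only [h6]
      have h7 : Integrable (fun x => f x ^ 2 - 2 * c * f x) μ := hf2i.sub (hfi.const_mul (2 * c))
      rw [integral_add h7 (integrable_const _),
        integral_sub hf2i (hfi.const_mul (2 * c)), integral_const_mul, integral_const, ← hc]
      simp
      ring
    linarith
  refine ge_of_tendsto (atom_lim σ) ?_
  filter_upwards [Filter.eventually_gt_atTop 0] with N hN0
  have h1 : (0 : ℝ) < N := by exact_mod_cast hN0
  rw [integral_div, le_div_iff₀ (by positivity)]
  have := hN N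
  calc μ.real A ^ 2 * (N : ℝ) ^ 2 = ((N : ℝ) * μ.real A) ^ 2 := by ring
    _ ≤ _ := this

end Pool.Agent.RHN
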