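import Pool.Agent.RHN.HDefs

/-!
# RHN / HSg: eventual signs in Hardy fields

PROOFS.  `hf_deriv`: the representative `g` of the germ of `f` agrees with `f` on some `[t₀, ∞)`, so on `(t₀, ∞)` `f` is differentiable where `g` is, with the same derivative.
`hf_sg`: if the germ is `0` we are in the second case.  Otherwise `f h = 1` eventually for some `h`, so `f ≠ 0` eventually; `f` is eventually differentiable, hence continuous on some
`[t₀, ∞)` and without zeros there, so it has constant sign (intermediate value theorem).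
`sg_of_deriv`: `deriv g` has eventually constant sign, so `g` is eventually strictly increasing, constant or strictly decreasing; in each case `g` is eventually positive, eventually
zero, or eventually negative: e.g. `g` increasing: either `g t₁ ≥ 0` for some `t₁` in the range (then `g > 0` after `t₁`), or `g < 0` throughout.
`hf_iter`: induction with `hf_deriv`.
-/

set_option autoImplicit false

namespace Pool.Agent.RHN

open Filter Topology

private lemma ev_deriv {f g : ℝ → ℝ} (h : g =ᶠ[atTop] f) :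
    ∀ᶠ t in atTop, g =ᶠ[𝓝 t] f := by
  obtain ⟨t₀, ht₀⟩ := eventually_atTop.1 h
  filter_upwards [eventually_gt_atTop t₀] with t ht
  filter_upwards [lt_mem_nhds ht] with s hs
  exact ht₀ s (le_of_lt hs)

theorem hf_deriv {S : Subring (Germ (atTop : Filter ℝ) ℝ)} (hS : Hf S) {f : ℝ → ℝ}
    (hf : (f : Germ (atTop : Filter ℝ) ℝ) ∈ S) :
    (∀ᶠ t in atTop, DifferentiableAt ℝ f t) ∧ ((deriv f : ℝ → ℝ) : Germ (atTop : Filter ℝ) ℝ) ∈ S := by
  obtain ⟨g, hg, hd, hm⟩ := hS.2 _ hf
  have he : g =ᶠ[atTop] f := Germ.coe_eq.1 hg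
  have he2 := ev_deriv he
  refine ⟨?_, ?_⟩
  · filter_upwards [hd, he2] with t h1 h2
    exact h1.congr_of_eventuallyEq h2.symm
  · have : ((deriv g : ℝ → ℝ) : Germ (atTop : Filter ℝ) ℝ) =
        ((deriv f : ℝ → ℝ) : Germ (atTop : Filter ℝ) ℝ) := by
      apply Germ.coe_eq.2
      filter_upwards [he2] with t h2
      exact h2.deriv_eq
    rw [← this]
    exact hm

theorem hf_sg {S : Subring (Germ (atTop : Filter ℝ) ℝ)} (hS : Hf S) {f : ℝ → ℝ}
    (hf : (f : Germ (atTop : Filter ℝ) ℝ) ∈ S) : Sg f := by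
  by_cases h0 : (f : Germ (atTop : Filter ℝ) ℝ) = 0
  · right; left
    have h1 : (f : Germ (atTop : Filter ℝ) ℝ) = ((fun _ => 0 : ℝ → ℝ) : Germ (atTop : Filter ℝ) ℝ) := h0
    exact Germ.coe_eq.1 h1
  · obtain ⟨h, _, hfh⟩ := hS.1 _ hf h0
    have hne : ∀ᶠ t in atTop, f t ≠ 0 := by
      induction h using Germ.inductionOn with
      | h k =>
        have h1 : ((fun t => f t * k t : ℝ → ℝ) : Germ (atTop : Filter ℝ) ℝ) =
          ((fun _ => 1 : ℝ → ℝ) : Germ (atTop : Filter ℝ) ℝ) := hfh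
        have h2 := Germ.coe_eq.1 h1
        filter_upwards [h2] with t ht h3
        simp only [h3, zero_mul] at ht
        exact zero_ne_one ht
    obtain ⟨t₀, ht₀⟩ := eventually_atTop.1 (hne.and (hf_deriv hS hf).1)
    have hcont : ∀ t, ContinuousOn f (Set.Icc t₀ t) := by
      intro t s hs
      exact (ht₀ s hs.1).2.continuousAt.continuousWithinAt
    rcases lt_or_gt_of_ne (ht₀ t₀ le_rfl).1 with h1 | h1
    · right; right
      filter_upwards [eventually_ge_atTop t₀] with t ht
      by_contra h2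
      push Not at h2
      obtain ⟨s, hs, hs'⟩ := intermediate_value_Icc ht (hcont t) ⟨h1.le, h2⟩
      exact (ht₀ s hs.1).1 hs'
    · left
      filter_upwards [eventually_ge_atTop t₀] with t ht
      by_contra h2
      push Not at h2
      obtain ⟨s, hs, hs'⟩ := intermediate_value_Icc' ht (hcont t) ⟨h2, h1.le⟩
      exact (ht₀ s hs.1).1 hs'

theorem hf_iter {S : Subring (Germ (atTop : Filter ℝ) ℝ)} (hS : Hf S) {f : ℝ → ℝ}
    (hf : (f : Germ (atTop : Filter ℝ) ℝ) ∈ S) (m : ℕ) :
    ((deriv^[m] f : ℝ → ℝ) : Germ (atTop : Filter ℝ) ℝ) ∈ S ∧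
      ∀ᶠ t in atTop, DifferentiableAt ℝ (deriv^[m] f) t := by
  have h1 : ((deriv^[m] f : ℝ → ℝ) : Germ (atTop : Filter ℝ) ℝ) ∈ S := by
    induction m with
    | zero => exact hf
    | succ m ih =>
      rw [Function.iterate_succ_apply']
      exact (hf_deriv hS ih).2
  exact ⟨h1, (hf_deriv hS h1).1⟩

private lemma mono_of {g : ℝ → ℝ} {t₀ : ℝ}
    (h : ∀ t, t₀ ≤ t → DifferentiableAt ℝ g t ∧ 0 ≤ deriv g t) : MonotoneOn g (Set.Ici t₀) := by
  apply monotoneOn_of_deriv_nonneg (convex_Ici t₀)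
  · intro t ht
    exact (h t ht).1.continuousAt.continuousWithinAt
  · intro t ht
    rw [interior_Ici] at ht
    exact (h t (le_of_lt ht)).1.differentiableWithinAt
  · intro t ht
    rw [interior_Ici] at ht
    exact (h t (le_of_lt ht)).2

private lemma smono_of {g : ℝ → ℝ} {t₀ : ℝ}
    (h : ∀ t, t₀ ≤ t → DifferentiableAt ℝ g t ∧ 0 < deriv g t) : StrictMonoOn g (Set.Ici t₀) := by
  apply strictMonoOn_of_deriv_pos (convex_Ici t₀)
  · intro t ht
    exact (h t ht).1.continuousAt.continuousWithinAt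
  · intro t ht
    rw [interior_Ici] at ht
    exact (h t (le_of_lt ht)).2

private lemma neg_data {g : ℝ → ℝ} (hd : ∀ᶠ t in atTop, DifferentiableAt ℝ g t) :
    (∀ᶠ t in atTop, DifferentiableAt ℝ (fun t => -g t) t) ∧
      ∀ t, deriv (fun t => -g t) t = -deriv g t := by
  refine ⟨?_, fun t => ?_⟩
  · filter_upwards [hd] with t ht
    exact ht.neg
  · exact deriv.fun_neg

private lemma sg_pos {g : ℝ → ℝ} (hd : ∀ᶠ t in atTop, DifferentiableAt ℝ g t)
    (h : ∀ᶠ t in atTop, 0 < deriv g t) : Sg g := by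
  obtain ⟨t₀, ht₀⟩ := eventually_atTop.1 (hd.and h)
  have hm := smono_of ht₀
  by_cases h1 : ∃ t₁, t₀ ≤ t₁ ∧ 0 ≤ g t₁
  · obtain ⟨t₁, ht₁, h2⟩ := h1
    left
    filter_upwards [eventually_gt_atTop t₁] with t ht
    exact h2.trans_lt (hm (Set.mem_Ici.2 ht₁) (Set.mem_Ici.2 (ht₁.trans ht.le)) ht)
  · push Not at h1
    right; right
    filter_upwards [eventually_ge_atTop t₀] with t ht
    exact h1 t ht

private lemma const_of {g : ℝ → ℝ} (hd : ∀ᶠ t in atTop, DifferentiableAt ℝ g t)
    (h : ∀ᶠ t in atTop, deriv g t = 0) : ∃ t₀, ∀ t, t₀ ≤ t → g t = g t₀ := by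
  obtain ⟨t₀, ht₀⟩ := eventually_atTop.1 (hd.and h)
  refine ⟨t₀, fun t ht => ?_⟩
  have h1 := mono_of (g := g) (t₀ := t₀) (fun s hs => ⟨(ht₀ s hs).1, (ht₀ s hs).2.ge⟩)
  have h2 := mono_of (g := fun t => -g t) (t₀ := t₀) (fun s hs => ⟨(ht₀ s hs).1.neg, by
    rw [(neg_data hd).2, (ht₀ s hs).2, neg_zero]⟩)
  have h3 := h1 (Set.mem_Ici.2 le_rfl) (Set.mem_Ici.2 ht) ht
  have h4 := h2 (Set.mem_Ici.2 le_rfl) (Set.mem_Ici.2 ht) ht
  simp only at h4
  linarith

theorem sg_of_deriv {g : ℝ → ℝ} (hd : ∀ᶠ t in atTop, DifferentiableAt ℝ g t) (h : Sg (deriv g)) :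
    Sg g := by
  rcases h with h | h | h
  · exact sg_pos hd h
  · obtain ⟨t₀, ht₀⟩ := const_of hd h
    rcases lt_trichotomy 0 (g t₀) with h1 | h1 | h1
    · left
      filter_upwards [eventually_ge_atTop t₀] with t ht
      rw [ht₀ t ht]; exact h1
    · right; left
      filter_upwards [eventually_ge_atTop t₀] with t ht
      rw [ht₀ t ht]; exact h1.symm
    · right; right
      filter_upwards [eventually_ge_atTop t₀] with t ht
      rw [ht₀ t ht]; exact h1
  · have h2 : Sg (fun t => -g t) := by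
      apply sg_pos (neg_data hd).1
      filter_upwards [h] with t ht
      rw [(neg_data hd).2]
      linarith
    rcases h2 with h2 | h2 | h2
    · right; right
      filter_upwards [h2] with t ht
      linarith
    · right; left
      filter_upwards [h2] with t ht
      linarith
    · left
      filter_upwards [h2] with t ht
      linarith

private lemma lim_mono {g : ℝ → ℝ} {t₀ : ℝ} (hm : MonotoneOn g (Set.Ici t₀)) :
    Tendsto g atTop atTop ∨ ∃ L : ℝ, Tendsto g atTop (𝓝 L) := by
  have h1 : Monotone (fun t => g (max t t₀)) := by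
    intro s t hst
    exact hm (Set.mem_Ici.2 (le_max_right _ _)) (Set.mem_Ici.2 (le_max_right _ _))
      (max_le_max_right t₀ hst)
  have h2 : (fun t => g (max t t₀)) =ᶠ[atTop] g := by
    filter_upwards [eventually_ge_atTop t₀] with t ht
    rw [max_eq_left ht]
  rcases tendsto_of_monotone h1 with h3 | ⟨L, h3⟩
  · exact Or.inl (h3.congr' h2)
  · exact Or.inr ⟨L, h3.congr' h2⟩

/-- if the derivative has eventually constant sign there is a limit in `[-∞, ∞]` -/
theorem lim_of_deriv {g : ℝ → ℝ} (hd : ∀ᶠ t in atTop, DifferentiableAt ℝ g t) (h : Sg (deriv g)) :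
    Tendsto g atTop atTop ∨ Tendsto g atTop atBot ∨ ∃ L : ℝ, Tendsto g atTop (𝓝 L) := by
  rcases h with h | h | h
  · obtain ⟨t₀, ht₀⟩ := eventually_atTop.1 (hd.and h)
    rcases lim_mono (smono_of ht₀).monotoneOn with h1 | h1
    · exact Or.inl h1
    · exact Or.inr (Or.inr h1)
  · obtain ⟨t₀, ht₀⟩ := const_of hd h
    refine Or.inr (Or.inr ⟨g t₀, ?_⟩)
    apply tendsto_const_nhds.congr'
    filter_upwards [eventually_ge_atTop t₀] with t ht
    exact (ht₀ t ht).symm
  · have h2 : ∀ᶠ t in atTop, 0 < deriv (fun t => -g t) t := by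
      filter_upwards [h] with t ht
      rw [(neg_data hd).2]
      linarith
    obtain ⟨t₀, ht₀⟩ := eventually_atTop.1 ((neg_data hd).1.and h2)
    rcases lim_mono (smono_of ht₀).monotoneOn with h1 | ⟨L, h1⟩
    · right; left
      have := tendsto_neg_atTop_atBot.comp h1
      refine this.congr (fun t => ?_)
      simp
    · refine Or.inr (Or.inr ⟨-L, ?_⟩)
      have := h1.neg
      refine this.congr (fun t => ?_)
      simp

end Pool.Agent.RHN
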