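import Pool.Agent.RHN.Weyl

/-!
# RHN / RecD: strong recurrence of `γ d^D`

PROOF.  Let `K = ⌈8/δ⌉₊` (`8/δ ≤ K ≤ 16/δ`), and `φ_d = γ d^D - c`.  For `t ∈ ℤ` put `T_t = (1/Δ) ∑_{d ≤ Δ} e(t φ_d)`.  Then
`∑_{k, k' < K} T_{k - k'} = (1/Δ) ∑_d |∑_{k<K} e(k φ_d)|² ≥ (1/Δ) ∑_{d ∈ S} (K/2)² ≥ δ K²/4`: for `d ∈ S`,
`|e(k φ_d) - 1| ≤ 2π k σ ≤ 1/2` (`ee_sub_one_le_nd`, `nd_nat_mul_le`; `σ ≤ δ/C`, `k < K ≤ 16/δ`, `C` large).  The diagonal contributes `K ≤ δK²/8`.  So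
some `t` with `1 ≤ |t| < K` has `|T_t| ≥ δ/8`; by complex conjugation `t ≥ 1`.  `weyl` for `G = t γ X^D` (plus the constant `-t c`), the
interval `[1, Δ]` and `δ/8`: there is `k ≤ (C₀ 8/δ)^{C₀}` with `nd (k t γ) ≤ (8 C₀/δ)^{C₀}/Δ^D`.  Let `k₁ = k t ≤ B`,
`B := (C₁/δ)^{C₁}`, `nd (k₁ γ) ≤ B/Δ^D`, and `γ' = k₁ γ - a`, `a` the nearest integer, `|γ'| = nd (k₁ γ)`.
For `d ∈ S`: `k₁ (γ d^D - c) = γ' d^D - k₁ c + (integer)`, so there is an integer `n` with `|γ' d^D - k₁ c - n| ≤ k₁ σ` (`nd_nat_mul_le`).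
As `|γ' d^D| ≤ B` and `k₁ σ ≤ B`, at most `4B + 3` integers `n` occur.  Pigeonhole: some `n` has at least `δ Δ/(4B+3)` of the `d ∈ S`; let `d₁ < d₂` be the
smallest and the largest of them (`δΔ/(4B+3) ≥ 2` as `Δ ≥ (C/δ)^C`), `d₂ - d₁ ≥ δΔ/(4B+3) - 1 ≥ δΔ/(8B+6)`.  Then
`|γ'| (d₂ - d₁)^D ≤ |γ'| (d₂^D - d₁^D) ≤ 2 k₁ σ`, so `nd (k₁ γ) ≤ 2 B σ (8B+6)^D/(δΔ)^D ≤ (C/δ)^C σ/Δ^D`.
-/

set_option autoImplicit false

namespace Pool.Agent.RHN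

open Finset Polynomial ComplexConjugate

private theorem rd_conj (φ : ℕ → ℝ) (Δ : ℕ) (x : ℝ) :
    ‖∑ d ∈ Icc 1 Δ, ee (-x * φ d)‖ = ‖∑ d ∈ Icc 1 Δ, ee (x * φ d)‖ := by
  rw [← RCLike.norm_conj (∑ d ∈ Icc 1 Δ, ee (x * φ d)), map_sum]
  congr 1
  refine sum_congr rfl fun d _ => ?_
  rw [conj_ee]
  congr 1
  ring

/-- a large exponential sum at a small multiple -/
private theorem rd_t {δ σ : ℝ} (hδ : 0 < δ) (hδ1 : δ ≤ 1) (hσδ : σ ≤ δ / 128)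
    (φ : ℕ → ℝ) {Δ : ℕ} (hΔ : 1 ≤ Δ) (S : Finset ℕ) (hS : S ⊆ Icc 1 Δ) (hcard : δ * Δ ≤ S.card)
    (h : ∀ d ∈ S, nd (φ d) ≤ σ) :
    ∃ t : ℕ, 1 ≤ t ∧ (t : ℝ) ≤ 9 / δ ∧ δ / 8 * Δ ≤ ‖∑ d ∈ Icc 1 Δ, ee (t * φ d)‖ := by
  by_contra hcon
  push Not at hcon
  obtain ⟨K, hK⟩ : ∃ K : ℕ, K = ⌈8 / δ⌉₊ := ⟨_, rfl⟩
  have hK1 : 8 / δ ≤ K := hK ▸ Nat.le_ceil _
  have hK2 : (K : ℝ) ≤ 9 / δ := by
    have h1 : (K : ℝ) < 8 / δ + 1 := hK ▸ Nat.ceil_lt_add_one (by positivity)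
    have h2 : (1 : ℝ) ≤ 1 / δ := by
      rw [le_div_iff₀ hδ]
      linarith
    have h3 : 9 / δ = 8 / δ + 1 / δ := by ring
    linarith
  have hΔ' : (1 : ℝ) ≤ Δ := by exact_mod_cast hΔ
  have hK8 : 8 ≤ δ * K := by
    rw [div_le_iff₀ hδ] at hK1
    linarith
  have hK9 : δ * K ≤ 9 := by
    rw [le_div_iff₀ hδ] at hK2
    linarith
  have hK0 : (0 : ℝ) < K := by
    have : 0 < 8 / δ := by positivity
    linarith
  -- the off-diagonal terms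
  have hoff : ∀ k ∈ range K, ∀ k' ∈ range K, k ≠ k' →
      ‖∑ d ∈ Icc 1 Δ, ee (((k : ℝ) - k') * φ d)‖ ≤ δ / 8 * Δ := by
    intro k hk k' hk' hne
    have hk1 := mem_range.1 hk
    have hk2 := mem_range.1 hk'
    rcases lt_or_gt_of_ne hne with hlt | hlt
    · have h1 := hcon (k' - k) (by omega) (le_trans (by
        have : k' - k ≤ K := by omega
        exact_mod_cast this) hK2)
      rw [Nat.cast_sub hlt.le] at h1
      rw [← rd_conj, neg_sub]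
      exact h1.le
    · have h1 := hcon (k - k') (by omega) (le_trans (by
        have : k - k' ≤ K := by omega
        exact_mod_cast this) hK2)
      rw [Nat.cast_sub hlt.le] at h1
      exact h1.le
  have hdiag : ∀ k ∈ range K, ‖∑ d ∈ Icc 1 Δ, ee (((k : ℝ) - k) * φ d)‖ ≤ Δ := by
    intro k _
    refine (norm_sum_le _ _).trans ?_
    simp only [norm_ee]
    simp
  have hup : ∑ k ∈ range K, ∑ k' ∈ range K, ‖∑ d ∈ Icc 1 Δ, ee (((k : ℝ) - k') * φ d)‖ ≤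
      K * (Δ + (K - 1) * (δ / 8 * Δ)) := by
    have h1 : ∀ k ∈ range K, ∑ k' ∈ range K, ‖∑ d ∈ Icc 1 Δ, ee (((k : ℝ) - k') * φ d)‖ ≤
        Δ + (K - 1) * (δ / 8 * Δ) := by
      intro k hk
      rw [← add_sum_erase _ _ hk]
      refine add_le_add (hdiag k hk) ?_
      have h2 := sum_le_card_nsmul ((range K).erase k)
        (fun k' => ‖∑ d ∈ Icc 1 Δ, ee (((k : ℝ) - k') * φ d)‖) (δ / 8 * Δ)
        fun k' hk' => hoff k hk k' (mem_of_mem_erase hk') (ne_of_mem_erase hk').symm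
      refine h2.trans (le_of_eq ?_)
      have hK1' : 1 ≤ K := by
        have := mem_range.1 hk
        omega
      rw [card_erase_of_mem hk, card_range, nsmul_eq_mul, Nat.cast_sub hK1', Nat.cast_one]
    have h2 := sum_le_card_nsmul (range K) _ _ h1
    rw [card_range, nsmul_eq_mul] at h2
    exact h2
  -- the lower bound
  have hsq : ∀ d, ((‖∑ k ∈ range K, ee (k * φ d)‖ ^ 2 : ℝ) : ℂ) =
      ∑ k ∈ range K, ∑ k' ∈ range K, ee (((k : ℝ) - k') * φ d) := by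
    intro d
    rw [← Complex.normSq_eq_norm_sq, ← Complex.mul_conj, map_sum, sum_mul_sum]
    refine sum_congr rfl fun k _ => sum_congr rfl fun k' _ => ?_
    rw [conj_ee, ← ee_add]
    congr 1
    ring
  have hlow1 : ∀ d ∈ S, (K : ℝ) / 2 ≤ ‖∑ k ∈ range K, ee (k * φ d)‖ := by
    intro d hd
    have h1 : ‖∑ k ∈ range K, (ee (k * φ d) - 1)‖ ≤ K / 2 := by
      refine (norm_sum_le _ _).trans ?_
      have h2 : ∀ k ∈ range K, ‖ee (k * φ d) - 1‖ ≤ 1 / 2 := by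
        intro k hk
        have hk1 : (k : ℝ) ≤ K := by exact_mod_cast (mem_range.1 hk).le
        have h3 : nd (k * φ d) ≤ K * σ :=
          (nd_nat_mul_le k (φ d)).trans (mul_le_mul hk1 (h d hd) (nd_nonneg _) hK0.le)
        have h4 : K * σ ≤ 9 / 128 := by nlinarith
        have h5 := ee_sub_one_le_nd (k * φ d)
        have h6 := Real.pi_lt_d2
        have h7 := Real.pi_pos
        nlinarith [nd_nonneg (k * φ d)]
      refine (sum_le_card_nsmul _ _ _ h2).trans (le_of_eq ?_)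
      rw [card_range, nsmul_eq_mul]
      ring
    rw [sum_sub_distrib, sum_const, card_range, nsmul_eq_mul, mul_one] at h1
    have h2 : (K : ℝ) ≤ ‖∑ k ∈ range K, ee (k * φ d)‖ +
        ‖∑ k ∈ range K, ee (k * φ d) - (K : ℂ)‖ := by
      have h3 : ‖(K : ℂ)‖ = K := by simp
      calc (K : ℝ) = ‖(K : ℂ)‖ := h3.symm
        _ = ‖(∑ k ∈ range K, ee (k * φ d)) - (∑ k ∈ range K, ee (k * φ d) - (K : ℂ))‖ := by
            congr 1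
            ring
        _ ≤ _ := norm_sub_le _ _
    linarith
  have hlow : δ * Δ * (K / 2) ^ 2 ≤ ∑ d ∈ Icc 1 Δ, ‖∑ k ∈ range K, ee (k * φ d)‖ ^ 2 := by
    calc δ * Δ * (K / 2) ^ 2 ≤ S.card * (K / 2) ^ 2 :=
          mul_le_mul_of_nonneg_right hcard (by positivity)
      _ = ∑ _d ∈ S, ((K : ℝ) / 2) ^ 2 := by rw [sum_const, nsmul_eq_mul]
      _ ≤ ∑ d ∈ S, ‖∑ k ∈ range K, ee (k * φ d)‖ ^ 2 :=
          sum_le_sum fun d hd => pow_le_pow_left₀ (by positivity) (hlow1 d hd) 2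
      _ ≤ _ := sum_le_sum_of_subset_of_nonneg hS fun _ _ _ => by positivity
  have hmid : ∑ d ∈ Icc 1 Δ, ‖∑ k ∈ range K, ee (k * φ d)‖ ^ 2 ≤
      ∑ k ∈ range K, ∑ k' ∈ range K, ‖∑ d ∈ Icc 1 Δ, ee (((k : ℝ) - k') * φ d)‖ := by
    have h1 : ((∑ d ∈ Icc 1 Δ, ‖∑ k ∈ range K, ee (k * φ d)‖ ^ 2 : ℝ) : ℂ) =
        ∑ k ∈ range K, ∑ k' ∈ range K, ∑ d ∈ Icc 1 Δ, ee (((k : ℝ) - k') * φ d) := by
      rw [Complex.ofReal_sum, sum_congr rfl fun d _ => hsq d, sum_comm]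
      refine sum_congr rfl fun k _ => ?_
      rw [sum_comm]
    have h2 : ‖((∑ d ∈ Icc 1 Δ, ‖∑ k ∈ range K, ee (k * φ d)‖ ^ 2 : ℝ) : ℂ)‖ =
        ∑ d ∈ Icc 1 Δ, ‖∑ k ∈ range K, ee (k * φ d)‖ ^ 2 := by
      rw [Complex.norm_real, Real.norm_eq_abs, abs_of_nonneg]
      exact sum_nonneg fun _ _ => by positivity
    rw [← h2, h1]
    exact (norm_sum_le _ _).trans (sum_le_sum fun k _ => norm_sum_le _ _)
  have hfin := hlow.trans (hmid.trans hup)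
  have hKΔ : 0 < (K : ℝ) * Δ := by positivity
  have e1 : δ * Δ * (K / 2) ^ 2 = (K * Δ) * (δ * K / 4) := by ring
  have e2 : (K : ℝ) * (Δ + (K - 1) * (δ / 8 * Δ)) = (K * Δ) * (1 + (δ * K - δ) / 8) := by ring
  rw [e1, e2] at hfin
  have h1 := le_of_mul_le_mul_left hfin hKΔ
  linarith

/-- extreme elements -/
private theorem rd_ext {S : Finset ℕ} {x : ℝ} (hx : 2 ≤ x) (hS : x ≤ S.card) :
    ∃ d₁ ∈ S, ∃ d₂ ∈ S, d₁ ≤ d₂ ∧ x / 2 ≤ (d₂ : ℝ) - d₁ := by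
  have h0 : S.Nonempty := by
    rw [nonempty_iff_ne_empty]
    rintro rfl
    rw [card_empty, Nat.cast_zero] at hS
    linarith
  refine ⟨S.min' h0, S.min'_mem h0, S.max' h0, S.max'_mem h0, S.min'_le _ (S.max'_mem h0), ?_⟩
  have h1 : S ⊆ Icc (S.min' h0) (S.max' h0) := fun y hy =>
    mem_Icc.2 ⟨S.min'_le _ hy, S.le_max' _ hy⟩
  have h2 := card_le_card h1
  rw [Nat.card_Icc] at h2
  have h3 : S.min' h0 ≤ S.max' h0 := S.min'_le _ (S.max'_mem h0)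
  have h4 : S.card + S.min' h0 ≤ S.max' h0 + 1 := by omega
  have h5 : (S.card : ℝ) + S.min' h0 ≤ S.max' h0 + 1 := by exact_mod_cast h4
  linarith

/-- the pigeonhole argument -/
private theorem rd_pig {D : ℕ} (hD : 1 ≤ D) {δ σ γ c B : ℝ} (hδ : 0 < δ) (hB : 1 ≤ B)
    (hσ : 0 ≤ σ) (hσ1 : σ ≤ 1) {Δ : ℕ} (hΔ : 10 * B / δ ≤ Δ) (S : Finset ℕ) (hS : S ⊆ Icc 1 Δ)
    (hcard : δ * Δ ≤ S.card) (h : ∀ d ∈ S, nd (γ * (d : ℝ) ^ D - c) ≤ σ) {k : ℕ}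
    (hk : (k : ℝ) ≤ B) (hkγ : nd (k * γ) ≤ B / (Δ : ℝ) ^ D) :
    nd (k * γ) ≤ 2 * B * (10 * B / δ) ^ D * σ / (Δ : ℝ) ^ D := by
  classical
  have hB0 : 0 < B := by linarith
  have hΔ0 : (0 : ℝ) < Δ := lt_of_lt_of_le (by positivity) hΔ
  have hkσ : (k : ℝ) * σ ≤ B := by
    have : (k : ℝ) * σ ≤ B * 1 := mul_le_mul hk hσ1 hσ hB0.le
    linarith
  obtain ⟨a, ha⟩ := exists_nd (k * γ)
  rw [ha] at hkγ ⊢
  obtain ⟨γ', hγ'⟩ : ∃ γ' : ℝ, γ' = k * γ - a := ⟨_, rfl⟩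
  rw [← hγ'] at hkγ ⊢
  obtain ⟨nn, hnn⟩ : ∃ nn : ℕ → ℤ, nn = fun d : ℕ =>
    (k : ℤ) * round (γ * (d : ℝ) ^ D - c) - a * (d : ℤ) ^ D := ⟨_, rfl⟩
  have hn : ∀ d ∈ S, |γ' * (d : ℝ) ^ D - k * c - nn d| ≤ k * σ := by
    intro d hd
    have h1 := h d hd
    unfold nd at h1
    have h2 : γ' * (d : ℝ) ^ D - k * c - nn d =
        k * (γ * (d : ℝ) ^ D - c - round (γ * (d : ℝ) ^ D - c)) := by
      rw [hnn, hγ']
      push_cast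
      ring
    rw [h2, abs_mul, abs_of_nonneg (Nat.cast_nonneg k)]
    exact mul_le_mul_of_nonneg_left h1 (Nat.cast_nonneg k)
  have hmaps : ∀ d ∈ S, nn d ∈ Icc ⌈-(k * c) - 2 * B⌉ ⌊-(k * c) + 2 * B⌋ := by
    intro d hd
    have h1 := abs_le.1 (hn d hd)
    have h2 : |γ' * (d : ℝ) ^ D| ≤ B := by
      rw [abs_mul, abs_of_nonneg (by positivity : (0 : ℝ) ≤ (d : ℝ) ^ D)]
      have h3 : (d : ℝ) ≤ Δ := by exact_mod_cast (mem_Icc.1 (hS hd)).2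
      calc |γ'| * (d : ℝ) ^ D ≤ B / (Δ : ℝ) ^ D * (Δ : ℝ) ^ D :=
            mul_le_mul hkγ (pow_le_pow_left₀ (by positivity) h3 D) (by positivity) (by positivity)
        _ = B := by field_simp
    have h4 := abs_le.1 h2
    rw [mem_Icc, Int.ceil_le, Int.le_floor]
    exact ⟨by linarith, by linarith⟩
  have hcardI : ((Icc ⌈-(k * c) - 2 * B⌉ ⌊-(k * c) + 2 * B⌋).card : ℝ) ≤ 5 * B := by
    rw [Int.card_Icc]
    have h1 := Int.floor_le (-(k * c) + 2 * B)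
    have h2 := Int.le_ceil (-(k * c) - 2 * B)
    rcases le_total (⌊-(k * c) + 2 * B⌋ + 1 - ⌈-(k * c) - 2 * B⌉) 0 with h3 | h3
    · rw [Int.toNat_of_nonpos h3, Nat.cast_zero]
      positivity
    · have h4 : (((⌊-(k * c) + 2 * B⌋ + 1 - ⌈-(k * c) - 2 * B⌉).toNat : ℤ) : ℝ) =
          ((⌊-(k * c) + 2 * B⌋ + 1 - ⌈-(k * c) - 2 * B⌉ : ℤ) : ℝ) := by
        rw [Int.toNat_of_nonneg h3]
      rw [Int.cast_natCast] at h4
      rw [h4]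
      push_cast
      linarith
  have hx2 : 2 ≤ δ * Δ / (5 * B) := by
    rw [le_div_iff₀ (by positivity)]
    rw [div_le_iff₀ hδ] at hΔ
    linarith
  have hSne : S.Nonempty := by
    rw [nonempty_iff_ne_empty]
    rintro rfl
    rw [card_empty, Nat.cast_zero] at hcard
    have : 0 < δ * Δ := by positivity
    linarith
  obtain ⟨d₀, hd₀⟩ := hSne
  obtain ⟨n, hnI, hncard⟩ := exists_le_card_fiber_of_nsmul_le_card_of_maps_to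
    (b := δ * Δ / (5 * B)) hmaps ⟨_, hmaps d₀ hd₀⟩ (by
      rw [nsmul_eq_mul]
      refine le_trans ?_ hcard
      calc _ ≤ 5 * B * (δ * Δ / (5 * B)) := mul_le_mul_of_nonneg_right hcardI (by positivity)
        _ = δ * Δ := by field_simp)
  obtain ⟨d₁, hd₁, d₂, hd₂, h12, hdist⟩ := rd_ext hx2 hncard
  obtain ⟨hd₁S, hd₁n⟩ := mem_filter.1 hd₁
  obtain ⟨hd₂S, hd₂n⟩ := mem_filter.1 hd₂
  have e1 := abs_le.1 (hn d₁ hd₁S)
  have e2 := abs_le.1 (hn d₂ hd₂S)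
  rw [hd₁n] at e1
  rw [hd₂n] at e2
  have h12' : (d₁ : ℝ) ≤ d₂ := by exact_mod_cast h12
  have e3 : |γ'| * ((d₂ : ℝ) ^ D - (d₁ : ℝ) ^ D) ≤ 2 * (k * σ) := by
    have h1 : (0 : ℝ) ≤ (d₂ : ℝ) ^ D - (d₁ : ℝ) ^ D :=
      sub_nonneg.2 (pow_le_pow_left₀ (Nat.cast_nonneg _) h12' D)
    rw [← abs_of_nonneg h1, ← abs_mul, abs_le]
    constructor
    · rw [mul_sub]
      linarith
    · rw [mul_sub]
      linarith
  have e4 : ((d₂ : ℝ) - d₁) ^ D ≤ (d₂ : ℝ) ^ D - (d₁ : ℝ) ^ D := by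
    have h1 := pow_add_pow_le (x := (d₂ : ℝ) - d₁) (y := (d₁ : ℝ)) (n := D) (by linarith)
      (Nat.cast_nonneg _) (by omega)
    rw [sub_add_cancel] at h1
    linarith
  have e5 : (δ * Δ / (10 * B)) ^ D ≤ ((d₂ : ℝ) - d₁) ^ D := by
    refine pow_le_pow_left₀ (by positivity) (le_trans (le_of_eq ?_) hdist) D
    field_simp
    norm_num
  have e6 : |γ'| * (δ * Δ / (10 * B)) ^ D ≤ 2 * (B * σ) :=
    (mul_le_mul_of_nonneg_left (e5.trans e4) (abs_nonneg _)).trans (e3.trans (by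
      have : (k : ℝ) * σ ≤ B * σ := mul_le_mul_of_nonneg_right hk hσ
      linarith))
  have hP : 0 < (δ * Δ / (10 * B)) ^ D := by positivity
  calc |γ'| ≤ 2 * (B * σ) / (δ * Δ / (10 * B)) ^ D := (le_div_iff₀ hP).2 e6
    _ = _ := by
        rw [div_pow, div_pow, mul_pow, mul_pow]
        field_simp

theorem recD (D : ℕ) (hD : 1 ≤ D) : ∃ C : ℕ, 1 ≤ C ∧ ∀ δ : ℝ, 0 < δ → δ ≤ 1 → ∀ σ γ c : ℝ, 0 ≤ σ →
    σ ≤ δ / C → ∀ Δ : ℕ, (C / δ) ^ C ≤ Δ → ∀ S : Finset ℕ, S ⊆ Icc 1 Δ → δ * Δ ≤ S.card →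
      (∀ d ∈ S, nd (γ * (d : ℝ) ^ D - c) ≤ σ) →
      ∃ k : ℕ, 1 ≤ k ∧ (k : ℝ) ≤ (C / δ) ^ C ∧ nd (k * γ) ≤ (C / δ) ^ C * σ / (Δ : ℝ) ^ D := by
  obtain ⟨C₀, hC₀1, hC₀⟩ := weyl D hD
  obtain ⟨A, hA⟩ : ∃ A : ℝ, A = 9 * (8 * (C₀ : ℝ)) ^ C₀ := ⟨_, rfl⟩
  have hC₀' : (1 : ℝ) ≤ C₀ := by exact_mod_cast hC₀1
  have hA1 : 1 ≤ A := by
    have : (1 : ℝ) ≤ (8 * (C₀ : ℝ)) ^ C₀ := one_le_pow₀ (by linarith)
    rw [hA]
    linarith
  obtain ⟨C₁, hC₁1, hC₁⟩ := absorb (10 * A) (C₀ + 2)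
  obtain ⟨C₂, hC₂1, hC₂⟩ := absorb A (C₀ + 1)
  obtain ⟨C₃, hC₃1, hC₃⟩ := absorb (2 * A * (10 * A) ^ D) ((C₀ + 1) + (C₀ + 2) * D)
  refine ⟨128 + C₁ + C₂ + C₃, by omega, fun δ hδ hδ1 σ γ c hσ hσδ Δ hΔ S hS hcard h => ?_⟩
  obtain ⟨C, hC⟩ : ∃ C : ℕ, C = 128 + C₁ + C₂ + C₃ := ⟨_, rfl⟩
  rw [← hC] at hσδ hΔ ⊢
  have hC128 : (128 : ℝ) ≤ C := by
    have : 128 ≤ C := by omega
    exact_mod_cast this
  obtain ⟨B, hB⟩ : ∃ B : ℝ, B = A * (1 / δ) ^ (C₀ + 1) := ⟨_, rfl⟩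
  have hd1 : 1 ≤ 1 / δ := by
    rw [le_div_iff₀ hδ]
    linarith
  have hB1 : 1 ≤ B := by
    rw [hB]
    exact one_le_mul_of_one_le_of_one_le hA1 (one_le_pow₀ hd1)
  have hσ128 : σ ≤ δ / 128 :=
    hσδ.trans (div_le_div_of_nonneg_left hδ.le (by norm_num) hC128)
  have hXB : B ≤ (C / δ) ^ C := by
    rw [hB]
    exact hC₂ C (by omega) δ hδ hδ1
  have hX1 : 10 * B / δ ≤ (C / δ) ^ C := by
    refine le_trans (le_of_eq ?_) (hC₁ C (by omega) δ hδ hδ1)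
    rw [hB]
    ring
  have hX3 : 2 * B * (10 * B / δ) ^ D ≤ (C / δ) ^ C := by
    refine le_trans (le_of_eq ?_) (hC₃ C (by omega) δ hδ hδ1)
    have e : 10 * B / δ = (10 * A) * (1 / δ) ^ (C₀ + 2) := by
      rw [hB]
      ring
    rw [e, hB, pow_add (1 / δ) (C₀ + 1), pow_mul, mul_pow]
    ring
  have hΔ1 : 1 ≤ Δ := by
    have h1 : (1 : ℝ) ≤ Δ := hB1.trans (hXB.trans hΔ)
    exact_mod_cast h1
  obtain ⟨t, ht1, ht2, ht3⟩ := rd_t hδ hδ1 hσ128 (fun d => γ * (d : ℝ) ^ D - c) hΔ1 S hS hcard h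
  obtain ⟨G, hG⟩ : ∃ G : ℝ[X], G = Polynomial.C (t * γ) * X ^ D - Polynomial.C (t * c) := ⟨_, rfl⟩
  have hGd : G.natDegree ≤ D := by
    rw [hG]
    refine (natDegree_sub_le _ _).trans (max_le (natDegree_C_mul_X_pow_le _ _) ?_)
    rw [natDegree_C]
    exact Nat.zero_le _
  have hGc : G.coeff D = t * γ := by
    rw [hG, coeff_sub, coeff_C_mul, coeff_X_pow_self, coeff_C_of_ne_zero (by omega), mul_one, sub_zero]
  have hsum : ∑ m ∈ Ico (1 : ℤ) (1 + (Δ : ℕ)), ee (G.eval (m : ℝ)) =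
      ∑ d ∈ Icc 1 Δ, ee (t * (γ * (d : ℝ) ^ D - c)) := by
    refine sum_nbij' (fun m : ℤ => m.toNat) (fun d : ℕ => (d : ℤ)) ?_ ?_ ?_ ?_ ?_
    · intro m hm
      rw [mem_Ico] at hm
      rw [mem_Icc]
      omega
    · intro d hd
      rw [mem_Icc] at hd
      rw [mem_Ico]
      omega
    · intro m hm
      rw [mem_Ico] at hm
      exact Int.toNat_of_nonneg (by omega)
    · intro d _
      simp
    · intro m hm
      rw [mem_Ico] at hm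
      have h1 : ((m.toNat : ℕ) : ℝ) = (m : ℝ) := by
        have h2 : ((m.toNat : ℤ) : ℝ) = ((m : ℤ) : ℝ) := by
          rw [Int.toNat_of_nonneg (by omega)]
        exact_mod_cast h2
      rw [h1, hG]
      congr 1
      simp only [eval_sub, eval_mul, eval_C, eval_pow, eval_X]
      ring
  obtain ⟨k, hk1, hk2, hk3⟩ := hC₀ (δ / 8) (by positivity) (by linarith) Δ hΔ1 G hGd 1 Δ le_rfl (by
    rw [hsum]
    exact ht3)
  rw [hGc] at hk3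
  have hY : ((C₀ : ℝ) / (δ / 8)) ^ C₀ = (8 * (C₀ : ℝ)) ^ C₀ * (1 / δ) ^ C₀ := by
    rw [← mul_pow]
    congr 1
    field_simp
  rw [hY] at hk2 hk3
  have hBeq : B = (8 * (C₀ : ℝ)) ^ C₀ * (1 / δ) ^ C₀ * (9 / δ) := by
    rw [hB, hA]
    ring
  have hktB : ((k * t : ℕ) : ℝ) ≤ B := by
    rw [hBeq]
    push_cast
    exact mul_le_mul hk2 ht2 (Nat.cast_nonneg _) (by positivity)
  have hYB : (8 * (C₀ : ℝ)) ^ C₀ * (1 / δ) ^ C₀ ≤ B := by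
    rw [hBeq]
    refine le_mul_of_one_le_right (by positivity) ?_
    rw [le_div_iff₀ hδ]
    linarith
  have hktγ : nd (((k * t : ℕ) : ℝ) * γ) ≤ B / (Δ : ℝ) ^ D := by
    have e : ((k * t : ℕ) : ℝ) * γ = k * (t * γ) := by
      push_cast
      ring
    rw [e]
    exact hk3.trans (div_le_div_of_nonneg_right hYB (by positivity))
  refine ⟨k * t, Nat.mul_pos hk1 ht1, hktB.trans hXB, ?_⟩
  refine (rd_pig hD hδ hB1 hσ (by linarith) (hX1.trans hΔ) S hS hcard h hktB hktγ).trans ?_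
  refine div_le_div_of_nonneg_right ?_ (by positivity)
  exact mul_le_mul_of_nonneg_right hX3 hσ

end Pool.Agent.RHN
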