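import Pool.Agent.RHN.KUn
import Pool.Agent.RHN.RecD

/-!
# RHN / KB: the functions `e(K(n)/Q)` have small bilinear forms on the units

PROOF.  `η ≤ 1` without loss of generality.  Suppose `Bil` fails; by `bil_of` `∑_{b,b'} |S(b,b')| > η² φ³`, where
`S(b,b') = ∑_u F(bu) conj F(b'u) = ∑_u e((K(β u) - K(β' u))/Q)`, `β = b.val`, `β' = b'.val` (`F (b u) = e(K(β u.val)/Q)`, since `Q ∣ K(m) - K(m')` for
`m ≡ m'`).  `|S| ≤ φ`, so at least `(η²/2) φ²` pairs have `|S| ≥ (η²/2) φ`.  By `units_large` with `η²/2` and the polynomial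
`K.comp (C β * X) - K.comp (C β' * X)`, whose coefficient of `X^D` is `K_D (β^D - β'^D)`: `gcd(K_D (β^D - β'^D), Q) ≥ √Q`, hence
`g := gcd(β^D - β'^D, Q) ≥ √Q/C₀`.  Fix `b'` with at least `(η²/2) φ` such `b`; `g` is a divisor of `Q`: pigeonhole: one `g ∣ Q`, `g ≥ √Q/C₀`, for at least
`(η²/2) φ/τ ≥ (η²/2) Q/τ² ` values `b`, `τ = Q.divisors.card`, `φ(Q) ≥ Q/τ`.  For these `nd (β^D/g - β'^D/g) = 0`.  The numbers `β ∈ [1, Q]`
(`val` of a unit is `≥ 1` for `Q ≥ 2`) form a set `S ⊆ [1, Q]` with `|S| ≥ δ Q`, `δ = η²/(2τ²)`.  `recD` with `σ = 0`, `γ = 1/g`, `c = β'^D/g`, `Δ = Q`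
(`(C/δ)^C ≤ Q` for `Q` large, `τ ≤ C_ε Q^ε`): there is `1 ≤ k ≤ (C/δ)^C` with `nd (k/g) = 0`, i.e. `g ∣ k`, so `√Q/C₀ ≤ g ≤ k ≤ (C/δ)^C`, false for `Q` large.
-/

set_option autoImplicit false

namespace Pool.Agent.RHN

open Finset Polynomial

open ComplexConjugate

/-- powers of the number of divisors are small -/
private theorem kb_large (A : ℝ) (n : ℕ) {η : ℝ} (hη : 0 < η) : ∃ Q₀ : ℕ, ∀ Q : ℕ, Q₀ ≤ Q →
    A * ((Q.divisors.card : ℝ) ^ 2 / η) ^ n ≤ Real.sqrt Q := by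
  obtain ⟨C, hC, hd⟩ := Pool.Agent.Helper33.Markov.card_divisors_le' (1 / (8 * ((n : ℝ) + 1)))
    (by positivity)
  have ht : Filter.Tendsto (fun x : ℕ => (x : ℝ) ^ (1 / 4 : ℝ)) Filter.atTop Filter.atTop :=
    (tendsto_rpow_atTop (by norm_num)).comp tendsto_natCast_atTop_atTop
  obtain ⟨Q₁, hQ₁⟩ := Filter.eventually_atTop.1
    (ht.eventually_ge_atTop (|A| * (C ^ 2 / η) ^ n))
  refine ⟨max Q₁ 1, fun Q hQ => ?_⟩
  have hQ1 : 1 ≤ Q := le_trans (le_max_right _ _) hQ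
  have h1 := hd Q hQ1
  have h2 := hQ₁ Q (le_trans (le_max_left _ _) hQ)
  have hq0 : (0 : ℝ) < Q := by exact_mod_cast hQ1
  have hq1 : (1 : ℝ) ≤ Q := by exact_mod_cast hQ1
  have h3 : ((Q.divisors.card : ℝ) ^ 2 / η) ^ n ≤ (C ^ 2 / η) ^ n * (Q : ℝ) ^ (1 / 4 : ℝ) := by
    calc ((Q.divisors.card : ℝ) ^ 2 / η) ^ n
        ≤ ((C * (Q : ℝ) ^ (1 / (8 * ((n : ℝ) + 1)))) ^ 2 / η) ^ n := by gcongr
      _ = (C ^ 2 / η) ^ n * (((Q : ℝ) ^ (1 / (8 * ((n : ℝ) + 1)))) ^ (2 * n)) := by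
        rw [mul_pow, mul_div_right_comm, mul_pow, pow_mul]
      _ ≤ (C ^ 2 / η) ^ n * (Q : ℝ) ^ (1 / 4 : ℝ) := by
        gcongr
        rw [← Real.rpow_natCast, ← Real.rpow_mul hq0.le]
        apply Real.rpow_le_rpow_of_exponent_le hq1
        push_cast
        rw [div_mul_eq_mul_div, one_mul, div_le_iff₀ (by positivity)]
        have : (0 : ℝ) ≤ n := Nat.cast_nonneg n
        linarith
  calc A * ((Q.divisors.card : ℝ) ^ 2 / η) ^ n
      ≤ |A| * ((C ^ 2 / η) ^ n * (Q : ℝ) ^ (1 / 4 : ℝ)) := by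
        refine (mul_le_mul_of_nonneg_right (le_abs_self A) (by positivity)).trans ?_
        exact mul_le_mul_of_nonneg_left h3 (abs_nonneg A)
    _ = (|A| * (C ^ 2 / η) ^ n) * (Q : ℝ) ^ (1 / 4 : ℝ) := by ring
    _ ≤ (Q : ℝ) ^ (1 / 4 : ℝ) * (Q : ℝ) ^ (1 / 4 : ℝ) :=
        mul_le_mul_of_nonneg_right h2 (by positivity)
    _ = Real.sqrt Q := by
      rw [← Real.rpow_add hq0, Real.sqrt_eq_rpow]; norm_num

private theorem kb_per {Q : ℕ} [NeZero Q] (K : ℤ[X]) (n : ℕ) :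
    ee (pe K ((n : ℕ) : ZMod Q).val / Q) = ee (pe K n / Q) := by
  rw [ZMod.val_natCast]
  have h1 : ((Q : ℤ)) ∣ K.eval (n : ℤ) - K.eval ((n % Q : ℕ) : ℤ) := by
    refine dvd_trans ?_ (Polynomial.sub_dvd_eval_sub (n : ℤ) ((n % Q : ℕ) : ℤ) K)
    rw [Int.natCast_mod]
    exact Int.dvd_self_sub_emod
  obtain ⟨t, ht⟩ := h1
  have hQ : (Q : ℝ) ≠ 0 := Nat.cast_ne_zero.2 (NeZero.ne Q)
  have h2 : pe K n / Q = pe K (n % Q) / Q + t := by
    have h3 : K.eval (n : ℤ) = K.eval ((n % Q : ℕ) : ℤ) + Q * t := by linarith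
    have h4 : pe K n = pe K (n % Q) + Q * t := by
      unfold pe
      rw [h3]
      push_cast
      ring
    rw [h4]
    field_simp
  rw [h2, ee_add_int]

/-- the difference polynomial -/
private noncomputable def kbP (K : ℤ[X]) (β β' : ℕ) : ℤ[X] :=
  K.comp (Polynomial.C (β : ℤ) * X) - K.comp (Polynomial.C (β' : ℤ) * X)

private theorem kbP_deg {D : ℕ} {K : ℤ[X]} (hK : K.natDegree ≤ D) (β β' : ℕ) :
    (kbP K β β').natDegree ≤ D := by
  have h : ∀ β : ℕ, (K.comp (Polynomial.C (β : ℤ) * X)).natDegree ≤ D := by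
    intro β
    refine Polynomial.natDegree_comp_le.trans ?_
    have h2 : (Polynomial.C (β : ℤ) * (X : ℤ[X])).natDegree ≤ 1 :=
      (Polynomial.natDegree_C_mul_le _ _).trans Polynomial.natDegree_X_le
    calc _ ≤ D * 1 := Nat.mul_le_mul hK h2
      _ = D := mul_one D
  exact (Polynomial.natDegree_sub_le _ _).trans (max_le (h β) (h β'))

private theorem kbP_coeff (D : ℕ) (K : ℤ[X]) (β β' : ℕ) :
    (kbP K β β').coeff D = K.coeff D * ((β : ℤ) ^ D - (β' : ℤ) ^ D) := by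
  rw [kbP, Polynomial.coeff_sub, Polynomial.comp_C_mul_X_coeff, Polynomial.comp_C_mul_X_coeff]
  ring

private theorem kbP_pe (K : ℤ[X]) (β β' n : ℕ) :
    pe (kbP K β β') n = pe K (β * n) - pe K (β' * n) := by
  unfold pe kbP
  rw [Polynomial.eval_sub, Polynomial.eval_comp, Polynomial.eval_comp]
  simp

private theorem kb_sum {Q : ℕ} [NeZero Q] (K : ℤ[X]) (b b' : (ZMod Q)ˣ) :
    ∑ u : (ZMod Q)ˣ, ee (pe K (((b * u : (ZMod Q)ˣ) : ZMod Q)).val / Q) *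
      conj (ee (pe K (((b' * u : (ZMod Q)ˣ) : ZMod Q)).val / Q)) =
    ∑ u : (ZMod Q)ˣ, ee (pe (kbP K (b : ZMod Q).val (b' : ZMod Q).val) (u : ZMod Q).val / Q) := by
  refine Finset.sum_congr rfl fun u _ => ?_
  have h : ∀ b : (ZMod Q)ˣ, ee (pe K (((b * u : (ZMod Q)ˣ) : ZMod Q)).val / Q) =
      ee (pe K ((b : ZMod Q).val * (u : ZMod Q).val) / Q) := by
    intro b
    rw [← kb_per K ((b : ZMod Q).val * (u : ZMod Q).val)]
    congr 4
    rw [Nat.cast_mul, ZMod.natCast_zmod_val, ZMod.natCast_zmod_val, Units.val_mul]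
  rw [h b, h b', conj_ee, ← ee_add, kbP_pe]
  congr 1
  ring

private theorem kb_gcd {a b Q C₀ : ℕ} (hC : Nat.gcd a Q ≤ C₀) :
    Nat.gcd (a * b) Q ≤ C₀ * Nat.gcd b Q := by
  rcases Nat.eq_zero_or_pos Q with h | h
  · subst h
    simp only [Nat.gcd_zero_right] at hC ⊢
    exact Nat.mul_le_mul_right b hC
  · have h1 : Nat.gcd (a * b) Q ∣ Nat.gcd a Q * Nat.gcd b Q := Nat.gcd_mul_left_dvd_mul_gcd Q a b
    exact (Nat.le_of_dvd (Nat.mul_pos (Nat.gcd_pos_of_pos_right _ h)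
      (Nat.gcd_pos_of_pos_right _ h)) h1).trans (Nat.mul_le_mul_right _ hC)

private theorem kb_bil_mono {q : ℕ} [NeZero q] {F : ZMod q → ℂ} {η η' : ℝ} (h : η ≤ η')
    (hB : Bil q F η) : Bil q F η' := fun g₁ g₂ h₁ h₂ =>
  (hB g₁ g₂ h₁ h₂).trans (mul_le_mul_of_nonneg_right h (by positivity))

/-- some `b'` has many partners -/
private theorem kb_pick {ι : Type*} [Fintype ι] {f : ι → ι → ℝ} {θ : ℝ} (hθ : 0 ≤ θ)
    (hf : ∀ a b, f a b ≤ (Fintype.card ι : ℝ))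
    (h : 2 * θ * (Fintype.card ι : ℝ) ^ 3 < ∑ a, ∑ b, f a b) :
    ∃ b, θ * (Fintype.card ι : ℝ) ≤
      ((Finset.univ.filter fun a => θ * (Fintype.card ι : ℝ) ≤ f a b).card : ℝ) := by
  classical
  by_contra hc
  push Not at hc
  set N : ℝ := (Fintype.card ι : ℝ) with hN
  have hN0 : 0 ≤ N := Nat.cast_nonneg _
  have h1 : ∀ b, ∑ a, f a b ≤ 2 * θ * N ^ 2 := by
    intro b
    have h2 : ∀ a, f a b ≤ (if θ * N ≤ f a b then N else 0) + θ * N := by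
      intro a
      split_ifs with h3
      · have := hf a b
        have h4 : 0 ≤ θ * N := mul_nonneg hθ hN0
        linarith
      · push Not at h3
        linarith
    have h5 := Finset.sum_le_sum fun a (_ : a ∈ Finset.univ) => h2 a
    rw [Finset.sum_add_distrib, ← Finset.sum_filter, Finset.sum_const, Finset.sum_const,
      Finset.card_univ, nsmul_eq_mul, nsmul_eq_mul] at h5
    have h6 := mul_le_mul_of_nonneg_right (hc b).le hN0
    have h7 : (Fintype.card ι : ℝ) = N := hN.symm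
    rw [h7] at h5
    nlinarith
  have h8 : ∑ a, ∑ b, f a b ≤ N * (2 * θ * N ^ 2) := by
    rw [Finset.sum_comm]
    refine (Finset.sum_le_sum fun b (_ : b ∈ Finset.univ) => h1 b).trans ?_
    rw [Finset.sum_const, Finset.card_univ, nsmul_eq_mul]
  have h9 : N * (2 * θ * N ^ 2) = 2 * θ * N ^ 3 := by ring
  linarith

theorem kb (D : ℕ) (hD : 1 ≤ D) (C₀ : ℕ) (η : ℝ) (hη : 0 < η) : ∃ Q₀ : ℕ, ∀ Q : ℕ, Q₀ ≤ Q → ∀ [NeZero Q],
    ∀ K : ℤ[X], K.natDegree ≤ D → Nat.gcd (K.coeff D).natAbs Q ≤ C₀ →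
      Bil Q (fun a : ZMod Q => ee (pe K a.val / Q)) η := by
  classical
  wlog hη1 : η ≤ 1 generalizing η with H
  · obtain ⟨Q₀, hQ₀⟩ := H 1 one_pos le_rfl
    exact ⟨Q₀, fun Q hQ _ K hK hg => kb_bil_mono (by linarith) (hQ₀ Q hQ K hK hg)⟩
  set θ : ℝ := η ^ 2 / 2 with hθd
  have hθ : 0 < θ := by positivity
  have hθ1 : θ ≤ 1 := by
    rw [hθd]
    nlinarith
  obtain ⟨C, hC1, hR⟩ := recD D hD
  obtain ⟨Q₁, hQ₁⟩ := units_large D hD θ hθ
  obtain ⟨Q₂, hQ₂⟩ := kb_large (((C₀ : ℝ) + 1) * (C : ℝ) ^ C + 1) C hθ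
  refine ⟨max (max Q₁ Q₂) 2, fun Q hQ _ K hK hg => ?_⟩
  have hQa : Q₁ ≤ Q := (le_max_left _ _).trans ((le_max_left _ _).trans hQ)
  have hQb : Q₂ ≤ Q := (le_max_right _ _).trans ((le_max_left _ _).trans hQ)
  have hQ2 : 2 ≤ Q := (le_max_right _ _).trans hQ
  have hL := hQ₂ Q hQb
  refine bil_of _ hη.le ?_
  by_contra hcon
  push Not at hcon
  simp only [kb_sum] at hcon
  have hcard : (Fintype.card (ZMod Q)ˣ : ℝ) = (Q.totient : ℝ) := by
    rw [ZMod.card_units_eq_totient]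
  obtain ⟨b', hb'⟩ := kb_pick (ι := (ZMod Q)ˣ) (θ := θ)
    (f := fun b b' => ‖∑ u : (ZMod Q)ˣ,
      ee (pe (kbP K (b : ZMod Q).val (b' : ZMod Q).val) (u : ZMod Q).val / Q)‖) hθ.le
    (fun a b => by
      refine (norm_sum_le _ _).trans ?_
      simp only [norm_ee, Finset.sum_const, Finset.card_univ, nsmul_eq_mul, mul_one]
      exact le_rfl)
    (by
      rw [hcard, hθd]
      have h0 : 2 * (η ^ 2 / 2) * (Q.totient : ℝ) ^ 3 = η ^ 2 * (Q.totient : ℝ) ^ 3 := by ring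
      rw [h0]
      exact hcon)
  rw [hcard] at hb'
  set β' : ℕ := (b' : ZMod Q).val with hβ'
  set G : Finset (ZMod Q)ˣ := Finset.univ.filter fun a => θ * (Q.totient : ℝ) ≤
    ‖∑ u : (ZMod Q)ˣ, ee (pe (kbP K (a : ZMod Q).val β') (u : ZMod Q).val / Q)‖ with hG
  have hQ0 : 0 < Q := by omega
  have hq : (0 : ℝ) < Q := by exact_mod_cast hQ0
  set gg : (ZMod Q)ˣ → ℕ := fun b =>
    Nat.gcd (((b : ZMod Q).val : ℤ) ^ D - (β' : ℤ) ^ D).natAbs Q with hgg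
  have hgl : ∀ b ∈ G, Real.sqrt Q ≤ C₀ * (gg b : ℝ) := by
    intro b hb
    rw [hG, Finset.mem_filter] at hb
    have h1 := hQ₁ Q hQa (kbP K (b : ZMod Q).val β') (kbP_deg hK _ _) hb.2
    refine h1.trans ?_
    rw [kbP_coeff, Int.natAbs_mul]
    have h9 : Nat.gcd ((K.coeff D).natAbs *
        (((b : ZMod Q).val : ℤ) ^ D - (β' : ℤ) ^ D).natAbs) Q ≤ C₀ * gg b := kb_gcd hg
    have h10 : ((Nat.gcd ((K.coeff D).natAbs *
        (((b : ZMod Q).val : ℤ) ^ D - (β' : ℤ) ^ D).natAbs) Q : ℕ) : ℝ) ≤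
        ((C₀ * gg b : ℕ) : ℝ) := Nat.cast_le.2 h9
    rwa [Nat.cast_mul] at h10
  have hmap : ∀ b ∈ G, gg b ∈ Q.divisors := fun b _ =>
    Nat.mem_divisors.2 ⟨Nat.gcd_dvd_right _ _, hQ0.ne'⟩
  have hne : Q.divisors.Nonempty := ⟨1, Nat.one_mem_divisors.2 hQ0.ne'⟩
  have hτ1 : (1 : ℝ) ≤ Q.divisors.card := by exact_mod_cast Finset.card_pos.2 hne
  have hτ : (0 : ℝ) < Q.divisors.card := by linarith
  set τ : ℝ := (Q.divisors.card : ℝ) with hτdef
  obtain ⟨g, hgd, hgc⟩ : ∃ g ∈ Q.divisors, (G.card : ℝ) ≤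
      τ * ((G.filter fun b => gg b = g).card : ℝ) := by
    by_contra hc
    push Not at hc
    have h1 := Finset.card_eq_sum_card_fiberwise hmap
    have h2 : (τ * G.card : ℝ) = ∑ g ∈ Q.divisors, τ * ((G.filter fun b => gg b = g).card : ℝ) := by
      rw [← Finset.mul_sum, h1]
      push_cast
      rfl
    have h3 := Finset.sum_lt_sum_of_nonempty hne hc
    rw [← h2, Finset.sum_const, nsmul_eq_mul] at h3
    exact lt_irrefl _ h3
  have hφ : (Q : ℝ) ≤ τ * Q.totient := by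
    have h9 := Nat.sum_totient Q
    have h4 : ∑ m ∈ Q.divisors, m.totient ≤ ∑ _m ∈ Q.divisors, Q.totient :=
      Finset.sum_le_sum fun m hm =>
        Nat.le_of_dvd (Nat.totient_pos.2 hQ0)
          (Nat.totient_dvd_of_dvd (Nat.dvd_of_mem_divisors hm))
    rw [h9, sum_const, smul_eq_mul] at h4
    have h10 : (Q : ℝ) ≤ ((Q.divisors.card * Q.totient : ℕ) : ℝ) := Nat.cast_le.2 h4
    rwa [Nat.cast_mul] at h10
  set δ : ℝ := θ / τ ^ 2 with hδ
  have hδ0 : 0 < δ := by positivity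
  have hδ1 : δ ≤ 1 := by
    rw [hδ, div_le_one (by positivity)]
    nlinarith
  have hE : τ ^ 2 / θ = 1 / δ := by
    rw [hδ]; field_simp
  rw [hE] at hL
  have hCd : ((C : ℝ) / δ) ^ C = (C : ℝ) ^ C * (1 / δ) ^ C := by
    rw [← mul_pow, mul_one_div]
  have hd1 : 0 < (1 / δ) ^ C := by positivity
  have hX : 0 ≤ (C : ℝ) ^ C * (1 / δ) ^ C := by positivity
  have hs0 : 0 < Real.sqrt Q := Real.sqrt_pos.2 hq
  have hsQ : Real.sqrt Q ≤ Q := by
    rw [Real.sqrt_le_left hq.le]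
    have : (1 : ℝ) ≤ Q := by exact_mod_cast hQ0
    nlinarith
  set S : Finset ℕ := (G.filter fun b => gg b = g).image
    (fun b : (ZMod Q)ˣ => (b : ZMod Q).val) with hS
  have hSc : S.card = (G.filter fun b => gg b = g).card := by
    rw [hS]
    apply Finset.card_image_of_injective
    intro a b hab
    exact Units.ext (ZMod.val_injective Q hab)
  have hSsub : S ⊆ Icc 1 Q := by
    intro m hm
    rw [hS, Finset.mem_image] at hm
    obtain ⟨b, -, rfl⟩ := hm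
    rw [Finset.mem_Icc]
    have : Fact (1 < Q) := ⟨by omega⟩
    refine ⟨?_, (ZMod.val_lt _).le⟩
    rw [Nat.one_le_iff_ne_zero]
    intro h0
    rw [ZMod.val_eq_zero] at h0
    exact b.ne_zero h0
  have hSbig : δ * Q ≤ S.card := by
    rw [hSc]
    have h1 : θ * (Q.totient : ℝ) ≤ τ * ((G.filter fun b => gg b = g).card : ℝ) := hb'.trans hgc
    have h2 : θ * (Q : ℝ) ≤ τ * (θ * Q.totient) := by
      have := mul_le_mul_of_nonneg_left hφ hθ.le
      linarith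
    have h3 : τ * (θ * (Q.totient : ℝ)) ≤ τ * (τ * ((G.filter fun b => gg b = g).card : ℝ)) :=
      mul_le_mul_of_nonneg_left h1 hτ.le
    rw [hδ, div_mul_eq_mul_div, div_le_iff₀ (by positivity)]
    linarith
  have hg0 : 0 < g := Nat.pos_of_mem_divisors hgd
  have hgr : (0 : ℝ) < g := by exact_mod_cast hg0
  obtain ⟨k, hk1, hkB, hnd⟩ := hR δ hδ0 hδ1 0 (1 / (g : ℝ)) ((β' : ℝ) ^ D / g) le_rfl
    (by positivity) Q (by
      rw [hCd]
      refine le_trans ?_ (hL.trans hsQ)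
      have h0 : (0 : ℝ) ≤ C₀ := Nat.cast_nonneg _
      nlinarith [mul_nonneg h0 hX]) S hSsub hSbig (by
      intro d hd
      rw [hS, Finset.mem_image] at hd
      obtain ⟨b, hb, rfl⟩ := hd
      rw [Finset.mem_filter] at hb
      have h1 : g ∣ (((b : ZMod Q).val : ℤ) ^ D - (β' : ℤ) ^ D).natAbs := by
        rw [← hb.2]
        exact Nat.gcd_dvd_left _ _
      obtain ⟨t, ht⟩ := Int.natCast_dvd.2 h1
      have h2 : 1 / (g : ℝ) * (((b : ZMod Q).val : ℕ) : ℝ) ^ D - (β' : ℝ) ^ D / g = t := by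
        have h3 : (((b : ZMod Q).val : ℕ) : ℝ) ^ D - (β' : ℝ) ^ D = g * t := by
          exact_mod_cast congrArg (fun z : ℤ => (z : ℝ)) ht
        have h4 : 1 / (g : ℝ) * (((b : ZMod Q).val : ℕ) : ℝ) ^ D - (β' : ℝ) ^ D / g =
            ((((b : ZMod Q).val : ℕ) : ℝ) ^ D - (β' : ℝ) ^ D) / g := by ring
        rw [h4, h3]
        field_simp
      rw [h2]
      have h5 := nd_le_abs (t : ℝ) t
      simpa using h5)
  have hgk : g ≤ k := by
    rw [mul_zero, zero_div] at hnd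
    obtain ⟨m, hm⟩ := exists_nd ((k : ℝ) * (1 / (g : ℝ)))
    rw [hm] at hnd
    have h1 : (k : ℝ) * (1 / (g : ℝ)) - m = 0 := abs_eq_zero.1 (le_antisymm hnd (abs_nonneg _))
    have h2 : (k : ℝ) = g * m := by
      field_simp at h1
      linarith
    have h3 : (k : ℤ) = g * m := by exact_mod_cast h2
    have h4 : (g : ℤ) ∣ (k : ℤ) := ⟨m, h3⟩
    exact Nat.le_of_dvd hk1 (Int.natCast_dvd_natCast.1 h4)
  have hnon : (G.filter fun b => gg b = g).Nonempty := by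
    rw [← Finset.card_pos, ← hSc]
    have h1 : (0 : ℝ) < S.card := lt_of_lt_of_le (by positivity) hSbig
    exact_mod_cast h1
  obtain ⟨b, hb⟩ := hnon
  rw [Finset.mem_filter] at hb
  have h1 := hgl b hb.1
  rw [hb.2] at h1
  have h2 : (g : ℝ) ≤ k := by exact_mod_cast hgk
  have h3 : (g : ℝ) ≤ (C : ℝ) ^ C * (1 / δ) ^ C := by
    rw [← hCd]
    exact h2.trans hkB
  have h0 : (0 : ℝ) ≤ C₀ := Nat.cast_nonneg _
  have h4 := mul_le_mul_of_nonneg_left h3 h0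
  nlinarith

end Pool.Agent.RHN
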