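import Pool.Agent.RHN.Defs

/-!
# RHN / KCs: Cauchy-Schwarz for the bilinear form; sums over units

PROOFS.  `bil_of`: with `φ = q.totient = |(ZMod q)ˣ|` (`ZMod.card_units_eq_totient`):
`|∑_{b₁,b₂} g₁ g₂ F(b₁b₂)|² ≤ φ ∑_{b₂} |∑_{b₁} g₁(b₁) F(b₁b₂)|² = φ ∑_{b₁,b₁'} g₁(b₁) conj g₁(b₁') ∑_{b₂} F(b₁b₂) conj F(b₁'b₂)
≤ φ · η² φ³`.
`units_sum`: the classes of the `m ∈ [1, Q]` coprime to `Q` are the units; `1_{(m,Q)=1} = ∑_{e ∣ (m,Q)} μ(e)` (`ArithmeticFunction.coe_moebius_mul_coe_zeta`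
or `ArithmeticFunction.sum_moebius..`), and the multiples of `e` in `[1, Q]` are `e m'`, `1 ≤ m' ≤ Q/e`.
-/

set_option autoImplicit false

namespace Pool.Agent.RHN

open Finset ComplexConjugate

theorem bil_of {q : ℕ} [NeZero q] (F : ZMod q → ℂ) {η : ℝ} (hη : 0 ≤ η)
    (h : ∑ b : (ZMod q)ˣ, ∑ b' : (ZMod q)ˣ, ‖∑ u : (ZMod q)ˣ, F ((b * u : (ZMod q)ˣ) : ZMod q) *
      conj (F ((b' * u : (ZMod q)ˣ) : ZMod q))‖ ≤ η ^ 2 * (q.totient : ℝ) ^ 3) : Bil q F η := by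
  intro g₁ g₂ h₁ h₂
  set c : (ZMod q)ˣ → ℂ := fun b₂ => ∑ b₁ : (ZMod q)ˣ, g₁ b₁ * F ((b₁ * b₂ : (ZMod q)ˣ) : ZMod q)
    with hc
  have hcard : (Fintype.card (ZMod q)ˣ : ℝ) = q.totient := by
    rw [ZMod.card_units_eq_totient]
  have e1 : ∑ b₁ : (ZMod q)ˣ, ∑ b₂ : (ZMod q)ˣ,
      g₁ b₁ * g₂ b₂ * F ((b₁ * b₂ : (ZMod q)ˣ) : ZMod q) = ∑ b₂ : (ZMod q)ˣ, g₂ b₂ * c b₂ := by
    rw [Finset.sum_comm]
    apply Finset.sum_congr rfl
    intro b₂ _
    rw [hc]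
    simp only [Finset.mul_sum]
    apply Finset.sum_congr rfl
    intro b₁ _
    ring
  rw [e1]
  have e2 : ‖∑ b₂ : (ZMod q)ˣ, g₂ b₂ * c b₂‖ ≤ ∑ b₂ : (ZMod q)ˣ, ‖c b₂‖ := by
    refine (norm_sum_le _ _).trans ?_
    apply Finset.sum_le_sum
    intro b₂ _
    rw [norm_mul]
    calc ‖g₂ b₂‖ * ‖c b₂‖ ≤ 1 * ‖c b₂‖ := mul_le_mul_of_nonneg_right (h₂ b₂) (norm_nonneg _)
      _ = ‖c b₂‖ := one_mul _
  have e3 : (∑ b₂ : (ZMod q)ˣ, ‖c b₂‖) ^ 2 ≤ (q.totient : ℝ) * ∑ b₂ : (ZMod q)ˣ, ‖c b₂‖ ^ 2 := by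
    have := sq_sum_le_card_mul_sum_sq (s := (Finset.univ : Finset (ZMod q)ˣ)) (f := fun b => ‖c b‖)
    rw [Finset.card_univ, hcard] at this
    exact this
  have e4 : ((∑ b₂ : (ZMod q)ˣ, ‖c b₂‖ ^ 2 : ℝ) : ℂ) =
      ∑ b : (ZMod q)ˣ, ∑ b' : (ZMod q)ˣ, (g₁ b * conj (g₁ b')) *
        ∑ u : (ZMod q)ˣ, F ((b * u : (ZMod q)ˣ) : ZMod q) *
          conj (F ((b' * u : (ZMod q)ˣ) : ZMod q)) := by
    push_cast
    have e5 : ∀ u : (ZMod q)ˣ, ((‖c u‖ : ℂ)) ^ 2 = ∑ b : (ZMod q)ˣ, ∑ b' : (ZMod q)ˣ,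
        (g₁ b * conj (g₁ b')) * (F ((b * u : (ZMod q)ˣ) : ZMod q) *
          conj (F ((b' * u : (ZMod q)ˣ) : ZMod q))) := by
      intro u
      rw [← Complex.mul_conj', hc]
      simp only [map_sum, map_mul]
      rw [Finset.sum_mul_sum]
      apply Finset.sum_congr rfl
      intro b _
      apply Finset.sum_congr rfl
      intro b' _
      ring
    rw [Finset.sum_congr rfl (fun u _ => e5 u), Finset.sum_comm]
    apply Finset.sum_congr rfl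
    intro b _
    rw [Finset.sum_comm]
    apply Finset.sum_congr rfl
    intro b' _
    rw [Finset.mul_sum]
    simp only [Units.val_mul]
  have e6 : ∑ b₂ : (ZMod q)ˣ, ‖c b₂‖ ^ 2 ≤ η ^ 2 * (q.totient : ℝ) ^ 3 := by
    refine le_trans ?_ h
    have e7 : (∑ b₂ : (ZMod q)ˣ, ‖c b₂‖ ^ 2 : ℝ) = ‖((∑ b₂ : (ZMod q)ˣ, ‖c b₂‖ ^ 2 : ℝ) : ℂ)‖ := by
      rw [Complex.norm_real, Real.norm_of_nonneg]
      exact Finset.sum_nonneg (fun b _ => by positivity)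
    rw [e7, e4]
    refine (norm_sum_le _ _).trans ?_
    apply Finset.sum_le_sum
    intro b _
    refine (norm_sum_le _ _).trans ?_
    apply Finset.sum_le_sum
    intro b' _
    rw [norm_mul, norm_mul, RCLike.norm_conj]
    have h3 : ‖g₁ b‖ * ‖g₁ b'‖ ≤ 1 := by
      have := mul_le_mul (h₁ b) (h₁ b') (norm_nonneg _) zero_le_one
      simpa using this
    calc ‖g₁ b‖ * ‖g₁ b'‖ * _ ≤ 1 * _ := mul_le_mul_of_nonneg_right h3 (norm_nonneg _)
      _ = _ := one_mul _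
  have e8 : (∑ b₂ : (ZMod q)ˣ, ‖c b₂‖) ^ 2 ≤ (η * (q.totient : ℝ) ^ 2) ^ 2 := by
    refine e3.trans ?_
    calc (q.totient : ℝ) * ∑ b₂ : (ZMod q)ˣ, ‖c b₂‖ ^ 2 ≤
        (q.totient : ℝ) * (η ^ 2 * (q.totient : ℝ) ^ 3) := mul_le_mul_of_nonneg_left e6 (by positivity)
      _ = (η * (q.totient : ℝ) ^ 2) ^ 2 := by ring
  have e9 : (∑ b₂ : (ZMod q)ˣ, ‖c b₂‖) ≤ η * (q.totient : ℝ) ^ 2 :=
    le_of_sq_le_sq e8 (by positivity)
  exact e2.trans e9

theorem moebius_gcd (k Q : ℕ) (hQ : Q ≠ 0) :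
    ∑ e ∈ Q.divisors, (if e ∣ k then (ArithmeticFunction.moebius e : ℂ) else 0) =
      if k.Coprime Q then 1 else 0 := by
  rw [← Finset.sum_filter]
  have h1 : Q.divisors.filter (fun e => e ∣ k) = (k.gcd Q).divisors := by
    ext e
    simp only [Finset.mem_filter, Nat.mem_divisors, Nat.dvd_gcd_iff]
    constructor
    · rintro ⟨⟨h1, _⟩, h2⟩
      exact ⟨⟨h2, h1⟩, Nat.gcd_ne_zero_right hQ⟩
    · rintro ⟨⟨h1, h2⟩, _⟩
      exact ⟨⟨h2, hQ⟩, h1⟩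
  rw [h1]
  have h2 : ∑ e ∈ (k.gcd Q).divisors, (ArithmeticFunction.moebius e : ℤ) =
      if k.gcd Q = 1 then 1 else 0 := by
    rw [← ArithmeticFunction.coe_mul_zeta_apply, ArithmeticFunction.moebius_mul_coe_zeta,
      ArithmeticFunction.one_apply]
  have h3 : ((∑ e ∈ (k.gcd Q).divisors, (ArithmeticFunction.moebius e : ℤ) : ℤ) : ℂ) =
      ∑ e ∈ (k.gcd Q).divisors, (ArithmeticFunction.moebius e : ℂ) := by
    push_cast
    rfl
  rw [← h3, h2]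
  by_cases h : k.gcd Q = 1
  · rw [if_pos h, if_pos (show k.Coprime Q from h)]
    simp
  · rw [if_neg h, if_neg (show ¬ k.Coprime Q from h)]
    simp

theorem units_sum {Q : ℕ} [NeZero Q] (f : ZMod Q → ℂ) :
    ∑ u : (ZMod Q)ˣ, f u = ∑ e ∈ Q.divisors, (ArithmeticFunction.moebius e : ℂ) *
      ∑ m ∈ Icc 1 (Q / e), f ((e * m : ℕ) : ZMod Q) := by
  have hQ : Q ≠ 0 := NeZero.ne Q
  have hQ0 : 0 < Q := Nat.pos_of_ne_zero hQ
  have h1 : ∀ e ∈ Q.divisors, ∑ m ∈ Icc 1 (Q / e), f ((e * m : ℕ) : ZMod Q) =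
      ∑ k ∈ Icc 1 Q, if e ∣ k then f (k : ZMod Q) else 0 := by
    intro e he
    have hed : e ∣ Q := Nat.dvd_of_mem_divisors he
    have he0 : 0 < e := Nat.pos_of_dvd_of_pos hed hQ0
    rw [← Finset.sum_filter]
    symm
    apply Finset.sum_nbij' (fun k => k / e) (fun m => e * m)
    · intro k hk
      simp only [Finset.mem_filter, Finset.mem_Icc] at hk ⊢
      obtain ⟨⟨h1, h2⟩, h3⟩ := hk
      refine ⟨?_, Nat.div_le_div_right h2⟩
      exact Nat.div_pos (Nat.le_of_dvd (by omega) h3) he0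
    · intro m hm
      simp only [Finset.mem_filter, Finset.mem_Icc] at hm ⊢
      refine ⟨⟨?_, ?_⟩, Dvd.intro _ rfl⟩
      · exact Nat.mul_pos he0 (by omega)
      · calc e * m ≤ e * (Q / e) := Nat.mul_le_mul_left _ hm.2
          _ ≤ Q := Nat.mul_div_le _ _
    · intro k hk
      simp only [Finset.mem_filter] at hk
      exact Nat.mul_div_cancel' hk.2
    · intro m _
      exact Nat.mul_div_cancel_left m he0
    · intro k hk
      simp only [Finset.mem_filter] at hk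
      rw [Nat.mul_div_cancel' hk.2]
  have h1' : ∑ e ∈ Q.divisors, (ArithmeticFunction.moebius e : ℂ) *
      ∑ m ∈ Icc 1 (Q / e), f ((e * m : ℕ) : ZMod Q) =
      ∑ e ∈ Q.divisors, (ArithmeticFunction.moebius e : ℂ) *
      (∑ k ∈ Icc 1 Q, if e ∣ k then f (k : ZMod Q) else 0) :=
    Finset.sum_congr rfl (fun e he => by rw [h1 e he])
  rw [h1']
  have h2 : ∑ e ∈ Q.divisors, (ArithmeticFunction.moebius e : ℂ) *
      (∑ k ∈ Icc 1 Q, if e ∣ k then f (k : ZMod Q) else 0) =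
      ∑ k ∈ Icc 1 Q, f (k : ZMod Q) * (if k.Coprime Q then 1 else 0) := by
    simp only [Finset.mul_sum]
    rw [Finset.sum_comm]
    apply Finset.sum_congr rfl
    intro k _
    rw [← moebius_gcd k Q hQ, Finset.mul_sum]
    apply Finset.sum_congr rfl
    intro e _
    split_ifs
    · ring
    · ring
  rw [h2]
  have h3 : ∑ k ∈ Icc 1 Q, f (k : ZMod Q) * (if k.Coprime Q then (1 : ℂ) else 0) =
      ∑ k ∈ (Icc 1 Q).filter (fun k => k.Coprime Q), f (k : ZMod Q) := by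
    rw [Finset.sum_filter]
    apply Finset.sum_congr rfl
    intro k _
    split_ifs <;> simp
  rw [h3]
  have hval : ∀ u : (ZMod Q)ˣ, (((if (u : ZMod Q).val = 0 then Q else (u : ZMod Q).val : ℕ)) :
      ZMod Q) = (u : ZMod Q) := by
    intro u
    split_ifs with h
    · rw [ZMod.natCast_self]
      exact ((ZMod.val_eq_zero _).1 h).symm
    · exact ZMod.natCast_zmod_val _
  refine Finset.sum_bij (fun u _ => if (u : ZMod Q).val = 0 then Q else (u : ZMod Q).val)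
    ?_ ?_ ?_ ?_
  · intro u _
    simp only [Finset.mem_filter, Finset.mem_Icc]
    have hlt : (u : ZMod Q).val < Q := ZMod.val_lt _
    have hcop : (u : ZMod Q).val.Coprime Q := ZMod.val_coe_unit_coprime u
    split_ifs with h
    · refine ⟨⟨hQ0, le_rfl⟩, ?_⟩
      rw [h] at hcop
      have : Q = 1 := by simpa using hcop
      rw [this]
      exact Nat.coprime_one_left 1
    · exact ⟨⟨Nat.pos_of_ne_zero h, hlt.le⟩, hcop⟩
  · intro u _ v _ huv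
    apply Units.ext
    rw [← hval u, ← hval v]
    rw [huv]
  · intro k hk
    simp only [Finset.mem_filter, Finset.mem_Icc] at hk
    refine ⟨ZMod.unitOfCoprime k hk.2, Finset.mem_univ _, ?_⟩
    rw [ZMod.coe_unitOfCoprime, ZMod.val_natCast]
    by_cases hkQ : k = Q
    · subst hkQ
      simp
    · have hlt : k < Q := lt_of_le_of_ne hk.1.2 hkQ
      rw [Nat.mod_eq_of_lt hlt, if_neg (by omega)]
  · intro u _
    rw [hval u]

end Pool.Agent.RHN
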