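import Pool.Agent.RHN.RecA
import Pool.Agent.RHN.Geo

/-!
# RHN / Weyl: Weyl's inequality in inverse form

PROOF by induction on `D` (the constant `C` depends on `D`).
`D = 1`: `G = g₁ X + g₀`, `|∑ e(G m)| = |∑ e(g₁ m)|`, `geo_le`: `δ M · 2 nd g₁ ≤ 1`.  `k = 1`, `C = 1`:
`nd g₁ ≤ 1/(2 δ M) ≤ (1/δ)/M`.
`D → D + 1`: let `C` be the constant for `D`.  Let `δ M ≤ |∑_{m ∈ [a, a+L)} e(G m)|`, `L ≤ M`.  By `vdc`
`δ² M² ≤ ∑_{|h| < L} |T_h|`, `T_h = ∑_{m ∈ I_h} e(G(m+h) - G(m))`, `I_h` an interval of length `≤ L ≤ M`, `|T_h| ≤ M`.  Let `H` be the set of `h`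
with `|T_h| ≥ (δ²/4) M`: `δ² M² ≤ |H| M + 2M (δ²/4) M`, so `|H| ≥ δ² M/2`.
For `h ∈ H` the polynomial `Δ_h G = G.comp (X + C h) - G` has degree `≤ D` and its coefficient of `X^D` is `(D+1) h g_{D+1}`
(if `natDegree G ≤ D + 1`).  Induction hypothesis with `δ₁ = δ²/4`: there is `k_h ≤ B := (C/δ₁)^C` with
`nd (k_h (D+1) h g) ≤ B/M^D`.  Pigeonhole: some `k ≤ B` belongs to at least `δ² M/(2 B)` of the `h`.  Apply `rec1` with the interval
`[-M, M)` of length `2M`, `δ' = δ²/(4B)`, `γ = k (D+1) g`, `c = 0`, `σ = B/M^D`.  This needs `σ ≤ δ'/32` and `32/δ'^2 ≤ 2M`, which hold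
if `M ≥ (C₁/δ)^{C₁}` for a suitable `C₁` (`D ≥ 1`).  Result: `k' ≤ 2/δ'`, `nd (k' k (D+1) g) ≤ 8σ/(δ'^2 · 2M) ≤ (C₂/δ)^{C₂}/M^{D+1}`,
and `k' k (D+1) ≤ (C₂/δ)^{C₂}`.  If `M < (C₁/δ)^{C₁}` take `k = 1`: `nd ≤ 1/2 ≤ (C₃/δ)^{C₃}/M^{D+1}` with `C₃ = C₁ (D+1)` or larger.
Monotonicity: `(C/δ)^C ≤ (C'/δ)^{C'}` for `1 ≤ C ≤ C'`, `δ ≤ 1` (`absorb`); products and powers of such terms are again
bounded by such terms: `C · δ^{-n} ≤ (C'/δ)^{C'}` with `C' = max C n` (`C' ≥ 1`).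
-/

set_option autoImplicit false

namespace Pool.Agent.RHN

open Finset Polynomial ComplexConjugate

/-- terms `A δ^{-n}` are absorbed -/
theorem absorb (A : ℝ) (n : ℕ) : ∃ C : ℕ, 1 ≤ C ∧ ∀ C' : ℕ, C ≤ C' → ∀ δ : ℝ, 0 < δ → δ ≤ 1 →
    A * (1 / δ) ^ n ≤ ((C' : ℝ) / δ) ^ C' := by
  refine ⟨max (max 1 n) ⌈A⌉₊, (le_max_left _ _).trans (le_max_left _ _),
    fun C' hC' δ h0 h1 => ?_⟩
  have hn : n ≤ C' := ((le_max_right _ _).trans (le_max_left _ _)).trans hC'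
  have h1' : 1 ≤ C' := ((le_max_left _ _).trans (le_max_left _ _)).trans hC'
  have hA : A ≤ C' := (Nat.le_ceil A).trans (by exact_mod_cast (le_max_right _ _).trans hC')
  have hd : 1 ≤ 1 / δ := by
    rw [le_div_iff₀ h0]
    linarith
  have hd0 : 0 < 1 / δ := by positivity
  have e : ((C' : ℝ) / δ) ^ C' = (C' : ℝ) ^ C' * (1 / δ) ^ C' := by
    rw [← mul_pow]
    congr 1
    ring
  rw [e]
  calc A * (1 / δ) ^ n ≤ C' * (1 / δ) ^ n := mul_le_mul_of_nonneg_right hA (by positivity)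
    _ ≤ C' * (1 / δ) ^ C' := mul_le_mul_of_nonneg_left (pow_le_pow_right₀ hd hn) (by positivity)
    _ ≤ (C' : ℝ) ^ C' * (1 / δ) ^ C' := mul_le_mul_of_nonneg_right
        (le_self_pow₀ (by exact_mod_cast h1') (by omega)) (by positivity)

private theorem wl_dif {G : ℝ[X]} {D : ℕ} (hG : G.natDegree ≤ D + 1) (h : ℝ) :
    (taylor h G - G).natDegree ≤ D ∧
      (taylor h G - G).coeff D = (D + 1) * h * G.coeff (D + 1) := by
  constructor
  · rw [natDegree_le_iff_coeff_eq_zero]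
    intro N hN
    rw [coeff_sub, taylor_coeff]
    have h1 : (hasseDeriv N G).natDegree ≤ 0 := (natDegree_hasseDeriv_le G N).trans (by omega)
    rw [eq_C_of_natDegree_le_zero h1, eval_C, hasseDeriv_coeff]
    simp
  · rw [coeff_sub, taylor_coeff]
    have h1 : (hasseDeriv D G).natDegree ≤ 1 := (natDegree_hasseDeriv_le G D).trans (by omega)
    rw [eq_X_add_C_of_natDegree_le_one h1]
    simp only [eval_add, eval_mul, eval_C, eval_X, hasseDeriv_coeff]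
    have h2 : (1 + D).choose D = D + 1 := by
      rw [add_comm]
      exact Nat.choose_succ_self_right D
    have h3 : (0 + D).choose D = 1 := by simp
    rw [h2, h3, zero_add, add_comm 1 D]
    push_cast
    ring

private theorem wl_term (G : ℝ[X]) (h m : ℤ) :
    ee (G.eval ((m + h : ℤ) : ℝ)) * conj (ee (G.eval (m : ℝ))) =
      ee ((taylor (h : ℝ) G - G).eval (m : ℝ)) := by
  rw [conj_ee, ← ee_add, eval_sub, taylor_eval]
  congr 1
  push_cast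
  ring

private theorem wl_base : ∃ C : ℕ, 1 ≤ C ∧ ∀ δ : ℝ, 0 < δ → δ ≤ 1 → ∀ M : ℕ, 1 ≤ M →
    ∀ G : ℝ[X], G.natDegree ≤ 1 → ∀ (a : ℤ) (L : ℕ), L ≤ M →
      δ * M ≤ ‖∑ m ∈ Ico a (a + L), ee (G.eval (m : ℝ))‖ →
      ∃ k : ℕ, 1 ≤ k ∧ (k : ℝ) ≤ (C / δ) ^ C ∧
        nd (k * G.coeff 1) ≤ (C / δ) ^ C / (M : ℝ) ^ 1 := by
  refine ⟨1, le_rfl, fun δ h0 h1 M hM G hG a L hL hS => ⟨1, le_rfl, ?_, ?_⟩⟩
  · rw [pow_one, Nat.cast_one, le_div_iff₀ h0]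
    linarith
  · have hM' : (1 : ℝ) ≤ M := by exact_mod_cast hM
    have e1 : ∑ m ∈ Ico a (a + L), ee (G.eval (m : ℝ)) =
        ee (G.coeff 0) * ∑ m ∈ Ico a (a + L), ee (G.coeff 1 * m) := by
      rw [mul_sum]
      refine sum_congr rfl fun m _ => ?_
      rw [← ee_add]
      congr 1
      conv_lhs => rw [eq_X_add_C_of_natDegree_le_one hG]
      simp only [eval_add, eval_mul, eval_C, eval_X]
      ring
    rw [e1, norm_mul, norm_ee, one_mul] at hS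
    have h2 := geo_le (G.coeff 1) a L
    have h3 := nd_nonneg (G.coeff 1)
    have h4 : δ * M * (2 * nd (G.coeff 1)) ≤ 1 :=
      (mul_le_mul_of_nonneg_right hS (by positivity)).trans h2
    rw [pow_one, pow_one, Nat.cast_one, one_mul, div_div, le_div_iff₀ (by positivity)]
    nlinarith [mul_nonneg (mul_nonneg h0.le (by linarith : (0 : ℝ) ≤ M)) h3]

private theorem wl_step {D : ℕ} (hD : 1 ≤ D) {B δ : ℝ} (hB : 1 ≤ B) (h0 : 0 < δ) (h1 : δ ≤ 1)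
    {M : ℕ} (hM : 1 ≤ M) (hbig : 256 * B ^ 2 / δ ^ 4 ≤ M)
    (IH : ∀ G : ℝ[X], G.natDegree ≤ D → ∀ (a : ℤ) (L : ℕ), L ≤ M →
      δ ^ 2 / 4 * M ≤ ‖∑ m ∈ Ico a (a + L), ee (G.eval (m : ℝ))‖ →
      ∃ k : ℕ, 1 ≤ k ∧ (k : ℝ) ≤ B ∧ nd (k * G.coeff D) ≤ B / (M : ℝ) ^ D)
    {G : ℝ[X]} (hG : G.natDegree ≤ D + 1) {a : ℤ} {L : ℕ} (hL : L ≤ M)
    (hS : δ * M ≤ ‖∑ m ∈ Ico a (a + L), ee (G.eval (m : ℝ))‖) :
    ∃ k : ℕ, 1 ≤ k ∧ (k : ℝ) ≤ 8 * (D + 1) * B ^ 2 / δ ^ 2 ∧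
      nd (k * G.coeff (D + 1)) ≤ 64 * B ^ 3 / δ ^ 4 / (M : ℝ) ^ (D + 1) := by
  classical
  have hM' : (1 : ℝ) ≤ M := by exact_mod_cast hM
  have hM0 : (0 : ℝ) < M := by linarith
  have hB0 : 0 < B := by linarith
  have hLM : (L : ℝ) ≤ M := by exact_mod_cast hL
  set g := G.coeff (D + 1) with hg
  obtain ⟨T, hT⟩ : ∃ T : ℤ → ℝ, T = fun h => ‖∑ m ∈ Ico (a + max 0 (-h))
    (a + max 0 (-h) + ((L - h.natAbs : ℕ) : ℤ)),
      ee ((taylor (h : ℝ) G - G).eval (m : ℝ))‖ := ⟨_, rfl⟩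
  have hvdc : (δ * M) ^ 2 ≤ ∑ h ∈ Ioo (-(L : ℤ)) L, T h := by
    have h2 := vdc (fun m : ℤ => ee (G.eval (m : ℝ))) a L
    have h3 : (δ * M) ^ 2 ≤ ‖∑ m ∈ Ico a (a + L), ee (G.eval (m : ℝ))‖ ^ 2 :=
      pow_le_pow_left₀ (by positivity) hS 2
    refine h3.trans (h2.trans (le_of_eq ?_))
    rw [hT]
    refine sum_congr rfl fun h _ => ?_
    congr 1
    exact sum_congr rfl fun m _ => wl_term G h m
  have hTle : ∀ h ∈ Ioo (-(L : ℤ)) L, T h ≤ M := by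
    intro h _
    rw [hT]
    refine (norm_sum_le _ _).trans ?_
    simp only [norm_ee]
    rw [sum_const, Int.card_Ico, nsmul_eq_mul, mul_one]
    have h2 : (a + max 0 (-h) + ((L - h.natAbs : ℕ) : ℤ) - (a + max 0 (-h))).toNat ≤ M := by
      omega
    exact_mod_cast h2
  set H := (Ioo (-(L : ℤ)) L).filter (fun h => δ ^ 2 / 4 * M ≤ T h) with hH
  have hcardI : ((Ioo (-(L : ℤ)) L).card : ℝ) ≤ 2 * M := by
    rw [Int.card_Ioo]
    have h2 : ((L : ℤ) - -(L : ℤ) - 1).toNat ≤ 2 * M := by omega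
    exact_mod_cast h2
  have hHcard : δ ^ 2 * M / 2 ≤ H.card := by
    have h2 : ∑ h ∈ Ioo (-(L : ℤ)) L, T h ≤ H.card * M + (2 * M) * (δ ^ 2 / 4 * M) := by
      rw [← sum_filter_add_sum_filter_not (Ioo (-(L : ℤ)) L) (fun h => δ ^ 2 / 4 * M ≤ T h)]
      refine add_le_add ?_ ?_
      · have h3 := sum_le_card_nsmul H T (M : ℝ) fun h hh =>
          hTle h (mem_of_mem_filter h hh)
        rw [nsmul_eq_mul] at h3
        exact h3
      · have h3 := sum_le_card_nsmul ((Ioo (-(L : ℤ)) L).filter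
          (fun h => ¬ δ ^ 2 / 4 * M ≤ T h)) T (δ ^ 2 / 4 * M) fun h hh =>
          (not_le.1 (mem_filter.1 hh).2).le
        rw [nsmul_eq_mul] at h3
        refine h3.trans (mul_le_mul_of_nonneg_right ?_ (by positivity))
        refine le_trans ?_ hcardI
        exact_mod_cast card_filter_le _ _
    have h3 := hvdc.trans h2
    have h4 : δ ^ 2 * M / 2 * M ≤ H.card * M := by linarith
    exact le_of_mul_le_mul_right h4 hM0
  have hex : ∀ h ∈ H, ∃ k : ℕ, 1 ≤ k ∧ (k : ℝ) ≤ B ∧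
      nd (k * ((D + 1) * (h : ℝ) * g)) ≤ B / (M : ℝ) ^ D := by
    intro h hh
    obtain ⟨h2, h3⟩ := wl_dif hG (h : ℝ)
    obtain ⟨k, hk⟩ := IH (taylor (h : ℝ) G - G) h2 (a + max 0 (-h)) (L - h.natAbs) (by omega)
      (by
        have h4 := (mem_filter.1 hh).2
        rw [hT] at h4
        exact h4)
    rw [h3] at hk
    exact ⟨k, hk⟩
  choose! kf hkf using hex
  have hmaps : ∀ h ∈ H, kf h ∈ Icc 1 ⌊B⌋₊ := fun h hh =>
    mem_Icc.2 ⟨(hkf h hh).1, Nat.le_floor (hkf h hh).2.1⟩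
  have ht : (Icc 1 ⌊B⌋₊).Nonempty := ⟨1, mem_Icc.2 ⟨le_rfl, Nat.le_floor (by exact_mod_cast hB)⟩⟩
  have hb : (Icc 1 ⌊B⌋₊).card • (δ ^ 2 * M / (2 * B)) ≤ (H.card : ℝ) := by
    rw [Nat.card_Icc, Nat.add_sub_cancel, nsmul_eq_mul]
    refine le_trans ?_ hHcard
    have h2 : (⌊B⌋₊ : ℝ) ≤ B := Nat.floor_le hB0.le
    calc (⌊B⌋₊ : ℝ) * (δ ^ 2 * M / (2 * B)) ≤ B * (δ ^ 2 * M / (2 * B)) :=
          mul_le_mul_of_nonneg_right h2 (by positivity)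
      _ = δ ^ 2 * M / 2 := by field_simp
  obtain ⟨k, hk, hcard⟩ := exists_le_card_fiber_of_nsmul_le_card_of_maps_to hmaps ht hb
  set S' := H.filter (fun h => kf h = k) with hS'
  have hk1 := mem_Icc.1 hk
  have hkB : (k : ℝ) ≤ B := (Nat.cast_le.2 hk1.2).trans (Nat.floor_le hB0.le)
  obtain ⟨δ', hδ'⟩ : ∃ δ' : ℝ, δ' = δ ^ 2 / (4 * B) := ⟨_, rfl⟩
  have hδ'0 : 0 < δ' := by
    rw [hδ']
    positivity
  have hδ'1 : δ' ≤ 1 := by
    rw [hδ', div_le_one (by positivity)]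
    nlinarith
  have hbig' : 256 * B ^ 2 ≤ M * δ ^ 4 := (div_le_iff₀ (by positivity)).1 hbig
  have hδ42 : δ ^ 4 ≤ δ ^ 2 := pow_le_pow_of_le_one h0.le h1 (by norm_num)
  have hσ1 : B / (M : ℝ) ^ D ≤ δ' / 32 := by
    rw [hδ', div_div, div_le_div_iff₀ (by positivity) (by positivity)]
    have h2 : (M : ℝ) ≤ (M : ℝ) ^ D := le_self_pow₀ hM' (by omega)
    have h3 : (M : ℝ) * δ ^ 4 ≤ (M : ℝ) ^ D * δ ^ 2 :=
      mul_le_mul h2 hδ42 (by positivity) (by positivity)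
    nlinarith [sq_nonneg B]
  have hM2 : 32 / δ' ^ 2 ≤ ((2 * M : ℕ) : ℝ) := by
    rw [hδ', div_pow, div_le_iff₀ (by positivity)]
    push_cast
    rw [mul_pow, ← mul_div_assoc, le_div_iff₀ (by positivity)]
    nlinarith [sq_nonneg B]
  obtain ⟨k', hk'1, hk'2, hk'3⟩ := rec1 (δ := δ') (σ := B / (M : ℝ) ^ D)
    (γ := k * (D + 1) * g) (c := 0) hδ'0 hδ'1 (by positivity) hσ1 (a := -(M : ℤ)) (M := 2 * M)
    hM2 S' (by
      intro h hh
      have h2 := mem_of_mem_filter h hh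
      have h3 := mem_Ioo.1 (mem_of_mem_filter h h2)
      rw [mem_Ico]
      push_cast
      omega) (by
      refine le_trans (le_of_eq ?_) hcard
      rw [hδ']
      push_cast
      field_simp
      ring) (by
      intro h hh
      have h2 := (mem_filter.1 hh)
      have h3 := (hkf h h2.1).2.2
      rw [h2.2] at h3
      rw [sub_zero]
      refine le_trans (le_of_eq ?_) h3
      congr 1
      ring)
  refine ⟨k' * k * (D + 1), ?_, ?_, ?_⟩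
  · exact Nat.mul_pos (Nat.mul_pos hk'1 hk1.1) (Nat.succ_pos D)
  · push_cast
    have h2 : (k' : ℝ) ≤ 8 * B / δ ^ 2 := by
      refine hk'2.trans (le_of_eq ?_)
      rw [hδ']
      field_simp
      norm_num
    calc (k' : ℝ) * k * (D + 1) ≤ 8 * B / δ ^ 2 * B * (D + 1) := by
          refine mul_le_mul_of_nonneg_right (mul_le_mul h2 hkB (by positivity) (by positivity)) ?_
          positivity
      _ = 8 * (D + 1) * B ^ 2 / δ ^ 2 := by ring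
  · have e1 : ((k' * k * (D + 1) : ℕ) : ℝ) * g = k' * (k * (D + 1) * g) := by
      push_cast
      ring
    rw [e1]
    refine hk'3.trans (le_of_eq ?_)
    rw [hδ']
    push_cast
    rw [pow_succ]
    field_simp
    ring

theorem weyl (D : ℕ) (hD : 1 ≤ D) : ∃ C : ℕ, 1 ≤ C ∧ ∀ δ : ℝ, 0 < δ → δ ≤ 1 → ∀ M : ℕ, 1 ≤ M →
    ∀ G : ℝ[X], G.natDegree ≤ D → ∀ (a : ℤ) (L : ℕ), L ≤ M →
      δ * M ≤ ‖∑ m ∈ Ico a (a + L), ee (G.eval (m : ℝ))‖ →
      ∃ k : ℕ, 1 ≤ k ∧ (k : ℝ) ≤ (C / δ) ^ C ∧ nd (k * G.coeff D) ≤ (C / δ) ^ C / (M : ℝ) ^ D := by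
  induction D, hD using Nat.le_induction with
  | base => exact wl_base
  | succ D hD ih =>
    obtain ⟨C, hC1, hC⟩ := ih
    obtain ⟨K, hK⟩ : ∃ K : ℝ, K = (4 * (C : ℝ)) ^ C := ⟨_, rfl⟩
    obtain ⟨C₁, hC₁1, hC₁⟩ := absorb (8 * (D + 1) * K ^ 2) (4 * C + 2)
    obtain ⟨C₂, hC₂1, hC₂⟩ := absorb (64 * K ^ 3) (6 * C + 4)
    obtain ⟨C₃, hC₃1, hC₃⟩ := absorb ((256 * K ^ 2) ^ (D + 1)) ((4 * C + 4) * (D + 1))
    refine ⟨C₁ + C₂ + C₃, by omega, fun δ h0 h1 M hM G hG a L hL hS => ?_⟩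
    have hM' : (1 : ℝ) ≤ M := by exact_mod_cast hM
    have hM0 : (0 : ℝ) < M := by linarith
    have hC' : (1 : ℝ) ≤ C := by exact_mod_cast hC1
    have hδ1 : 0 < δ ^ 2 / 4 := by positivity
    have hδ2 : δ ^ 2 / 4 ≤ 1 := by nlinarith
    obtain ⟨B, hB⟩ : ∃ B : ℝ, B = ((C : ℝ) / (δ ^ 2 / 4)) ^ C := ⟨_, rfl⟩
    have hBK : B = K * (1 / δ) ^ (2 * C) := by
      rw [hB, hK, pow_mul, ← mul_pow]
      congr 1
      field_simp
    have hB1 : 1 ≤ B := by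
      rw [hB]
      refine one_le_pow₀ ?_
      rw [le_div_iff₀ hδ1]
      linarith
    by_cases hbig : 256 * B ^ 2 / δ ^ 4 ≤ M
    · obtain ⟨k, hk1, hk2, hk3⟩ := wl_step hD hB1 h0 h1 hM hbig
        (fun G' hG' a' L' hL' hS' => by
          have h2 := hC (δ ^ 2 / 4) hδ1 hδ2 M hM G' hG' a' L' hL' hS'
          rw [← hB] at h2
          exact h2) hG hL hS
      refine ⟨k, hk1, hk2.trans ?_, hk3.trans ?_⟩
      · refine le_trans (le_of_eq ?_) (hC₁ (C₁ + C₂ + C₃) (by omega) δ h0 h1)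
        rw [hBK, pow_add, mul_pow, ← pow_mul, one_div_pow δ 2]
        have e : 2 * C * 2 = 4 * C := by ring
        rw [e]
        ring
      · refine div_le_div_of_nonneg_right ?_ (by positivity)
        refine le_trans (le_of_eq ?_) (hC₂ (C₁ + C₂ + C₃) (by omega) δ h0 h1)
        rw [hBK, pow_add, mul_pow, ← pow_mul, one_div_pow δ 4]
        have e : 2 * C * 3 = 6 * C := by ring
        rw [e]
        ring
    · push Not at hbig
      have hX := hC₃ (C₁ + C₂ + C₃) (by omega) δ h0 h1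
      have e : (256 * K ^ 2) ^ (D + 1) * (1 / δ) ^ ((4 * C + 4) * (D + 1)) =
          (256 * B ^ 2 / δ ^ 4) ^ (D + 1) := by
        rw [pow_mul, ← mul_pow]
        congr 1
        rw [hBK, pow_add, mul_pow, ← pow_mul, one_div_pow δ 4]
        have e : 2 * C * 2 = 4 * C := by ring
        rw [e]
        ring
      rw [e] at hX
      have hY : (M : ℝ) ^ (D + 1) ≤ (((C₁ + C₂ + C₃ : ℕ) : ℝ) / δ) ^ (C₁ + C₂ + C₃) :=
        (pow_le_pow_left₀ hM0.le hbig.le _).trans hX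
      refine ⟨1, le_rfl, ?_, ?_⟩
      · rw [Nat.cast_one]
        exact (one_le_pow₀ hM').trans hY
      · rw [le_div_iff₀ (by positivity)]
        have h2 := nd_le_half (((1 : ℕ) : ℝ) * G.coeff (D + 1))
        have h3 : (0 : ℝ) < (M : ℝ) ^ (D + 1) := by positivity
        nlinarith

end Pool.Agent.RHN
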