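import Pool.Agent.RHN.KCs
import Pool.Agent.RHN.Weyl
import Pool.Agent.Helper33.Eps.Divs

/-!
# RHN / KUn: large complete sums over units

PROOF.  `e(K(a.val)/Q)` depends only on the class `a` (`Q ∣ K(m) - K(m')` if `Q ∣ m - m'`: `Polynomial.sub_dvd_eval_sub`), so
`units_sum` applies with `f a = e(K(a.val)/Q)`, `f (e m) = e(K(e m)/Q)`.  Let `τ = Q.divisors.card ≤ C_ε Q^ε` (`Helper33` `card_divisors_le'`), and
`φ(Q) ≥ Q/τ` (`Q/φ(Q) = ∏_{p ∣ Q} p/(p-1) ≤ 2^{ω(Q)} ≤ τ`).  If the sum is `≥ η φ(Q)`, some `e ∣ Q` has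
`|∑_{m ≤ Q/e} e(K(em)/Q)| ≥ η φ(Q)/τ ≥ η Q/τ²`.  As the left side is `≤ Q/e`: `e ≤ τ²/η`.
`D ≥ 2`: `weyl` with `M = Q/e`, the interval `[1, Q/e]`, `δ = η/τ²` (`δ M ≤ η Q/τ²`), and the real polynomial `K(eX)/Q` with coefficient
`K_D e^D/Q`: there is `k ≤ B := (C/δ)^C` with `nd (k K_D e^D/Q) ≤ B/(Q/e)^D`.  For `Q` large (`τ ≤ C_ε Q^ε`, `ε` small depending on `C`, `D`) the right side is
`< 1/Q` (`D ≥ 2`), and a rational number with denominator `Q` at distance `< 1/Q` from an integer is an integer, so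
`Q ∣ k K_D e^D`, hence `Q ≤ k e^D gcd(K_D, Q)` (`Q ∣ k e^D · K_D` gives `Q/gcd(K_D,Q) ∣ k e^D`), `gcd ≥ Q/(k e^D) ≥ √Q` for `Q` large.
`D = 1`: `K(em) = K_1 e m + K_0`; by `geo_zero` (`g = K_1 e/Q`, `M = Q/e`, `g M = K_1`) the inner sum vanishes unless `Q ∣ K_1 e`; so `Q ∣ K_1 e` and
`gcd(K_1, Q) ≥ Q/e ≥ η Q/τ² ≥ √Q`.
-/

set_option autoImplicit false

namespace Pool.Agent.RHN

open Finset Polynomial

/-- powers of the number of divisors are small -/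
private theorem kun_large (A : ℝ) (n : ℕ) {η : ℝ} (hη : 0 < η) : ∃ Q₀ : ℕ, ∀ Q : ℕ, Q₀ ≤ Q →
    A * ((Q.divisors.card : ℝ) ^ 2 / η) ^ n ≤ Real.sqrt Q := by
  obtain ⟨C, hC, hd⟩ := Pool.Agent.Helper33.Markov.card_divisors_le' (1 / (8 * ((n : ℝ) + 1)))
    (by positivity)
  have ht : Filter.Tendsto (fun x : ℕ => (x : ℝ) ^ (1 / 4 : ℝ)) Filter.atTop Filter.atTop :=
    (tendsto_rpow_atTop (by norm_num)).comp tendsto_natCast_atTop_atTop
  obtain ⟨Q₁, hQ₁⟩ := Filter.eventually_atTop.1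
    (ht.eventually_ge_atTop (|A| * (C ^ 2 / η) ^ n))
  refine ⟨max Q₁ 1, fun Q hQ => ?_⟩
  have hQ1 : 1 ≤ Q := le_trans (le_max_right _ _) hQ
  have h1 := hd Q hQ1
  have h2 := hQ₁ Q (le_trans (le_max_left _ _) hQ)
  have hq0 : (0 : ℝ) < Q := by exact_mod_cast hQ1
  have hq1 : (1 : ℝ) ≤ Q := by exact_mod_cast hQ1
  have h3 : ((Q.divisors.card : ℝ) ^ 2 / η) ^ n ≤ (C ^ 2 / η) ^ n * (Q : ℝ) ^ (1 / 4 : ℝ) := by
    calc ((Q.divisors.card : ℝ) ^ 2 / η) ^ n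
        ≤ ((C * (Q : ℝ) ^ (1 / (8 * ((n : ℝ) + 1)))) ^ 2 / η) ^ n := by gcongr
      _ = (C ^ 2 / η) ^ n * (((Q : ℝ) ^ (1 / (8 * ((n : ℝ) + 1)))) ^ (2 * n)) := by
        rw [mul_pow, mul_div_right_comm, mul_pow, pow_mul]
      _ ≤ (C ^ 2 / η) ^ n * (Q : ℝ) ^ (1 / 4 : ℝ) := by
        gcongr
        rw [← Real.rpow_natCast, ← Real.rpow_mul hq0.le]
        apply Real.rpow_le_rpow_of_exponent_le hq1
        push_cast
        rw [div_mul_eq_mul_div, one_mul, div_le_iff₀ (by positivity)]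
        have : (0 : ℝ) ≤ n := Nat.cast_nonneg n
        linarith
  calc A * ((Q.divisors.card : ℝ) ^ 2 / η) ^ n
      ≤ |A| * ((C ^ 2 / η) ^ n * (Q : ℝ) ^ (1 / 4 : ℝ)) := by
        refine (mul_le_mul_of_nonneg_right (le_abs_self A) (by positivity)).trans ?_
        exact mul_le_mul_of_nonneg_left h3 (abs_nonneg A)
    _ = (|A| * (C ^ 2 / η) ^ n) * (Q : ℝ) ^ (1 / 4 : ℝ) := by ring
    _ ≤ (Q : ℝ) ^ (1 / 4 : ℝ) * (Q : ℝ) ^ (1 / 4 : ℝ) :=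
        mul_le_mul_of_nonneg_right h2 (by positivity)
    _ = Real.sqrt Q := by
      rw [← Real.rpow_add hq0, Real.sqrt_eq_rpow]; norm_num

private theorem kun_per {Q : ℕ} [NeZero Q] (K : ℤ[X]) (n : ℕ) :
    ee (pe K ((n : ℕ) : ZMod Q).val / Q) = ee (pe K n / Q) := by
  rw [ZMod.val_natCast]
  have h1 : ((Q : ℤ)) ∣ K.eval (n : ℤ) - K.eval ((n % Q : ℕ) : ℤ) := by
    refine dvd_trans ?_ (Polynomial.sub_dvd_eval_sub (n : ℤ) ((n % Q : ℕ) : ℤ) K)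
    rw [Int.natCast_mod]
    exact Int.dvd_self_sub_emod
  obtain ⟨t, ht⟩ := h1
  have hQ : (Q : ℝ) ≠ 0 := Nat.cast_ne_zero.2 (NeZero.ne Q)
  have h2 : pe K n / Q = pe K (n % Q) / Q + t := by
    have h3 : K.eval (n : ℤ) = K.eval ((n % Q : ℕ) : ℤ) + Q * t := by linarith
    have h4 : pe K n = pe K (n % Q) + Q * t := by
      unfold pe
      rw [h3]
      push_cast
      ring
    rw [h4]
    field_simp
  rw [h2, ee_add_int]

private theorem kun_exists {Q : ℕ} [NeZero Q] (K : ℤ[X]) {η : ℝ} (hη : 0 < η)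
    (h : η * (Q.totient : ℝ) ≤ ‖∑ u : (ZMod Q)ˣ, ee (pe K (u : ZMod Q).val / Q)‖) :
    ∃ e ∈ Q.divisors, η / (Q.divisors.card : ℝ) ^ 2 * Q ≤
      ‖∑ m ∈ Icc 1 (Q / e), ee (pe K (e * m) / Q)‖ := by
  by_contra hc
  push Not at hc
  have hQ0 : Q ≠ 0 := NeZero.ne Q
  have hne : Q.divisors.Nonempty := ⟨1, Nat.one_mem_divisors.2 hQ0⟩
  have hτ : (0 : ℝ) < Q.divisors.card := by exact_mod_cast Finset.card_pos.2 hne
  have h1 := units_sum (Q := Q) (fun a => ee (pe K a.val / Q))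
  simp only [kun_per] at h1
  have h2 : ‖∑ u : (ZMod Q)ˣ, ee (pe K (u : ZMod Q).val / Q)‖ <
      ∑ e ∈ Q.divisors, η / (Q.divisors.card : ℝ) ^ 2 * Q := by
    rw [h1]
    refine lt_of_le_of_lt (norm_sum_le _ _) ?_
    refine Finset.sum_lt_sum_of_nonempty hne fun e he => ?_
    refine lt_of_le_of_lt ?_ (hc e he)
    rw [norm_mul]
    have h8 : ‖((ArithmeticFunction.moebius e : ℤ) : ℂ)‖ ≤ 1 := by
      rw [Complex.norm_intCast]
      exact_mod_cast ArithmeticFunction.abs_moebius_le_one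
    exact (mul_le_mul_of_nonneg_right h8 (norm_nonneg _)).trans (le_of_eq (one_mul _))
  rw [sum_const, nsmul_eq_mul] at h2
  have h3 : (Q : ℝ) ≤ Q.divisors.card * Q.totient := by
    have h9 := Nat.sum_totient Q
    have h4 : ∑ m ∈ Q.divisors, m.totient ≤ ∑ _m ∈ Q.divisors, Q.totient :=
      Finset.sum_le_sum fun m hm =>
        Nat.le_of_dvd (Nat.totient_pos.2 (Nat.pos_of_ne_zero hQ0))
          (Nat.totient_dvd_of_dvd (Nat.dvd_of_mem_divisors hm))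
    rw [h9, sum_const, smul_eq_mul] at h4
    exact_mod_cast h4
  have h5 : (Q.divisors.card : ℝ) * (η / (Q.divisors.card : ℝ) ^ 2 * Q) =
      η * (Q / Q.divisors.card) := by field_simp
  have h6 : (Q : ℝ) / Q.divisors.card ≤ Q.totient := by
    rw [div_le_iff₀ hτ]; linarith
  have h7 : η * ((Q : ℝ) / Q.divisors.card) ≤ η * Q.totient := by gcongr
  linarith

private theorem kun_le {Q : ℕ} [NeZero Q] (K : ℤ[X]) {η : ℝ} (hη : 0 < η) {e : ℕ}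
    (he : e ∈ Q.divisors) (h : η / (Q.divisors.card : ℝ) ^ 2 * Q ≤
      ‖∑ m ∈ Icc 1 (Q / e), ee (pe K (e * m) / Q)‖) :
    0 < e ∧ (e : ℝ) ≤ (Q.divisors.card : ℝ) ^ 2 / η ∧ ((Q / e : ℕ) : ℝ) = (Q : ℝ) / e := by
  have hQ0 : Q ≠ 0 := NeZero.ne Q
  have hne : Q.divisors.Nonempty := ⟨1, Nat.one_mem_divisors.2 hQ0⟩
  have hτ : (0 : ℝ) < Q.divisors.card := by exact_mod_cast Finset.card_pos.2 hne
  have he0 : 0 < e := Nat.pos_of_mem_divisors he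
  have he1 : (0 : ℝ) < e := by exact_mod_cast he0
  have hq : (0 : ℝ) < Q := by exact_mod_cast Nat.pos_of_ne_zero hQ0
  have hM : ((Q / e : ℕ) : ℝ) = (Q : ℝ) / e :=
    Nat.cast_div (Nat.dvd_of_mem_divisors he) he1.ne'
  refine ⟨he0, ?_, hM⟩
  have h1 : ‖∑ m ∈ Icc 1 (Q / e), ee (pe K (e * m) / Q)‖ ≤ (Q : ℝ) / e := by
    refine (norm_sum_le _ _).trans ?_
    simp only [norm_ee, sum_const, Nat.card_Icc, Nat.add_sub_cancel, nsmul_eq_mul, mul_one]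
    exact hM.le
  have h2 := h.trans h1
  rw [div_mul_eq_mul_div, div_le_div_iff₀ (by positivity) he1] at h2
  rw [le_div_iff₀ hη]
  have h3 : (e * η) * (Q : ℝ) ≤ (Q.divisors.card : ℝ) ^ 2 * Q := by linarith
  exact le_of_mul_le_mul_right h3 hq

private theorem kun_gcd {Q : ℕ} (hQ : 0 < Q) {c : ℤ} {k : ℕ} (hk : 0 < k)
    (h : (Q : ℤ) ∣ k * c) (h2 : (k : ℝ) ≤ Real.sqrt Q) :
    Real.sqrt Q ≤ Nat.gcd c.natAbs Q := by
  have h3 : Q ∣ k * c.natAbs := by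
    have h9 := Int.natAbs_dvd_natAbs.2 h
    rwa [Int.natAbs_mul, Int.natAbs_natCast, Int.natAbs_natCast] at h9
  have h4 : Q ∣ k * Nat.gcd c.natAbs Q := by
    rw [← Nat.gcd_mul_left]
    exact Nat.dvd_gcd h3 (Dvd.intro_left k rfl)
  have h5 : Q ≤ k * Nat.gcd c.natAbs Q :=
    Nat.le_of_dvd (Nat.mul_pos hk (Nat.gcd_pos_of_pos_right _ hQ)) h4
  have h6 : (Q : ℝ) ≤ k * (Nat.gcd c.natAbs Q : ℝ) := by exact_mod_cast h5
  have hs : 0 < Real.sqrt Q := Real.sqrt_pos.2 (by exact_mod_cast hQ)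
  have h7 : Real.sqrt Q * Real.sqrt Q = Q := Real.mul_self_sqrt (by positivity)
  have h8 : (k : ℝ) * (Nat.gcd c.natAbs Q : ℝ) ≤ Real.sqrt Q * (Nat.gcd c.natAbs Q : ℝ) :=
    mul_le_mul_of_nonneg_right h2 (Nat.cast_nonneg _)
  refine le_of_mul_le_mul_left (a := Real.sqrt Q) ?_ hs
  linarith

private theorem kun_int {Q : ℕ} (hQ : 0 < Q) (c : ℤ) (h : nd ((c : ℝ) / Q) < 1 / Q) :
    (Q : ℤ) ∣ c := by
  obtain ⟨n, hn⟩ := exists_nd ((c : ℝ) / Q)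
  rw [hn] at h
  have hq : (0 : ℝ) < Q := by exact_mod_cast hQ
  have h1 : (c : ℝ) / Q - n = (c - Q * n) / Q := by field_simp
  rw [h1, abs_div, abs_of_pos hq, div_lt_div_iff_of_pos_right hq] at h
  have h2 : |c - Q * n| < 1 := by exact_mod_cast h
  have h3 : c - Q * n = 0 := Int.abs_lt_one_iff.1 h2
  exact ⟨n, by linarith⟩

private theorem kun_reindex (M : ℕ) (f : ℝ → ℂ) :
    ∑ m ∈ Ico (1 : ℤ) (1 + M), f (m : ℝ) = ∑ m ∈ Icc 1 M, f (m : ℝ) := by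
  refine Finset.sum_nbij' (fun m => m.toNat) (fun m => (m : ℤ)) ?_ ?_ ?_ ?_ ?_
  · intro m hm
    rw [mem_Ico] at hm
    rw [mem_Icc]
    omega
  · intro m hm
    rw [mem_Icc] at hm
    rw [mem_Ico]
    omega
  · intro m hm
    rw [mem_Ico] at hm
    exact Int.toNat_of_nonneg (by omega)
  · intro m _
    simp
  · intro m hm
    rw [mem_Ico] at hm
    have h1 : ((m.toNat : ℕ) : ℝ) = (m : ℝ) := by
      have h2 : ((m.toNat : ℕ) : ℤ) = m := Int.toNat_of_nonneg (by omega)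
      exact_mod_cast congrArg (fun x : ℤ => (x : ℝ)) h2
    rw [h1]

private theorem kun_one {η : ℝ} (hη : 0 < η) : ∃ Q₀ : ℕ, ∀ Q : ℕ, Q₀ ≤ Q → ∀ [NeZero Q],
    ∀ K : ℤ[X], K.natDegree ≤ 1 →
      η * (Q.totient : ℝ) ≤ ‖∑ u : (ZMod Q)ˣ, ee (pe K (u : ZMod Q).val / Q)‖ →
      Real.sqrt Q ≤ Nat.gcd (K.coeff 1).natAbs Q := by
  obtain ⟨Q₁, hQ₁⟩ := kun_large 1 1 hη
  refine ⟨Q₁, fun Q hQ _ K hK h => ?_⟩
  obtain ⟨e, he, hS⟩ := kun_exists K hη h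
  obtain ⟨he0, hle, hM⟩ := kun_le K hη he hS
  have hQ0 : 0 < Q := Nat.pos_of_ne_zero (NeZero.ne Q)
  have hq : (0 : ℝ) < Q := by exact_mod_cast hQ0
  have he1 : (0 : ℝ) < e := by exact_mod_cast he0
  have hb := hQ₁ Q hQ
  rw [one_mul, pow_one] at hb
  refine kun_gcd hQ0 he0 ?_ (hle.trans hb)
  by_contra hnd
  have hne : Q.divisors.Nonempty := ⟨1, Nat.one_mem_divisors.2 hQ0.ne'⟩
  have hτ : (0 : ℝ) < Q.divisors.card := by exact_mod_cast Finset.card_pos.2 hne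
  have hz : ∑ m ∈ Icc 1 (Q / e), ee (((e : ℝ) * (K.coeff 1 : ℝ) / Q) * (m : ℝ)) = 0 := by
    refine geo_zero ⟨K.coeff 1, ?_⟩ ?_
    · rw [hM]
      field_simp
    · intro n hn
      apply hnd
      refine ⟨n, ?_⟩
      rw [div_eq_iff hq.ne'] at hn
      have h2 : (e : ℝ) * (K.coeff 1 : ℝ) = Q * n := by rw [hn]; ring
      exact_mod_cast h2
  have h1 : ∑ m ∈ Icc 1 (Q / e), ee (pe K (e * m) / Q) = 0 := by
    have h3 : ∀ m : ℕ, ee (pe K (e * m) / Q) =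
        ee (((e : ℝ) * (K.coeff 1 : ℝ) / Q) * (m : ℝ)) * ee ((K.coeff 0 : ℝ) / Q) := by
      intro m
      rw [← ee_add]
      congr 1
      have h4 : pe K (e * m) = (K.coeff 1 : ℝ) * (e * m) + K.coeff 0 := by
        unfold pe
        conv_lhs => rw [Polynomial.eq_X_add_C_of_natDegree_le_one hK]
        simp
      rw [h4]
      field_simp
    rw [Finset.sum_congr rfl fun m _ => h3 m, ← Finset.sum_mul, hz, zero_mul]
  rw [h1, norm_zero] at hS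
  have : 0 < η / (Q.divisors.card : ℝ) ^ 2 * Q := by positivity
  linarith

private theorem kun_two (D : ℕ) (hD : 2 ≤ D) {η : ℝ} (hη : 0 < η) (hη1 : η ≤ 1) :
    ∃ Q₀ : ℕ, ∀ Q : ℕ, Q₀ ≤ Q → ∀ [NeZero Q],
    ∀ K : ℤ[X], K.natDegree ≤ D →
      η * (Q.totient : ℝ) ≤ ‖∑ u : (ZMod Q)ˣ, ee (pe K (u : ZMod Q).val / Q)‖ →
      Real.sqrt Q ≤ Nat.gcd (K.coeff D).natAbs Q := by
  obtain ⟨C, hC1, hW⟩ := weyl D (by omega)
  obtain ⟨Q₁, hQ₁⟩ := kun_large ((C : ℝ) ^ C) (C + D) hη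
  refine ⟨max Q₁ 2, fun Q hQ _ K hK h => ?_⟩
  have hQ2 : 2 ≤ Q := le_trans (le_max_right _ _) hQ
  obtain ⟨e, he, hS⟩ := kun_exists K hη h
  obtain ⟨he0, hle, hM⟩ := kun_le K hη he hS
  have hQ0 : 0 < Q := Nat.pos_of_ne_zero (NeZero.ne Q)
  have hq : (0 : ℝ) < Q := by exact_mod_cast hQ0
  have he1 : (0 : ℝ) < e := by exact_mod_cast he0
  have hb := hQ₁ Q (le_trans (le_max_left _ _) hQ)
  have hne : Q.divisors.Nonempty := ⟨1, Nat.one_mem_divisors.2 hQ0.ne'⟩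
  have hτ1 : (1 : ℝ) ≤ Q.divisors.card := by exact_mod_cast Finset.card_pos.2 hne
  have hτ : (0 : ℝ) < Q.divisors.card := by linarith
  set τ : ℝ := (Q.divisors.card : ℝ) with hτdef
  set δ : ℝ := η / τ ^ 2 with hδ
  have hδ0 : 0 < δ := by positivity
  have hδ1 : δ ≤ 1 := by
    rw [hδ, div_le_one (by positivity)]
    nlinarith
  have hE : τ ^ 2 / η = 1 / δ := by
    rw [hδ]; field_simp
  rw [hE] at hb hle
  have hM1 : 1 ≤ Q / e := Nat.div_pos (Nat.le_of_dvd hQ0 (Nat.dvd_of_mem_divisors he)) he0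
  set G : ℝ[X] := Polynomial.C (1 / (Q : ℝ)) *
    (K.map (Int.castRingHom ℝ)).comp (Polynomial.C (e : ℝ) * X) with hG
  have hGd : G.natDegree ≤ D := by
    refine (Polynomial.natDegree_C_mul_le _ _).trans ?_
    refine Polynomial.natDegree_comp_le.trans ?_
    have h1 : (K.map (Int.castRingHom ℝ)).natDegree ≤ D :=
      (Polynomial.natDegree_map_le).trans hK
    have h2 : (Polynomial.C (e : ℝ) * (X : ℝ[X])).natDegree ≤ 1 :=
      (Polynomial.natDegree_C_mul_le _ _).trans Polynomial.natDegree_X_le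
    calc _ ≤ D * 1 := Nat.mul_le_mul h1 h2
      _ = D := mul_one D
  have hGc : G.coeff D = (K.coeff D : ℝ) * (e : ℝ) ^ D / Q := by
    rw [hG, Polynomial.coeff_C_mul, Polynomial.comp_C_mul_X_coeff, Polynomial.coeff_map]
    simp only [eq_intCast]
    ring
  have hGe : ∀ m : ℕ, G.eval (m : ℝ) = pe K (e * m) / Q := by
    intro m
    rw [hG, Polynomial.eval_mul, Polynomial.eval_C, Polynomial.eval_comp]
    simp only [Polynomial.eval_mul, Polynomial.eval_C, Polynomial.eval_X]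
    have h1 : (K.map (Int.castRingHom ℝ)).eval ((e : ℝ) * m) = pe K (e * m) := by
      unfold pe
      rw [Polynomial.eval_map]
      have h2 := Polynomial.hom_eval₂ K (RingHom.id ℤ) (Int.castRingHom ℝ) ((e * m : ℕ) : ℤ)
      rw [Polynomial.eval]
      rw [eq_intCast] at h2
      rw [h2]
      simp
    rw [h1]
    ring
  have hsum : ∑ m ∈ Ico (1 : ℤ) (1 + ((Q / e : ℕ) : ℤ)), ee (G.eval (m : ℝ)) =
      ∑ m ∈ Icc 1 (Q / e), ee (pe K (e * m) / Q) := by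
    rw [kun_reindex (Q / e) (fun x => ee (G.eval x))]
    exact Finset.sum_congr rfl fun m _ => by rw [hGe m]
  have hMQ : ((Q / e : ℕ) : ℝ) ≤ Q := by exact_mod_cast Nat.div_le_self Q e
  obtain ⟨k, hk1, hkB, hnd⟩ := hW δ hδ0 hδ1 (Q / e) hM1 G hGd 1 (Q / e) le_rfl (by
    rw [hsum]
    exact (mul_le_mul_of_nonneg_left hMQ hδ0.le).trans hS)
  have hs0 : 0 < Real.sqrt Q := Real.sqrt_pos.2 hq
  have hs1 : Real.sqrt Q < Q := by
    rw [Real.sqrt_lt' hq]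
    have : (2 : ℝ) ≤ Q := by exact_mod_cast hQ2
    nlinarith
  have hCe : ((C : ℝ) / δ) ^ C * (e : ℝ) ^ D ≤ Real.sqrt Q := by
    refine le_trans ?_ hb
    rw [pow_add, ← mul_assoc, ← mul_pow, mul_one_div]
    exact mul_le_mul_of_nonneg_left (pow_le_pow_left₀ he1.le hle D) (by positivity)
  have hke : (k : ℝ) * (e : ℝ) ^ D ≤ Real.sqrt Q :=
    (mul_le_mul_of_nonneg_right hkB (by positivity)).trans hCe
  have hdiv : (Q : ℤ) ∣ ((k * e ^ D : ℕ) : ℤ) * K.coeff D := by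
    apply kun_int hQ0
    have h1 : (((((k * e ^ D : ℕ) : ℤ) * K.coeff D : ℤ)) : ℝ) / Q = (k : ℝ) * G.coeff D := by
      rw [hGc]
      push_cast
      ring
    rw [h1]
    refine lt_of_le_of_lt hnd ?_
    rw [hM, div_pow (Q : ℝ) (e : ℝ) D, div_div_eq_mul_div]
    calc ((C : ℝ) / δ) ^ C * (e : ℝ) ^ D / (Q : ℝ) ^ D ≤ Real.sqrt Q / (Q : ℝ) ^ D := by
          gcongr
      _ < Q / (Q : ℝ) ^ D := by
          gcongr
      _ ≤ Q / (Q : ℝ) ^ 2 := by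
          have h3 : (1 : ℝ) ≤ Q := by exact_mod_cast hQ0
          have h4 : (Q : ℝ) ^ 2 ≤ (Q : ℝ) ^ D := pow_le_pow_right₀ h3 hD
          exact div_le_div_of_nonneg_left hq.le (by positivity) h4
      _ = 1 / Q := by field_simp
  refine kun_gcd hQ0 (Nat.mul_pos hk1 (pow_pos he0 D)) hdiv ?_
  push_cast
  exact hke

theorem units_large (D : ℕ) (hD : 1 ≤ D) (η : ℝ) (hη : 0 < η) : ∃ Q₀ : ℕ, ∀ Q : ℕ, Q₀ ≤ Q → ∀ [NeZero Q],
    ∀ K : ℤ[X], K.natDegree ≤ D →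
      η * (Q.totient : ℝ) ≤ ‖∑ u : (ZMod Q)ˣ, ee (pe K (u : ZMod Q).val / Q)‖ →
      Real.sqrt Q ≤ Nat.gcd (K.coeff D).natAbs Q := by
  rcases Nat.eq_or_lt_of_le hD with h1 | h2
  · subst h1
    exact kun_one hη
  · obtain ⟨Q₀, hQ₀⟩ := kun_two D h2 (η := min η 1) (lt_min hη one_pos) (min_le_right _ _)
    refine ⟨Q₀, fun Q hQ _ K hK h => hQ₀ Q hQ K hK (le_trans ?_ h)⟩
    exact mul_le_mul_of_nonneg_right (min_le_left _ _) (Nat.cast_nonneg _)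

end Pool.Agent.RHN
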