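import Pool.Agent.RHN.Defs

/-!
# RHN / Lin: Linnik's identity for rough numbers

PROOFS.  `UU_apply`: definitions (`1 = ArithmeticFunction.one`).
`pow_nonneg`: induction, `(U^(j+1)) n = ∑_{(d,e), de = n} U^j d · U e`.
`pow_supp`: induction: if `(U^(j+1)) n ≠ 0` there is `d e = n` with `(U^j) d ≠ 0` and `U e ≠ 0`; `e` is rough, `e ≠ 1`, so all its prime
factors are `≥ z+1` and `e ≥ z+1`; products of rough numbers are rough.
`pow_le`: a `z`-rough `n < (z+1)^(J+1)` has at most `J` prime factors (with multiplicity), so `n.divisors.card ≤ 2^J`; induction on `j`: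
`(U^(j+1)) n ≤ ∑_{d ∣ n} (U^j) d ≤ 2^J · 2^(J j)` (all divisors of a rough number are rough and `< (z+1)^(J+1)`; if `n` is not rough the value is `0`
by `pow_supp`).
`lin_id`: let `D f n = log n · f n`; `D (f * g) = D f * g + f * D g` (`log (de) = log d + log e`), so `D (U^j) = j • U^(j-1) * D U`.  Let `L` be the
arithmetic function `n ↦ Λ n` for rough `n`, `0` otherwise.  `R * L = D R`: for rough `n` all divisors are rough and `∑_{d ∣ n} Λ d = log n`
(`ArithmeticFunction.vonMangoldt_sum`); for `n` not rough every term `R d · L e`, `de = n`, vanishes.  `D U = D R` (`log 1 = 0`), `R = 1 + U`.  So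
`D (∑_{j=1}^J (-1)^(j+1)/j • U^j) = ∑_{j=1}^J (-1)^(j+1) U^(j-1) * (1 + U) * L = (1 - (-U)^J) * L` (telescoping), and
`(U^J * L) n = 0` for `n < (z+1)^(J+1)`, since `(U^J) d ≠ 0` forces `d ≥ (z+1)^J` and `L e ≠ 0` forces `e` rough, `e ≠ 1`, `e ≥ z+1`.
-/

set_option autoImplicit false

namespace Pool.Agent.RHN

open Finset ArithmeticFunction

private theorem rough_one (z : ℕ) : Rough z 1 :=
  ⟨le_rfl, fun _ hp _ h => hp.one_lt.ne' (Nat.dvd_one.1 h)⟩

private theorem rough_mul {z a b : ℕ} (ha : Rough z a) (hb : Rough z b) : Rough z (a * b) := by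
  refine ⟨Nat.mul_pos ha.1 hb.1, fun p hp hpz h => ?_⟩
  rcases hp.dvd_mul.1 h with h1 | h1
  · exact ha.2 p hp hpz h1
  · exact hb.2 p hp hpz h1

private theorem rough_dvd {z a b : ℕ} (hb : Rough z b) (h : a ∣ b) : Rough z a :=
  ⟨Nat.pos_of_dvd_of_pos h hb.1, fun _ hp hpz h1 => hb.2 _ hp hpz (h1.trans h)⟩

private theorem rough_ge {z a : ℕ} (ha : Rough z a) (h1 : a ≠ 1) : z + 1 ≤ a := by
  have h2 : a.minFac.Prime := Nat.minFac_prime h1
  have h3 : ¬ a.minFac ≤ z := fun h => ha.2 _ h2 h (Nat.minFac_dvd a)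
  have h4 : a.minFac ≤ a := Nat.minFac_le ha.1
  omega

open Classical in
private theorem RR_apply (z n : ℕ) : RR z n = if Rough z n then 1 else 0 := rfl

open Classical in
theorem UU_apply (z n : ℕ) : UU z n = if Rough z n ∧ n ≠ 1 then 1 else 0 := by
  unfold UU
  rw [sub_eq_add_neg, ArithmeticFunction.add_apply, ArithmeticFunction.neg_apply, RR_apply, one_apply]
  by_cases h1 : n = 1
  · subst h1
    rw [if_pos (rough_one z), if_pos rfl, if_neg (fun h => h.2 rfl)]
    norm_num
  · rw [if_neg h1]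
    by_cases h2 : Rough z n
    · rw [if_pos h2, if_pos ⟨h2, h1⟩]
      norm_num
    · rw [if_neg h2, if_neg (fun h => h2 h.1)]
      norm_num

private theorem UU_nonneg (z n : ℕ) : 0 ≤ UU z n := by
  classical
  rw [UU_apply]
  split_ifs
  · exact zero_le_one
  · exact le_rfl

private theorem UU_le_one (z n : ℕ) : UU z n ≤ 1 := by
  classical
  rw [UU_apply]
  split_ifs
  · exact le_rfl
  · exact zero_le_one

theorem pow_nonneg' (z j n : ℕ) : 0 ≤ (UU z ^ j) n := by
  induction j generalizing n with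
  | zero =>
    rw [pow_zero, one_apply]
    split_ifs
    · exact zero_le_one
    · exact le_rfl
  | succ j ih =>
    rw [pow_succ, mul_apply]
    exact Finset.sum_nonneg fun x _ => mul_nonneg (ih _) (UU_nonneg z _)

theorem pow_supp {z j n : ℕ} (h : (UU z ^ j) n ≠ 0) : (z + 1) ^ j ≤ n ∧ Rough z n := by
  classical
  induction j generalizing n with
  | zero =>
    rw [pow_zero, one_apply] at h
    have h1 : n = 1 := by
      by_contra h2
      rw [if_neg h2] at h
      exact h rfl
    subst h1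
    exact ⟨by simp, rough_one z⟩
  | succ j ih =>
    rw [pow_succ, mul_apply] at h
    obtain ⟨x, hx, hne⟩ := Finset.exists_ne_zero_of_sum_ne_zero h
    have h1 := ih (left_ne_zero_of_mul hne)
    have h2 := right_ne_zero_of_mul hne
    rw [UU_apply] at h2
    have h3 : Rough z x.2 ∧ x.2 ≠ 1 := by
      by_contra h4
      rw [if_neg h4] at h2
      exact h2 rfl
    have h5 : x.1 * x.2 = n := (Nat.mem_divisorsAntidiagonal.1 hx).1
    rw [← h5]
    refine ⟨?_, rough_mul h1.2 h3.1⟩
    rw [pow_succ]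
    exact Nat.mul_le_mul h1.1 (rough_ge h3.1 h3.2)

theorem card_div_le {z J n : ℕ} (hn : Rough z n) (hlt : n < (z + 1) ^ (J + 1)) :
    n.divisors.card ≤ 2 ^ J := by
  have hn0 : n ≠ 0 := by
    have := hn.1
    omega
  have h1 : (z + 1) ^ (∑ p ∈ n.primeFactors, n.factorization p) ≤ n := by
    have h2 : ∏ p ∈ n.primeFactors, p ^ n.factorization p = n :=
      Nat.prod_factorization_pow_eq_self hn0
    calc (z + 1) ^ (∑ p ∈ n.primeFactors, n.factorization p)
        = ∏ p ∈ n.primeFactors, (z + 1) ^ n.factorization p := by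
          rw [Finset.prod_pow_eq_pow_sum]
      _ ≤ ∏ p ∈ n.primeFactors, p ^ n.factorization p := by
          refine Finset.prod_le_prod' fun p hp => Nat.pow_le_pow_left ?_ _
          have hp1 := Nat.prime_of_mem_primeFactors hp
          have hp2 := Nat.dvd_of_mem_primeFactors hp
          by_contra h3
          exact hn.2 p hp1 (by omega) hp2
      _ = n := h2
  have h4 : ∑ p ∈ n.primeFactors, n.factorization p ≤ J := by
    by_contra h5
    have h6 : (z + 1) ^ (J + 1) ≤ (z + 1) ^ (∑ p ∈ n.primeFactors, n.factorization p) :=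
      Nat.pow_le_pow_right (Nat.succ_pos z) (by omega)
    omega
  rw [Nat.card_divisors hn0]
  calc ∏ x ∈ n.primeFactors, (n.factorization x + 1)
      ≤ ∏ x ∈ n.primeFactors, 2 ^ n.factorization x := by
        refine Finset.prod_le_prod' fun p _ => ?_
        exact Nat.lt_two_pow_self
    _ = 2 ^ (∑ p ∈ n.primeFactors, n.factorization p) := by
        rw [Finset.prod_pow_eq_pow_sum]
    _ ≤ 2 ^ J := Nat.pow_le_pow_right (by norm_num) h4

theorem pow_le' {z J n : ℕ} (hlt : n < (z + 1) ^ (J + 1)) (j : ℕ) :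
    (UU z ^ j) n ≤ (2 : ℝ) ^ (J * j) := by
  induction j generalizing n with
  | zero =>
    rw [pow_zero, one_apply, Nat.mul_zero, pow_zero]
    split_ifs
    · exact le_rfl
    · exact zero_le_one
  | succ j ih =>
    by_cases h0 : (UU z ^ (j + 1)) n = 0
    · rw [h0]
      positivity
    · have hr := (pow_supp h0).2
      have hn0 : n ≠ 0 := by
        have := hr.1
        omega
      rw [pow_succ, mul_apply]
      have h1 : ∀ x ∈ n.divisorsAntidiagonal, (UU z ^ j) x.1 * UU z x.2 ≤ (2 : ℝ) ^ (J * j) := by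
        intro x hx
        have h2 : x.1 * x.2 = n := (Nat.mem_divisorsAntidiagonal.1 hx).1
        have h3 : x.1 ≤ n := Nat.le_of_dvd (Nat.pos_of_ne_zero hn0) ⟨x.2, h2.symm⟩
        calc (UU z ^ j) x.1 * UU z x.2 ≤ (UU z ^ j) x.1 * 1 :=
              mul_le_mul_of_nonneg_left (UU_le_one z _) (pow_nonneg' z j _)
          _ = (UU z ^ j) x.1 := mul_one _
          _ ≤ _ := ih (lt_of_le_of_lt h3 hlt)
      refine (Finset.sum_le_card_nsmul _ _ _ h1).trans ?_
      have h4 : n.divisorsAntidiagonal.card = n.divisors.card := by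
        rw [Finset.card_eq_sum_ones, Finset.card_eq_sum_ones]
        exact Nat.sum_divisorsAntidiagonal (fun _ _ => 1)
      rw [nsmul_eq_mul, h4]
      have h5 : (n.divisors.card : ℝ) ≤ 2 ^ J := by exact_mod_cast card_div_le hr hlt
      calc (n.divisors.card : ℝ) * 2 ^ (J * j) ≤ 2 ^ J * 2 ^ (J * j) :=
            mul_le_mul_of_nonneg_right h5 (by positivity)
        _ = 2 ^ (J * (j + 1)) := by
            rw [← pow_add]
            congr 1
            ring

/-- `D f n = log n * f n` -/
private noncomputable def DD (f : ArithmeticFunction ℝ) : ArithmeticFunction ℝ :=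
  ⟨fun n => Real.log n * f n, by simp⟩

private theorem DD_apply (f : ArithmeticFunction ℝ) (n : ℕ) : DD f n = Real.log n * f n := rfl

private theorem DD_mul (f g : ArithmeticFunction ℝ) : DD (f * g) = DD f * g + f * DD g := by
  ext n
  rw [DD_apply, ArithmeticFunction.add_apply, mul_apply, mul_apply, mul_apply, Finset.mul_sum,
    ← Finset.sum_add_distrib]
  refine Finset.sum_congr rfl fun x hx => ?_
  have h2 := Nat.mem_divisorsAntidiagonal.1 hx
  have h3 : x.1 ≠ 0 := fun h => h2.2 (by rw [← h2.1, h, zero_mul])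
  have h4 : x.2 ≠ 0 := fun h => h2.2 (by rw [← h2.1, h, mul_zero])
  rw [DD_apply, DD_apply, ← h2.1, Nat.cast_mul, Real.log_mul (by exact_mod_cast h3)
    (by exact_mod_cast h4)]
  ring

private theorem DD_pow (f : ArithmeticFunction ℝ) (j : ℕ) :
    DD (f ^ (j + 1)) = ((j : ArithmeticFunction ℝ) + 1) * (f ^ j * DD f) := by
  induction j with
  | zero => simp
  | succ j ih =>
    rw [pow_succ, DD_mul, ih]
    push_cast
    ring

open Classical in
private noncomputable def LF (z : ℕ) : ArithmeticFunction ℝ :=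
  ⟨fun n => if Rough z n then vonMangoldt n else 0, by simp [Rough]⟩

open Classical in
private theorem LF_apply (z n : ℕ) : LF z n = if Rough z n then vonMangoldt n else 0 := rfl

private theorem RR_LF (z : ℕ) : RR z * LF z = DD (RR z) := by
  classical
  ext n
  rw [mul_apply, DD_apply, RR_apply]
  by_cases hn : Rough z n
  · rw [if_pos hn, mul_one, ← vonMangoldt_sum,
      ← Nat.sum_divisorsAntidiagonal' (fun _ b => (vonMangoldt b : ℝ))]
    refine Finset.sum_congr rfl fun x hx => ?_
    have h2 := (Nat.mem_divisorsAntidiagonal.1 hx).1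
    rw [RR_apply, LF_apply, if_pos (rough_dvd hn ⟨x.2, h2.symm⟩),
      if_pos (rough_dvd hn ⟨x.1, by rw [mul_comm, h2]⟩), one_mul]
  · rw [if_neg hn, mul_zero]
    refine Finset.sum_eq_zero fun x hx => ?_
    have h2 := (Nat.mem_divisorsAntidiagonal.1 hx).1
    rw [RR_apply, LF_apply]
    by_cases h3 : Rough z x.1
    · by_cases h4 : Rough z x.2
      · exact absurd (h2 ▸ rough_mul h3 h4) hn
      · rw [if_neg h4, mul_zero]
    · rw [if_neg h3, zero_mul]

private theorem DD_UU (z : ℕ) : DD (UU z) = (1 + UU z) * LF z := by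
  have h1 : 1 + UU z = RR z := by
    unfold UU
    ring
  rw [h1, RR_LF]
  ext n
  rw [DD_apply, DD_apply]
  unfold UU
  rw [sub_eq_add_neg, ArithmeticFunction.add_apply, ArithmeticFunction.neg_apply, one_apply]
  by_cases h2 : n = 1
  · subst h2
    simp
  · rw [if_neg h2]
    ring

private theorem pow_LF_zero {z J n : ℕ} (hlt : n < (z + 1) ^ (J + 1)) :
    (UU z ^ J * LF z) n = 0 := by
  classical
  rw [mul_apply]
  refine Finset.sum_eq_zero fun x hx => ?_
  by_contra hne
  have h1 := (pow_supp (left_ne_zero_of_mul hne)).1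
  have h2 := right_ne_zero_of_mul hne
  rw [LF_apply] at h2
  have h3 : Rough z x.2 := by
    by_contra h4
    rw [if_neg h4] at h2
    exact h2 rfl
  rw [if_pos h3] at h2
  have h4 : x.2 ≠ 1 := by
    intro h5
    rw [h5] at h2
    exact h2 vonMangoldt_apply_one
  have h5 : x.1 * x.2 = n := (Nat.mem_divisorsAntidiagonal.1 hx).1
  have h6 : (z + 1) ^ J * (z + 1) ≤ x.1 * x.2 := Nat.mul_le_mul h1 (rough_ge h3 h4)
  rw [h5, ← pow_succ] at h6
  omega

private theorem sum_Icc_range (f : ℕ → ℝ) (J : ℕ) :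
    ∑ j ∈ Icc 1 J, f j = ∑ i ∈ range J, f (i + 1) := by
  induction J with
  | zero => simp
  | succ J ih => rw [Finset.sum_Icc_succ_top (by omega), ih, Finset.sum_range_succ]

private theorem tele (a : ℕ → ℝ) (J : ℕ) :
    ∑ i ∈ range J, (-1 : ℝ) ^ i * (a i + a (i + 1)) = a 0 - (-1) ^ J * a J := by
  induction J with
  | zero => simp
  | succ J ih =>
    rw [Finset.sum_range_succ, ih]
    ring

open Classical in
theorem lin_id {z J n : ℕ} (hn : 1 ≤ n) (hlt : n < (z + 1) ^ (J + 1)) :
    Real.log n * ∑ j ∈ Icc 1 J, ((-1 : ℝ) ^ (j + 1) / j) * (UU z ^ j) n =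
      if Rough z n then vonMangoldt n else 0 := by
  have h1 : ∑ j ∈ Icc 1 J, ((-1 : ℝ) ^ (j + 1) / j) * (UU z ^ j) n =
      ∑ i ∈ range J, ((-1 : ℝ) ^ (i + 2) / ((i : ℝ) + 1)) * (UU z ^ (i + 1)) n := by
    rw [sum_Icc_range (fun j => ((-1 : ℝ) ^ (j + 1) / j) * (UU z ^ j) n)]
    refine Finset.sum_congr rfl fun i _ => ?_
    push_cast
    ring
  have h2 : ∀ i : ℕ, Real.log n * (((-1 : ℝ) ^ (i + 2) / ((i : ℝ) + 1)) * (UU z ^ (i + 1)) n) =
      (-1 : ℝ) ^ i * ((UU z ^ i * LF z) n + (UU z ^ (i + 1) * LF z) n) := by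
    intro i
    have h3 : Real.log n * (UU z ^ (i + 1)) n =
        ((i : ℝ) + 1) * ((UU z ^ i * LF z) n + (UU z ^ (i + 1) * LF z) n) := by
      rw [← DD_apply, DD_pow, DD_UU]
      have h4 : ((i : ArithmeticFunction ℝ) + 1) * (UU z ^ i * ((1 + UU z) * LF z)) =
          (i + 1) • (UU z ^ i * LF z + UU z ^ (i + 1) * LF z) := by
        rw [nsmul_eq_mul]
        push_cast
        ring
      rw [h4]
      have h5 : ∀ (k : ℕ) (f : ArithmeticFunction ℝ), (k • f) n = (k : ℝ) * f n := by
        intro k f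
        induction k with
        | zero => simp
        | succ k ih =>
          rw [succ_nsmul, ArithmeticFunction.add_apply, ih]
          push_cast
          ring
      rw [h5, ArithmeticFunction.add_apply]
      push_cast
      ring
    have h6 : (i : ℝ) + 1 ≠ 0 := by positivity
    calc Real.log n * (((-1 : ℝ) ^ (i + 2) / ((i : ℝ) + 1)) * (UU z ^ (i + 1)) n)
        = (-1 : ℝ) ^ (i + 2) / ((i : ℝ) + 1) * (Real.log n * (UU z ^ (i + 1)) n) := by ring
      _ = _ := by
        rw [h3]
        field_simp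
        ring
  rw [h1, Finset.mul_sum, Finset.sum_congr rfl (fun i _ => h2 i),
    tele (fun i => (UU z ^ i * LF z) n) J]
  simp only [pow_zero, one_mul]
  rw [pow_LF_zero hlt, mul_zero, sub_zero, LF_apply]

end Pool.Agent.RHN
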