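import Pool.Agent.RHN.CIrr
import Pool.Agent.RHN.CRat
import Pool.Agent.RHN.CSlow
import Pool.Agent.RHN.HSlow
import Pool.Agent.RHN.EHz
import Pool.Agent.RHN.EKhi

/-!
# RHN / Main: the main theorem
-/

set_option autoImplicit false

namespace Pool.Agent.RHN

open MeasureTheory Filter Topology Polynomial

theorem countable_irr (c : ℝ) :
    {ξ : UnitAddCircle | ∃ ρ κ : ℚ, ξ = ((ρ + κ / c : ℝ) : UnitAddCircle)}.Countable := by
  have h : {ξ : UnitAddCircle | ∃ ρ κ : ℚ, ξ = ((ρ + κ / c : ℝ) : UnitAddCircle)} =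
      Set.range (fun x : ℚ × ℚ => ((x.1 + x.2 / c : ℝ) : UnitAddCircle)) := by
    ext ξ
    constructor
    · rintro ⟨ρ, κ, h⟩
      exact ⟨(ρ, κ), h.symm⟩
    · rintro ⟨⟨ρ, κ⟩, h⟩
      exact ⟨ρ, κ, h.symm⟩
  rw [h]
  exact Set.countable_range _

theorem countable_rat : {ξ : UnitAddCircle | ∃ ρ : ℚ, ξ = ((ρ : ℝ) : UnitAddCircle)}.Countable := by
  have h : {ξ : UnitAddCircle | ∃ ρ : ℚ, ξ = ((ρ : ℝ) : UnitAddCircle)} =
      Set.range (fun x : ℚ => ((x : ℝ) : UnitAddCircle)) := by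
    ext ξ
    constructor
    · rintro ⟨ρ, h⟩
      exact ⟨ρ, h.symm⟩
    · rintro ⟨ρ, h⟩
      exact ⟨ρ, h.symm⟩
  rw [h]
  exact Set.countable_range _

/-- the spectral form (van der Corput property) -/
theorem spectral {S : Subring (Germ (atTop : Filter ℝ) ℝ)} (hS : Hf S) {a : ℝ → ℝ}
    (ha : (a : Germ (atTop : Filter ℝ) ℝ) ∈ S) (c : ℝ) (q : ℤ[X])
    (hinf : Tendsto (fun t : ℝ => |a t - c * aeval t q|) atTop atTop)
    (hslow : ¬ Tendsto (fun t : ℝ => |(a t - c * aeval t q) / Real.log t|) atTop atTop)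
    (σ : Measure UnitAddCircle) [IsFiniteMeasure σ] (ε : ℝ) (hε : 0 < ε) (N : ℕ) :
    ∃ p : ℕ, p.Prime ∧ N ≤ p ∧ σ.real {0} - ε < (∫ ξ, fourier ⌊a p⌋ ξ ∂σ).re := by
  have h1 : Slow (fun t : ℝ => a t - c * aeval t q) :=
    slow_of (e_sg hS ha c q 0).2 (te_lim hS ha c q hslow) hinf
  by_cases h0 : c = 0 ∨ q.natDegree = 0
  · have h2 : ∃ c₀ : ℝ, ∀ t : ℝ, c * aeval t q = c₀ := by
      rcases h0 with h0 | h0
      · exact ⟨0, fun t => by rw [h0, zero_mul]⟩
      · obtain ⟨n, hn⟩ := Polynomial.natDegree_eq_zero.1 h0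
        refine ⟨c * n, fun t => ?_⟩
        rw [← hn]
        simp
    obtain ⟨c₀, hc₀⟩ := h2
    have h3 : Slow a := by
      have h4 := slow_shift h1 c₀
      have h5 : (fun t : ℝ => a t - c * aeval t q + c₀) = a := by
        funext t
        rw [hc₀ t]
        ring
      rwa [h5] at h4
    exact crit _ _ countable_rat (case_slow h3) σ ε hε N
  · rw [not_or] at h0
    have hq : 1 ≤ q.natDegree := Nat.one_le_iff_ne_zero.2 h0.2
    by_cases hc : Irrational c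
    · exact crit _ _ (countable_irr c) (case_irr hc q hq h1) σ ε hε N
    · unfold Irrational at hc
      rw [not_not] at hc
      obtain ⟨c', rfl⟩ := hc
      have hc' : c' ≠ 0 := by
        intro h
        exact h0.1 (by rw [h]; simp)
      exact crit _ _ countable_rat (case_rat hc' q hq h1) σ ε hε N

/-- the ergodic form (Khintchine recurrence) -/
theorem ergodic {S : Subring (Germ (atTop : Filter ℝ) ℝ)} (hS : Hf S) {a : ℝ → ℝ}
    (ha : (a : Germ (atTop : Filter ℝ) ℝ) ∈ S) (c : ℝ) (q : ℤ[X])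
    (hinf : Tendsto (fun t : ℝ => |a t - c * aeval t q|) atTop atTop)
    (hslow : ¬ Tendsto (fun t : ℝ => |(a t - c * aeval t q) / Real.log t|) atTop atTop)
    {X : Type} [MeasurableSpace X] (μ : Measure X) [IsProbabilityMeasure μ] (T : X → X)
    (hT : MeasurePreserving T μ μ) (A : Set X) (hA : MeasurableSet A) (ε : ℝ) (hε : 0 < ε) (N : ℕ) :
    ∃ p : ℕ, p.Prime ∧ N ≤ p ∧
      μ.real A ^ 2 - ε < μ.real (A ∩ (T^[(⌊a p⌋).natAbs]) ⁻¹' A) := by
  obtain ⟨σ, hσ, h⟩ := herglotz μ T hT A hA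
  obtain ⟨p, hp, hN, h1⟩ := spectral hS ha c q hinf hslow σ ε hε N
  refine ⟨p, hp, hN, ?_⟩
  rw [h, Complex.ofReal_re] at h1
  have h2 := atom_ge μ T hT A hA σ h
  linarith

end Pool.Agent.RHN
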