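import Pool.Agent.RHN.SFl
import Pool.Agent.RHN.Lin

/-!
# RHN / MajOne: the rough numbers on the major arcs

PROOF.  `UU z n = 1` for rough `n ≠ 1` (`UU_apply`), so the sum is `∑_{n ∈ I, rough} F(n)` up to `1`.  All prime divisors of `q` are `≤ z`, so rough numbers
are coprime to `q`: `= ∑_{b unit} F(b) S(b)`, `S(b)` the number of rough `n ∈ I` with `n ≡ b`.  `fl_ap` (constant `C`):
`|S(b) - (h/q) VV| ≤ C 2^{-b₀} (h/q) VV + z^{4b₀+8}` and `(h/q) VV ≤ h/(φ(q) log z)` (`VV_le`).  `|∑_b F(b)| ≤ η φ(q)`: `Bil` with `g₁ = g₂ = 1`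
(`∑_{b₁,b₂} F(b₁b₂) = φ(q) ∑_b F(b)`; `φ(q) ≥ 1`).  Total `≤ (h/log z)(η + C 2^{-b₀}) + φ(q) z^{4b₀+8} + 1`, `φ(q) ≤ q`.
-/

set_option autoImplicit false

namespace Pool.Agent.RHN

open Finset

open Classical in
/-- The sum over rough numbers, sorted into residue classes. -/
private theorem sum_classes {z q : ℕ} [NeZero q] (hqz : q ≤ z) (F : ZMod q → ℂ) (y h : ℕ) :
    ∑ n ∈ (Ioc y (y + h)).filter (fun n => Rough z n), F (n : ZMod q) =
      ∑ u : (ZMod q)ˣ, (((Ioc y (y + h)).filter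
        (fun n => Rough z n ∧ n ≡ ((u : ZMod q)).val [MOD q])).card : ℂ) * F (u : ZMod q) := by
  have hunit : ∀ n ∈ (Ioc y (y + h)).filter (fun n => Rough z n), IsUnit (n : ZMod q) := by
    intro n hn
    have hr := (mem_filter.1 hn).2
    rw [ZMod.isUnit_iff_coprime]
    rw [Nat.coprime_iff_gcd_eq_one]
    by_contra hne
    obtain ⟨p, hp, hpd⟩ := Nat.exists_prime_and_dvd hne
    have h1 := hpd.trans (Nat.gcd_dvd_left n q)
    have h2 := hpd.trans (Nat.gcd_dvd_right n q)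
    exact hr.2 p hp ((Nat.le_of_dvd (Nat.pos_of_ne_zero (NeZero.ne q)) h2).trans hqz) h1
  let g : ℕ → (ZMod q)ˣ := fun n => if hu : IsUnit (n : ZMod q) then hu.unit else 1
  rw [← sum_fiberwise ((Ioc y (y + h)).filter (fun n => Rough z n)) g]
  refine sum_congr rfl fun u _ => ?_
  have hset : ((Ioc y (y + h)).filter (fun n => Rough z n)).filter (fun n => g n = u) =
      (Ioc y (y + h)).filter (fun n => Rough z n ∧ n ≡ ((u : ZMod q)).val [MOD q]) := by
    ext n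
    constructor
    · intro hn
      obtain ⟨hn1, hn2⟩ := mem_filter.1 hn
      obtain ⟨hn3, hn4⟩ := mem_filter.1 hn1
      refine mem_filter.2 ⟨hn3, hn4, ?_⟩
      have hu := hunit n hn1
      have h1 : g n = hu.unit := dif_pos hu
      rw [h1] at hn2
      have h2 : (n : ZMod q) = (u : ZMod q) := by
        rw [← hn2]
        exact hu.unit_spec.symm
      rw [← ZMod.natCast_eq_natCast_iff, ZMod.natCast_val, ZMod.cast_id]
      exact h2
    · intro hn
      obtain ⟨hn3, hn4, hn5⟩ := mem_filter.1 hn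
      have hn1 : n ∈ (Ioc y (y + h)).filter (fun n => Rough z n) := mem_filter.2 ⟨hn3, hn4⟩
      refine mem_filter.2 ⟨hn1, ?_⟩
      have hu := hunit n hn1
      have h1 : g n = hu.unit := dif_pos hu
      rw [h1]
      apply Units.ext
      rw [hu.unit_spec]
      rw [← ZMod.natCast_eq_natCast_iff, ZMod.natCast_val, ZMod.cast_id] at hn5
      exact hn5
  rw [hset]
  have hval : ∀ n ∈ (Ioc y (y + h)).filter
      (fun n => Rough z n ∧ n ≡ ((u : ZMod q)).val [MOD q]), F (n : ZMod q) = F (u : ZMod q) := by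
    intro n hn
    have hn5 := (mem_filter.1 hn).2.2
    rw [← ZMod.natCast_eq_natCast_iff, ZMod.natCast_val, ZMod.cast_id] at hn5
    rw [hn5]
  rw [sum_congr rfl hval, sum_const, nsmul_eq_mul]

/-- The sum of `F` over the units. -/
private theorem sum_units {q : ℕ} [NeZero q] {F : ZMod q → ℂ} {η : ℝ} (hF : Bil q F η) :
    ‖∑ u : (ZMod q)ˣ, F (u : ZMod q)‖ ≤ η * (q.totient : ℝ) := by
  have h1 := hF (fun _ => 1) (fun _ => 1) (fun _ => by simp) (fun _ => by simp)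
  have h2 : ∑ b₁ : (ZMod q)ˣ, ∑ b₂ : (ZMod q)ˣ,
      (1 : ℂ) * 1 * F ((b₁ * b₂ : (ZMod q)ˣ) : ZMod q) =
      (q.totient : ℂ) * ∑ u : (ZMod q)ˣ, F (u : ZMod q) := by
    have h3 : ∀ b₁ : (ZMod q)ˣ, ∑ b₂ : (ZMod q)ˣ,
        (1 : ℂ) * 1 * F ((b₁ * b₂ : (ZMod q)ˣ) : ZMod q) = ∑ u : (ZMod q)ˣ, F (u : ZMod q) := by
      intro b₁
      simp only [one_mul]
      exact Fintype.sum_equiv (Equiv.mulLeft b₁) _ _ (fun _ => rfl)
    rw [sum_congr rfl (fun b₁ _ => h3 b₁), sum_const, nsmul_eq_mul, card_univ,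
      ZMod.card_units_eq_totient]
  rw [h2, norm_mul, Complex.norm_natCast] at h1
  have hpos : (0 : ℝ) < q.totient := by
    exact_mod_cast Nat.totient_pos.2 (Nat.pos_of_ne_zero (NeZero.ne q))
  have h4 : (q.totient : ℝ) * ‖∑ u : (ZMod q)ˣ, F (u : ZMod q)‖ ≤
      (q.totient : ℝ) * (η * (q.totient : ℝ)) := by
    refine h1.trans (le_of_eq ?_)
    ring
  exact le_of_mul_le_mul_left h4 hpos

theorem maj_one : ∃ C : ℝ, 1 ≤ C ∧ ∀ (z b q : ℕ) [NeZero q], 2 ≤ z → 1 ≤ b → q ≤ z →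
    ∀ (F : ZMod q → ℂ) (η : ℝ), (∀ a, ‖F a‖ ≤ 1) → 0 ≤ η → Bil q F η → ∀ y h : ℕ,
    ‖∑ n ∈ Ioc y (y + h), ((UU z n : ℝ) : ℂ) * F (n : ZMod q)‖ ≤
      (h : ℝ) / Real.log z * (η + C * (1 / 2) ^ b) + (q : ℝ) * (z : ℝ) ^ (4 * b + 8) + 1 := by
  classical
  obtain ⟨C, hC1, hC⟩ := fl_ap
  refine ⟨C, hC1, ?_⟩
  intro z b q _ hz hb hqz F η hF hη hBil y h
  have hq : 1 ≤ q := Nat.pos_of_ne_zero (NeZero.ne q)
  -- first step: replace `UU` by the indicator of the rough numbers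
  have hstep : ∑ n ∈ Ioc y (y + h), ((UU z n : ℝ) : ℂ) * F (n : ZMod q) =
      ∑ n ∈ (Ioc y (y + h)).filter (fun n => Rough z n), F (n : ZMod q) -
      ∑ n ∈ Ioc y (y + h), (if n = 1 then F ((1 : ℕ) : ZMod q) else 0) := by
    rw [sum_filter, ← sum_sub_distrib]
    refine sum_congr rfl fun n _ => ?_
    rw [UU_apply]
    by_cases h1 : n = 1
    · subst h1
      have hr1 : Rough z 1 := ⟨le_rfl, fun _ hp _ hd => hp.one_lt.ne' (Nat.dvd_one.1 hd)⟩
      rw [if_neg (fun hh => hh.2 rfl), if_pos hr1, if_pos rfl]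
      simp
    · rw [if_neg h1, sub_zero]
      by_cases h2 : Rough z n
      · rw [if_pos ⟨h2, h1⟩, if_pos h2]
        simp
      · rw [if_neg (fun hh => h2 hh.1), if_neg h2]
        simp
  have hone : ‖∑ n ∈ Ioc y (y + h), (if n = 1 then F ((1 : ℕ) : ZMod q) else 0)‖ ≤ 1 := by
    rw [sum_ite_eq']
    split_ifs
    · exact hF _
    · rw [norm_zero]
      exact zero_le_one
  -- second step: the main sum
  let c : (ZMod q)ˣ → ℝ := fun u => (((Ioc y (y + h)).filter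
        (fun n => Rough z n ∧ n ≡ ((u : ZMod q)).val [MOD q])).card : ℝ)
  have hc : ∀ u, |c u - (h : ℝ) / q * VV z q| ≤
      C * (1 / 2) ^ b * ((h : ℝ) / q * VV z q) + (z : ℝ) ^ (4 * b + 8) := fun u =>
    hC z b q y h ((u : ZMod q)).val hz hb hq (ZMod.val_coe_unit_coprime u)
  have hmain : ∑ n ∈ (Ioc y (y + h)).filter (fun n => Rough z n), F (n : ZMod q) =
      ((((h : ℝ) / q * VV z q : ℝ)) : ℂ) * ∑ u : (ZMod q)ˣ, F (u : ZMod q) +
      ∑ u : (ZMod q)ˣ, ((c u - (h : ℝ) / q * VV z q : ℝ) : ℂ) * F (u : ZMod q) := by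
    rw [sum_classes hqz F y h, mul_sum, ← sum_add_distrib]
    refine sum_congr rfl fun u _ => ?_
    have : (((Ioc y (y + h)).filter
        (fun n => Rough z n ∧ n ≡ ((u : ZMod q)).val [MOD q])).card : ℂ) = ((c u : ℝ) : ℂ) := by
      simp only [c]
      norm_cast
    rw [this]
    push_cast
    ring
  have hV := VV_le hz hq
  have hφ : (0 : ℝ) < q.totient := by
    exact_mod_cast Nat.totient_pos.2 hq
  have hφq : (q.totient : ℝ) ≤ q := by exact_mod_cast Nat.totient_le q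
  have hlog : 0 < Real.log z := Real.log_pos (by exact_mod_cast hz)
  have hh0 : (0 : ℝ) ≤ h := Nat.cast_nonneg h
  obtain ⟨M, hM⟩ : ∃ M : ℝ, M = (h : ℝ) / q * VV z q := ⟨_, rfl⟩
  have hM0 : 0 ≤ M := by
    rw [hM]
    exact mul_nonneg (by positivity) hV.1.le
  have hMφ : M * q.totient ≤ (h : ℝ) / Real.log z := by
    have h1 : M * q.totient = (h : ℝ) * q.totient * (VV z q / q) := by
      rw [hM]
      ring
    rw [h1]
    have h2 := mul_le_mul_of_nonneg_left hV.2 (mul_nonneg hh0 hφ.le)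
    refine h2.trans (le_of_eq ?_)
    field_simp
  rw [← hM] at hmain hc
  have hB1 : ‖((M : ℝ) : ℂ) * ∑ u : (ZMod q)ˣ, F (u : ZMod q)‖ ≤ M * (η * q.totient) := by
    rw [norm_mul, Complex.norm_real, Real.norm_eq_abs, abs_of_nonneg hM0]
    exact mul_le_mul_of_nonneg_left (sum_units hBil) hM0
  have hB2 : ‖∑ u : (ZMod q)ˣ, ((c u - M : ℝ) : ℂ) * F (u : ZMod q)‖ ≤
      (q.totient : ℝ) * (C * (1 / 2) ^ b * M + (z : ℝ) ^ (4 * b + 8)) := by
    have h1 : ∀ u ∈ (univ : Finset (ZMod q)ˣ), ‖((c u - M : ℝ) : ℂ) * F (u : ZMod q)‖ ≤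
        C * (1 / 2) ^ b * M + (z : ℝ) ^ (4 * b + 8) := by
      intro u _
      rw [norm_mul, Complex.norm_real, Real.norm_eq_abs]
      calc |c u - M| * ‖F (u : ZMod q)‖ ≤ |c u - M| * 1 :=
            mul_le_mul_of_nonneg_left (hF _) (abs_nonneg _)
        _ = |c u - M| := mul_one _
        _ ≤ _ := hc u
    have h2 := norm_sum_le_of_le univ h1
    rw [sum_const, nsmul_eq_mul, card_univ, ZMod.card_units_eq_totient] at h2
    exact h2
  rw [hstep, hmain]
  have hz8 : (0 : ℝ) ≤ (z : ℝ) ^ (4 * b + 8) := by positivity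
  have hCb : (0 : ℝ) ≤ C * (1 / 2) ^ b := by positivity
  have hA : ‖((M : ℝ) : ℂ) * ∑ u : (ZMod q)ˣ, F (u : ZMod q) +
      ∑ u : (ZMod q)ˣ, ((c u - M : ℝ) : ℂ) * F (u : ZMod q)‖ ≤
      (h : ℝ) / Real.log z * (η + C * (1 / 2) ^ b) + (q : ℝ) * (z : ℝ) ^ (4 * b + 8) := by
    refine (norm_add_le _ _).trans ((add_le_add hB1 hB2).trans ?_)
    have e1 : M * (η * q.totient) + (q.totient : ℝ) * (C * (1 / 2) ^ b * M +
        (z : ℝ) ^ (4 * b + 8)) = M * q.totient * (η + C * (1 / 2) ^ b) +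
        (q.totient : ℝ) * (z : ℝ) ^ (4 * b + 8) := by ring
    rw [e1]
    exact add_le_add (mul_le_mul_of_nonneg_right hMφ (by linarith))
      (mul_le_mul_of_nonneg_right hφq hz8)
  exact (norm_sub_le _ _).trans (add_le_add hA hone)

end Pool.Agent.RHN
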