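import Pool.Agent.RHN.MajB
import Pool.Agent.RHN.MajOne
import Pool.Agent.RHN.Grid
import Pool.Agent.RHN.PPow
import Pool.Agent.RHN.MM

/-!
# RHN / Maj: primes in short segments, functions with small bilinear form (log-free estimate)

PROOF.  Let `C_a`, `C_b` be the constants of `maj_one`, `maj_block`.  Choose `b ≥ 1` with `2 s C_a 2^{-b} ≤ ε/8`, where `s = 8 b + 16`, and then
`η = ε/(1000 s³ C_b 2^{s²})` (so also `2 s η ≤ ε/8`).  For large `x` let `z` be the largest natural number with `z^s ≤ x` (so `x < (z+1)^s`); then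
`z → ∞`, `log z ≥ log x/(2s)`, `q ≤ (log x)^{C₁} ≤ z`.  All `n ≤ x` satisfy `n < (z+1)^{J+1}` with `J = s - 1`.
`lin_id` (divide by `log n`, `n ≥ 2`; for `n = 1` all terms are `0`: `Λ 1 = 0` and `(U^j) 1 = 0` by `pow_supp`):
`∑_{n ∈ I, rough} (Λ n/log n) F(n) = ∑_{j=1}^{J} ((-1)^{j+1}/j) ∑_{n ∈ I} (U^j) n F(n)`.
`j = 1`: `maj_one`: at most `(2 s h/log x)(η + C_a 2^{-b}) + (log x)^{C₁} z^{4b+8} + 1`, and `z^{4b+8} ≤ z^{s/2} ≤ √x`.
`j ≥ 2`: `U^j = U * U^{j-1}`, `(U * U^{j-1}) n = ∑_{d ∣ n} U d · U^{j-1} (n/d)`.  `grid` with `κ = (log x)^{-(C₁+3)}`, `u = U`, `v = U^{j-1}`, `T = 2^{J j} ≤ 2^{s²}` (`pow_le'`,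
`pow_nonneg'`), `E = C_b 2^{s²} η/(log z)²` (`maj_block` with `A = 1`, `B = 2^{s²}`; `|v n| ≤ B` only for `n < (z+1)^s`: use `v n = U^{j-1} n` for `n ≤ x`, `0` otherwise, or note that
the blocks only contain such `n`... simplest: replace `v` by its restriction to `n ≤ x`, which does not change the sum over `e ≤ x`; the block hypothesis of `grid` is
needed for the restricted function too and follows from `maj_block`).  The condition `4 q √z ≤ κ z` holds for large `x`.  Result: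
`≤ 2 E h log x + T (5 κ x + 2) ≤ 8 s² C_b 2^{s²} η h/log x + 5·2^{s²} h (log x)^{-3} + 2·2^{s²}`, using `x ≤ h (log x)^{C₁}`.
`pp_err`: the prime powers and the primes `≤ z` contribute at most `z + 4 √x log x`.  The sum over the at most `s` values of `j` is `≤ ε h/log x` for large `x`
(`h ≥ x/(log x)^{C₁}`, so `√x (log x)^{C₁+2} = o(h)`).
-/

set_option autoImplicit false

namespace Pool.Agent.RHN

open Finset Filter

/-- the numerical part -/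
private lemma maj_num {C₁ b s : ℕ} {ε Ca Cb T η L x h q z κ lz W : ℝ} (hε : 0 < ε) (hCa1 : 1 ≤ Ca)
    (hCb1 : 1 ≤ Cb) (hT1 : 1 ≤ T) (hs1 : (1 : ℝ) ≤ s) (hη0 : 0 < η)
    (hηe : 64 * (s : ℝ) ^ 3 * Cb * T * η = ε) (hηs : (s : ℝ) * η ≤ ε / 16)
    (hb : (s : ℝ) * (Ca * (1 / 2) ^ b) ≤ ε / 16) (hL1 : 1 ≤ L) (hLT : 40 * s * T / ε ≤ L)
    (hx1 : 1 ≤ x) (hh0 : 0 ≤ h) (hz0 : 0 ≤ z) (hlz0 : 0 < lz)
    (hzl : L ≤ 2 * s * lz) (hq0 : 0 ≤ q) (hq : q ≤ L ^ C₁) (hxh : x ≤ h * L ^ C₁)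
    (hκ : κ = 1 / L ^ (C₁ + 3)) (hzx : z ^ (4 * b + 8) ≤ Real.sqrt x) (hzx' : z ≤ Real.sqrt x)
    (hxC : L ^ (2 * C₁ + 2) ≤ (ε / 4) / (8 + 2 * s * T) * Real.sqrt x) (hW : W = h / L) :
    (h / lz * (η + Ca * (1 / 2) ^ b) + q * z ^ (4 * b + 8) + 1) +
      s * (2 * (Cb * T * η / lz ^ 2) * h * L + T * (5 * κ * x + 2)) + (z + 4 * Real.sqrt x * L) ≤
      ε * W := by
  have hs0 : (0 : ℝ) < s := by linarith
  have hL0 : 0 < L := by linarith
  have hW0 : 0 ≤ W := by rw [hW]; positivity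
  have hWL : W * L = h := by rw [hW]; field_simp
  have hκ0 : 0 < κ := by rw [hκ]; positivity
  have hsxx : Real.sqrt x * Real.sqrt x = x := Real.mul_self_sqrt (by linarith)
  have hsx1 : 1 ≤ Real.sqrt x := by
    rw [show (1 : ℝ) = Real.sqrt 1 by rw [Real.sqrt_one]]
    exact Real.sqrt_le_sqrt hx1
  have hlz : L / (2 * s) ≤ lz := by
    rw [div_le_iff₀ (by positivity)]
    linarith
  have hhz : h / lz ≤ 2 * s * W := by
    rw [div_le_iff₀ hlz0]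
    have h1 : 2 * (s : ℝ) * W * (L / (2 * s)) ≤ 2 * s * W * lz :=
      mul_le_mul_of_nonneg_left hlz (by positivity)
    have h2 : 2 * (s : ℝ) * W * (L / (2 * s)) = W * L := by field_simp
    rw [h2, hWL] at h1
    exact h1
  have t1 : h / lz * (η + Ca * (1 / 2) ^ b) ≤ ε / 4 * W := by
    have h1 : h / lz * (η + Ca * (1 / 2) ^ b) ≤ 2 * s * W * (η + Ca * (1 / 2) ^ b) :=
      mul_le_mul_of_nonneg_right hhz (by positivity)
    have h2 : 2 * s * W * (η + Ca * (1 / 2) ^ b) = 2 * (s * η + s * (Ca * (1 / 2) ^ b)) * W := by ring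
    have h4 : 2 * (s * η + s * (Ca * (1 / 2) ^ b)) ≤ ε / 4 := by linarith
    rw [h2] at h1
    exact h1.trans (mul_le_mul_of_nonneg_right h4 hW0)
  have t2 : s * (2 * (Cb * T * η / lz ^ 2) * h * L) ≤ ε / 8 * W := by
    have h1 : 1 / lz ^ 2 ≤ 4 * (s : ℝ) ^ 2 / L ^ 2 := by
      rw [div_le_div_iff₀ (by positivity) (by positivity)]
      have h2 : L ^ 2 ≤ (2 * s * lz) ^ 2 := pow_le_pow_left₀ hL0.le hzl 2
      linarith [show (2 * (s : ℝ) * lz) ^ 2 = 4 * (s : ℝ) ^ 2 * lz ^ 2 by ring]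
    have h3 : Cb * T * η / lz ^ 2 ≤ Cb * T * η * (4 * (s : ℝ) ^ 2 / L ^ 2) := by
      rw [div_eq_mul_one_div]
      exact mul_le_mul_of_nonneg_left h1 (by positivity)
    have h4 : s * (2 * (Cb * T * η / lz ^ 2) * h * L) ≤
        s * (2 * (Cb * T * η * (4 * (s : ℝ) ^ 2 / L ^ 2)) * h * L) := by
      gcongr
    have h5 : s * (2 * (Cb * T * η * (4 * (s : ℝ) ^ 2 / L ^ 2)) * h * L) = ε / 8 * W := by
      rw [← hηe, hW]
      field_simp
      ring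
    rw [h5] at h4
    exact h4
  have t3 : s * (T * (5 * κ * x)) ≤ ε / 8 * W := by
    have h1 : κ * x ≤ W / L ^ 2 := by
      have h2 : κ * x ≤ κ * (h * L ^ C₁) := mul_le_mul_of_nonneg_left hxh hκ0.le
      have h3 : κ * (h * L ^ C₁) = W / L ^ 2 := by
        rw [hκ, ← hWL, pow_add]
        field_simp
      rwa [h3] at h2
    have h4 : s * (T * (5 * κ * x)) ≤ 5 * s * T * (W / L ^ 2) := by
      have h5 : s * (T * (5 * κ * x)) = 5 * s * T * (κ * x) := by ring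
      rw [h5]
      exact mul_le_mul_of_nonneg_left h1 (by positivity)
    have h6 : 40 * s * T / ε ≤ L ^ 2 := hLT.trans (le_self_pow₀ hL1 (by norm_num))
    rw [div_le_iff₀ hε] at h6
    have h7 : 5 * s * T * (W / L ^ 2) ≤ ε / 8 * W := by
      rw [mul_div_assoc', div_le_iff₀ (by positivity)]
      have h8 := mul_le_mul_of_nonneg_right h6 hW0
      linarith
    exact h4.trans h7
  have t4 : (q * z ^ (4 * b + 8) + 1) + s * (T * 2) + (z + 4 * Real.sqrt x * L) ≤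
      ε / 4 * W := by
    have h1 : q * z ^ (4 * b + 8) ≤ L ^ C₁ * Real.sqrt x := by gcongr
    have h3 : L ^ (C₁ + 1) = L ^ C₁ * L := pow_succ _ _
    have h4 : L ≤ L ^ (C₁ + 1) := le_self_pow₀ hL1 (by omega)
    have h5 : L ^ C₁ ≤ L ^ (C₁ + 1) := pow_le_pow_right₀ hL1 (Nat.le_succ _)
    have h6 : (1 : ℝ) ≤ L ^ (C₁ + 1) := one_le_pow₀ hL1
    obtain ⟨P, hP⟩ : ∃ P : ℝ, P = L ^ (C₁ + 1) * Real.sqrt x := ⟨_, rfl⟩
    have p1 : L ^ C₁ * Real.sqrt x ≤ P := by rw [hP]; gcongr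
    have p3 : Real.sqrt x ≤ P := by
      rw [hP]
      exact le_mul_of_one_le_left (by linarith) h6
    have p2 : (1 : ℝ) ≤ P := hsx1.trans p3
    have p4 : Real.sqrt x * L ≤ P := by rw [hP, mul_comm]; gcongr
    have p5 : (q * z ^ (4 * b + 8) + 1) + s * (T * 2) + (z + 4 * Real.sqrt x * L) ≤
        (8 + 2 * s * T) * P := by
      have p6 : s * (T * 2) ≤ 2 * s * T * P := by
        have p7 : (0 : ℝ) ≤ 2 * s * T := by positivity
        have p8 := mul_le_mul_of_nonneg_left p2 p7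
        linarith
      linarith
    refine p5.trans ?_
    have h7 : (8 + 2 * s * T) * L ^ (2 * C₁ + 2) ≤ ε / 4 * Real.sqrt x := by
      have h8 := mul_le_mul_of_nonneg_left hxC (show 0 ≤ 8 + 2 * (s : ℝ) * T by positivity)
      have h9 : (8 + 2 * (s : ℝ) * T) * (ε / 4 / (8 + 2 * s * T) * Real.sqrt x) = ε / 4 * Real.sqrt x := by
        have : (8 + 2 * (s : ℝ) * T) ≠ 0 := by positivity
        field_simp
      rwa [h9] at h8
    have h8 : (8 + 2 * s * T) * P * L ^ (C₁ + 1) ≤ ε / 4 * x := by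
      calc (8 + 2 * s * T) * P * L ^ (C₁ + 1)
          = (8 + 2 * s * T) * L ^ (2 * C₁ + 2) * Real.sqrt x := by
            rw [hP, show 2 * C₁ + 2 = (C₁ + 1) + (C₁ + 1) by ring, pow_add L (C₁ + 1) (C₁ + 1)]
            ring
        _ ≤ ε / 4 * Real.sqrt x * Real.sqrt x := mul_le_mul_of_nonneg_right h7 (by positivity)
        _ = ε / 4 * x := by rw [mul_assoc, hsxx]
    have h9 : ε / 4 * x ≤ ε / 4 * W * L ^ (C₁ + 1) := by
      have h10 : x ≤ W * L ^ (C₁ + 1) := by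
        rw [h3]
        calc x ≤ h * L ^ C₁ := hxh
          _ = W * (L ^ C₁ * L) := by rw [← hWL]; ring
      have h12 := mul_le_mul_of_nonneg_left h10 (show 0 ≤ ε / 4 by positivity)
      linarith
    have h11 : 0 < L ^ (C₁ + 1) := by positivity
    exact le_of_mul_le_mul_right (h8.trans h9) h11
  have t5 : (h / lz * (η + Ca * (1 / 2) ^ b) + q * z ^ (4 * b + 8) + 1) +
      s * (2 * (Cb * T * η / lz ^ 2) * h * L + T * (5 * κ * x + 2)) + (z + 4 * Real.sqrt x * L) =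
      h / lz * (η + Ca * (1 / 2) ^ b) + s * (2 * (Cb * T * η / lz ^ 2) * h * L) +
      s * (T * (5 * κ * x)) +
      ((q * z ^ (4 * b + 8) + 1) + s * (T * 2) + (z + 4 * Real.sqrt x * L)) := by
    ring
  rw [t5]
  have : 0 ≤ ε * W := by positivity
  linarith

theorem maj (C₁ : ℕ) (ε : ℝ) (hε : 0 < ε) : ∃ η : ℝ, 0 < η ∧ ∃ x₀ : ℕ, ∀ x : ℕ, x₀ ≤ x →
    ∀ (q : ℕ) [NeZero q], (q : ℝ) ≤ Real.log x ^ C₁ → ∀ y h : ℕ, y + h ≤ x →
    (x : ℝ) ≤ h * Real.log x ^ C₁ → ∀ F : ZMod q → ℂ, (∀ a, ‖F a‖ ≤ 1) → Bil q F η →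
    ‖∑ p ∈ (Ioc y (y + h)).filter Nat.Prime, F (p : ZMod q)‖ ≤ ε * h / Real.log x := by
  obtain ⟨Ca, hCa1, hone⟩ := maj_one
  obtain ⟨Cb, hCb1, hblock⟩ := maj_block
  obtain ⟨b, hb1, hb⟩ := mm_b Ca (c := ε / 16) (by positivity)
  obtain ⟨s, hs⟩ : ∃ s : ℕ, s = 8 * b + 16 := ⟨_, rfl⟩
  obtain ⟨J, hJs⟩ : ∃ J : ℕ, s = J + 1 := ⟨s - 1, by omega⟩
  obtain ⟨T, hT⟩ : ∃ T : ℝ, T = (2 : ℝ) ^ (J * J) := ⟨_, rfl⟩
  have hT1 : 1 ≤ T := by rw [hT]; exact one_le_pow₀ (by norm_num)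
  have hs1 : (1 : ℝ) ≤ s := by
    have : 1 ≤ s := by omega
    exact_mod_cast this
  have hs0 : (0 : ℝ) < s := by linarith
  obtain ⟨η, hη⟩ : ∃ η : ℝ, η = ε / (64 * (s : ℝ) ^ 3 * Cb * T) := ⟨_, rfl⟩
  have hη0 : 0 < η := by rw [hη]; positivity
  have hηe : 64 * (s : ℝ) ^ 3 * Cb * T * η = ε := by
    rw [hη]
    have : (64 * (s : ℝ) ^ 3 * Cb * T) ≠ 0 := by positivity
    field_simp
  have hηs : (s : ℝ) * η ≤ ε / 16 := by
    have h1 : (s : ℝ) ≤ (s : ℝ) ^ 3 := le_self_pow₀ hs1 (by norm_num)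
    have h2 : (s : ℝ) * 1 * 1 ≤ (s : ℝ) ^ 3 * Cb * T := by gcongr
    have h3 : (s : ℝ) * 1 * 1 * η ≤ (s : ℝ) ^ 3 * Cb * T * η := mul_le_mul_of_nonneg_right h2 hη0.le
    nlinarith
  obtain ⟨zf, hz1, hz2, hz3, hz4⟩ := mm_z s (by omega)
  refine ⟨η, hη0, ?_⟩
  have hc : 0 < (ε / 4) / (8 + 2 * s * T) := by positivity
  have hev := (((((mm_log 4).and (mm_log (40 * s * T / ε))).and (hz2.eventually_ge_atTop 2)).and
    (hz4 (2 * C₁ + 3) (1 / 4) (by norm_num))).and (mm_sqrt (2 * C₁ + 2) hc)).and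
    (eventually_ge_atTop 2)
  obtain ⟨x₀, hx₀⟩ := hev.exists_forall_of_atTop
  refine ⟨x₀, fun x hx q _ hq y h hyh hxh F hF hBil => ?_⟩
  obtain ⟨⟨⟨⟨⟨hL4, hLT⟩, hz2'⟩, hzC⟩, hxC⟩, hx2⟩ := hx₀ x hx
  obtain ⟨z, hz⟩ : ∃ z : ℕ, z = zf x := ⟨_, rfl⟩
  have hza := hz1 x
  have hzl := hz3 x (by omega) hz2'
  rw [← hz] at hza hzl hz2' hzC
  obtain ⟨hza1, hza2⟩ := hza
  obtain ⟨L, hL⟩ : ∃ L : ℝ, L = Real.log x := ⟨_, rfl⟩
  rw [← hL] at hL4 hLT hzC hxC hzl hq hxh ⊢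
  have hL1 : 1 ≤ L := by linarith
  have hL0 : 0 < L := by linarith
  have hzR : (2 : ℝ) ≤ z := by exact_mod_cast hz2'
  have hlz0 : 0 < Real.log (z : ℝ) := Real.log_pos (by linarith)
  have hsz1 : 1 ≤ Real.sqrt (z : ℝ) := by
    rw [show (1 : ℝ) = Real.sqrt 1 by rw [Real.sqrt_one]]
    exact Real.sqrt_le_sqrt (by linarith)
  have hszz : Real.sqrt (z : ℝ) * Real.sqrt (z : ℝ) = z := Real.mul_self_sqrt (by linarith)
  have hszle : Real.sqrt (z : ℝ) ≤ z := by nlinarith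
  -- q ≤ z
  have hLC : L ^ C₁ ≤ L ^ (2 * C₁ + 3) := pow_le_pow_right₀ hL1 (by omega)
  have hqz : q ≤ z := by
    have : (q : ℝ) ≤ z := by linarith
    exact_mod_cast this
  -- κ
  obtain ⟨κ, hκ⟩ : ∃ κ : ℝ, κ = 1 / L ^ (C₁ + 3) := ⟨_, rfl⟩
  have hκ0 : 0 < κ := by rw [hκ]; positivity
  have hLC3 : L ≤ L ^ (C₁ + 3) := le_self_pow₀ hL1 (by omega)
  have hκ4 : κ ≤ 1 / 4 := by
    rw [hκ]
    exact one_div_le_one_div_of_le (by norm_num) (by linarith)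
  have hκ1 : κ ≤ 1 := by linarith
  have hκz : 4 * (q : ℝ) * Real.sqrt z ≤ κ * z := by
    have h1 : 4 * (q : ℝ) * L ^ (C₁ + 3) ≤ Real.sqrt z := by
      have h2 : (q : ℝ) * L ^ (C₁ + 3) ≤ L ^ C₁ * L ^ (C₁ + 3) :=
        mul_le_mul_of_nonneg_right hq (by positivity)
      rw [← pow_add, show C₁ + (C₁ + 3) = 2 * C₁ + 3 by ring] at h2
      linarith
    rw [hκ, div_mul_eq_mul_div, one_mul, le_div_iff₀ (by positivity)]
    calc 4 * (q : ℝ) * Real.sqrt z * L ^ (C₁ + 3) = 4 * (q : ℝ) * L ^ (C₁ + 3) * Real.sqrt z := by ring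
      _ ≤ Real.sqrt z * Real.sqrt z := mul_le_mul_of_nonneg_right h1 (by positivity)
      _ = z := hszz
  -- z ^ (4b+8) ≤ √x
  have hzx : (z : ℝ) ^ (4 * b + 8) ≤ Real.sqrt x := by
    refine Real.le_sqrt_of_sq_le ?_
    rw [← pow_mul, show (4 * b + 8) * 2 = s by rw [hs]; ring]
    exact_mod_cast hza1
  have hzx' : (z : ℝ) ≤ Real.sqrt x := (le_self_pow₀ (by linarith) (by omega)).trans hzx
  have hX1 : (1 : ℝ) ≤ x := by
    have : 1 ≤ x := by omega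
    exact_mod_cast this
  have hsx1 : 1 ≤ Real.sqrt (x : ℝ) := by linarith
  have hsxx : Real.sqrt (x : ℝ) * Real.sqrt (x : ℝ) = x := Real.mul_self_sqrt (by linarith)
  have hyhR : (y : ℝ) + h ≤ x := by exact_mod_cast hyh
  -- the decomposition
  have hJlt : x < (z + 1) ^ (J + 1) := by rw [← hJs]; exact hza2
  have hdec := mm_dec (fun n => F (n : ZMod q)) (fun n => hF _) hx2 (by omega) hyh hJlt
  -- j = 1
  obtain ⟨A1, hA1⟩ : ∃ A1 : ℝ, A1 = (h : ℝ) / Real.log z * (η + Ca * (1 / 2) ^ b) +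
    (q : ℝ) * (z : ℝ) ^ (4 * b + 8) + 1 := ⟨_, rfl⟩
  have hA1' := hone z b q hz2' hb1 hqz F η hF hη0.le hBil y h
  rw [← hA1] at hA1'
  -- j ≥ 2
  obtain ⟨E, hE⟩ : ∃ E : ℝ, E = Cb * T * η / Real.log z ^ 2 := ⟨_, rfl⟩
  have hE0 : 0 ≤ E := by rw [hE]; positivity
  obtain ⟨A2, hA2⟩ : ∃ A2 : ℝ, A2 = 2 * E * h * L + T * (5 * κ * x + 2) := ⟨_, rfl⟩
  have hA20 : 0 ≤ A2 := by rw [hA2]; positivity
  have hA2' : ∀ j, 2 ≤ j → j ≤ J →
      ‖∑ n ∈ Ioc y (y + h), (((UU z ^ j) n : ℝ) : ℂ) * F (n : ZMod q)‖ ≤ A2 := by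
    intro j hj2 hjJ
    have h1 := mm_grid hz2' hκ0 hκ4 hE0 hJlt hj2 hjJ hyh (fun n => F (n : ZMod q)) (fun n => hF _) ?_
    · refine h1.trans ?_
      rw [hA2, ← hT]
      have h2 : (0 : ℝ) ≤ y := Nat.cast_nonneg y
      have h3 : (0 : ℝ) ≤ h := Nat.cast_nonneg h
      have h4 : Real.log ((y : ℝ) + h) ≤ L := by
        rw [hL]
        rcases (add_nonneg h2 h3).lt_or_eq with h5 | h5
        · exact Real.log_le_log h5 hyhR
        · rw [← h5, Real.log_zero, ← hL]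
          exact hL0.le
      gcongr
    · intro s' t' hs' ht' _ _
      have h2 := hblock z q κ hz2' hqz hκ0 hκ1 hκz F η hη0.le hBil (UU z) (Vj z j x) 1 T zero_le_one
        (by linarith) (UU_abs z) (by rw [hT]; exact fun n => Vj_abs hJlt hjJ n)
        (fun n hn => (UU_supp hn).2) (fun n hn => (Vj_supp hj2 hn).2) s' t' hs' ht'
      refine h2.trans (le_of_eq ?_)
      rw [hE]
      ring
  have hA10 : 0 ≤ A1 := (norm_nonneg _).trans hA1'
  have hsum : ∑ j ∈ Icc 1 J, ‖∑ n ∈ Ioc y (y + h), (((UU z ^ j) n : ℝ) : ℂ) * F (n : ZMod q)‖ ≤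
      A1 + s * A2 := by
    have h1 : ∀ j ∈ Icc 1 J, ‖∑ n ∈ Ioc y (y + h), (((UU z ^ j) n : ℝ) : ℂ) * F (n : ZMod q)‖ ≤
        (if j = 1 then A1 else 0) + A2 := by
      intro j hj
      obtain ⟨hj1, hjJ⟩ := mem_Icc.mp hj
      rcases Nat.eq_or_lt_of_le hj1 with h2 | h2
      · subst h2
        rw [if_pos rfl, pow_one]
        linarith
      · rw [if_neg (by omega), zero_add]
        exact hA2' j h2 hjJ
    refine (Finset.sum_le_sum h1).trans ?_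
    rw [Finset.sum_add_distrib, Finset.sum_const, Nat.card_Icc, Finset.sum_ite_eq' (Icc 1 J) 1 fun _ => A1]
    have h2 : (if (1 : ℕ) ∈ Icc 1 J then A1 else 0) ≤ A1 := by
      split_ifs
      · exact le_rfl
      · exact hA10
    have h3 : (J + 1 - 1) • A2 ≤ s * A2 := by
      rw [nsmul_eq_mul]
      refine mul_le_mul_of_nonneg_right ?_ hA20
      have : J + 1 - 1 ≤ s := by omega
      exact_mod_cast this
    exact add_le_add h2 h3
  have hfin : ‖∑ p ∈ (Ioc y (y + h)).filter Nat.Prime, F (p : ZMod q)‖ ≤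
      A1 + s * A2 + (z + 4 * Real.sqrt x * L) := by
    rw [hL]
    exact hdec.trans (by gcongr)
  refine hfin.trans ?_
  have hgoal : ε * (h : ℝ) / L = ε * ((h : ℝ) / L) := by ring
  rw [hgoal, hA1, hA2, hE]
  exact maj_num hε hCa1 hCb1 hT1 hs1 hη0 hηe hηs (by rw [hs]; exact hb) hL1 hLT hX1
    (Nat.cast_nonneg h) (by linarith) hlz0 hzl (Nat.cast_nonneg q) hq hxh hκ hzx hzx' hxC rfl

end Pool.Agent.RHN
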