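import Pool.Agent.RHN.SUb

/-!
# RHN / MajB: one block on the major arcs

PROOF.  All prime divisors of `q` are `≤ q ≤ z`, so a rough number is coprime to `q` and its class is a unit.  Let `G₁(b) = ∑_{m ∈ I, m ≡ b} u m` and
`G₂(b) = ∑_{n ∈ I', n ≡ b} v n` for units `b`; the sum is `∑_{b₁,b₂} G₁(b₁) G₂(b₂) F(b₁b₂)`.  `I = (⌊s⌋, ⌊s⌋ + h]` with
`κ s - 1 ≤ h ≤ κ s + 1`; `κ s ≥ κ z ≥ 4 q √z ≥ 4`, so `q √z ≤ h ≤ (5/4) κ s`.  `rough_ub` (constant `C₀`): `|G₁(b)| ≤ A C₀ (5/4) κ s/(φ(q) log z) =: X₁`, and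
`|G₂(b)| ≤ B C₀ (5/4) κ t/(φ(q) log z) =: X₂`.  `Bil` for `G₁/X₁`, `G₂/X₂` (if `X₁ X₂ = 0` the sum is `0`): at most
`X₁ X₂ η φ(q)² = (25/16) C₀² A B η (κ s)(κ t)/(log z)²`.
-/

set_option autoImplicit false

namespace Pool.Agent.RHN

open Finset

private theorem mb_coprime {z q n : ℕ} (hq : 1 ≤ q) (hqz : q ≤ z) (hn : Rough z n) :
    Nat.Coprime n q := by
  by_contra h
  obtain ⟨p, hp, h1, h2⟩ := Nat.Prime.not_coprime_iff_dvd.1 h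
  exact hn.2 p hp ((Nat.le_of_dvd hq h2).trans hqz) h1

/-- sorting by residue classes -/
private theorem mb_sort {z q : ℕ} [NeZero q] (hqz : q ≤ z) (I : Finset ℕ) (w : ℕ → ℝ)
    (hw : ∀ n, w n ≠ 0 → Rough z n) (f : ZMod q → ℂ) :
    ∑ m ∈ I, (w m : ℂ) * f (m : ZMod q) =
      ∑ b : (ZMod q)ˣ, (∑ m ∈ I, if (m : ZMod q) = b then (w m : ℂ) else 0) * f b := by
  classical
  have h1 : ∀ b : (ZMod q)ˣ, (∑ m ∈ I, if (m : ZMod q) = b then (w m : ℂ) else 0) * f b =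
      ∑ m ∈ I, if (m : ZMod q) = b then (w m : ℂ) * f (m : ZMod q) else 0 := by
    intro b
    rw [sum_mul]
    refine sum_congr rfl fun m _ => ?_
    split_ifs with h
    · rw [h]
    · rw [zero_mul]
  rw [sum_congr rfl fun b _ => h1 b, sum_comm]
  refine sum_congr rfl fun m _ => ?_
  by_cases h0 : w m = 0
  · rw [h0]
    simp
  · have hq1 : 1 ≤ q := Nat.one_le_iff_ne_zero.2 (NeZero.ne q)
    have hc := mb_coprime hq1 hqz (hw m h0)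
    have h2 : ∀ b : (ZMod q)ˣ, ((m : ZMod q) = b ↔ ZMod.unitOfCoprime m hc = b) := by
      intro b
      rw [Units.ext_iff, ZMod.coe_unitOfCoprime]
    simp only [h2]
    rw [sum_ite_eq]
    simp

private theorem mb_len {s κ q : ℝ} {z : ℕ} (hz : 2 ≤ z) (hq : 1 ≤ q) (hκ : 0 < κ)
    (hκz : 4 * q * Real.sqrt z ≤ κ * z) (hs : (z : ℝ) ≤ s) :
    ∃ h : ℕ, ⌊(1 + κ) * s⌋₊ = ⌊s⌋₊ + h ∧ q * Real.sqrt z ≤ h ∧ (h : ℝ) ≤ 5 / 4 * (κ * s) := by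
  have hzR : (2 : ℝ) ≤ z := by exact_mod_cast hz
  have hs0 : 0 ≤ s := by linarith
  have hsz : (1 : ℝ) ≤ Real.sqrt z := by
    rw [Real.one_le_sqrt]
    linarith
  have h4 : 4 ≤ 4 * (q * Real.sqrt z) := by
    have : 1 * 1 ≤ q * Real.sqrt z := mul_le_mul hq hsz (by norm_num) (by linarith)
    linarith
  have hκs : κ * z ≤ κ * s := mul_le_mul_of_nonneg_left hs hκ.le
  have hle : ⌊s⌋₊ ≤ ⌊(1 + κ) * s⌋₊ := Nat.floor_le_floor (by nlinarith)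
  refine ⟨⌊(1 + κ) * s⌋₊ - ⌊s⌋₊, by omega, ?_, ?_⟩
  · rw [Nat.cast_sub hle]
    have h1 := Nat.lt_floor_add_one ((1 + κ) * s)
    have h2 := Nat.floor_le hs0
    nlinarith
  · rw [Nat.cast_sub hle]
    have h1 := Nat.lt_floor_add_one s
    have h2 := Nat.floor_le (by positivity : 0 ≤ (1 + κ) * s)
    nlinarith

private theorem mb_G {C₀ : ℝ} (hC₀ : 1 ≤ C₀) {z q : ℕ} [NeZero q]
    (hub : ∀ N h c : ℕ, Nat.Coprime c q → (q : ℝ) * Real.sqrt z ≤ h →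
      ∀ T : Finset ℕ, T ⊆ Ioc N (N + h) → (∀ n ∈ T, Rough z n ∧ n ≡ c [MOD q]) →
        (T.card : ℝ) ≤ C₀ * h / ((q.totient : ℝ) * Real.log z))
    {κ : ℝ} (hz : 2 ≤ z) (hκ : 0 < κ) (hκz : 4 * (q : ℝ) * Real.sqrt z ≤ κ * z)
    {u : ℕ → ℝ} {A : ℝ} (hA : 0 ≤ A) (hu : ∀ n, |u n| ≤ A) (hur : ∀ n, u n ≠ 0 → Rough z n)
    {s : ℝ} (hs : (z : ℝ) ≤ s) (b : (ZMod q)ˣ) :
    ‖∑ m ∈ Ioc ⌊s⌋₊ ⌊(1 + κ) * s⌋₊, if (m : ZMod q) = b then (u m : ℂ) else 0‖ ≤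
      A * (C₀ * (5 / 4 * (κ * s)) / ((q.totient : ℝ) * Real.log z)) := by
  classical
  have hq1 : 1 ≤ q := Nat.one_le_iff_ne_zero.2 (NeZero.ne q)
  have hqR : (1 : ℝ) ≤ q := by exact_mod_cast hq1
  obtain ⟨h, h1, h2, h3⟩ := mb_len hz hqR hκ hκz hs
  obtain ⟨T, hT⟩ : ∃ T : Finset ℕ, T = (Ioc ⌊s⌋₊ ⌊(1 + κ) * s⌋₊).filter
    (fun m : ℕ => (m : ZMod q) = (b : ZMod q) ∧ u m ≠ 0) := ⟨_, rfl⟩
  have hsum : ∑ m ∈ Ioc ⌊s⌋₊ ⌊(1 + κ) * s⌋₊, (if (m : ZMod q) = b then (u m : ℂ) else 0) =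
      ∑ m ∈ T, (u m : ℂ) := by
    rw [hT, sum_filter]
    refine sum_congr rfl fun m _ => ?_
    by_cases h5 : (m : ZMod q) = b
    · by_cases h6 : u m = 0
      · simp [h6]
      · simp [h5, h6]
    · simp [h5]
  have hcard := hub ⌊s⌋₊ h (b : ZMod q).val (ZMod.val_coe_unit_coprime b) h2 T (by
    rw [hT, ← h1]
    exact filter_subset _ _) (by
    intro n hn
    rw [hT] at hn
    obtain ⟨_, h5, h6⟩ := mem_filter.1 hn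
    refine ⟨hur n h6, ?_⟩
    rw [← ZMod.natCast_eq_natCast_iff, h5, ZMod.natCast_zmod_val])
  rw [hsum]
  have hlog : 0 < Real.log z := Real.log_pos (by
    have : (2 : ℝ) ≤ z := by exact_mod_cast hz
    linarith)
  have htot : (0 : ℝ) < (q.totient : ℝ) := by exact_mod_cast Nat.totient_pos.2 (by omega)
  calc ‖∑ m ∈ T, (u m : ℂ)‖ ≤ ∑ m ∈ T, ‖(u m : ℂ)‖ := norm_sum_le _ _
    _ ≤ ∑ _m ∈ T, A := sum_le_sum fun m _ => by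
        rw [Complex.norm_real, Real.norm_eq_abs]
        exact hu m
    _ = T.card * A := by rw [sum_const, nsmul_eq_mul]
    _ ≤ C₀ * h / ((q.totient : ℝ) * Real.log z) * A := mul_le_mul_of_nonneg_right hcard hA
    _ ≤ C₀ * (5 / 4 * (κ * s)) / ((q.totient : ℝ) * Real.log z) * A := by
        refine mul_le_mul_of_nonneg_right ?_ hA
        refine div_le_div_of_nonneg_right ?_ (by positivity)
        exact mul_le_mul_of_nonneg_left h3 (by linarith)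
    _ = _ := mul_comm _ _

theorem maj_block : ∃ C : ℝ, 1 ≤ C ∧ ∀ (z q : ℕ) [NeZero q] (κ : ℝ), 2 ≤ z → q ≤ z → 0 < κ → κ ≤ 1 →
    4 * (q : ℝ) * Real.sqrt z ≤ κ * z → ∀ (F : ZMod q → ℂ) (η : ℝ), 0 ≤ η → Bil q F η →
    ∀ (u v : ℕ → ℝ) (A B : ℝ), 0 ≤ A → 0 ≤ B → (∀ n, |u n| ≤ A) → (∀ n, |v n| ≤ B) →
    (∀ n, u n ≠ 0 → Rough z n) → (∀ n, v n ≠ 0 → Rough z n) → ∀ s t : ℝ, (z : ℝ) ≤ s → (z : ℝ) ≤ t →
    ‖∑ m ∈ Ioc ⌊s⌋₊ ⌊(1 + κ) * s⌋₊, ∑ n ∈ Ioc ⌊t⌋₊ ⌊(1 + κ) * t⌋₊,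
      ((u m * v n : ℝ) : ℂ) * F ((m * n : ℕ) : ZMod q)‖ ≤
      C * A * B * η * (κ * s) * (κ * t) / (Real.log z) ^ 2 := by
  obtain ⟨C₀, hC₀1, hC₀⟩ := rough_ub
  refine ⟨25 / 16 * C₀ ^ 2, by nlinarith, ?_⟩
  intro z q _ κ hz hqz hκ hκ1 hκz F η hη hBil u v A B hA hB hu hv hur hvr s t hs ht
  classical
  have hq1 : 1 ≤ q := Nat.one_le_iff_ne_zero.2 (NeZero.ne q)
  have hub : ∀ N h c : ℕ, Nat.Coprime c q → (q : ℝ) * Real.sqrt z ≤ h →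
      ∀ T : Finset ℕ, T ⊆ Ioc N (N + h) → (∀ n ∈ T, Rough z n ∧ n ≡ c [MOD q]) →
        (T.card : ℝ) ≤ C₀ * h / ((q.totient : ℝ) * Real.log z) := by
    intro N h c hc hh T hT hTr
    refine le_trans ?_ (hC₀ z q N h c hz hq1 hc hh)
    have h1 : T ⊆ (Ioc N (N + h)).filter (fun n => Rough z n ∧ n ≡ c [MOD q]) := fun n hn =>
      mem_filter.2 ⟨hT hn, hTr n hn⟩
    exact_mod_cast card_le_card h1
  obtain ⟨G₁, hG₁⟩ : ∃ G₁ : (ZMod q)ˣ → ℂ, G₁ = fun b : (ZMod q)ˣ =>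
    ∑ m ∈ Ioc ⌊s⌋₊ ⌊(1 + κ) * s⌋₊, if (m : ZMod q) = (b : ZMod q) then (u m : ℂ) else 0 := ⟨_, rfl⟩
  obtain ⟨G₂, hG₂⟩ : ∃ G₂ : (ZMod q)ˣ → ℂ, G₂ = fun b : (ZMod q)ˣ =>
    ∑ m ∈ Ioc ⌊t⌋₊ ⌊(1 + κ) * t⌋₊, if (m : ZMod q) = (b : ZMod q) then (v m : ℂ) else 0 := ⟨_, rfl⟩
  obtain ⟨X₁, hX₁⟩ : ∃ X₁ : ℝ, X₁ = A * (C₀ * (5 / 4 * (κ * s)) / ((q.totient : ℝ) * Real.log z)) :=
    ⟨_, rfl⟩
  obtain ⟨X₂, hX₂⟩ : ∃ X₂ : ℝ, X₂ = B * (C₀ * (5 / 4 * (κ * t)) / ((q.totient : ℝ) * Real.log z)) :=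
    ⟨_, rfl⟩
  have hb₁ : ∀ b, ‖G₁ b‖ ≤ X₁ := fun b => by
    rw [hG₁, hX₁]
    exact mb_G hC₀1 hub hz hκ hκz hA hu hur hs b
  have hb₂ : ∀ b, ‖G₂ b‖ ≤ X₂ := fun b => by
    rw [hG₂, hX₂]
    exact mb_G hC₀1 hub hz hκ hκz hB hv hvr ht b
  have hzR : (2 : ℝ) ≤ z := by exact_mod_cast hz
  have hlog : 0 < Real.log z := Real.log_pos (by linarith)
  have htot : (0 : ℝ) < (q.totient : ℝ) := by exact_mod_cast Nat.totient_pos.2 (by omega)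
  have hs0 : 0 ≤ s := by linarith
  have ht0 : 0 ≤ t := by linarith
  have hX₁0 : 0 ≤ X₁ := by
    rw [hX₁]
    positivity
  have hX₂0 : 0 ≤ X₂ := by
    rw [hX₂]
    positivity
  -- the double sum
  have hsum : ∑ m ∈ Ioc ⌊s⌋₊ ⌊(1 + κ) * s⌋₊, ∑ n ∈ Ioc ⌊t⌋₊ ⌊(1 + κ) * t⌋₊,
      ((u m * v n : ℝ) : ℂ) * F ((m * n : ℕ) : ZMod q) =
      ∑ b₁ : (ZMod q)ˣ, ∑ b₂ : (ZMod q)ˣ, G₁ b₁ * G₂ b₂ * F ((b₁ * b₂ : (ZMod q)ˣ) : ZMod q) := by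
    have e1 : ∀ x : ZMod q, ∑ n ∈ Ioc ⌊t⌋₊ ⌊(1 + κ) * t⌋₊, (v n : ℂ) * F (x * (n : ZMod q)) =
        ∑ b₂ : (ZMod q)ˣ, G₂ b₂ * F (x * b₂) := by
      intro x
      rw [hG₂]
      exact mb_sort hqz _ v hvr (fun y => F (x * y))
    have e2 := mb_sort hqz (Ioc ⌊s⌋₊ ⌊(1 + κ) * s⌋₊) u hur
      (fun x => ∑ b₂ : (ZMod q)ˣ, G₂ b₂ * F (x * b₂))
    calc ∑ m ∈ Ioc ⌊s⌋₊ ⌊(1 + κ) * s⌋₊, ∑ n ∈ Ioc ⌊t⌋₊ ⌊(1 + κ) * t⌋₊,
          ((u m * v n : ℝ) : ℂ) * F ((m * n : ℕ) : ZMod q) =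
        ∑ m ∈ Ioc ⌊s⌋₊ ⌊(1 + κ) * s⌋₊, (u m : ℂ) *
          ∑ b₂ : (ZMod q)ˣ, G₂ b₂ * F ((m : ZMod q) * b₂) := by
          refine sum_congr rfl fun m _ => ?_
          rw [← e1, mul_sum]
          refine sum_congr rfl fun n _ => ?_
          push_cast
          ring
      _ = ∑ b₁ : (ZMod q)ˣ, G₁ b₁ * ∑ b₂ : (ZMod q)ˣ, G₂ b₂ * F ((b₁ : ZMod q) * b₂) := by
          rw [hG₁]
          exact e2
      _ = _ := by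
          refine sum_congr rfl fun b₁ _ => ?_
          rw [mul_sum]
          refine sum_congr rfl fun b₂ _ => ?_
          rw [Units.val_mul]
          ring
  have hmain : ‖∑ b₁ : (ZMod q)ˣ, ∑ b₂ : (ZMod q)ˣ,
      G₁ b₁ * G₂ b₂ * F ((b₁ * b₂ : (ZMod q)ˣ) : ZMod q)‖ ≤
      X₁ * X₂ * (η * (q.totient : ℝ) ^ 2) := by
    rcases hX₁0.eq_or_lt with h0 | h0
    · have hz1 : ∀ b, G₁ b = 0 := fun b => by
        have := hb₁ b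
        rw [← h0] at this
        exact norm_le_zero_iff.1 this
      simp only [hz1, zero_mul, sum_const_zero, norm_zero]
      positivity
    rcases hX₂0.eq_or_lt with h0' | h0'
    · have hz2 : ∀ b, G₂ b = 0 := fun b => by
        have := hb₂ b
        rw [← h0'] at this
        exact norm_le_zero_iff.1 this
      simp only [hz2, zero_mul, mul_zero, sum_const_zero, norm_zero]
      positivity
    have h1 := hBil (fun b => G₁ b / X₁) (fun b => G₂ b / X₂) (fun b => by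
        rw [norm_div, Complex.norm_real, Real.norm_eq_abs, abs_of_pos h0, div_le_one h0]
        exact hb₁ b) (fun b => by
        rw [norm_div, Complex.norm_real, Real.norm_eq_abs, abs_of_pos h0', div_le_one h0']
        exact hb₂ b)
    have h2 : ∑ b₁ : (ZMod q)ˣ, ∑ b₂ : (ZMod q)ˣ,
        G₁ b₁ * G₂ b₂ * F ((b₁ * b₂ : (ZMod q)ˣ) : ZMod q) =
        ((X₁ * X₂ : ℝ) : ℂ) * ∑ b₁ : (ZMod q)ˣ, ∑ b₂ : (ZMod q)ˣ,
          G₁ b₁ / X₁ * (G₂ b₂ / X₂) * F ((b₁ * b₂ : (ZMod q)ˣ) : ZMod q) := by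
      have hc1 : (X₁ : ℂ) ≠ 0 := by exact_mod_cast h0.ne'
      have hc2 : (X₂ : ℂ) ≠ 0 := by exact_mod_cast h0'.ne'
      rw [mul_sum]
      refine sum_congr rfl fun b₁ _ => ?_
      rw [mul_sum]
      refine sum_congr rfl fun b₂ _ => ?_
      push_cast
      field_simp
    rw [h2, norm_mul, Complex.norm_real, Real.norm_eq_abs, abs_of_nonneg (mul_nonneg hX₁0 hX₂0)]
    exact mul_le_mul_of_nonneg_left h1 (mul_nonneg hX₁0 hX₂0)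
  rw [hsum]
  refine hmain.trans (le_of_eq ?_)
  rw [hX₁, hX₂]
  field_simp
  ring

end Pool.Agent.RHN
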