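import Pool.Agent.RHN.RecD

/-!
# RHN / TypeII: bilinear sums on the minor arcs

PROOF.  Let `I = (s, (1+κ)s]`, `I' = (t, (1+κ)t]` (natural numbers), `|I| ≤ κ s + 1 ≤ 2 s`, `|I'| ≤ 2 t`.  Cauchy-Schwarz in `m`:
`(δ s t)² ≤ |I| ∑_{m ∈ I} |∑_{n ∈ I'} v_n e(G(mn))|² ≤ 2 s ∑_{n, n' ∈ I'} |T(n, n')|`, `T(n,n') = ∑_{m ∈ I} e(G(mn) - G(mn'))`.  So
`∑_{n,n'} |T| ≥ δ² s t²/2`, `|T| ≤ 2 s`, and there are at most `4t²` pairs: at least `δ² t²/8` pairs have `|T| ≥ δ² s/16`.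
For such a pair apply `weyl` with `M = ⌈2 s⌉₊ ≤ 3 s`, the interval `I` (`≤ M` elements), the polynomial
`G.comp (C n * X) - G.comp (C n' * X)`, whose coefficient of `X^D` is `g_D (n^D - n'^D)`, and `δ₁ = δ²/48`: `k ≤ B := (C₀/δ₁)^{C₀}`,
`nd (k g_D (n^D - n'^D)) ≤ B/M^D ≤ B/s^D`.  Pigeonhole over `k`: one `k` for `≥ δ² t²/(8B)` pairs; then some `n'` is the second
component of `≥ δ² t²/(8B)/(2t) = δ² t/(16 B)` of them: a set `S` of `n ∈ [1, ⌊2t⌋]`, `|S| ≥ δ₂ (2 t)`, `δ₂ = δ²/(32 B)`, with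
`nd (γ n^D - c) ≤ σ`, `γ = k g_D`, `c = k g_D n'^D`, `σ = B/s^D`.  `recD` with `Δ = ⌊2t⌋₊` (`t ≤ Δ ≤ 2t`); the conditions `σ ≤ δ₂/C₁` and
`(C₁/δ₂)^{C₁} ≤ Δ` hold because `s, t ≥ (C/δ)^C` with `C` large.  Result: `k' k`, `nd (k' k g_D) ≤ (C₁/δ₂)^{C₁} B/(s^D Δ^D)`, `Δ ≥ t`.
-/

set_option autoImplicit false

namespace Pool.Agent.RHN

open Finset Polynomial ComplexConjugate

/-- Cauchy-Schwarz -/
private theorem t2_cs (I J : Finset ℕ) (φ : ℕ → ℕ → ℝ) {u v : ℕ → ℝ} (hu : ∀ n, |u n| ≤ 1)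
    (hv : ∀ n, |v n| ≤ 1) :
    ‖∑ m ∈ I, ∑ n ∈ J, ((u m * v n : ℝ) : ℂ) * ee (φ m n)‖ ^ 2 ≤
      I.card * ∑ n ∈ J, ∑ n' ∈ J, ‖∑ m ∈ I, ee (φ m n - φ m n')‖ := by
  obtain ⟨A, hA⟩ : ∃ A : ℕ → ℂ, A = fun m => ∑ n ∈ J, ((v n : ℝ) : ℂ) * ee (φ m n) := ⟨_, rfl⟩
  have h1 : ∑ m ∈ I, ∑ n ∈ J, ((u m * v n : ℝ) : ℂ) * ee (φ m n) =
      ∑ m ∈ I, ((u m : ℝ) : ℂ) * A m := by
    rw [hA]
    refine sum_congr rfl fun m _ => ?_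
    rw [mul_sum]
    refine sum_congr rfl fun n _ => ?_
    push_cast
    ring
  have h2 : ‖∑ m ∈ I, ((u m : ℝ) : ℂ) * A m‖ ≤ ∑ m ∈ I, ‖A m‖ := by
    refine (norm_sum_le _ _).trans (sum_le_sum fun m _ => ?_)
    rw [norm_mul, Complex.norm_real, Real.norm_eq_abs]
    exact mul_le_of_le_one_left (norm_nonneg _) (hu m)
  have h3 : ∀ m, ((‖A m‖ ^ 2 : ℝ) : ℂ) =
      ∑ n ∈ J, ∑ n' ∈ J, ((v n * v n' : ℝ) : ℂ) * ee (φ m n - φ m n') := by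
    intro m
    rw [← Complex.normSq_eq_norm_sq, ← Complex.mul_conj, hA]
    simp only
    rw [map_sum, sum_mul_sum]
    refine sum_congr rfl fun n _ => sum_congr rfl fun n' _ => ?_
    rw [map_mul, Complex.conj_ofReal, conj_ee, sub_eq_add_neg, ee_add]
    push_cast
    ring
  have h4 : ∑ m ∈ I, ‖A m‖ ^ 2 ≤ ∑ n ∈ J, ∑ n' ∈ J, ‖∑ m ∈ I, ee (φ m n - φ m n')‖ := by
    have h5 : ((∑ m ∈ I, ‖A m‖ ^ 2 : ℝ) : ℂ) =
        ∑ n ∈ J, ∑ n' ∈ J, ((v n * v n' : ℝ) : ℂ) * ∑ m ∈ I, ee (φ m n - φ m n') := by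
      rw [Complex.ofReal_sum, sum_congr rfl fun m _ => h3 m, sum_comm]
      refine sum_congr rfl fun n _ => ?_
      rw [sum_comm]
      exact sum_congr rfl fun n' _ => (mul_sum _ _ _).symm
    have h6 : ‖((∑ m ∈ I, ‖A m‖ ^ 2 : ℝ) : ℂ)‖ = ∑ m ∈ I, ‖A m‖ ^ 2 := by
      rw [Complex.norm_real, Real.norm_eq_abs, abs_of_nonneg]
      exact sum_nonneg fun _ _ => by positivity
    rw [← h6, h5]
    refine (norm_sum_le _ _).trans (sum_le_sum fun n _ => ?_)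
    refine (norm_sum_le _ _).trans (sum_le_sum fun n' _ => ?_)
    rw [norm_mul, Complex.norm_real, Real.norm_eq_abs, abs_mul]
    exact mul_le_of_le_one_left (norm_nonneg _) (mul_le_one₀ (hv n) (abs_nonneg _) (hv n'))
  rw [h1]
  calc ‖∑ m ∈ I, ((u m : ℝ) : ℂ) * A m‖ ^ 2 ≤ (∑ m ∈ I, ‖A m‖) ^ 2 :=
        pow_le_pow_left₀ (norm_nonneg _) h2 2
    _ ≤ I.card * ∑ m ∈ I, ‖A m‖ ^ 2 := sq_sum_le_card_mul_sum_sq
    _ ≤ _ := mul_le_mul_of_nonneg_left h4 (Nat.cast_nonneg _)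

/-- the coefficient of the differenced polynomial -/
private theorem t2_pol {G : ℝ[X]} {D : ℕ} (hG : G.natDegree ≤ D) (x y : ℝ) :
    (G.comp (C x * X) - G.comp (C y * X)).natDegree ≤ D ∧
      (G.comp (C x * X) - G.comp (C y * X)).coeff D = G.coeff D * (x ^ D - y ^ D) := by
  constructor
  · have h1 : ∀ z : ℝ, (G.comp (C z * X)).natDegree ≤ D := by
      intro z
      refine natDegree_comp_le.trans ?_
      have h2 : (C z * X).natDegree ≤ 1 := (natDegree_C_mul_le z X).trans natDegree_X_le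
      calc G.natDegree * (C z * X).natDegree ≤ D * 1 := Nat.mul_le_mul hG h2
        _ = D := mul_one D
    exact (natDegree_sub_le _ _).trans (max_le (h1 x) (h1 y))
  · rw [coeff_sub, comp_C_mul_X_coeff, comp_C_mul_X_coeff]
    ring

/-- many pairs with a large sum -/
private theorem t2_many {δ s t : ℝ} (hδ : 0 < δ) (hs : 1 ≤ s) (ht : 1 ≤ t) (I J : Finset ℕ)
    (hI : (I.card : ℝ) ≤ 2 * s) (hJ : (J.card : ℝ) ≤ 2 * t) (φ : ℕ → ℕ → ℝ) {u v : ℕ → ℝ}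
    (hu : ∀ n, |u n| ≤ 1) (hv : ∀ n, |v n| ≤ 1)
    (h : δ * s * t ≤ ‖∑ m ∈ I, ∑ n ∈ J, ((u m * v n : ℝ) : ℂ) * ee (φ m n)‖) :
    δ ^ 2 * t ^ 2 / 8 ≤ (((J ×ˢ J).filter fun p =>
      δ ^ 2 * s / 16 ≤ ‖∑ m ∈ I, ee (φ m p.1 - φ m p.2)‖).card : ℝ) := by
  have hs0 : 0 < s := by linarith
  have ht0 : 0 < t := by linarith
  obtain ⟨T, hT⟩ : ∃ T : ℕ × ℕ → ℝ, T = fun p => ‖∑ m ∈ I, ee (φ m p.1 - φ m p.2)‖ := ⟨_, rfl⟩
  have h1 : (δ * s * t) ^ 2 ≤ 2 * s * ∑ p ∈ J ×ˢ J, T p := by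
    refine (pow_le_pow_left₀ (by positivity) h 2).trans ((t2_cs I J φ hu hv).trans ?_)
    rw [sum_product, hT]
    exact mul_le_mul_of_nonneg_right hI (sum_nonneg fun _ _ => sum_nonneg fun _ _ => norm_nonneg _)
  have hTle : ∀ p, T p ≤ 2 * s := by
    intro p
    rw [hT]
    refine (norm_sum_le _ _).trans ?_
    simp only [norm_ee]
    rw [sum_const, nsmul_eq_mul, mul_one]
    exact hI
  have hcardP : ((J ×ˢ J).card : ℝ) ≤ 4 * t ^ 2 := by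
    rw [card_product]
    push_cast
    nlinarith [(Nat.cast_nonneg J.card : (0 : ℝ) ≤ J.card)]
  have h2 : ∑ p ∈ J ×ˢ J, T p ≤
      (((J ×ˢ J).filter fun p => δ ^ 2 * s / 16 ≤ T p).card : ℝ) * (2 * s) +
        (4 * t ^ 2) * (δ ^ 2 * s / 16) := by
    rw [← sum_filter_add_sum_filter_not (J ×ˢ J) (fun p => δ ^ 2 * s / 16 ≤ T p)]
    refine add_le_add ?_ ?_
    · have h3 := sum_le_card_nsmul ((J ×ˢ J).filter fun p => δ ^ 2 * s / 16 ≤ T p) T (2 * s)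
        fun p _ => hTle p
      rw [nsmul_eq_mul] at h3
      exact h3
    · have h3 := sum_le_card_nsmul ((J ×ˢ J).filter fun p => ¬ δ ^ 2 * s / 16 ≤ T p) T
        (δ ^ 2 * s / 16) fun p hp => (not_le.1 (mem_filter.1 hp).2).le
      rw [nsmul_eq_mul] at h3
      refine h3.trans (mul_le_mul_of_nonneg_right ?_ (by positivity))
      refine le_trans ?_ hcardP
      exact_mod_cast card_filter_le _ _
  rw [hT] at h2
  rw [hT] at h1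
  simp only at h1 h2
  have h3 := h1.trans (mul_le_mul_of_nonneg_left h2 (by positivity))
  obtain ⟨N, hN⟩ : ∃ N : ℝ, N = (((J ×ˢ J).filter fun p =>
      δ ^ 2 * s / 16 ≤ ‖∑ m ∈ I, ee (φ m p.1 - φ m p.2)‖).card : ℝ) := ⟨_, rfl⟩
  rw [← hN] at h3 ⊢
  have h4 : 4 * s ^ 2 * (δ ^ 2 * t ^ 2 / 8) ≤ 4 * s ^ 2 * N := by
    have e1 : 2 * s * (N * (2 * s) + (4 * t ^ 2) * (δ ^ 2 * s / 16)) =
      4 * s ^ 2 * N + δ ^ 2 * s ^ 2 * t ^ 2 / 2 := by ring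
    rw [e1] at h3
    nlinarith
  exact le_of_mul_le_mul_left h4 (by positivity)

/-- pigeonhole over `k` and `n'` -/
private theorem t2_pig {B x t : ℝ} (hB : 1 ≤ B) (ht : 0 < t) (J : Finset ℕ)
    (hJ : (J.card : ℝ) ≤ 2 * t) (P : Finset (ℕ × ℕ)) (hP : P ⊆ J ×ˢ J) (hx : 0 < x)
    (hcard : x ≤ P.card) (kf : ℕ × ℕ → ℕ) (hk : ∀ p ∈ P, 1 ≤ kf p ∧ (kf p : ℝ) ≤ B) :
    ∃ k n' : ℕ, 1 ≤ k ∧ (k : ℝ) ≤ B ∧
      x / (B * (2 * t)) ≤ ((J.filter fun n => (n, n') ∈ P ∧ kf (n, n') = k).card : ℝ) := by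
  classical
  have hB0 : 0 < B := by linarith
  have hmaps : ∀ p ∈ P, (kf p, p.2) ∈ Icc 1 ⌊B⌋₊ ×ˢ J := fun p hp =>
    mem_product.2 ⟨mem_Icc.2 ⟨(hk p hp).1, Nat.le_floor (hk p hp).2⟩, (mem_product.1 (hP hp)).2⟩
  have hne : P.Nonempty := by
    rw [nonempty_iff_ne_empty]
    rintro rfl
    rw [card_empty, Nat.cast_zero] at hcard
    linarith
  obtain ⟨p₀, hp₀⟩ := hne
  obtain ⟨⟨k, n'⟩, hkn, hc⟩ := exists_le_card_fiber_of_nsmul_le_card_of_maps_to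
    (b := x / (B * (2 * t))) hmaps ⟨_, hmaps p₀ hp₀⟩ (by
      rw [nsmul_eq_mul, card_product, Nat.card_Icc, Nat.add_sub_cancel]
      push_cast
      refine le_trans ?_ hcard
      have h2 : (⌊B⌋₊ : ℝ) ≤ B := Nat.floor_le hB0.le
      calc (⌊B⌋₊ : ℝ) * J.card * (x / (B * (2 * t))) ≤ B * (2 * t) * (x / (B * (2 * t))) :=
            mul_le_mul_of_nonneg_right (mul_le_mul h2 hJ (Nat.cast_nonneg _) hB0.le)
              (by positivity)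
        _ = x := by field_simp)
  obtain ⟨hk1, hn1⟩ := mem_product.1 hkn
  have hk2 := mem_Icc.1 hk1
  refine ⟨k, n', hk2.1, (Nat.cast_le.2 hk2.2).trans (Nat.floor_le hB0.le), hc.trans ?_⟩
  have h1 : (P.filter fun p => (kf p, p.2) = (k, n')).card ≤
      (J.filter fun n => (n, n') ∈ P ∧ kf (n, n') = k).card := by
    refine card_le_card_of_injOn Prod.fst ?_ ?_
    · rintro ⟨a, b⟩ hp
      obtain ⟨hp1, hp2⟩ := mem_filter.1 (mem_coe.1 hp)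
      obtain ⟨h2, h3⟩ := Prod.mk.inj hp2
      simp only at h2 h3
      subst h3
      exact mem_coe.2 (mem_filter.2 ⟨(mem_product.1 (hP hp1)).1, hp1, h2⟩)
    · rintro ⟨a, b⟩ hp ⟨a', b'⟩ hp' h2
      obtain ⟨hp1, hp2⟩ := mem_filter.1 (mem_coe.1 hp)
      obtain ⟨hp1', hp2'⟩ := mem_filter.1 (mem_coe.1 hp')
      have h3 := (Prod.mk.inj hp2).2
      have h3' := (Prod.mk.inj hp2').2
      simp only at h2 h3 h3'
      rw [h2, h3, h3']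
  exact_mod_cast h1

private theorem t2_conv (a b : ℕ) (f : ℝ → ℂ) :
    ∑ m ∈ Ico ((a : ℤ) + 1) ((a : ℤ) + 1 + ((b - a : ℕ) : ℤ)), f (m : ℝ) =
      ∑ m ∈ Ioc a b, f (m : ℝ) := by
  refine sum_nbij' (fun m : ℤ => m.toNat) (fun d : ℕ => (d : ℤ)) ?_ ?_ ?_ ?_ ?_
  · intro m hm
    rw [mem_Ico] at hm
    rw [mem_Ioc]
    omega
  · intro d hd
    rw [mem_Ioc] at hd
    rw [mem_Ico]
    omega
  · intro m hm
    rw [mem_Ico] at hm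
    exact Int.toNat_of_nonneg (by omega)
  · intro d _
    simp
  · intro m hm
    rw [mem_Ico] at hm
    have h1 : ((m.toNat : ℕ) : ℝ) = (m : ℝ) := by
      have h2 : ((m.toNat : ℤ) : ℝ) = ((m : ℤ) : ℝ) := by
        rw [Int.toNat_of_nonneg (by omega)]
      exact_mod_cast h2
    rw [h1]

private theorem t2_card {x κ : ℝ} (hx : 1 ≤ x) (hκ1 : κ ≤ 1) :
    (((Ioc ⌊x⌋₊ ⌊(1 + κ) * x⌋₊).card : ℕ) : ℝ) ≤ 2 * x := by
  have h1 : (Ioc ⌊x⌋₊ ⌊(1 + κ) * x⌋₊).card ≤ ⌊2 * x⌋₊ := by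
    rw [Nat.card_Ioc]
    refine (Nat.sub_le _ _).trans (Nat.floor_le_floor ?_)
    nlinarith
  exact (Nat.cast_le.2 h1).trans (Nat.floor_le (by linarith))

theorem typeII (D : ℕ) (hD : 1 ≤ D) : ∃ C : ℕ, 1 ≤ C ∧ ∀ δ : ℝ, 0 < δ → δ ≤ 1 → ∀ s t κ : ℝ,
    (C / δ) ^ C ≤ s → (C / δ) ^ C ≤ t → 0 < κ → κ ≤ 1 → ∀ u v : ℕ → ℝ, (∀ n, |u n| ≤ 1) →
    (∀ n, |v n| ≤ 1) → ∀ G : ℝ[X], G.natDegree ≤ D →
      δ * s * t ≤ ‖∑ m ∈ Ioc ⌊s⌋₊ ⌊(1 + κ) * s⌋₊, ∑ n ∈ Ioc ⌊t⌋₊ ⌊(1 + κ) * t⌋₊,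
        ((u m * v n : ℝ) : ℂ) * ee (G.eval ((m : ℝ) * (n : ℝ)))‖ →
      ∃ k : ℕ, 1 ≤ k ∧ (k : ℝ) ≤ (C / δ) ^ C ∧ nd (k * G.coeff D) ≤ (C / δ) ^ C / (s * t) ^ D := by
  obtain ⟨C₀, hC₀1, hC₀⟩ := weyl D hD
  obtain ⟨C₁, hC₁1, hC₁⟩ := recD D hD
  have hC₀' : (1 : ℝ) ≤ C₀ := by exact_mod_cast hC₀1
  have hC₁' : (1 : ℝ) ≤ C₁ := by exact_mod_cast hC₁1
  obtain ⟨A, hA⟩ : ∃ A : ℝ, A = (48 * (C₀ : ℝ)) ^ C₀ := ⟨_, rfl⟩
  have hA1 : 1 ≤ A := by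
    rw [hA]
    exact one_le_pow₀ (by linarith)
  obtain ⟨C₂, hC₂1, hC₂⟩ := absorb (32 * A ^ 2 * C₁) (4 * C₀ + 2)
  obtain ⟨C₃, hC₃1, hC₃⟩ := absorb ((32 * C₁ * A) ^ C₁ * A) ((2 * C₀ + 2) * C₁ + 2 * C₀)
  refine ⟨C₂ + C₃, by omega, fun δ hδ hδ1 s t κ hs ht hκ hκ1 u v hu hv G hG hW => ?_⟩
  have hX2 := hC₂ (C₂ + C₃) (by omega) δ hδ hδ1
  have hX3 := hC₃ (C₂ + C₃) (by omega) δ hδ hδ1
  obtain ⟨X₀, hX₀⟩ : ∃ X₀ : ℝ, X₀ = (((C₂ + C₃ : ℕ) : ℝ) / δ) ^ (C₂ + C₃) := ⟨_, rfl⟩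
  rw [← hX₀] at hs ht hX2 hX3 ⊢
  have hd1 : 1 ≤ 1 / δ := by
    rw [le_div_iff₀ hδ]
    linarith
  obtain ⟨B, hB⟩ : ∃ B : ℝ, B = A * (1 / δ) ^ (2 * C₀) := ⟨_, rfl⟩
  have hB1 : 1 ≤ B := by
    rw [hB]
    exact one_le_mul_of_one_le_of_one_le hA1 (one_le_pow₀ hd1)
  have hB0 : 0 < B := by linarith
  obtain ⟨B₂, hB₂⟩ : ∃ B₂ : ℝ, B₂ = ((C₁ : ℝ) / (δ ^ 2 / (32 * B))) ^ C₁ := ⟨_, rfl⟩
  have hδ2 : δ ^ 2 ≤ 1 := by nlinarith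
  have hB₂1 : 1 ≤ B₂ := by
    rw [hB₂]
    refine one_le_pow₀ ?_
    rw [le_div_iff₀ (by positivity), one_mul, div_le_iff₀ (by positivity)]
    nlinarith
  have e2 : 32 * A ^ 2 * C₁ * (1 / δ) ^ (4 * C₀ + 2) = 32 * B ^ 2 * C₁ / δ ^ 2 := by
    rw [hB, pow_add, mul_pow, ← pow_mul, one_div_pow δ 2]
    have e : 2 * C₀ * 2 = 4 * C₀ := by ring
    rw [e]
    ring
  have e3 : (32 * C₁ * A) ^ C₁ * A * (1 / δ) ^ ((2 * C₀ + 2) * C₁ + 2 * C₀) = B₂ * B := by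
    rw [pow_add, pow_mul]
    have e : B₂ = (32 * C₁ * A) ^ C₁ * ((1 / δ) ^ (2 * C₀ + 2)) ^ C₁ := by
      rw [hB₂, ← mul_pow]
      congr 1
      rw [hB, pow_add, one_div_pow δ 2]
      generalize (1 / δ) ^ (2 * C₀) = w
      field_simp
    rw [e, hB]
    ring
  rw [e2] at hX2
  rw [e3] at hX3
  have hX1 : 1 ≤ X₀ := (one_le_mul_of_one_le_of_one_le hB₂1 hB1).trans hX3
  have hs1 : 1 ≤ s := hX1.trans hs
  have ht1 : 1 ≤ t := hX1.trans ht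
  have hs0 : 0 < s := by linarith
  have ht0 : 0 < t := by linarith
  have hIc := t2_card hs1 hκ1
  have hJc := t2_card ht1 hκ1
  have hmany := t2_many hδ hs1 ht1 _ _ hIc hJc (fun m n => G.eval ((m : ℝ) * (n : ℝ))) hu hv hW
  obtain ⟨J, hJ⟩ : ∃ J, J = Ioc ⌊t⌋₊ ⌊(1 + κ) * t⌋₊ := ⟨_, rfl⟩
  rw [← hJ] at hmany hJc
  obtain ⟨P, hP⟩ : ∃ P, P = (J ×ˢ J).filter (fun p : ℕ × ℕ => δ ^ 2 * s / 16 ≤
    ‖∑ m ∈ Ioc ⌊s⌋₊ ⌊(1 + κ) * s⌋₊, ee (G.eval ((m : ℝ) * (p.1 : ℝ)) - G.eval ((m : ℝ) * (p.2 : ℝ)))‖) :=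
    ⟨_, rfl⟩
  rw [← hP] at hmany
  have hM2 : (⌈2 * s⌉₊ : ℝ) ≤ 3 * s := by
    have := Nat.ceil_lt_add_one (by positivity : 0 ≤ 2 * s)
    linarith
  have hM1 : 2 * s ≤ (⌈2 * s⌉₊ : ℝ) := Nat.le_ceil _
  have hM0 : 1 ≤ ⌈2 * s⌉₊ := by
    have h1 : (1 : ℝ) ≤ (⌈2 * s⌉₊ : ℝ) := by linarith
    exact_mod_cast h1
  have hL : ⌊(1 + κ) * s⌋₊ - ⌊s⌋₊ ≤ ⌈2 * s⌉₊ := by
    refine (Nat.sub_le _ _).trans ?_
    have h1 : (⌊(1 + κ) * s⌋₊ : ℝ) ≤ (⌈2 * s⌉₊ : ℝ) :=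
      (Nat.floor_le (by positivity)).trans (le_trans (by nlinarith) hM1)
    exact_mod_cast h1
  have hBeq : ((C₀ : ℝ) / (δ ^ 2 / 48)) ^ C₀ = B := by
    rw [hB, hA, pow_mul, ← mul_pow]
    congr 1
    field_simp
  have hex : ∀ p ∈ P, ∃ k : ℕ, 1 ≤ k ∧ (k : ℝ) ≤ B ∧
      nd (k * (G.coeff D * ((p.1 : ℝ) ^ D - (p.2 : ℝ) ^ D))) ≤ B / s ^ D := by
    intro p hp
    rw [hP] at hp
    have h1 := (mem_filter.1 hp).2
    obtain ⟨h2, h3⟩ := t2_pol hG (p.1 : ℝ) (p.2 : ℝ)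
    have h4 := t2_conv ⌊s⌋₊ ⌊(1 + κ) * s⌋₊
      (fun x => ee ((G.comp (C (p.1 : ℝ) * X) - G.comp (C (p.2 : ℝ) * X)).eval x))
    obtain ⟨k, hk1, hk2, hk3⟩ := hC₀ (δ ^ 2 / 48) (by positivity) (by linarith) ⌈2 * s⌉₊ hM0 _ h2
      ((⌊s⌋₊ : ℤ) + 1) (⌊(1 + κ) * s⌋₊ - ⌊s⌋₊) hL (by
        rw [h4]
        refine le_trans ?_ (h1.trans (le_of_eq ?_))
        · nlinarith [sq_nonneg δ]
        · congr 1
          refine sum_congr rfl fun m _ => ?_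
          congr 1
          simp only [eval_sub, eval_comp, eval_mul, eval_C, eval_X]
          rw [mul_comm (m : ℝ), mul_comm (m : ℝ)])
    rw [hBeq] at hk2 hk3
    rw [h3] at hk3
    refine ⟨k, hk1, hk2, hk3.trans ?_⟩
    refine div_le_div_of_nonneg_left hB0.le (by positivity) (pow_le_pow_left₀ hs0.le ?_ D)
    linarith
  choose! kf hkf using hex
  obtain ⟨k, n', hk1, hk2, hS⟩ := t2_pig hB1 ht0 J hJc P (hP ▸ filter_subset _ _)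
    (by positivity) hmany kf fun p hp => ⟨(hkf p hp).1, (hkf p hp).2.1⟩
  have hΔ1 : t ≤ (⌊2 * t⌋₊ : ℝ) := by
    have := Nat.sub_one_lt_floor (2 * t)
    linarith
  have hΔ2 : (⌊2 * t⌋₊ : ℝ) ≤ 2 * t := Nat.floor_le (by positivity)
  have hδ₂ : 0 < δ ^ 2 / (32 * B) := by positivity
  obtain ⟨k', hk'1, hk'2, hk'3⟩ := hC₁ (δ ^ 2 / (32 * B)) hδ₂ (by
      rw [div_le_one (by positivity)]
      linarith) (B / s ^ D) (k * G.coeff D) (k * G.coeff D * (n' : ℝ) ^ D) (by positivity) (by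
      rw [div_div, div_le_div_iff₀ (by positivity) (by positivity)]
      have h1 : s ≤ s ^ D := le_self_pow₀ hs1 (by omega)
      have h2 := (hX2.trans hs).trans h1
      rw [div_le_iff₀ (by positivity)] at h2
      linarith) ⌊2 * t⌋₊ (by
      rw [← hB₂]
      refine le_trans ?_ hΔ1
      refine le_trans ?_ ht
      refine le_trans ?_ hX3
      exact le_mul_of_one_le_right (by linarith) hB1)
    (J.filter fun n => (n, n') ∈ P ∧ kf (n, n') = k) (by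
      intro n hn
      have h1 := (mem_filter.1 hn).1
      rw [hJ, mem_Ioc] at h1
      rw [mem_Icc]
      refine ⟨by omega, h1.2.trans (Nat.floor_le_floor ?_)⟩
      nlinarith) (by
      refine le_trans ?_ hS
      calc δ ^ 2 / (32 * B) * (⌊2 * t⌋₊ : ℝ) ≤ δ ^ 2 / (32 * B) * (2 * t) :=
            mul_le_mul_of_nonneg_left hΔ2 hδ₂.le
        _ = _ := by
            field_simp
            norm_num) (by
      intro n hn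
      obtain ⟨h1, h2, h3⟩ := mem_filter.1 hn
      have h4 := (hkf (n, n') h2).2.2
      rw [h3] at h4
      refine le_trans (le_of_eq ?_) h4
      congr 1
      ring)
  rw [← hB₂] at hk'2 hk'3
  refine ⟨k' * k, Nat.mul_pos hk'1 hk1, ?_, ?_⟩
  · push_cast
    exact (mul_le_mul hk'2 hk2 (Nat.cast_nonneg _) (by linarith)).trans hX3
  · have e : ((k' * k : ℕ) : ℝ) * G.coeff D = k' * (k * G.coeff D) := by
      push_cast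
      ring
    rw [e]
    calc nd (k' * (k * G.coeff D)) ≤ B₂ * (B / s ^ D) / (⌊2 * t⌋₊ : ℝ) ^ D := hk'3
      _ ≤ B₂ * (B / s ^ D) / t ^ D :=
          div_le_div_of_nonneg_left (by positivity) (by positivity)
            (pow_le_pow_left₀ ht0.le hΔ1 D)
      _ = B₂ * B / (s * t) ^ D := by
          rw [mul_pow]
          field_simp
      _ ≤ X₀ / (s * t) ^ D := div_le_div_of_nonneg_right hX3 (by positivity)

end Pool.Agent.RHN
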