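import Pool.Agent.RHN.TypeI
import Pool.Agent.RHN.TypeII
import Pool.Agent.RHN.SFl
import Pool.Agent.RHN.Lin
import Pool.Agent.RHN.Grid
import Pool.Agent.RHN.PPow
import Pool.Agent.RHN.MM

/-!
# RHN / Min: the minor arcs

PROOF.  `ε ≤ 1` w.l.o.g.  Let `f n = e(G(n))`, `C` the constant of `fl_up`, `b ≥ 1` with `4 s C 2^{-b} ≤ ε/16`, `s = 8 b + 16`, `z` the largest natural number with `z^s ≤ x`
(`x < (z+1)^s`, `log z ≥ log x/(2s)` for large `x`), `J = s - 1`.  `Icc 1 x = Ioc 0 x`.  By `pp_err` (`y = 0`, `h = x`) and `lin_id` (as in `Maj`)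
`|∑_{j=1}^J ((-1)^{j+1}/j) ∑_{n ≤ x} (U^j) n f(n)| ≥ (ε/2) x/log x` for large `x`.  So (a) `|∑_{n ≤ x} U n f(n)| ≥ (ε/4) x/log x`, or (b)
`|∑_{n ≤ x} (U^j) n f(n)| ≥ (ε/(4s)) x/log x` for some `2 ≤ j ≤ J`.
(a): `U n = [n rough] - [n = 1]`; with `lam` from `fl_up`: `∑_{n≤x} |[n rough] - ∑_{d ∣ n} lam d| ≤ C 2^{-b} x/log z + z^{4b+8} ≤ (ε/32) x/log x + √x`, so
`∑_{d ≤ D₀} |∑_{m ≤ x/d} f(dm)| ≥ |∑_{n ≤ x} (∑_{d ∣ n} lam d) f(n)| ≥ (ε/8) x/log x`, `D₀ = z^{4b+4}`, `D₀² ≤ z^s ≤ x`.  `typeI` with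
`δ = ε/(8 log x)`: the bounds `(C' log x/δ)^{C'}` are `≤ (log x)^{C₂}` for large `x`.
(b): let `y₀ = ⌊x/(log x)^4⌋₊`.  `(U^j) n ≤ 2^{s²}` (`pow_le'`), so `|∑_{y₀ < n ≤ x} (U^j) n f(n)| ≥ (ε/(8s)) x/log x`.  `grid` with `y = y₀`, `h = x - y₀`, `κ = (log x)^{-3}`, `T = 2^{s²}`,
`E = ε/(64 s (log x)²)`, `u = U`, `v = U^{j-1}` (restricted to `n ≤ x`, so `|v| ≤ B := 2^{s²}`): if the block hypothesis held, the sum would be
`≤ 2 E x log x + T(5κx + 2) ≤ (ε/(32 s)) x/log x + 5T x (log x)^{-3} + 2T`, a contradiction for large `x`.  So there are `s', t' ≥ z` with `y₀ ≤ s' t' ≤ x` and block sum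
`> E κ² s' t'`.  `typeII` for `u`, `v/B`, `δ = E κ²/B = c (log x)^{-8}` (`(C'/δ)^{C'} ≤ z` for large `x`): `k ≤ (C'/δ)^{C'} ≤ (log x)^{C₂}`,
`nd (k g_D) ≤ (C'/δ)^{C'}/(s't')^D ≤ (C'/δ)^{C'} (2 (log x)^4/x)^D ≤ (log x)^{C₂}/x^D`.
-/

set_option autoImplicit false

namespace Pool.Agent.RHN

open Finset Polynomial Filter

/-- sieve weights: interchange of the summation -/
private lemma min_sw {lam : ℕ → ℝ} {D₀ : ℕ} (x : ℕ) (hlam : ∀ d, |lam d| ≤ 1)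
    (hs : ∀ d, lam d ≠ 0 → 1 ≤ d ∧ d ≤ D₀) (f : ℕ → ℂ) :
    ‖∑ n ∈ Icc 1 x, ((∑ d ∈ n.divisors, lam d : ℝ) : ℂ) * f n‖ ≤
      ∑ d ∈ Icc 1 D₀, ‖∑ m ∈ Icc 1 (x / d), f (d * m)‖ := by
  have h1 : ∀ n ∈ Icc 1 x, ((∑ d ∈ n.divisors, lam d : ℝ) : ℂ) * f n =
      ∑ d ∈ Icc 1 D₀, (lam d : ℂ) * (if d ∣ n then f n else 0) := by
    intro n hn
    have hn1 := (mem_Icc.mp hn).1
    have h2 : ∑ d ∈ n.divisors, lam d = ∑ d ∈ (Icc 1 D₀).filter (fun d => d ∣ n), lam d := by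
      symm
      refine Finset.sum_subset ?_ ?_
      · intro d hd
        exact Nat.mem_divisors.mpr ⟨(mem_filter.mp hd).2, by omega⟩
      · intro d hd hd2
        by_contra h3
        exact hd2 (mem_filter.mpr ⟨mem_Icc.mpr (hs d h3), (Nat.mem_divisors.mp hd).1⟩)
    rw [h2, Finset.sum_filter]
    push_cast
    rw [Finset.sum_mul]
    refine Finset.sum_congr rfl fun d _ => ?_
    split_ifs <;> simp
  rw [Finset.sum_congr rfl h1, Finset.sum_comm]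
  refine (norm_sum_le _ _).trans (Finset.sum_le_sum fun d hd => ?_)
  have hd1 := (mem_Icc.mp hd).1
  rw [← Finset.mul_sum, norm_mul, Complex.norm_real, Real.norm_eq_abs, ← Finset.sum_filter]
  have h3 : ∑ n ∈ (Icc 1 x).filter (fun n => d ∣ n), f n = ∑ m ∈ Icc 1 (x / d), f (d * m) := by
    symm
    refine Finset.sum_bij (fun m _ => d * m) ?_ ?_ ?_ ?_
    · intro m hm
      obtain ⟨hm1, hm2⟩ := mem_Icc.mp hm
      have h4 := Nat.mul_le_of_le_div d m x hm2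
      refine mem_filter.mpr ⟨mem_Icc.mpr ⟨Nat.mul_pos hd1 hm1, ?_⟩, Dvd.intro m rfl⟩
      rw [mul_comm]
      exact h4
    · intro m _ m' _ h
      exact Nat.eq_of_mul_eq_mul_left hd1 h
    · intro n hn
      obtain ⟨hn1, m, rfl⟩ := mem_filter.mp hn
      obtain ⟨hn2, hn3⟩ := mem_Icc.mp hn1
      refine ⟨m, mem_Icc.mpr ⟨?_, ?_⟩, rfl⟩
      · rcases Nat.eq_zero_or_pos m with h | h
        · subst h
          omega
        · exact h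
      · rw [Nat.le_div_iff_mul_le hd1, mul_comm]
        exact hn3
    · intro m _
      rfl
  rw [h3]
  exact mul_le_of_le_one_left (norm_nonneg _) (hlam d)

open Classical in
/-- `j = 1` -/
private lemma min_one {C : ℝ} {z b x D₀ : ℕ} {lam : ℕ → ℝ} (hlam : ∀ d, |lam d| ≤ 1)
    (hs : ∀ d, lam d ≠ 0 → 1 ≤ d ∧ d ≤ D₀)
    (hup : ∀ n, 1 ≤ n → (if Rough z n then (1 : ℝ) else 0) ≤ ∑ d ∈ n.divisors, lam d)
    (hsum : ∑ n ∈ Icc 1 x, (∑ d ∈ n.divisors, lam d - (if Rough z n then (1 : ℝ) else 0)) ≤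
      C * (1 / 2) ^ b * (x / Real.log z) + (z : ℝ) ^ (4 * b + 8)) (f : ℕ → ℂ) (hf : ∀ n, ‖f n‖ ≤ 1) :
    ‖∑ n ∈ Icc 1 x, ((UU z n : ℝ) : ℂ) * f n‖ ≤
      ∑ d ∈ Icc 1 D₀, ‖∑ m ∈ Icc 1 (x / d), f (d * m)‖ +
        (C * (1 / 2) ^ b * (x / Real.log z) + (z : ℝ) ^ (4 * b + 8) + 1) := by
  have h1 : ∑ n ∈ Icc 1 x, ((UU z n : ℝ) : ℂ) * f n =
      ∑ n ∈ Icc 1 x, ((∑ d ∈ n.divisors, lam d : ℝ) : ℂ) * f n +
      ∑ n ∈ Icc 1 x, ((UU z n - ∑ d ∈ n.divisors, lam d : ℝ) : ℂ) * f n := by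
    rw [← Finset.sum_add_distrib]
    refine Finset.sum_congr rfl fun n _ => ?_
    push_cast
    ring
  rw [h1]
  refine (norm_add_le _ _).trans (add_le_add (min_sw x hlam hs f) ?_)
  have h2 : ∀ n ∈ Icc 1 x, ‖((UU z n - ∑ d ∈ n.divisors, lam d : ℝ) : ℂ) * f n‖ ≤
      (∑ d ∈ n.divisors, lam d - (if Rough z n then (1 : ℝ) else 0)) + (if n = 1 then 1 else 0) := by
    intro n hn
    have hn1 := (mem_Icc.mp hn).1
    have h3 := hup n hn1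
    rw [norm_mul, Complex.norm_real, Real.norm_eq_abs]
    refine (mul_le_of_le_one_right (abs_nonneg _) (hf n)).trans ?_
    rw [UU_apply]
    by_cases hr : Rough z n
    · rw [if_pos hr] at h3 ⊢
      by_cases h4 : n = 1
      · rw [if_neg (by tauto), if_pos h4, zero_sub, abs_neg, abs_of_nonneg (by linarith)]
        linarith
      · rw [if_pos ⟨hr, h4⟩, if_neg h4, abs_sub_comm, abs_of_nonneg (by linarith)]
        linarith
    · rw [if_neg hr] at h3 ⊢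
      rw [if_neg (by tauto), zero_sub, abs_neg, abs_of_nonneg h3]
      split_ifs
      · linarith
      · linarith
  refine (norm_sum_le _ _).trans ((Finset.sum_le_sum h2).trans ?_)
  rw [Finset.sum_add_distrib]
  refine add_le_add hsum ?_
  rw [Finset.sum_ite_eq' (Icc 1 x) 1 fun _ => (1 : ℝ)]
  split_ifs <;> norm_num

/-- `j ≥ 2` -/
private lemma min_two {z x y₀ J j : ℕ} {κ E Q : ℝ} (hz : 2 ≤ z) (hκ : 0 < κ) (hκ4 : κ ≤ 1 / 4)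
    (hE : 0 ≤ E) (hJ : x < (z + 1) ^ (J + 1)) (hj2 : 2 ≤ j) (hjJ : j ≤ J) (hy : y₀ ≤ x)
    (f : ℕ → ℂ) (hf : ∀ n, ‖f n‖ ≤ 1)
    (hQ : Q ≤ ‖∑ n ∈ Ioc 0 (0 + x), (((UU z ^ j) n : ℝ) : ℂ) * f n‖)
    (hlt : (2 : ℝ) ^ (J * J) * y₀ + (2 * E * x * Real.log x + (2 : ℝ) ^ (J * J) * (5 * κ * x + 2)) < Q) :
    ∃ s t : ℝ, (z : ℝ) ≤ s ∧ (z : ℝ) ≤ t ∧ (y₀ : ℝ) ≤ s * t ∧
      E * (κ * s) * (κ * t) < ‖∑ m ∈ Ioc ⌊s⌋₊ ⌊(1 + κ) * s⌋₊, ∑ n ∈ Ioc ⌊t⌋₊ ⌊(1 + κ) * t⌋₊,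
        ((UU z m * Vj z j x n : ℝ) : ℂ) * f (m * n)‖ := by
  by_contra hcon
  push Not at hcon
  have hyx : y₀ + (x - y₀) = x := by omega
  have h1 := mm_grid (y := y₀) (h := x - y₀) hz hκ hκ4 hE hJ hj2 hjJ (by omega) f hf
    (fun s t hs ht hst _ => hcon s t hs ht hst)
  rw [hyx] at h1
  have h2 : (y₀ : ℝ) + ((x - y₀ : ℕ) : ℝ) = x := by exact_mod_cast hyx
  rw [h2] at h1
  have h3 : Ioc 0 (0 + x) = Ioc 0 y₀ ∪ Ioc y₀ x := by
    rw [zero_add]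
    exact (Finset.Ioc_union_Ioc_eq_Ioc (Nat.zero_le _) hy).symm
  have h4 : Disjoint (Ioc 0 y₀) (Ioc y₀ x) := by
    rw [Finset.disjoint_left]
    intro a ha hb
    have := (mem_Ioc.mp ha).2
    have := (mem_Ioc.mp hb).1
    omega
  rw [h3, Finset.sum_union h4] at hQ
  have h5 : ‖∑ n ∈ Ioc 0 y₀, (((UU z ^ j) n : ℝ) : ℂ) * f n‖ ≤ (2 : ℝ) ^ (J * J) * y₀ := by
    have h6 : ∀ n ∈ Ioc 0 y₀, ‖(((UU z ^ j) n : ℝ) : ℂ) * f n‖ ≤ (2 : ℝ) ^ (J * J) := by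
      intro n hn
      have hn2 := (mem_Ioc.mp hn).2
      rw [norm_mul, Complex.norm_real, Real.norm_eq_abs, abs_of_nonneg (pow_nonneg' z j n)]
      refine (mul_le_of_le_one_right (pow_nonneg' z j n) (hf n)).trans ?_
      refine (pow_le' ((hn2.trans hy).trans_lt hJ) j).trans ?_
      exact pow_le_pow_right₀ (by norm_num) (Nat.mul_le_mul_left _ hjJ)
    refine (norm_sum_le _ _).trans ((Finset.sum_le_sum h6).trans ?_)
    rw [Finset.sum_const, Nat.card_Ioc, Nat.sub_zero, nsmul_eq_mul, mul_comm]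
  have h7 : ((x - y₀ : ℕ) : ℝ) ≤ x := by exact_mod_cast Nat.sub_le x y₀
  have h8 : 0 ≤ Real.log (x : ℝ) := by
    rcases Nat.eq_zero_or_pos x with h | h
    · subst h; simp
    · exact Real.log_nonneg (by exact_mod_cast h)
  have h9 : 2 * E * ((x - y₀ : ℕ) : ℝ) * Real.log x ≤ 2 * E * x * Real.log x := by gcongr
  have h10 := norm_add_le (∑ n ∈ Ioc 0 y₀, (((UU z ^ j) n : ℝ) : ℂ) * f n)
    (∑ n ∈ Ioc y₀ x, (((UU z ^ j) n : ℝ) : ℂ) * f n)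
  linarith

/-- one of the terms is large -/
private lemma min_case {s J : ℕ} (hJs : s = J + 1) {a : ℕ → ℝ} {A r : ℝ} (hA : 0 < A)
    (h : A ≤ ∑ j ∈ Icc 1 J, a j + r) (hr : r ≤ A / 2) :
    A / 4 ≤ a 1 ∨ ∃ j, 2 ≤ j ∧ j ≤ J ∧ A / (4 * s) ≤ a j := by
  by_contra hcon
  push Not at hcon
  obtain ⟨h1, h2⟩ := hcon
  have hs0 : (0 : ℝ) < s := by
    have : 0 < s := by omega
    exact_mod_cast this
  have h3 : ∑ j ∈ Icc 1 J, a j ≤ ∑ j ∈ Icc 1 J, ((if j = 1 then A / 4 else 0) + A / (4 * s)) := by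
    refine Finset.sum_le_sum fun j hj => ?_
    obtain ⟨hj1, hjJ⟩ := mem_Icc.mp hj
    have h4 : 0 < A / (4 * s) := by positivity
    rcases Nat.eq_or_lt_of_le hj1 with h5 | h5
    · subst h5
      rw [if_pos rfl]
      linarith
    · rw [if_neg (by omega)]
      have := h2 j h5 hjJ
      linarith
  rw [Finset.sum_add_distrib, Finset.sum_const, Nat.card_Icc, Nat.add_sub_cancel,
    Finset.sum_ite_eq' (Icc 1 J) 1 fun _ => A / 4, nsmul_eq_mul] at h3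
  have h4 : (if (1 : ℕ) ∈ Icc 1 J then A / 4 else 0) ≤ A / 4 := by
    split_ifs
    · exact le_rfl
    · positivity
  have h5 : (J : ℝ) * (A / (4 * s)) < A / 4 := by
    rw [mul_div_assoc', div_lt_div_iff₀ (by positivity) (by norm_num)]
    have h6 : (J : ℝ) + 1 = s := by rw [hJs]; push_cast; ring
    rw [← h6]
    nlinarith
  linarith

/-- numbers, type I -/
private lemma min_numI {s b : ℕ} {ε C L x lz z SS S : ℝ} (hε : 0 < ε) (hs1 : (1 : ℝ) ≤ s)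
    (hb : (s : ℝ) * (C * (1 / 2) ^ b) ≤ ε / 64) (hC : 1 ≤ C) (hL1 : 1 ≤ L) (hx1 : 1 ≤ x) (hlz0 : 0 < lz)
    (hzl : L ≤ 2 * s * lz) (hzx : z ≤ Real.sqrt x) (hxC : L ^ 2 ≤ ε / 64 * Real.sqrt x)
    (hS : ε * x / L / 4 ≤ S) (hS2 : S ≤ SS + (C * (1 / 2) ^ b * (x / lz) + z + 1)) :
    ε / (8 * L) * x ≤ SS := by
  have hs0 : (0 : ℝ) < s := by linarith
  have hL0 : 0 < L := by linarith
  have hsxx : Real.sqrt x * Real.sqrt x = x := Real.mul_self_sqrt (by linarith)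
  have hsx1 : 1 ≤ Real.sqrt x := by
    rw [show (1 : ℝ) = Real.sqrt 1 by rw [Real.sqrt_one]]
    exact Real.sqrt_le_sqrt hx1
  obtain ⟨W, hW⟩ : ∃ W : ℝ, W = x / L := ⟨_, rfl⟩
  have hW0 : 0 ≤ W := by rw [hW]; positivity
  have hWL : W * L = x := by rw [hW]; field_simp
  have hxz : x / lz ≤ 2 * s * W := by
    rw [div_le_iff₀ hlz0]
    have h1 := mul_le_mul_of_nonneg_right hzl hW0
    linarith
  have t1 : C * (1 / 2) ^ b * (x / lz) ≤ ε / 32 * W := by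
    have h1 : C * (1 / 2) ^ b * (x / lz) ≤ C * (1 / 2) ^ b * (2 * s * W) :=
      mul_le_mul_of_nonneg_left hxz (by positivity)
    have h2 := mul_le_mul_of_nonneg_right hb hW0
    linarith
  have t2 : Real.sqrt x ≤ ε / 64 * W := by
    have h1 : L ≤ ε / 64 * Real.sqrt x := (le_self_pow₀ hL1 (by norm_num)).trans hxC
    have h2 : Real.sqrt x * L ≤ ε / 64 * W * L := by
      have h3 := mul_le_mul_of_nonneg_left h1 (Real.sqrt_nonneg x)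
      have h4 : Real.sqrt x * (ε / 64 * Real.sqrt x) = ε / 64 * x := by rw [mul_left_comm, hsxx]
      have h5 : ε / 64 * x = ε / 64 * W * L := by rw [mul_assoc, hWL]
      linarith
    exact le_of_mul_le_mul_right h2 hL0
  have t3 : ε / (8 * L) * x = ε / 8 * W := by rw [hW]; field_simp
  have t4 : ε * x / L / 4 = ε / 4 * W := by rw [hW]; ring
  rw [t3]
  rw [t4] at hS
  have : 0 ≤ ε * W := by positivity
  linarith

/-- numbers, type II -/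
private lemma min_numII {s : ℕ} {ε T L x y κ E : ℝ} (hε : 0 < ε) (hs1 : (1 : ℝ) ≤ s) (hT : 1 ≤ T)
    (hL1 : 1 ≤ L) (hLT : 160 * s * T / ε ≤ L) (hx1 : 1 ≤ x) (hκ : κ = 1 / L ^ 3)
    (hE : E = ε / (64 * s * L ^ 2)) (hy : y ≤ x / L ^ 4)
    (hxC : L ^ 2 ≤ ε / (128 * s * T) * Real.sqrt x) :
    T * y + (2 * E * x * L + T * (5 * κ * x + 2)) < ε * x / L / (4 * s) := by
  have hs0 : (0 : ℝ) < s := by linarith
  have hL0 : 0 < L := by linarith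
  have hsxx : Real.sqrt x * Real.sqrt x = x := Real.mul_self_sqrt (by linarith)
  have hsx1 : 1 ≤ Real.sqrt x := by
    rw [show (1 : ℝ) = Real.sqrt 1 by rw [Real.sqrt_one]]
    exact Real.sqrt_le_sqrt hx1
  obtain ⟨W, hW⟩ : ∃ W : ℝ, W = x / L := ⟨_, rfl⟩
  have hW0 : 0 < W := by rw [hW]; positivity
  have hWL : W * L = x := by rw [hW]; field_simp
  have hL2 : L ≤ L ^ 2 := le_self_pow₀ hL1 (by norm_num)
  have hL3 : L ≤ L ^ 3 := le_self_pow₀ hL1 (by norm_num)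
  rw [div_le_iff₀ hε] at hLT
  have hgoal : ε * x / L / (4 * s) = 8 * (ε / (32 * s) * W) := by rw [hW]; field_simp; ring
  rw [hgoal]
  have t1 : T * y ≤ ε / (32 * s) * W := by
    have h1 : T * y ≤ T * (x / L ^ 4) := mul_le_mul_of_nonneg_left hy (by linarith)
    have h2 : T * (x / L ^ 4) = T * W / L ^ 3 := by rw [← hWL]; field_simp
    have h3 : T * W / L ^ 3 ≤ ε / (32 * s) * W := by
      rw [div_le_iff₀ (by positivity), div_mul_eq_mul_div, div_mul_eq_mul_div, le_div_iff₀ (by positivity)]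
      have h4 : 160 * s * T ≤ L ^ 3 * ε := hLT.trans (mul_le_mul_of_nonneg_right hL3 hε.le)
      have h5 := mul_le_mul_of_nonneg_right h4 hW0.le
      have h6 : 0 ≤ s * T * W := by positivity
      linarith
    linarith
  have t2 : 2 * E * x * L = ε / (32 * s) * W := by
    rw [hE, ← hWL]
    field_simp
    ring
  have t3 : T * (5 * κ * x) ≤ ε / (32 * s) * W := by
    have h2 : T * (5 * κ * x) = 5 * T * W / L ^ 2 := by rw [hκ, ← hWL]; field_simp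
    rw [h2, div_le_iff₀ (by positivity), div_mul_eq_mul_div, div_mul_eq_mul_div, le_div_iff₀ (by positivity)]
    have h4 : 160 * s * T ≤ L ^ 2 * ε := hLT.trans (mul_le_mul_of_nonneg_right hL2 hε.le)
    have h5 := mul_le_mul_of_nonneg_right h4 hW0.le
    linarith
  have t4 : T * 2 ≤ ε / (32 * s) * W := by
    have h1 : L ≤ ε / (128 * s * T) * Real.sqrt x := hL2.trans hxC
    have h2 : ε / (128 * s * T) * Real.sqrt x ≤ ε / (128 * s * T) * x := by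
      have : Real.sqrt x ≤ x := by nlinarith
      exact mul_le_mul_of_nonneg_left this (by positivity)
    have h3 : L ≤ ε / (128 * s * T) * W * L := by
      rw [mul_assoc, hWL]
      exact h1.trans h2
    have h4 : 1 ≤ ε / (128 * s * T) * W := by
      have h5 : 1 * L ≤ ε / (128 * s * T) * W * L := by linarith
      exact le_of_mul_le_mul_right h5 hL0
    have h6 : ε / (32 * s) * W = 4 * T * (ε / (128 * s * T) * W) := by field_simp; ring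
    rw [h6]
    nlinarith
  have h0 : 0 < ε / (32 * s) * W := by positivity
  have h7 : T * (5 * κ * x + 2) = T * (5 * κ * x) + T * 2 := by ring
  rw [h7]
  linarith

/-- type II, conclusion -/
private lemma min_endII {D C s : ℕ} {ε T L x κ E s' t' : ℝ} {z j xn : ℕ} (hε : 0 < ε) (hs1 : (1 : ℝ) ≤ s)
    (hT : 1 ≤ T) (hC : 1 ≤ C) (hL : 4 ≤ L) (hLε : ε ≤ L) (hLC : 64 * s * T * C / ε ≤ L) (hx1 : 1 ≤ x)
    (hκ : κ = 1 / L ^ 3) (hE : E = ε / (64 * s * L ^ 2)) (hz : L ^ (9 * C) ≤ z) (hxL : L ^ 5 ≤ x)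
    (hII : ∀ δ : ℝ, 0 < δ → δ ≤ 1 → ∀ s t κ : ℝ,
      (C / δ) ^ C ≤ s → (C / δ) ^ C ≤ t → 0 < κ → κ ≤ 1 → ∀ u v : ℕ → ℝ, (∀ n, |u n| ≤ 1) →
      (∀ n, |v n| ≤ 1) → ∀ G : ℝ[X], G.natDegree ≤ D →
      δ * s * t ≤ ‖∑ m ∈ Ioc ⌊s⌋₊ ⌊(1 + κ) * s⌋₊, ∑ n ∈ Ioc ⌊t⌋₊ ⌊(1 + κ) * t⌋₊,
        ((u m * v n : ℝ) : ℂ) * ee (G.eval ((m : ℝ) * (n : ℝ)))‖ →
      ∃ k : ℕ, 1 ≤ k ∧ (k : ℝ) ≤ (C / δ) ^ C ∧ nd (k * G.coeff D) ≤ (C / δ) ^ C / (s * t) ^ D)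
    (hzs : (z : ℝ) ≤ s') (hzt : (z : ℝ) ≤ t') (hst : (⌊x / L ^ 4⌋₊ : ℝ) ≤ s' * t')
    (hV : ∀ n, |Vj z j xn n| ≤ T) {G : ℝ[X]} (hG : G.natDegree ≤ D)
    (hB : E * (κ * s') * (κ * t') < ‖∑ m ∈ Ioc ⌊s'⌋₊ ⌊(1 + κ) * s'⌋₊,
      ∑ n ∈ Ioc ⌊t'⌋₊ ⌊(1 + κ) * t'⌋₊, ((UU z m * Vj z j xn n : ℝ) : ℂ) *
        ee (G.eval ((m * n : ℕ) : ℝ))‖) :
    ∃ k : ℕ, 1 ≤ k ∧ (k : ℝ) ≤ L ^ (9 * C) ∧
      nd (k * G.coeff D) ≤ L ^ (9 * C + 5 * D) / x ^ D := by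
  have hs0 : (0 : ℝ) < s := by linarith
  have hL1 : 1 ≤ L := by linarith
  have hL0 : 0 < L := by linarith
  have hT0 : 0 < T := by linarith
  have hCR : (1 : ℝ) ≤ C := by exact_mod_cast hC
  obtain ⟨δ, hδ⟩ : ∃ δ : ℝ, δ = E * κ ^ 2 / T := ⟨_, rfl⟩
  have hδ2 : δ = ε / (64 * s * T * L ^ 8) := by
    rw [hδ, hE, hκ]
    field_simp
  have hδ0 : 0 < δ := by rw [hδ2]; positivity
  have hδ1 : δ ≤ 1 := by
    rw [hδ2, div_le_one (by positivity)]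
    have h1 : L ≤ L ^ 8 := le_self_pow₀ hL1 (by norm_num)
    have h2 : (1 : ℝ) * 1 * 1 * L ≤ 64 * s * T * L ^ 8 := by gcongr <;> norm_num
    linarith
  have hCδ : (C : ℝ) / δ ≤ L ^ 9 := by
    have h1 : (C : ℝ) / δ = 64 * s * T * C / ε * L ^ 8 := by
      rw [hδ2]
      field_simp
    rw [h1, show L ^ 9 = L * L ^ 8 by ring]
    exact mul_le_mul_of_nonneg_right hLC (by positivity)
  have hK : ((C : ℝ) / δ) ^ C ≤ L ^ (9 * C) := by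
    rw [pow_mul]
    exact pow_le_pow_left₀ (by positivity) hCδ C
  have hκ0 : 0 < κ := by rw [hκ]; positivity
  have hκ1 : κ ≤ 1 := by
    rw [hκ, div_le_one (by positivity)]
    exact one_le_pow₀ hL1
  have hv : ∀ n, |Vj z j xn n / T| ≤ 1 := by
    intro n
    rw [abs_div, abs_of_pos hT0, div_le_one hT0]
    exact hV n
  have hsum : ∑ m ∈ Ioc ⌊s'⌋₊ ⌊(1 + κ) * s'⌋₊, ∑ n ∈ Ioc ⌊t'⌋₊ ⌊(1 + κ) * t'⌋₊,
        ((UU z m * (Vj z j xn n / T) : ℝ) : ℂ) * ee (G.eval ((m : ℝ) * (n : ℝ))) =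
      ((1 / T : ℝ) : ℂ) * ∑ m ∈ Ioc ⌊s'⌋₊ ⌊(1 + κ) * s'⌋₊,
      ∑ n ∈ Ioc ⌊t'⌋₊ ⌊(1 + κ) * t'⌋₊, ((UU z m * Vj z j xn n : ℝ) : ℂ) *
        ee (G.eval ((m * n : ℕ) : ℝ)) := by
    rw [Finset.mul_sum]
    refine Finset.sum_congr rfl fun m _ => ?_
    rw [Finset.mul_sum]
    refine Finset.sum_congr rfl fun n _ => ?_
    push_cast
    ring
  obtain ⟨k, hk1, hk2, hk3⟩ := hII δ hδ0 hδ1 s' t' κ (hK.trans (hz.trans hzs))
    (hK.trans (hz.trans hzt)) hκ0 hκ1 (UU z) (fun n => Vj z j xn n / T) (UU_abs z) hv G hG (by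
      rw [hsum, norm_mul, Complex.norm_real, Real.norm_of_nonneg (by positivity)]
      have h1 : δ * s' * t' = 1 / T * (E * (κ * s') * (κ * t')) := by
        rw [hδ]
        ring
      rw [h1]
      exact mul_le_mul_of_nonneg_left hB.le (by positivity))
  refine ⟨k, hk1, hk2.trans hK, hk3.trans ?_⟩
  have h1 : x / L ^ 5 ≤ s' * t' := by
    refine le_trans ?_ hst
    have h2 : x / L ^ 4 - 1 < (⌊x / L ^ 4⌋₊ : ℝ) := Nat.sub_one_lt_floor _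
    refine le_trans ?_ h2.le
    have h3 : x / L ^ 4 = x / L ^ 5 * L := by field_simp
    have h4 : 1 ≤ x / L ^ 5 := by
      rw [le_div_iff₀ (by positivity), one_mul]
      exact hxL
    rw [h3]
    nlinarith
  have hx0 : 0 < x := by linarith
  have h5 : (0 : ℝ) < (x / L ^ 5) ^ D := by positivity
  calc ((C : ℝ) / δ) ^ C / (s' * t') ^ D ≤ L ^ (9 * C) / (x / L ^ 5) ^ D := by
        refine div_le_div₀ (by positivity) hK h5 ?_
        exact pow_le_pow_left₀ (by positivity) h1 D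
    _ = L ^ (9 * C + 5 * D) / x ^ D := by
        rw [div_pow, pow_add, ← pow_mul]
        field_simp

/-- type I, conclusion -/
private lemma min_endI {D C : ℕ} {ε L : ℝ} {x D₀ : ℕ} (hε : 0 < ε) (hL : 4 ≤ L) (hLx : Real.log x = L)
    (hLε : ε ≤ L) (hLC : 8 * C / ε ≤ L) (hx2 : 2 ≤ x) (hD₀ : D₀ ^ 2 ≤ x)
    (hI : ∀ δ : ℝ, 0 < δ → δ ≤ 1 → ∀ x D₀ : ℕ, 2 ≤ x →
      D₀ ^ 2 ≤ x → ∀ G : ℝ[X], G.natDegree ≤ D →
      δ * x ≤ ∑ d ∈ Icc 1 D₀, ‖∑ m ∈ Icc 1 (x / d), ee (G.eval ((d : ℝ) * (m : ℝ)))‖ →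
      ∃ k : ℕ, 1 ≤ k ∧ (k : ℝ) ≤ (C * Real.log x / δ) ^ C ∧
        nd (k * G.coeff D) ≤ (C * Real.log x / δ) ^ C / (x : ℝ) ^ D)
    {G : ℝ[X]} (hG : G.natDegree ≤ D)
    (hS : ε / (8 * L) * x ≤ ∑ d ∈ Icc 1 D₀, ‖∑ m ∈ Icc 1 (x / d), ee (G.eval ((d * m : ℕ) : ℝ))‖) :
    ∃ k : ℕ, 1 ≤ k ∧ (k : ℝ) ≤ L ^ (3 * C) ∧
      nd (k * G.coeff D) ≤ L ^ (3 * C) / (x : ℝ) ^ D := by
  have hL1 : 1 ≤ L := by linarith
  have hL0 : 0 < L := by linarith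
  have hK : ((C : ℝ) * Real.log x / (ε / (8 * L))) ^ C ≤ L ^ (3 * C) := by
    rw [pow_mul]
    refine pow_le_pow_left₀ (by rw [hLx]; positivity) ?_ C
    have h1 : (C : ℝ) * Real.log x / (ε / (8 * L)) = 8 * C / ε * L ^ 2 := by
      rw [hLx]
      field_simp
    rw [h1, show L ^ 3 = L * L ^ 2 by ring]
    exact mul_le_mul_of_nonneg_right hLC (by positivity)
  obtain ⟨k, hk1, hk2, hk3⟩ := hI (ε / (8 * L)) (by positivity)
    (by rw [div_le_one (by positivity)]; linarith) x D₀ hx2 hD₀ G hG (by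
      refine hS.trans (le_of_eq ?_)
      refine Finset.sum_congr rfl fun d _ => ?_
      congr 1
      refine Finset.sum_congr rfl fun m _ => ?_
      push_cast
      rfl)
  exact ⟨k, hk1, hk2.trans hK, hk3.trans (div_le_div_of_nonneg_right hK (by positivity))⟩

theorem minor (D : ℕ) (hD : 1 ≤ D) (ε : ℝ) (hε : 0 < ε) : ∃ C₂ : ℕ, ∃ x₀ : ℕ, ∀ x : ℕ, x₀ ≤ x →
    ∀ G : ℝ[X], G.natDegree ≤ D →
      ε * x / Real.log x ≤ ‖∑ p ∈ (Icc 1 x).filter Nat.Prime, ee (G.eval (p : ℝ))‖ →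
      ∃ k : ℕ, 1 ≤ k ∧ (k : ℝ) ≤ Real.log x ^ C₂ ∧
        nd (k * G.coeff D) ≤ Real.log x ^ C₂ / (x : ℝ) ^ D := by
  classical
  obtain ⟨C₁, hC₁, hI⟩ := typeI D hD
  obtain ⟨C₂, hC₂, hII⟩ := typeII D hD
  obtain ⟨Cf, hCf1, hfl⟩ := fl_up
  obtain ⟨b, hb1, hb⟩ := mm_b Cf (c := ε / 64) (by positivity)
  obtain ⟨s, hs⟩ : ∃ s : ℕ, s = 8 * b + 16 := ⟨_, rfl⟩
  obtain ⟨J, hJs⟩ : ∃ J : ℕ, s = J + 1 := ⟨s - 1, by omega⟩
  obtain ⟨T, hT⟩ : ∃ T : ℝ, T = (2 : ℝ) ^ (J * J) := ⟨_, rfl⟩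
  have hT1 : 1 ≤ T := by rw [hT]; exact one_le_pow₀ (by norm_num)
  have hs1 : (1 : ℝ) ≤ s := by
    have : 1 ≤ s := by omega
    exact_mod_cast this
  have hs0 : (0 : ℝ) < s := by linarith
  obtain ⟨zf, hz1, hz2, hz3, hz4⟩ := mm_z s (by omega)
  refine ⟨3 * C₁ + 9 * C₂ + 5 * D, ?_⟩
  have hev := (((((((((mm_log 4).and (mm_log ε)).and (mm_log (8 * C₁ / ε))).and
    (mm_log (64 * s * T * C₂ / ε))).and (mm_log (160 * s * T / ε))).and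
    (hz2.eventually_ge_atTop 2)).and (hz4 (9 * C₂) 1 one_pos)).and
    (mm_sqrt 2 (c := ε / (128 * s * T)) (by positivity))).and
    (mm_small 5 (c := 1) one_pos)).and (eventually_ge_atTop 2)
  obtain ⟨x₀, hx₀⟩ := hev.exists_forall_of_atTop
  refine ⟨x₀, fun x hx G hG hbig => ?_⟩
  obtain ⟨⟨⟨⟨⟨⟨⟨⟨⟨hL4, hLε⟩, hLC1⟩, hLC2⟩, hLT⟩, hz2'⟩, hzC⟩, hxC⟩, hx5⟩, hx2⟩ := hx₀ x hx
  obtain ⟨z, hz⟩ : ∃ z : ℕ, z = zf x := ⟨_, rfl⟩
  have hza := hz1 x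
  have hzl := hz3 x (by omega) hz2'
  rw [← hz] at hza hzl hz2' hzC
  obtain ⟨hza1, hza2⟩ := hza
  obtain ⟨L, hL⟩ : ∃ L : ℝ, L = Real.log x := ⟨_, rfl⟩
  rw [← hL] at hL4 hLε hLC1 hLC2 hLT hzC hxC hx5 hzl hbig ⊢
  have hL1 : 1 ≤ L := by linarith
  have hL0 : 0 < L := by linarith
  have hzR : (2 : ℝ) ≤ z := by exact_mod_cast hz2'
  have hlz0 : 0 < Real.log (z : ℝ) := Real.log_pos (by linarith)
  have hsz1 : 1 ≤ Real.sqrt (z : ℝ) := by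
    rw [show (1 : ℝ) = Real.sqrt 1 by rw [Real.sqrt_one]]
    exact Real.sqrt_le_sqrt (by linarith)
  have hszz : Real.sqrt (z : ℝ) * Real.sqrt (z : ℝ) = z := Real.mul_self_sqrt (by linarith)
  have hszle : Real.sqrt (z : ℝ) ≤ z := by nlinarith
  have hzx : (z : ℝ) ^ (4 * b + 8) ≤ Real.sqrt x := by
    refine Real.le_sqrt_of_sq_le ?_
    rw [← pow_mul, show (4 * b + 8) * 2 = s by rw [hs]; ring]
    exact_mod_cast hza1
  have hzx' : (z : ℝ) ≤ Real.sqrt x := (le_self_pow₀ (by linarith) (by omega)).trans hzx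
  have hX1 : (1 : ℝ) ≤ x := by
    have : 1 ≤ x := by omega
    exact_mod_cast this
  have hX0 : (0 : ℝ) < x := by linarith
  have hsx1 : 1 ≤ Real.sqrt (x : ℝ) := by linarith
  have hsxx : Real.sqrt (x : ℝ) * Real.sqrt (x : ℝ) = x := Real.mul_self_sqrt (by linarith)
  have hJlt : x < (z + 1) ^ (J + 1) := by rw [← hJs]; exact hza2
  have hIcc : Ioc 0 (0 + x) = Icc 1 x := by
    ext n
    simp only [mem_Ioc, mem_Icc]
    omega
  obtain ⟨f, hf⟩ : ∃ f : ℕ → ℂ, f = fun n : ℕ => ee (G.eval (n : ℝ)) := ⟨_, rfl⟩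
  have hf1 : ∀ n, ‖f n‖ ≤ 1 := by
    intro n
    rw [hf]
    exact (norm_ee _).le
  have hdec := mm_dec f hf1 (z := z) (y := 0) (h := x) hx2 (by omega) (by omega) hJlt
  rw [← hL] at hdec
  have hbig' : ε * x / L ≤ ‖∑ p ∈ (Ioc 0 (0 + x)).filter Nat.Prime, f p‖ := by
    rw [hIcc, hf]
    exact hbig
  have hxC' : L ^ 2 ≤ ε / 64 * Real.sqrt x := by
    refine hxC.trans (mul_le_mul_of_nonneg_right ?_ (by positivity))
    refine div_le_div_of_nonneg_left hε.le (by norm_num) ?_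
    have : (1 : ℝ) * 1 ≤ s * T := by gcongr
    nlinarith
  have hr : (z : ℝ) + 4 * Real.sqrt x * L ≤ ε * x / L / 2 := by
    have h1 : (z : ℝ) + 4 * Real.sqrt x * L ≤ 5 * Real.sqrt x * L := by nlinarith
    refine h1.trans ?_
    rw [div_div, le_div_iff₀ (by positivity)]
    have h2 : 5 * Real.sqrt x * L * (L * 2) = 10 * (Real.sqrt x * L ^ 2) := by ring
    have h3 : Real.sqrt x * L ^ 2 ≤ Real.sqrt x * (ε / 64 * Real.sqrt x) :=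
      mul_le_mul_of_nonneg_left hxC' (by positivity)
    have h4 : Real.sqrt x * (ε / 64 * Real.sqrt x) = ε / 64 * x := by
      rw [mul_left_comm, hsxx]
    rw [h2]
    rw [h4] at h3
    have : 0 ≤ ε * x := by positivity
    linarith
  rcases min_case hJs (show 0 < ε * x / L by positivity) (hbig'.trans hdec) hr with h1 | ⟨j, hj2, hjJ, h1⟩
  · -- type I
    obtain ⟨lam, hl1, hl2, hl3, hl4⟩ := hfl z b hz2' hb1
    simp only [pow_one] at h1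
    rw [hIcc] at h1
    have h2 := min_one hl1 hl2 hl3 (hl4 x) f hf1
    have h3 := min_numI (b := b) hε hs1 (by rw [hs]; exact hb) hCf1 hL1 hX1 hlz0 hzl hzx hxC' h1 h2
    have hD0 : (z ^ (4 * b + 4)) ^ 2 ≤ x := by
      rw [← pow_mul]
      refine le_trans (Nat.pow_le_pow_right (by omega) ?_) hza1
      rw [hs]
      omega
    obtain ⟨k, hk1, hk2, hk3⟩ := min_endI (D := D) (C := C₁) (D₀ := z ^ (4 * b + 4)) hε hL4 hL.symm hLε
      hLC1 hx2 hD0 hI hG (by rw [hf] at h3; exact h3)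
    have hp : L ^ (3 * C₁) ≤ L ^ (3 * C₁ + 9 * C₂ + 5 * D) := pow_le_pow_right₀ hL1 (by omega)
    exact ⟨k, hk1, hk2.trans hp, hk3.trans (div_le_div_of_nonneg_right hp (by positivity))⟩
  · -- type II
    obtain ⟨κ, hκ⟩ : ∃ κ : ℝ, κ = 1 / L ^ 3 := ⟨_, rfl⟩
    obtain ⟨E, hE⟩ : ∃ E : ℝ, E = ε / (64 * s * L ^ 2) := ⟨_, rfl⟩
    have hκ0 : 0 < κ := by rw [hκ]; positivity
    have hκ4 : κ ≤ 1 / 4 := by
      rw [hκ]
      have : L ≤ L ^ 3 := le_self_pow₀ hL1 (by norm_num)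
      exact one_div_le_one_div_of_le (by norm_num) (by linarith)
    have hE0 : 0 ≤ E := by rw [hE]; positivity
    have hy1 : (⌊(x : ℝ) / L ^ 4⌋₊ : ℝ) ≤ x / L ^ 4 := Nat.floor_le (by positivity)
    have hy2 : ⌊(x : ℝ) / L ^ 4⌋₊ ≤ x := by
      have h2 : (x : ℝ) / L ^ 4 ≤ x := div_le_self hX0.le (one_le_pow₀ hL1)
      exact_mod_cast hy1.trans h2
    have hnum := min_numII hε hs1 hT1 hL1 hLT hX1 hκ hE hy1 hxC
    obtain ⟨s', t', hs', ht', hst, hB⟩ := min_two hz2' hκ0 hκ4 hE0 hJlt hj2 hjJ hy2 f hf1 h1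
      (by rw [← hT, ← hL]; exact hnum)
    rw [hf] at hB
    obtain ⟨k, hk1, hk2, hk3⟩ := min_endII (D := D) (C := C₂) (s := s) hε hs1 hT1 hC₂ hL4 hLε hLC2 hX1
      hκ hE (by linarith) (by linarith) hII hs' ht' hst
      (by rw [hT]; exact fun n => Vj_abs hJlt hjJ n) hG hB
    have hp1 : L ^ (9 * C₂) ≤ L ^ (3 * C₁ + 9 * C₂ + 5 * D) := pow_le_pow_right₀ hL1 (by omega)
    have hp2 : L ^ (9 * C₂ + 5 * D) ≤ L ^ (3 * C₁ + 9 * C₂ + 5 * D) := pow_le_pow_right₀ hL1 (by omega)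
    exact ⟨k, hk1, hk2.trans hp1, hk3.trans (div_le_div_of_nonneg_right hp2 (by positivity))⟩

end Pool.Agent.RHN
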