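import Pool.Agent.RHN.Defs

/-!
# RHN / RecA: strong recurrence of a linear sequence

PROOF of `rec1`.  `|S| ≥ δ M ≥ 32/δ`.  Cut the interval `[a, a+M)` into cells of length `l = ⌊2/δ⌋ + 1`; there are
`≤ M/l + 1 < δ M/2 + 1 ≤ |S|` cells (use `δ M ≥ 32`), so two elements `m' < m` of `S` lie in one cell, `k = m - m' ≤ ⌊2/δ⌋`, and
`nd (k γ) ≤ nd (γ m - c) + nd (γ m' - c) ≤ 2 σ`.  Put `τ = nd (k γ)`.  If `τ = 0` we are done.  Let `τ > 0`, and choose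
`ν ∈ {τ, -τ}` and an integer `N₀` with `k γ = N₀ + ν`.
Consider a residue class `i` modulo `k`: the elements of the class in `[a, a+M)` are `m = i' + k l`, `0 ≤ l ≤ M/k`, with `i'` the
smallest one; `γ m - c = ψ + l ν + (integer)`, `ψ = γ i' - c`.  If `m ∈ S` there is an integer `n` with `|ψ + l ν - n| ≤ σ`.  The
points `ψ + l ν` lie in an interval of length `(M/k) τ`, so there are at most `(M/k) τ + 2 σ + 1` possible `n`, and for each `n` the `l` with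
`|ψ + l ν - n| ≤ σ` lie in an interval of length `2σ/τ`, at most `2σ/τ + 1` of them.  Hence
`|S| ≤ k ((M/k) τ + 2σ + 1)(2σ/τ + 1) = 2σM + Mτ + 4σ²k/τ + 2σk + 2σk/τ + k`.  With `τ ≤ 2σ`, `σ ≤ δ/32 ≤ 1/32`, `k ≤ 2/δ`,
`1/δ ≤ δM/32`: `2σM + Mτ ≤ 4σM ≤ δM/8`, `2σk + k ≤ (17/16) (2/δ) ≤ (17/256) δM`, `4σ²k/τ + 2σk/τ ≤ (17/8) σ k/τ`.  So
`(1 - 1/8 - 17/256) δ M ≤ (17/8) σ k/τ`, i.e. `τ ≤ 3 σ k/(δM) ≤ 6 σ/(δ² M)`.
-/

set_option autoImplicit false

namespace Pool.Agent.RHN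

open Finset

/-- a finite set of integers of diameter at most `L` has at most `L + 1` elements -/
private lemma card_le_diam {T : Finset ℤ} {L : ℝ} (hL : 0 ≤ L)
    (h : ∀ x ∈ T, ∀ y ∈ T, ((x : ℝ) - y) ≤ L) : (T.card : ℝ) ≤ L + 1 := by
  rcases T.eq_empty_or_nonempty with rfl | hT
  · simp only [card_empty, Nat.cast_zero]
    linarith
  · have hmin := T.min'_mem hT
    have hsub : T ⊆ Icc (T.min' hT) (T.min' hT + ⌊L⌋) := by
      intro x hx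
      rw [mem_Icc]
      refine ⟨T.min'_le x hx, ?_⟩
      have h1 := h x hx _ hmin
      have h2 : x - T.min' hT ≤ ⌊L⌋ := Int.le_floor.2 (by push_cast; exact h1)
      linarith
    have h1 := card_le_card hsub
    rw [Int.card_Icc] at h1
    have h2 : 0 ≤ ⌊L⌋ := Int.floor_nonneg.2 hL
    have h3 : (T.card : ℤ) ≤ ⌊L⌋ + 1 := by
      have h4 : (T.card : ℤ) ≤ ((T.min' hT + ⌊L⌋ + 1 - T.min' hT).toNat : ℤ) := by
        exact_mod_cast h1
      rw [Int.toNat_of_nonneg (by linarith)] at h4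
      linarith
    have h5 : (T.card : ℝ) ≤ (⌊L⌋ : ℝ) + 1 := by exact_mod_cast h3
    have h6 := Int.floor_le L
    linarith

/-- two elements of `S` at distance at most `2 / δ` -/
private lemma close_pair {δ : ℝ} (hδ : 0 < δ) (hδ1 : δ ≤ 1) {a : ℤ} {M : ℕ}
    (hM : 32 / δ ^ 2 ≤ M) (S : Finset ℤ) (hS : S ⊆ Ico a (a + M)) (hcard : δ * M ≤ S.card) :
    ∃ m ∈ S, ∃ m' ∈ S, ∃ k : ℕ, 1 ≤ k ∧ (k : ℝ) ≤ 2 / δ ∧ m - m' = k := by
  set q : ℕ := ⌊2 / δ⌋₊ with hq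
  have hq1 : (q : ℝ) ≤ 2 / δ := Nat.floor_le (by positivity)
  have hq2 : 2 / δ < (q : ℝ) + 1 := Nat.lt_floor_add_one _
  have hl : (0 : ℤ) < (q : ℤ) + 1 := by positivity
  have hMδ : 32 ≤ δ * M := by
    rw [div_le_iff₀ (by positivity)] at hM
    nlinarith
  have hmaps : ∀ m ∈ S, (m - a) / ((q : ℤ) + 1) ∈ Icc (0 : ℤ) ((M : ℤ) / ((q : ℤ) + 1)) := by
    intro m hm
    obtain ⟨h1, h2⟩ := mem_Ico.1 (hS hm)
    rw [mem_Icc]
    exact ⟨Int.ediv_nonneg (by linarith) hl.le, Int.ediv_le_ediv hl (by linarith)⟩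
  have hlt : (Icc (0 : ℤ) ((M : ℤ) / ((q : ℤ) + 1))).card < S.card := by
    rw [Int.card_Icc]
    have h0 : (0 : ℤ) ≤ (M : ℤ) / ((q : ℤ) + 1) := Int.ediv_nonneg (by positivity) hl.le
    have h1 : (((M : ℤ) / ((q : ℤ) + 1) + 1 - 0).toNat : ℝ) =
        (((M : ℤ) / ((q : ℤ) + 1) : ℤ) : ℝ) + 1 := by
      have h2 : (((M : ℤ) / ((q : ℤ) + 1) + 1 - 0).toNat : ℤ) =
          (M : ℤ) / ((q : ℤ) + 1) + 1 := by
        rw [Int.toNat_of_nonneg (by linarith)]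
        ring
      exact_mod_cast h2
    have h3 : (((M : ℤ) / ((q : ℤ) + 1) : ℤ) : ℝ) ≤ δ * M / 2 := by
      have h4 : (M : ℤ) / ((q : ℤ) + 1) * ((q : ℤ) + 1) ≤ M := Int.ediv_mul_le _ hl.ne'
      have h5 : (((M : ℤ) / ((q : ℤ) + 1) : ℤ) : ℝ) * ((q : ℝ) + 1) ≤ M := by exact_mod_cast h4
      have h6 : 2 / δ * (((M : ℤ) / ((q : ℤ) + 1) : ℤ) : ℝ) ≤
          (((M : ℤ) / ((q : ℤ) + 1) : ℤ) : ℝ) * ((q : ℝ) + 1) := by
        have h7 : (0 : ℝ) ≤ (((M : ℤ) / ((q : ℤ) + 1) : ℤ) : ℝ) := by exact_mod_cast h0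
        nlinarith
      have h8 := h6.trans h5
      rw [div_mul_eq_mul_div, div_le_iff₀ hδ] at h8
      linarith
    have h9 : (((M : ℤ) / ((q : ℤ) + 1) + 1 - 0).toNat : ℝ) < S.card := by
      rw [h1]
      linarith
    exact_mod_cast h9
  obtain ⟨x, hx, y, hy, hxy, hf⟩ := exists_ne_map_eq_of_card_lt_of_maps_to hlt hmaps
  have key : ∀ x ∈ S, ∀ y ∈ S, y < x → (x - a) / ((q : ℤ) + 1) = (y - a) / ((q : ℤ) + 1) →
      ∃ m ∈ S, ∃ m' ∈ S, ∃ k : ℕ, 1 ≤ k ∧ (k : ℝ) ≤ 2 / δ ∧ m - m' = k := by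
    intro x hx y hy hlt hf
    refine ⟨x, hx, y, hy, (x - y).toNat, ?_, ?_, ?_⟩
    · omega
    · have h1 := Int.emod_add_mul_ediv (x - a) ((q : ℤ) + 1)
      have h2 := Int.emod_add_mul_ediv (y - a) ((q : ℤ) + 1)
      have h3 := Int.emod_lt_of_pos (x - a) hl
      have h4 := Int.emod_nonneg (y - a) hl.ne'
      rw [hf] at h1
      have h5 : x - y ≤ q := by linarith
      have h6 : ((x - y).toNat : ℤ) = x - y := Int.toNat_of_nonneg (by linarith)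
      have h7 : (((x - y).toNat : ℤ) : ℝ) ≤ q := by
        rw [h6]
        exact_mod_cast h5
      have h8 : (((x - y).toNat : ℕ) : ℝ) ≤ q := by exact_mod_cast h7
      exact h8.trans hq1
    · rw [Int.toNat_of_nonneg (by linarith)]
  rcases lt_or_gt_of_ne hxy with h | h
  · exact key y hy x hx h hf.symm
  · exact key x hx y hy h hf

/-- the bound in one residue class -/
private lemma class_bound {σ τ ψ ν : ℝ} (hσ : 0 ≤ σ) (hτ : 0 < τ) (hν : |ν| = τ) {Λ : ℝ}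
    (hΛ : 0 ≤ Λ) (T : Finset ℤ) (hT : ∀ l ∈ T, 0 ≤ (l : ℝ) ∧ (l : ℝ) ≤ Λ) (n : ℤ → ℤ)
    (hn : ∀ l ∈ T, |ψ + l * ν - n l| ≤ σ) :
    (T.card : ℝ) ≤ (Λ * τ + 2 * σ + 1) * (2 * σ / τ + 1) := by
  classical
  have hB : 0 ≤ 2 * σ / τ := by positivity
  have himg : ((T.image n).card : ℝ) ≤ (Λ * τ + 2 * σ) + 1 := by
    refine card_le_diam (by positivity) ?_
    intro x hx y hy
    obtain ⟨l, hl, rfl⟩ := mem_image.1 hx
    obtain ⟨l', hl', rfl⟩ := mem_image.1 hy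
    have h1 := abs_le.1 (hn l hl)
    have h2 := abs_le.1 (hn l' hl')
    have h3 : ((l : ℝ) - l') * ν ≤ Λ * τ := by
      have h4 : |((l : ℝ) - l') * ν| ≤ Λ * τ := by
        rw [abs_mul, hν]
        refine mul_le_mul_of_nonneg_right ?_ hτ.le
        have h5 := hT l hl
        have h6 := hT l' hl'
        exact abs_le.2 ⟨by linarith, by linarith⟩
      exact (le_abs_self _).trans h4
    nlinarith
  have hfib : ∀ y ∈ T.image n, (T.filter fun l => n l = y).card ≤ ⌊2 * σ / τ + 1⌋₊ := by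
    intro y _
    refine Nat.le_floor ?_
    refine card_le_diam hB ?_
    intro l hl l' hl'
    obtain ⟨hl1, hl2⟩ := mem_filter.1 hl
    obtain ⟨hl1', hl2'⟩ := mem_filter.1 hl'
    have h1 := abs_le.1 (hn l hl1)
    have h2 := abs_le.1 (hn l' hl1')
    rw [hl2] at h1
    rw [hl2'] at h2
    rw [le_div_iff₀ hτ]
    have h3 : |((l : ℝ) - l') * ν| ≤ 2 * σ := abs_le.2 ⟨by nlinarith, by nlinarith⟩
    rw [abs_mul, hν] at h3
    exact (mul_le_mul_of_nonneg_right (le_abs_self _) hτ.le).trans h3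
  have h1 := card_le_mul_card_image (f := n) T ⌊2 * σ / τ + 1⌋₊ hfib
  have h2 : (T.card : ℝ) ≤ (⌊2 * σ / τ + 1⌋₊ : ℝ) * (T.image n).card := by exact_mod_cast h1
  have h3 : (⌊2 * σ / τ + 1⌋₊ : ℝ) ≤ 2 * σ / τ + 1 := Nat.floor_le (by positivity)
  calc (T.card : ℝ) ≤ (⌊2 * σ / τ + 1⌋₊ : ℝ) * (T.image n).card := h2
    _ ≤ (2 * σ / τ + 1) * (Λ * τ + 2 * σ + 1) :=
        mul_le_mul h3 himg (Nat.cast_nonneg _) (by positivity)
    _ = _ := mul_comm _ _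

theorem rec1 {δ σ γ c : ℝ} (hδ : 0 < δ) (hδ1 : δ ≤ 1) (hσ : 0 ≤ σ) (hσδ : σ ≤ δ / 32) {a : ℤ} {M : ℕ}
    (hM : 32 / δ ^ 2 ≤ M) (S : Finset ℤ) (hS : S ⊆ Ico a (a + M)) (hcard : δ * M ≤ S.card)
    (h : ∀ m ∈ S, nd (γ * m - c) ≤ σ) :
    ∃ k : ℕ, 1 ≤ k ∧ (k : ℝ) ≤ 2 / δ ∧ nd (k * γ) ≤ 8 * σ / (δ ^ 2 * M) := by
  classical
  obtain ⟨m, hm, m', hm', k, hk1, hk2, hmm⟩ := close_pair hδ hδ1 hM S hS hcard
  refine ⟨k, hk1, hk2, ?_⟩
  have hMpos : (0 : ℝ) < M := by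
    have : 0 < 32 / δ ^ 2 := by positivity
    linarith
  have hkpos : (0 : ℝ) < k := by exact_mod_cast hk1
  have hkZ : (0 : ℤ) < (k : ℤ) := by exact_mod_cast hk1
  have hτ2 : nd (k * γ) ≤ 2 * σ := by
    have h1 := nd_sub_le (γ * m - c) (γ * m' - c)
    have h2 : (γ * m - c) - (γ * m' - c) = k * γ := by
      have h3 : (m : ℝ) - m' = k := by exact_mod_cast hmm
      rw [← h3]
      ring
    rw [h2] at h1
    linarith [h m hm, h m' hm']
  set τ : ℝ := nd (k * γ) with hτ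
  rcases (nd_nonneg (k * γ)).eq_or_lt with h0 | h0
  · rw [hτ, ← h0]
    positivity
  rw [← hτ] at h0
  obtain ⟨N₀, hN₀⟩ := exists_nd (k * γ)
  rw [← hτ] at hN₀
  set ν : ℝ := k * γ - N₀ with hνdef
  have hν : |ν| = τ := hN₀.symm
  -- the residue classes
  have hres : ∀ x ∈ S, (x - a) % (k : ℤ) ∈ Ico (0 : ℤ) k := fun x _ =>
    mem_Ico.2 ⟨Int.emod_nonneg _ hkZ.ne', Int.emod_lt_of_pos _ hkZ⟩
  have hclass : ∀ i ∈ Ico (0 : ℤ) k,
      (((S.filter fun x => (x - a) % (k : ℤ) = i).card : ℕ) : ℝ) ≤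
        ((M : ℝ) / k * τ + 2 * σ + 1) * (2 * σ / τ + 1) := by
    intro i _
    set Si := S.filter fun x => (x - a) % (k : ℤ) = i with hSi
    have hinj : Set.InjOn (fun x : ℤ => (x - a) / (k : ℤ)) Si := by
      intro x hx y hy hxy
      have hx2 := (mem_filter.1 (mem_coe.1 hx)).2
      have hy2 := (mem_filter.1 (mem_coe.1 hy)).2
      have h1 := Int.emod_add_mul_ediv (x - a) (k : ℤ)
      have h2 := Int.emod_add_mul_ediv (y - a) (k : ℤ)
      simp only at hxy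
      rw [hx2, hxy] at h1
      rw [hy2] at h2
      linarith
    rw [← card_image_of_injOn hinj]
    refine class_bound (ψ := γ * ((a : ℝ) + i) - c) (ν := ν) hσ h0 hν (by positivity) _ ?_
      (fun l => round (γ * ((a + i + k * l : ℤ) : ℝ) - c) - l * N₀) ?_
    · intro l hl
      obtain ⟨x, hx, rfl⟩ := mem_image.1 hl
      obtain ⟨hx1, hx2⟩ := mem_filter.1 hx
      obtain ⟨h3, h4⟩ := mem_Ico.1 (hS hx1)
      have h5 : (0 : ℤ) ≤ (x - a) / (k : ℤ) := Int.ediv_nonneg (by linarith) hkZ.le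
      refine ⟨by exact_mod_cast h5, ?_⟩
      rw [le_div_iff₀ hkpos]
      have h6 : (x - a) / (k : ℤ) * k ≤ x - a := Int.ediv_mul_le _ hkZ.ne'
      have h7 : (x - a) / (k : ℤ) * k ≤ M := by linarith
      exact_mod_cast h7
    · intro l hl
      obtain ⟨x, hx, rfl⟩ := mem_image.1 hl
      obtain ⟨hx1, hx2⟩ := mem_filter.1 hx
      have h1 := Int.emod_add_mul_ediv (x - a) (k : ℤ)
      rw [hx2] at h1
      have h2 : a + i + k * ((x - a) / (k : ℤ)) = x := by linarith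
      rw [h2]
      have h3 := h x hx1
      unfold nd at h3
      have h4 : (x : ℝ) = (a : ℝ) + i + k * (((x - a) / (k : ℤ) : ℤ) : ℝ) := by
        exact_mod_cast h2.symm
      have h5 : γ * ((a : ℝ) + i) - c + (((x - a) / (k : ℤ) : ℤ) : ℝ) * ν -
          ((round (γ * (x : ℝ) - c) - (x - a) / (k : ℤ) * N₀ : ℤ) : ℝ) =
          γ * x - c - round (γ * (x : ℝ) - c) := by
        push_cast
        rw [hνdef]
        have h6 : γ * (x : ℝ) = γ * ((a : ℝ) + i + k * (((x - a) / (k : ℤ) : ℤ) : ℝ)) := by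
          rw [← h4]
        linarith
      rw [h5]
      exact h3
  have hsum : (S.card : ℝ) ≤ k * (((M : ℝ) / k * τ + 2 * σ + 1) * (2 * σ / τ + 1)) := by
    have h1 := card_eq_sum_card_fiberwise (f := fun x : ℤ => (x - a) % (k : ℤ)) (s := S)
      (t := Ico (0 : ℤ) k) hres
    have h2 : (S.card : ℝ) = ∑ i ∈ Ico (0 : ℤ) k,
        (((S.filter fun x => (x - a) % (k : ℤ) = i).card : ℕ) : ℝ) := by exact_mod_cast h1
    rw [h2]
    refine (sum_le_sum hclass).trans ?_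
    rw [sum_const, Int.card_Ico, nsmul_eq_mul]
    simp
  -- arithmetic
  have hfin : δ * M * τ ≤ (M * τ + 2 * σ * k + k) * (2 * σ + τ) := by
    have h1 := hcard.trans hsum
    have h2 : (k : ℝ) * (((M : ℝ) / k * τ + 2 * σ + 1) * (2 * σ / τ + 1)) * τ =
        (M * τ + 2 * σ * k + k) * (2 * σ + τ) := by
      field_simp
    rw [← h2]
    exact mul_le_mul_of_nonneg_right h1 h0.le
  have hkδ : (k : ℝ) * δ ≤ 2 := by
    rwa [le_div_iff₀ hδ] at hk2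
  have hMδ : 32 ≤ δ ^ 2 * M := by
    rw [div_le_iff₀ (by positivity)] at hM
    linarith
  have hk3 : (k : ℝ) ≤ δ * M / 16 := by
    have h1 : (k : ℝ) * δ ≤ δ * M / 16 * δ := by nlinarith
    exact le_of_mul_le_mul_right h1 hδ
  have hσ32 : σ ≤ 1 / 32 := by linarith
  have e1 : 2 * σ * M * τ + M * τ * τ ≤ δ * M * τ / 8 := by
    have h1 : M * τ * τ ≤ M * τ * (2 * σ) := mul_le_mul_of_nonneg_left hτ2 (by positivity)
    have h2 : M * τ * σ ≤ M * τ * (δ / 32) := mul_le_mul_of_nonneg_left hσδ (by positivity)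
    nlinarith
  have e2 : 2 * σ * k * τ + k * τ ≤ 17 / 256 * (δ * M * τ) := by
    have h1 : k * τ * σ ≤ k * τ * (1 / 32) := mul_le_mul_of_nonneg_left hσ32 (by positivity)
    have h2 : k * τ ≤ δ * M / 16 * τ := mul_le_mul_of_nonneg_right hk3 h0.le
    nlinarith
  have e3 : 4 * σ * σ * k + 2 * σ * k ≤ 17 / 8 * (σ * k) := by
    have h1 : σ * k * σ ≤ σ * k * (1 / 32) := mul_le_mul_of_nonneg_left hσ32 (by positivity)
    nlinarith
  have e4 : 207 / 256 * (δ * M * τ) ≤ 17 / 8 * (σ * k) := by nlinarith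
  rw [le_div_iff₀ (by positivity)]
  have e5 : 207 / 256 * (δ * M * τ) * δ ≤ 17 / 8 * (σ * k) * δ :=
    mul_le_mul_of_nonneg_right e4 hδ.le
  have e6 : σ * (k * δ) ≤ σ * 2 := mul_le_mul_of_nonneg_left hkδ hσ
  nlinarith

end Pool.Agent.RHN
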