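import Pool.Agent.RHN.Defs

/-!
# RHN / Red: rational approximation of `θ` on the major arcs

PROOF.  Let `l` be a nonzero integer and `r` a rational number with denominator dividing `V` (`r = j/V` or `0`).  From `k` we get an integer `m` with
`|k (θ l + r) - m| ≤ (log x)^{C₂}/x^D`, so `θ = (m/k - r)/l + β`, `|β| ≤ (log x)^{C₂}/x^D`, and `(m/k - r)/l = a/q` in lowest terms with
`1 ≤ q ≤ k V |l| ≤ (log x)^{C₃}` for large `x`.  `θ` is irrational, so `c := min_{1 ≤ q < B₀} dist(θ, (1/q) ℤ) > 0`; for large `x` `|θ - a/q| < c`, so `q ≥ B₀`.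
-/

set_option autoImplicit false

namespace Pool.Agent.RHN

open Finset Filter

private lemma red_nd_pos {θ : ℝ} (hθ : Irrational θ) {q : ℕ} (hq : 1 ≤ q) : 0 < nd (q * θ) := by
  rcases (nd_nonneg (q * θ)).lt_or_eq with h | h
  · exact h
  · exfalso
    obtain ⟨n, hn⟩ := exists_nd (q * θ)
    rw [← h] at hn
    have h1 : (q : ℝ) * θ - n = 0 := abs_eq_zero.mp hn.symm
    have h2 : Irrational ((q : ℝ) * θ) := by
      have h3 : Irrational (((q : ℚ) : ℝ) * θ) := hθ.ratCast_mul (by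
        have : (q : ℚ) ≠ 0 := by positivity
        exact this)
      simpa using h3
    exact h2.ne_int n (by linarith)

private lemma red_small (C : ℕ) {c : ℝ} (hc : 0 < c) :
    ∀ᶠ x : ℕ in atTop, Real.log x ^ C ≤ c * x := by
  have h := (Real.isLittleO_pow_log_id_atTop (n := C)).def hc
  have h2 := tendsto_natCast_atTop_atTop.eventually h
  filter_upwards [h2, eventually_ge_atTop 1] with x hx hx1
  have h3 : 0 ≤ Real.log (x : ℝ) := Real.log_nonneg (by exact_mod_cast hx1)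
  rw [Real.norm_of_nonneg (pow_nonneg h3 C), id, Real.norm_of_nonneg (Nat.cast_nonneg x)] at hx
  exact hx

private lemma red_log (A : ℝ) : ∀ᶠ x : ℕ in atTop, A ≤ Real.log x :=
  (Real.tendsto_log_atTop.comp tendsto_natCast_atTop_atTop).eventually_ge_atTop A

theorem approx (D : ℕ) (hD : 1 ≤ D) (θ : ℝ) (hθ : Irrational θ) (V : ℕ) (hV : 1 ≤ V) (l : ℤ) (hl : l ≠ 0)
    (j : ℤ) (C₂ : ℕ) : ∃ C₃ : ℕ, ∀ B₀ : ℕ, ∃ x₀ : ℕ, ∀ x : ℕ, x₀ ≤ x →
    (∃ k : ℕ, 1 ≤ k ∧ (k : ℝ) ≤ Real.log x ^ C₂ ∧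
      nd (k * (θ * l + (j : ℝ) / V)) ≤ Real.log x ^ C₂ / (x : ℝ) ^ D) →
    ∃ (a : ℤ) (q : ℕ), B₀ ≤ q ∧ 1 ≤ q ∧ (q : ℝ) ≤ Real.log x ^ C₃ ∧ IsCoprime a (q : ℤ) ∧
      |θ - (a : ℝ) / q| ≤ Real.log x ^ C₃ / (x : ℝ) ^ D := by
  refine ⟨C₂ + 1, fun B₀ => ?_⟩
  have hev : ∀ᶠ x : ℕ in atTop, ∀ q ∈ Icc 1 B₀, Real.log x ^ C₂ ≤ nd (q * θ) / (2 * q) * x := by
    rw [eventually_all_finset]
    intro q hq
    have hq1 := (mem_Icc.mp hq).1
    have hq0 : (0 : ℝ) < q := by exact_mod_cast hq1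
    exact red_small C₂ (div_pos (red_nd_pos hθ hq1) (by positivity))
  have h0 := (((hev.and (red_log ((V : ℝ) * |(l : ℝ)|))).and (red_log 1)).and
    (eventually_ge_atTop 1)).exists_forall_of_atTop
  obtain ⟨x₀, hx₀⟩ := h0
  refine ⟨x₀, fun x hx => ?_⟩
  obtain ⟨⟨⟨h1, h2⟩, h3⟩, h4⟩ := hx₀ x hx
  rintro ⟨k, hk1, hk2, hk3⟩
  obtain ⟨m, hm⟩ := exists_nd (k * (θ * l + (j : ℝ) / V))
  rw [hm] at hk3
  have hx1 : (1 : ℝ) ≤ x := by exact_mod_cast h4
  have hk0 : (0 : ℝ) < k := by exact_mod_cast hk1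
  have hk1' : (1 : ℝ) ≤ k := by exact_mod_cast hk1
  have hV0 : (0 : ℝ) < V := by exact_mod_cast hV
  have hl0 : (l : ℝ) ≠ 0 := by exact_mod_cast hl
  have hl1 : (1 : ℝ) ≤ |(l : ℝ)| := by
    rw [← Int.cast_abs]
    exact_mod_cast Int.one_le_abs hl
  have hxD : (0 : ℝ) < (x : ℝ) ^ D := by positivity
  have hL : 0 ≤ Real.log (x : ℝ) := by linarith
  set r : ℚ := ((m : ℚ) * V - j * k) / (k * V * l) with hr
  have hkQ : (k : ℚ) ≠ 0 := by positivity
  have hVQ : (V : ℚ) ≠ 0 := by positivity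
  have hlQ : (l : ℚ) ≠ 0 := by exact_mod_cast hl
  have hrr : (r : ℝ) = ((m : ℝ) * V - j * k) / (k * V * l) := by
    rw [hr]; push_cast; ring
  have herr : |θ - r| ≤ Real.log x ^ C₂ / (x : ℝ) ^ D := by
    have e1 : θ - r = (k * (θ * l + (j : ℝ) / V) - m) / (k * l) := by
      rw [hrr]
      field_simp
      ring
    rw [e1, abs_div, abs_mul, abs_of_pos hk0]
    have e2 : (1 : ℝ) ≤ k * |(l : ℝ)| := by nlinarith
    exact (div_le_self (abs_nonneg _) e2).trans hk3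
  have hden : (r.den : ℤ) ∣ (k : ℤ) * V * l := by
    have e1 : r = ((m * V - j * k : ℤ) : ℚ) / ((k * V * l : ℤ) : ℚ) := by
      rw [hr]; push_cast; ring
    rw [e1, ← Rat.divInt_eq_div]
    exact Rat.den_dvd _ _
  have hden2 : (r.den : ℝ) ≤ k * (V * |(l : ℝ)|) := by
    have e0 : (k : ℤ) * V * l ≠ 0 := by
      have a1 : (k : ℤ) ≠ 0 := by positivity
      have a2 : (V : ℤ) ≠ 0 := by positivity
      exact mul_ne_zero (mul_ne_zero a1 a2) hl
    have e1 := Int.le_of_dvd (abs_pos.mpr e0) ((dvd_abs _ _).mpr hden)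
    have e2 : ((r.den : ℤ) : ℝ) ≤ ((|(k : ℤ) * V * l| : ℤ) : ℝ) := by exact_mod_cast e1
    rw [Int.cast_abs] at e2
    push_cast at e2
    rw [abs_mul, abs_mul, abs_of_pos hk0, abs_of_pos hV0] at e2
    linarith
  have hqpos : 1 ≤ r.den := r.pos
  have hq0 : (0 : ℝ) < r.den := by exact_mod_cast hqpos
  have hrq : (r : ℝ) = (r.num : ℝ) / r.den := by
    exact_mod_cast (Rat.num_div_den r).symm
  refine ⟨r.num, r.den, ?_, hqpos, ?_, ?_, ?_⟩
  · by_contra hlt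
    push Not at hlt
    have e1 := h1 r.den (mem_Icc.mpr ⟨hqpos, hlt.le⟩)
    have e2 := nd_le_abs (r.den * θ) r.num
    have e3 : (r.den : ℝ) * θ - r.num = r.den * (θ - r) := by
      rw [hrq]; field_simp
    rw [e3, abs_mul, abs_of_pos hq0] at e2
    have e4 : Real.log x ^ C₂ / (x : ℝ) ^ D ≤ nd (r.den * θ) / (2 * r.den) := by
      rw [div_le_iff₀ hxD]
      refine e1.trans ?_
      have e5 : (x : ℝ) ≤ (x : ℝ) ^ D := le_self_pow₀ hx1 (by omega)
      have e6 : 0 ≤ nd (r.den * θ) / (2 * r.den) := div_nonneg (nd_nonneg _) (by positivity)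
      exact mul_le_mul_of_nonneg_left e5 e6
    have e7 : (r.den : ℝ) * |θ - r| ≤ r.den * (nd (r.den * θ) / (2 * r.den)) :=
      mul_le_mul_of_nonneg_left (herr.trans e4) hq0.le
    have e8 : (r.den : ℝ) * (nd (r.den * θ) / (2 * r.den)) = nd (r.den * θ) / 2 := by
      field_simp
    have e9 := red_nd_pos hθ hqpos
    linarith
  · rw [pow_succ]
    refine hden2.trans ?_
    exact mul_le_mul hk2 h2 (by positivity) (by positivity)
  · have e1 := r.reduced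
    exact Int.isCoprime_iff_nat_coprime.mpr (by simpa using e1)
  · rw [← hrq]
    refine herr.trans ?_
    refine div_le_div_of_nonneg_right ?_ hxD.le
    exact pow_le_pow_right₀ h3 (Nat.le_succ C₂)

end Pool.Agent.RHN
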