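import Pool.Agent.RHN.Maj
import Pool.Agent.RHN.Min
import Pool.Agent.RHN.KB
import Pool.Agent.RHN.Red
import Pool.Agent.Helper6.PNT

/-!
# RHN / Rhin: Rhin's theorem with a twist

PROOF of `rhin_tw`.  Let `D = P.natDegree`, `l = P.coeff D ≠ 0`, and `G = C θ * P.map + C (j/V) * X` (real polynomial, degree `≤ D`,
`G.eval p = θ pe P p + j p/V`); its coefficient of `X^D` is `θ l + j'/V` with `j' = j` if `D = 1` and `j' = 0` if `D ≥ 2`.  Suppose
`|∑| > ε x/log x`, `x` large.  `minor` (`ε`) gives `C₂` and `k`; `approx` (with `j'`) gives `C₃`, `a`, `q`.  Let `C₁ = C₃ + 2`; `maj C₁ (ε/8)` gives `η`; `kb D C₀ η` with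
`C₀ = V² |l|` gives `Q₀`; use `approx` with `B₀ = Q₀`.  Put `Q = q V` (`≤ (log x)^{C₁}` for large `x`), `K = C (a V) * P + C (j q) * X ∈ ℤ[X]`, `K(n)/Q = (a/q) P(n) + j n/V`.
`gcd(K_D, Q) ≤ C₀`: `D ≥ 2`: `gcd(a V l, q V) = V gcd(a l, q) ≤ V |l|`, as `gcd(a, q) = 1`.  `D = 1`: `g = gcd(a V l + j q, q V)`:
`g ∣ gcd(g, q) · V`, and `gcd(g, q)` divides `q` and `a V l`, hence `V l`; so `g ≤ V² |l|`.
So `F(n) = e(K(n)/Q)` (a function on `ZMod Q`: `Q ∣ K(m) - K(m')` for `m ≡ m'`) satisfies `Bil Q F η`, `|F| = 1`.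
Let `β = θ - a/q`, `|β| ≤ (log x)^{C₃}/x^D`, `h = ⌊x/(log x)^{C₁}⌋₊ + 1` (`x ≤ h (log x)^{C₁}`, `h ≤ 2x/(log x)^{C₁}`).  Cut `(0, x]` into the segments `(ih, (i+1)h]`, `(i+1) h ≤ x`, and a rest of
at most `h` numbers.  For `p` in such a segment `e(θ P(p) + jp/V) = F(p) e(β P(p))` and `|β P(p) - β P(ih)| ≤ |β| C_P x^{D-1} h ≤ 2 C_P (log x)^{C₃ - C₁} ≤ 2 C_P/(log x)²`, so
the sum over the segment is `e(β P(ih)) ∑_p F(p)` up to `(4π C_P/(log x)²) · #primes`; `maj`: `|∑_p F(p)| ≤ (ε/8) h/log x`.  Total: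
`≤ (ε/8)(x + h)/log x + 4π C_P x/(log x)² + h < ε x/log x` for large `x` (trivially at most `x` primes): contradiction.
`rhin`: `[p ≡ b (V)] = (1/V) ∑_{j<V} e(j(p-b)/V)`.
-/

set_option autoImplicit false

namespace Pool.Agent.RHN

open Finset Polynomial

/-- cutting an initial interval into segments of length `h` -/
private theorem seg_sum (f : ℕ → ℂ) (hf : ∀ n, ‖f n‖ ≤ 1) {h x : ℕ} (hh : 1 ≤ h) {M : ℝ}
    (hM : 0 ≤ M)
    (hseg : ∀ i, i * h + h ≤ x →
      ‖∑ p ∈ (Ioc (i * h) (i * h + h)).filter Nat.Prime, f p‖ ≤ M * h) :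
    ‖∑ p ∈ (Icc 1 x).filter Nat.Prime, f p‖ ≤ M * x + h := by
  have hseg' : ∀ i, i * h + h ≤ x →
      ‖∑ p ∈ Ioc (i * h) (i * h + h), if p.Prime then f p else 0‖ ≤ M * h := by
    intro i hi
    have := hseg i hi
    rwa [sum_filter] at this
  have key : ∀ n, n * h ≤ x →
      ‖∑ p ∈ Ioc 0 (n * h), if p.Prime then f p else 0‖ ≤ M * (n * h : ℕ) := by
    intro n
    induction n with
    | zero =>
      intro _
      simp
    | succ n ih =>
      intro hn
      have e1 : (n + 1) * h = n * h + h := by ring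
      rw [e1] at hn ⊢
      rw [← sum_Ioc_consecutive (fun p => if p.Prime then f p else 0) (Nat.zero_le (n * h))
        (Nat.le_add_right _ h)]
      refine (norm_add_le _ _).trans ?_
      have h1 := ih (by omega)
      have h2 := hseg' n hn
      push_cast at h1 ⊢
      linarith
  have hIcc : Icc 1 x = Ioc 0 x := rfl
  rw [hIcc, sum_filter]
  have hn : x / h * h ≤ x := Nat.div_mul_le_self x h
  rw [← sum_Ioc_consecutive (fun p => if p.Prime then f p else 0) (Nat.zero_le (x / h * h)) hn]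
  refine (norm_add_le _ _).trans (add_le_add ?_ ?_)
  · refine (key _ hn).trans (mul_le_mul_of_nonneg_left ?_ hM)
    exact_mod_cast hn
  · have h1 : ‖∑ p ∈ Ioc (x / h * h) x, if p.Prime then f p else 0‖ ≤
        ∑ p ∈ Ioc (x / h * h) x, (1 : ℝ) := by
      refine (norm_sum_le _ _).trans (sum_le_sum fun p _ => ?_)
      split_ifs
      · exact hf p
      · rw [norm_zero]
        exact zero_le_one
    refine h1.trans ?_
    rw [sum_const, Nat.card_Ioc, nsmul_eq_mul, mul_one]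
    have h2 : x - x / h * h ≤ h := by
      have := Nat.div_add_mod x h
      have h3 := Nat.mod_lt x (by omega : 0 < h)
      have h4 : h * (x / h) = x / h * h := Nat.mul_comm _ _
      omega
    exact_mod_cast h2

private theorem pow_diff (i : ℕ) {a b x : ℝ} (ha0 : 0 ≤ a) (hax : a ≤ x) (hb0 : 0 ≤ b)
    (hbx : b ≤ x) : |a ^ i - b ^ i| ≤ i * x ^ (i - 1) * |a - b| := by
  have hx0 : 0 ≤ x := ha0.trans hax
  induction i with
  | zero => simp
  | succ i ih =>
    have e1 : a ^ (i + 1) - b ^ (i + 1) = a * (a ^ i - b ^ i) + (a - b) * b ^ i := by ring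
    rw [e1]
    refine (abs_add_le _ _).trans ?_
    rw [abs_mul, abs_mul, abs_of_nonneg ha0, abs_of_nonneg (pow_nonneg hb0 i)]
    have h1 : b ^ i ≤ x ^ i := pow_le_pow_left₀ hb0 hbx i
    have h2 : a * |a ^ i - b ^ i| ≤ x * (i * x ^ (i - 1) * |a - b|) :=
      mul_le_mul hax ih (abs_nonneg _) hx0
    have h3 : |a - b| * b ^ i ≤ |a - b| * x ^ i := mul_le_mul_of_nonneg_left h1 (abs_nonneg _)
    have h4 : x * (i * x ^ (i - 1) * |a - b|) = i * x ^ i * |a - b| := by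
      rcases Nat.eq_zero_or_pos i with h | h
      · subst h
        simp
      · obtain ⟨k, rfl⟩ : ∃ k, i = k + 1 := ⟨i - 1, by omega⟩
        rw [Nat.add_sub_cancel]
        ring
    rw [h4] at h2
    rw [Nat.add_sub_cancel]
    push_cast
    linarith

private theorem pe_sum (P : ℤ[X]) (n : ℕ) :
    pe P n = ∑ i ∈ range (P.natDegree + 1), (P.coeff i : ℝ) * (n : ℝ) ^ i := by
  unfold pe
  rw [eval_eq_sum_range]
  push_cast
  rfl

private theorem pe_diff (P : ℤ[X]) : ∃ C : ℝ, 0 ≤ C ∧ ∀ x : ℕ, 1 ≤ x → ∀ m n : ℕ, m ≤ x → n ≤ x →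
    |pe P m - pe P n| ≤ C * (x : ℝ) ^ (P.natDegree - 1) * |(m : ℝ) - n| := by
  refine ⟨∑ i ∈ range (P.natDegree + 1), |(P.coeff i : ℝ)| * P.natDegree,
    sum_nonneg fun i _ => by positivity, ?_⟩
  intro x hx m n hm hn
  have hx1 : (1 : ℝ) ≤ x := by exact_mod_cast hx
  rw [pe_sum, pe_sum, ← sum_sub_distrib, sum_mul, sum_mul]
  refine (abs_sum_le_sum_abs _ _).trans (sum_le_sum fun i hi => ?_)
  rw [mem_range] at hi
  rw [← mul_sub, abs_mul]
  have h1 := pow_diff i (x := (x : ℝ)) (Nat.cast_nonneg m) (by exact_mod_cast hm)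
    (Nat.cast_nonneg n) (by exact_mod_cast hn)
  have h2 : (i : ℝ) * (x : ℝ) ^ (i - 1) ≤ (P.natDegree : ℝ) * (x : ℝ) ^ (P.natDegree - 1) := by
    refine mul_le_mul ?_ (pow_le_pow_right₀ hx1 (by omega)) (by positivity) (by positivity)
    exact_mod_cast (by omega : i ≤ P.natDegree)
  have h3 := h1.trans (mul_le_mul_of_nonneg_right h2 (abs_nonneg _))
  have h4 := mul_le_mul_of_nonneg_left h3 (abs_nonneg (P.coeff i : ℝ))
  refine h4.trans (le_of_eq ?_)
  ring

private theorem pe_mod (K : ℤ[X]) (Q : ℕ) [NeZero Q] (n : ℕ) :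
    ee (pe K (n : ZMod Q).val / Q) = ee (pe K n / Q) := by
  have hQ : (Q : ℝ) ≠ 0 := by exact_mod_cast NeZero.ne Q
  have h1 : ((n : ℤ) - ((n % Q : ℕ) : ℤ)) ∣ K.eval (n : ℤ) - K.eval ((n % Q : ℕ) : ℤ) :=
    sub_dvd_eval_sub _ _ K
  have h2 : (Q : ℤ) ∣ (n : ℤ) - ((n % Q : ℕ) : ℤ) := by
    refine ⟨((n / Q : ℕ) : ℤ), ?_⟩
    have := Nat.div_add_mod n Q
    have h3 : (n : ℤ) = Q * ((n / Q : ℕ) : ℤ) + ((n % Q : ℕ) : ℤ) := by exact_mod_cast this.symm
    linarith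
  obtain ⟨t, ht⟩ := h2.trans h1
  rw [ZMod.val_natCast]
  have h3 : pe K n / Q = pe K (n % Q) / Q + t := by
    unfold pe
    have h4 : ((K.eval (n : ℤ) : ℤ) : ℝ) = ((K.eval ((n % Q : ℕ) : ℤ) : ℤ) : ℝ) + Q * t := by
      have h5 : K.eval (n : ℤ) = K.eval ((n % Q : ℕ) : ℤ) + Q * t := by linarith
      rw [h5]
      push_cast
      ring
    rw [h4]
    field_simp
  rw [h3, ee_add_int]

private theorem gcd_bd {a l j' : ℤ} {q V : ℕ} (hV : 1 ≤ V) (hl : l ≠ 0)
    (hc : IsCoprime a (q : ℤ)) :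
    Nat.gcd (a * V * l + j' * q).natAbs (q * V) ≤ V ^ 2 * l.natAbs := by
  set g := Nat.gcd (a * V * l + j' * q).natAbs (q * V) with hg
  have h1 : (g : ℤ) ∣ a * V * l + j' * q := Int.natCast_dvd.2 (Nat.gcd_dvd_left _ _)
  have h2 : (g : ℤ) ∣ ((q * V : ℕ) : ℤ) := Int.natCast_dvd_natCast.2 (Nat.gcd_dvd_right _ _)
  push_cast at h2
  obtain ⟨u, v, huv⟩ := hc
  have h3 : (g : ℤ) ∣ (V : ℤ) ^ 2 * l := by
    have e1 : (V : ℤ) ^ 2 * l = (a * V * l + j' * q) * (u * V) +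
        (q * V) * (v * (V * l) - u * j') := by
      calc (V : ℤ) ^ 2 * l = (u * a + v * q) * ((V : ℤ) ^ 2 * l) := by rw [huv, one_mul]
        _ = _ := by ring
    rw [e1]
    exact dvd_add (h1.mul_right _) (h2.mul_right _)
  have h4 := Int.natCast_dvd.1 h3
  rw [Int.natAbs_mul, Int.natAbs_pow, Int.natAbs_natCast] at h4
  refine Nat.le_of_dvd ?_ h4
  have := Int.natAbs_pos.2 hl
  positivity

private theorem main_est {P K : ℤ[X]} {D : ℕ} (hD : 1 ≤ D) {θ ε CP Lx : ℝ} {V q x C₃ : ℕ}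
    {a j : ℤ} (hε : 0 < ε) (hCP0 : 0 ≤ CP) (hx : 1 ≤ x)
    (hCP : ∀ m n : ℕ, m ≤ x → n ≤ x →
      |pe P m - pe P n| ≤ CP * (x : ℝ) ^ (D - 1) * |(m : ℝ) - n|)
    (hL1 : 1 ≤ Lx) (hC : 32 * Real.pi * CP ≤ ε * Lx) (h8 : 8 ≤ ε * Lx)
    (hpow : Lx ^ (C₃ + 2) ≤ x) (hβ : |θ - (a : ℝ) / q| ≤ Lx ^ C₃ / (x : ℝ) ^ D)
    (hK : ∀ n : ℕ, pe K n / (q * V : ℕ) = (a : ℝ) / q * pe P n + (j : ℝ) * n / V)
    (hseg : ∀ y h : ℕ, y + h ≤ x → (x : ℝ) ≤ h * Lx ^ (C₃ + 2) →
      ‖∑ p ∈ (Ioc y (y + h)).filter Nat.Prime, ee (pe K p / (q * V : ℕ))‖ ≤ ε / 8 * h / Lx) :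
    ‖∑ p ∈ (Icc 1 x).filter Nat.Prime, ee (θ * pe P p + (j : ℝ) * p / V)‖ ≤
      ε / 2 * (x / Lx) := by
  have hxpos : (0 : ℝ) < x := by exact_mod_cast hx
  have hL0 : 0 < Lx := by linarith
  have hpi := Real.pi_pos
  set W := Lx ^ (C₃ + 2) with hW
  have hW0 : 0 < W := pow_pos hL0 _
  set h := ⌊(x : ℝ) / W⌋₊ + 1 with hh
  have hxh : (x : ℝ) ≤ h * W := by
    have h1 : (x : ℝ) / W < h := by
      rw [hh]
      push_cast
      exact Nat.lt_floor_add_one _
    rw [div_lt_iff₀ hW0] at h1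
    exact h1.le
  have hh2 : (h : ℝ) ≤ 2 * (x / W) := by
    have h1 : (⌊(x : ℝ) / W⌋₊ : ℝ) ≤ x / W := Nat.floor_le (by positivity)
    have h2 : 1 ≤ (x : ℝ) / W := (one_le_div hW0).2 hpow
    rw [hh]
    push_cast
    linarith
  set β := θ - (a : ℝ) / q with hβdef
  have hsplit : ∀ p : ℕ, ee (θ * pe P p + (j : ℝ) * p / V) =
      ee (pe K p / (q * V : ℕ)) * ee (β * pe P p) := by
    intro p
    rw [hK, ← ee_add]
    congr 1
    rw [hβdef]
    ring
  -- the error of one point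
  have hpt : ∀ y p : ℕ, y ≤ p → p ≤ y + h → p ≤ x →
      ‖ee (β * pe P p) - ee (β * pe P y)‖ ≤ ε / (8 * Lx) := by
    intro y p hyp hph hpx
    refine (norm_ee_sub_ee _ _).trans ?_
    rw [← mul_sub, abs_mul]
    have h1 := hCP p y hpx (hyp.trans hpx)
    have h2 : |(p : ℝ) - y| ≤ h := by
      rw [abs_of_nonneg (sub_nonneg.2 (by exact_mod_cast hyp))]
      have : (p : ℝ) ≤ y + h := by exact_mod_cast hph
      linarith
    have h3 : |pe P p - pe P y| ≤ CP * (x : ℝ) ^ (D - 1) * (2 * (x / W)) :=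
      h1.trans (mul_le_mul_of_nonneg_left (h2.trans hh2) (by positivity))
    have h4 : |β| * |pe P p - pe P y| ≤ Lx ^ C₃ / (x : ℝ) ^ D *
        (CP * (x : ℝ) ^ (D - 1) * (2 * (x / W))) :=
      mul_le_mul hβ h3 (abs_nonneg _) (by positivity)
    have h5 : Lx ^ C₃ / (x : ℝ) ^ D * (CP * (x : ℝ) ^ (D - 1) * (2 * (x / W))) =
        2 * CP / Lx ^ 2 := by
      obtain ⟨k, rfl⟩ : ∃ k, D = k + 1 := ⟨D - 1, by omega⟩
      rw [Nat.add_sub_cancel, hW, pow_add Lx C₃ 2, pow_succ (x : ℝ) k]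
      field_simp
    rw [h5] at h4
    have h6 : 2 * Real.pi * (|β| * |pe P p - pe P y|) ≤ 2 * Real.pi * (2 * CP / Lx ^ 2) :=
      mul_le_mul_of_nonneg_left h4 (by positivity)
    refine h6.trans ?_
    rw [le_div_iff₀ (by positivity)]
    have e1 : 2 * Real.pi * (2 * CP / Lx ^ 2) * (8 * Lx) = 32 * Real.pi * CP / Lx := by
      field_simp
      ring
    rw [e1, div_le_iff₀ hL0]
    exact hC
  have hfin := seg_sum (fun p => ee (θ * pe P p + (j : ℝ) * p / V)) (fun n => (norm_ee _).le)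
    (h := h) (x := x) (by omega) (M := ε / (4 * Lx)) (by positivity) (by
      intro i hi
      have e1 : ∑ p ∈ (Ioc (i * h) (i * h + h)).filter Nat.Prime,
          ee (θ * pe P p + (j : ℝ) * p / V) =
          (∑ p ∈ (Ioc (i * h) (i * h + h)).filter Nat.Prime, ee (pe K p / (q * V : ℕ))) *
            ee (β * pe P (i * h : ℕ)) +
          ∑ p ∈ (Ioc (i * h) (i * h + h)).filter Nat.Prime, ee (pe K p / (q * V : ℕ)) *
            (ee (β * pe P p) - ee (β * pe P (i * h : ℕ))) := by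
        rw [sum_mul, ← sum_add_distrib]
        refine sum_congr rfl fun p _ => ?_
        rw [hsplit p]
        ring
      rw [e1]
      refine (norm_add_le _ _).trans ?_
      have h1 : ‖(∑ p ∈ (Ioc (i * h) (i * h + h)).filter Nat.Prime,
          ee (pe K p / (q * V : ℕ))) * ee (β * pe P (i * h : ℕ))‖ ≤ ε / 8 * h / Lx := by
        rw [norm_mul, norm_ee, mul_one]
        exact hseg _ _ hi hxh
      have h2 : ‖∑ p ∈ (Ioc (i * h) (i * h + h)).filter Nat.Prime, ee (pe K p / (q * V : ℕ)) *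
            (ee (β * pe P p) - ee (β * pe P (i * h : ℕ)))‖ ≤ h * (ε / (8 * Lx)) := by
        refine (norm_sum_le _ _).trans ?_
        have h3 : ∀ p ∈ (Ioc (i * h) (i * h + h)).filter Nat.Prime,
            ‖ee (pe K p / (q * V : ℕ)) * (ee (β * pe P p) - ee (β * pe P (i * h : ℕ)))‖ ≤
              ε / (8 * Lx) := by
          intro p hp
          rw [mem_filter, mem_Ioc] at hp
          rw [norm_mul, norm_ee, one_mul]
          exact hpt _ _ hp.1.1.le hp.1.2 (hp.1.2.trans hi)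
        refine (sum_le_card_nsmul _ _ _ h3).trans ?_
        rw [nsmul_eq_mul]
        refine mul_le_mul_of_nonneg_right ?_ (by positivity)
        have h4 : ((Ioc (i * h) (i * h + h)).filter Nat.Prime).card ≤ h := by
          refine (card_filter_le _ _).trans (le_of_eq ?_)
          rw [Nat.card_Ioc]
          omega
        exact_mod_cast h4
      refine (add_le_add h1 h2).trans (le_of_eq ?_)
      field_simp
      ring)
  refine hfin.trans ?_
  have h1 : W = Lx ^ C₃ * Lx ^ 2 := pow_add _ _ _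
  have h2 : Lx ^ 2 ≤ W := by
    rw [h1]
    have : 1 ≤ Lx ^ C₃ := one_le_pow₀ hL1
    nlinarith [sq_nonneg Lx]
  have h3 : 2 * ((x : ℝ) / W) ≤ 2 * (x / Lx ^ 2) := by
    refine mul_le_mul_of_nonneg_left ?_ (by norm_num)
    exact div_le_div_of_nonneg_left hxpos.le (by positivity) h2
  have h4 : 2 * ((x : ℝ) / Lx ^ 2) ≤ ε / 4 * (x / Lx) := by
    have e1 : 2 * ((x : ℝ) / Lx ^ 2) = (2 / Lx) * (x / Lx) := by
      field_simp
    rw [e1]
    refine mul_le_mul_of_nonneg_right ?_ (by positivity)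
    rw [div_le_iff₀ hL0]
    linarith
  have h5 : ε / (4 * Lx) * x = ε / 4 * (x / Lx) := by
    field_simp
  rw [h5]
  linarith

theorem rhin_tw (P : ℤ[X]) (hP : 1 ≤ P.natDegree) (θ : ℝ) (hθ : Irrational θ) (V : ℕ) (hV : 1 ≤ V)
    (j : ℤ) (ε : ℝ) (hε : 0 < ε) : ∃ x₀ : ℕ, ∀ x : ℕ, x₀ ≤ x →
      ‖∑ p ∈ (Icc 1 x).filter Nat.Prime, ee (θ * pe P p + (j : ℝ) * p / V)‖ ≤
        ε * x / Real.log x := by
  have hP0 : P ≠ 0 := by
    intro h0
    rw [h0, natDegree_zero] at hP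
    omega
  have hl : P.coeff P.natDegree ≠ 0 := leadingCoeff_ne_zero.2 hP0
  have hVR : (1 : ℝ) ≤ V := by exact_mod_cast hV
  obtain ⟨C₂, x₁, hminor⟩ := minor P.natDegree hP ε hε
  obtain ⟨C₃, happ⟩ := approx P.natDegree hP θ hθ V hV _ hl
    (j * (if 1 = P.natDegree then 1 else 0)) C₂
  obtain ⟨η, hη, x₂, hmaj⟩ := maj (C₃ + 2) (ε / 8) (by positivity)
  obtain ⟨Q₀, hkb⟩ := kb P.natDegree hP (V ^ 2 * (P.coeff P.natDegree).natAbs) η hη
  obtain ⟨x₃, happ'⟩ := happ Q₀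
  obtain ⟨CP, hCP0, hCP⟩ := pe_diff P
  have hlog : Filter.Tendsto (fun x : ℕ => Real.log x) Filter.atTop Filter.atTop :=
    Real.tendsto_log_atTop.comp tendsto_natCast_atTop_atTop
  obtain ⟨x₄, hx₄⟩ : ∃ x₄ : ℕ, ∀ x : ℕ, x₄ ≤ x → (V : ℝ) ≤ Real.log x ∧
      32 * Real.pi * CP ≤ ε * Real.log x ∧ 8 ≤ ε * Real.log x ∧
      Real.log x ^ (C₃ + 2) ≤ x := by
    have e1 : ∀ᶠ x : ℕ in Filter.atTop, Real.log x ^ (C₃ + 2) ≤ x := by
      have := (Real.isLittleO_pow_log_id_atTop (n := C₃ + 2)).def (one_pos)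
      filter_upwards [tendsto_natCast_atTop_atTop.eventually this,
        Filter.eventually_ge_atTop 1] with x hx hx1
      rw [one_mul, Real.norm_eq_abs, Real.norm_eq_abs, id] at hx
      have h2 : |(x : ℝ)| = x := abs_of_nonneg (Nat.cast_nonneg x)
      rw [h2] at hx
      exact (le_abs_self _).trans hx
    have e2 := hlog.eventually_ge_atTop (V : ℝ)
    have e3 := hlog.eventually_ge_atTop (32 * Real.pi * CP / ε)
    have e4 := hlog.eventually_ge_atTop (8 / ε)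
    obtain ⟨x₄, hx₄⟩ := Filter.eventually_atTop.1 (e1.and (e2.and (e3.and e4)))
    refine ⟨x₄, fun x hx => ?_⟩
    obtain ⟨f1, f2, f3, f4⟩ := hx₄ x hx
    rw [div_le_iff₀ hε] at f3 f4
    exact ⟨f2, by linarith, by linarith, f1⟩
  refine ⟨max (max x₁ x₂) (max x₃ (max x₄ 2)), fun x hx => ?_⟩
  have hxx₁ : x₁ ≤ x := (le_max_left _ _).trans ((le_max_left _ _).trans hx)
  have hxx₂ : x₂ ≤ x := (le_max_right _ _).trans ((le_max_left _ _).trans hx)
  have hxx₃ : x₃ ≤ x := (le_max_left _ _).trans ((le_max_right _ _).trans hx)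
  have hxx₄ : x₄ ≤ x := (le_max_left _ _).trans ((le_max_right _ _).trans
    ((le_max_right _ _).trans hx))
  have hx2 : 2 ≤ x := (le_max_right _ _).trans ((le_max_right _ _).trans
    ((le_max_right _ _).trans hx))
  obtain ⟨hLV, hLC, hL8, hLp⟩ := hx₄ x hxx₄
  have hL1 : 1 ≤ Real.log x := hVR.trans hLV
  have hL0 : 0 < Real.log x := by linarith
  have hxpos : (0 : ℝ) < x := by exact_mod_cast (by omega : 0 < x)
  by_contra hcon
  push Not at hcon
  -- the polynomial of the minor arcs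
  have hG1 : (C θ * P.map (Int.castRingHom ℝ) + C ((j : ℝ) / V) * X : ℝ[X]).natDegree ≤
      P.natDegree := by
    refine natDegree_add_le_of_degree_le ?_ ?_
    · exact (natDegree_C_mul_le _ _).trans natDegree_map_le
    · exact (natDegree_C_mul_le _ _).trans (natDegree_X_le.trans hP)
  have hG2 : ∀ p : ℕ, (C θ * P.map (Int.castRingHom ℝ) + C ((j : ℝ) / V) * X : ℝ[X]).eval
      (p : ℝ) = θ * pe P p + (j : ℝ) * p / V := by
    intro p
    rw [eval_add, eval_C_mul, eval_C_mul, eval_X, eval_natCast_map]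
    unfold pe
    rw [eq_intCast]
    ring
  have hG3 : (C θ * P.map (Int.castRingHom ℝ) + C ((j : ℝ) / V) * X : ℝ[X]).coeff
      P.natDegree = θ * (P.coeff P.natDegree : ℤ) +
        ((j * (if 1 = P.natDegree then 1 else 0) : ℤ) : ℝ) / V := by
    rw [coeff_add, coeff_C_mul, coeff_C_mul, coeff_map, coeff_X, eq_intCast]
    push_cast
    split_ifs <;> ring
  have hm := hminor x hxx₁ (C θ * P.map (Int.castRingHom ℝ) + C ((j : ℝ) / V) * X) hG1 (by
    simp only [hG2]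
    exact hcon.le)
  rw [hG3] at hm
  obtain ⟨a, q, hq0, hq1, hqL, hcop, hβ⟩ := happ' x hxx₃ hm
  have hqR : (1 : ℝ) ≤ q := by exact_mod_cast hq1
  have hne : NeZero (q * V) := ⟨by positivity⟩
  -- the polynomial of the major arcs
  have hK1 : (C (a * V) * P + C (j * q) * X : ℤ[X]).natDegree ≤ P.natDegree := by
    refine natDegree_add_le_of_degree_le (natDegree_C_mul_le _ _) ?_
    exact (natDegree_C_mul_le _ _).trans (natDegree_X_le.trans hP)
  have hK2 : (C (a * V) * P + C (j * q) * X : ℤ[X]).coeff P.natDegree =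
      a * V * P.coeff P.natDegree + (j * (if 1 = P.natDegree then 1 else 0)) * q := by
    rw [coeff_add, coeff_C_mul, coeff_C_mul, coeff_X]
    split_ifs <;> ring
  have hK3 : ∀ n : ℕ, pe (C (a * V) * P + C (j * q) * X : ℤ[X]) n / (q * V : ℕ) =
      (a : ℝ) / q * pe P n + (j : ℝ) * n / V := by
    intro n
    unfold pe
    rw [eval_add, eval_C_mul, eval_C_mul, eval_X]
    push_cast
    field_simp
  have hbil := hkb (q * V) (hq0.trans (Nat.le_mul_of_pos_right q (by omega)))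
    (C (a * V) * P + C (j * q) * X) hK1 (by
      rw [hK2]
      exact gcd_bd hV hl hcop)
  have hQL : ((q * V : ℕ) : ℝ) ≤ Real.log x ^ (C₃ + 2) := by
    push_cast
    rw [pow_add]
    refine mul_le_mul hqL ?_ (by positivity) (by positivity)
    nlinarith
  have hest := main_est (P := P) (K := C (a * V) * P + C (j * q) * X) hP (θ := θ) (a := a)
    (j := j) (q := q) (V := V) (C₃ := C₃) hε hCP0 (by omega : 1 ≤ x) (hCP x (by omega)) hL1 hLC
    hL8 hLp hβ hK3 (by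
      intro y h hyh hxh
      have h1 := hmaj x hxx₂ (q * V) hQL y h hyh hxh _ (fun b => (norm_ee _).le) hbil
      simp only [pe_mod] at h1
      exact h1)
  have h1 : ε * x / Real.log x = ε * (x / Real.log x) := by ring
  rw [h1] at hcon
  have h2 : 0 < ε * (x / Real.log x) := by positivity
  linarith

private theorem ee_pow (x : ℝ) (n : ℕ) : ee (n * x) = ee x ^ n := by
  induction n with
  | zero => simp [ee_zero]
  | succ n ih =>
    rw [pow_succ, ← ih, ← ee_add]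
    congr 1
    push_cast
    ring

private theorem ee_eq_one {x : ℝ} (h : ee x = 1) : ∃ n : ℤ, x = n := by
  unfold ee at h
  rw [Complex.exp_eq_one_iff] at h
  obtain ⟨n, hn⟩ := h
  refine ⟨n, ?_⟩
  have h2 : (2 * Real.pi * Complex.I : ℂ) ≠ 0 := Complex.two_pi_I_ne_zero
  have h3 : (2 * Real.pi * Complex.I : ℂ) * ((x : ℂ) - (n : ℂ)) = 0 := by
    rw [mul_sub, hn]
    ring
  have h4 := (mul_eq_zero.1 h3).resolve_left h2
  have h5 : (x : ℂ) = ((n : ℝ) : ℂ) := by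
    rw [sub_eq_zero] at h4
    rw [h4]
    push_cast
    rfl
  exact_mod_cast h5

/-- orthogonality -/
private theorem orth {V : ℕ} (hV : 1 ≤ V) (p b : ℕ) :
    ∑ j ∈ range V, ee ((j : ℝ) * (((p : ℝ) - b) / V)) = if p ≡ b [MOD V] then (V : ℂ) else 0 := by
  have hV0 : (V : ℝ) ≠ 0 := by exact_mod_cast (by omega : V ≠ 0)
  split_ifs with h
  · have h1 : (V : ℤ) ∣ (p : ℤ) - b := by
      have := (Nat.modEq_iff_dvd.1 h.symm)
      exact this
    obtain ⟨t, ht⟩ := h1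
    have h2 : ((p : ℝ) - b) / V = t := by
      rw [div_eq_iff hV0]
      have h3 : (((p : ℤ) - b : ℤ) : ℝ) = ((V * t : ℤ) : ℝ) := by rw [ht]
      push_cast at h3
      linarith
    rw [h2]
    have h3 : ∀ j ∈ range V, ee ((j : ℝ) * t) = 1 := by
      intro j _
      have := ee_int ((j : ℤ) * t)
      push_cast at this
      exact this
    rw [sum_congr rfl h3, sum_const, card_range, nsmul_eq_mul, mul_one]
  · set ζ := ee (((p : ℝ) - b) / V) with hζ
    have h1 : ∀ j ∈ range V, ee ((j : ℝ) * (((p : ℝ) - b) / V)) = ζ ^ j := fun j _ =>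
      ee_pow _ _
    rw [sum_congr rfl h1]
    have hζ1 : ζ ≠ 1 := by
      intro h2
      obtain ⟨n, hn⟩ := ee_eq_one h2
      rw [div_eq_iff hV0] at hn
      apply h
      refine Nat.ModEq.symm (Nat.modEq_iff_dvd.2 ⟨n, ?_⟩)
      have h3 : (((p : ℤ) - b : ℤ) : ℝ) = ((V * n : ℤ) : ℝ) := by
        push_cast
        linarith
      exact_mod_cast h3
    have hζV : ζ ^ V = 1 := by
      rw [hζ, ← ee_pow]
      have h2 : (V : ℝ) * (((p : ℝ) - b) / V) = (((p : ℤ) - b : ℤ) : ℝ) := by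
        push_cast
        field_simp
      rw [h2, ee_int]
    rw [geom_sum_eq hζ1, hζV, sub_self, zero_div]

theorem rhin (P : ℤ[X]) (hP : 1 ≤ P.natDegree) (θ : ℝ) (hθ : Irrational θ) (V : ℕ) (hV : 1 ≤ V)
    (b : ℕ) (ε : ℝ) (hε : 0 < ε) : ∃ x₀ : ℕ, ∀ x : ℕ, x₀ ≤ x →
      ‖∑ p ∈ (Icc 1 x).filter (fun p => p.Prime ∧ p ≡ b [MOD V]), ee (θ * pe P p)‖ ≤
        ε * x / Real.log x := by
  choose f hf using fun j : ℕ => rhin_tw P hP θ hθ V hV (j : ℤ) ε hε
  refine ⟨(range V).sup f, fun x hx => ?_⟩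
  have hV0 : (V : ℂ) ≠ 0 := by exact_mod_cast (by omega : V ≠ 0)
  have hVpos : (0 : ℝ) < V := by exact_mod_cast (by omega : 0 < V)
  have h1 : ∑ p ∈ (Icc 1 x).filter (fun p => p.Prime ∧ p ≡ b [MOD V]), ee (θ * pe P p) =
      (1 / V : ℂ) * ∑ j ∈ range V, ee (-((j : ℝ) * b / V)) *
        ∑ p ∈ (Icc 1 x).filter Nat.Prime, ee (θ * pe P p + ((j : ℤ) : ℝ) * p / V) := by
    have e1 : (Icc 1 x).filter (fun p => p.Prime ∧ p ≡ b [MOD V]) =
        ((Icc 1 x).filter Nat.Prime).filter (fun p => p ≡ b [MOD V]) := by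
      rw [filter_filter]
    rw [e1, sum_filter (fun p => p ≡ b [MOD V])]
    have e2 : ∀ p ∈ (Icc 1 x).filter Nat.Prime,
        (if p ≡ b [MOD V] then ee (θ * pe P p) else 0) =
        (1 / V : ℂ) * ∑ j ∈ range V, ee (-((j : ℝ) * b / V)) *
          ee (θ * pe P p + ((j : ℤ) : ℝ) * p / V) := by
      intro p _
      have e3 : ∑ j ∈ range V, ee (-((j : ℝ) * b / V)) *
          ee (θ * pe P p + ((j : ℤ) : ℝ) * p / V) =
          ee (θ * pe P p) * ∑ j ∈ range V, ee ((j : ℝ) * (((p : ℝ) - b) / V)) := by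
        rw [mul_sum]
        refine sum_congr rfl fun j _ => ?_
        rw [← ee_add, ← ee_add]
        congr 1
        push_cast
        ring
      rw [e3, orth hV]
      split_ifs
      · field_simp
      · rw [mul_zero, mul_zero]
    rw [sum_congr rfl e2, ← mul_sum, sum_comm]
    congr 1
    refine sum_congr rfl fun j _ => ?_
    rw [mul_sum]
  rw [h1, norm_mul]
  have h2 : ‖(1 / V : ℂ)‖ = 1 / V := by
    rw [norm_div, norm_one, Complex.norm_natCast]
  have h3 : ‖∑ j ∈ range V, ee (-((j : ℝ) * b / V)) *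
        ∑ p ∈ (Icc 1 x).filter Nat.Prime, ee (θ * pe P p + ((j : ℤ) : ℝ) * p / V)‖ ≤
      V * (ε * x / Real.log x) := by
    refine (norm_sum_le _ _).trans ?_
    have h4 : ∀ j ∈ range V, ‖ee (-((j : ℝ) * b / V)) *
        ∑ p ∈ (Icc 1 x).filter Nat.Prime, ee (θ * pe P p + ((j : ℤ) : ℝ) * p / V)‖ ≤
        ε * x / Real.log x := by
      intro j hj
      rw [norm_mul, norm_ee, one_mul]
      exact hf j x ((le_sup hj).trans hx)
    refine (sum_le_card_nsmul _ _ _ h4).trans (le_of_eq ?_)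
    rw [card_range, nsmul_eq_mul]
  rw [h2]
  refine (mul_le_mul_of_nonneg_left h3 (by positivity)).trans (le_of_eq ?_)
  field_simp

end Pool.Agent.RHN
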