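import Pool.Agent.RHN.SDefs
import Pool.Agent.Helper35.Primes

/-!
# RHN / SBlk: the blocks

PROOFS.  `Y_le_one`: `Nat.sqrt y < y` for `y ≥ 2`, so `Y z j ≤ max 1 (z - j)`; `Y z z ≤ 1`.
`Y_pow`: `Y z j ^ (2^j) ≤ z`: induction, `(Nat.sqrt y)^2 ≤ y`.
`PZ_eq`, `AA_disj`: the intervals `(Y z (j+1), Y z j]`, `j < z`, are disjoint and cover `(1, z]` (`Y` is antitone; primes are `≥ 2`).
`sum_block`: `∑_{√y < p ≤ y} 1/p ≤ 10`: let `m = Nat.sqrt y`.  If `y ≤ 1` the sum is empty.  Otherwise `1/p ≤ (log p/p)/log (m+1)`, and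
by `Helper35.mertens_upper`, `mertens_lower` `∑_{m < p ≤ y} log p/p ≤ (log y + 2) - (log m - 3)`; `log y ≤ 2 log (m+1)`,
`log m ≥ log (m+1) - log 2`, so the sum is `≤ (log(m+1) + 5 + log 2)/log(m+1) ≤ 1 + 5.7/log 2 ≤ 10`.
`prod_block`: `1 - 1/p ≥ exp (-2/p)` for `p ≥ 2` (convexity, or `log (1 - x) ≥ -2x` on `[0, 1/2]`), so the product is `≥ exp (-20)`.
`esy_block`: `Helper27.IS.esy_le_single` with `l = 2`: `2^r esy ≤ exp (2 · 10)`.
-/

set_option autoImplicit false

namespace Pool.Agent.RHN

open Finset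

open Pool.Agent.Helper27.IS (esy alt)

theorem Y_le_one (z : ℕ) : Y z z ≤ 1 := by
  have h : ∀ j, Y z j ≤ 1 ∨ Y z j + j ≤ z := by
    intro j
    induction j with
    | zero => right; simp [Y]
    | succ j ih =>
      have h1 : Y z (j + 1) = Nat.sqrt (Y z j) := rfl
      rcases Nat.lt_or_ge 1 (Y z j) with h2 | h2
      · have h3 : Nat.sqrt (Y z j) < Y z j := Nat.sqrt_lt_self h2
        right
        rcases ih with h4 | h4
        · omega
        · omega
      · left
        rw [h1]
        exact (Nat.sqrt_le_self _).trans h2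
  rcases h z with h1 | h1
  · exact h1
  · omega

theorem Y_pow (z j : ℕ) : Y z j ^ (2 ^ j) ≤ z := by
  induction j with
  | zero => simp [Y]
  | succ j ih =>
    have h1 : Y z (j + 1) = Nat.sqrt (Y z j) := rfl
    have h2 : (Nat.sqrt (Y z j)) ^ 2 ≤ Y z j := by
      rw [pow_two]
      exact Nat.sqrt_le (Y z j)
    calc Y z (j + 1) ^ (2 ^ (j + 1)) = ((Nat.sqrt (Y z j)) ^ 2) ^ (2 ^ j) := by
          rw [h1, ← pow_mul, pow_succ (2 : ℕ) j, mul_comm (2 ^ j) 2]
      _ ≤ Y z j ^ (2 ^ j) := Nat.pow_le_pow_left h2 _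
      _ ≤ z := ih

theorem Y_anti (z : ℕ) : Antitone (Y z) := by
  apply antitone_nat_of_succ_le
  intro j
  exact Nat.sqrt_le_self _

theorem AA_disj (z q : ℕ) {i j : ℕ} (hij : i ≠ j) : Disjoint (AA z q i) (AA z q j) := by
  have key : ∀ {i j : ℕ}, i < j → Disjoint (AA z q i) (AA z q j) := by
    intro i j hlt
    rw [Finset.disjoint_left]
    intro p h1 h2
    unfold AA at h1 h2
    rw [mem_filter, mem_Ioc] at h1 h2
    have h3 : Y z j ≤ Y z (i + 1) := Y_anti z hlt
    omega
  rcases lt_or_gt_of_ne hij with h | h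
  · exact key h
  · exact (key h).symm

theorem PZ_eq (z q : ℕ) : PZ z q = (range z).biUnion (AA z q) := by
  ext p
  simp only [PZ, mem_filter, mem_Icc, mem_biUnion, mem_range, AA, mem_Ioc]
  constructor
  · rintro ⟨⟨h1, h2⟩, h3, h4⟩
    have hp2 : 2 ≤ p := h3.two_le
    have hex : ∃ j, Y z (j + 1) < p := by
      refine ⟨z - 1, ?_⟩
      have h5 : z - 1 + 1 = z := by omega
      rw [h5]
      exact lt_of_le_of_lt (Y_le_one z) (by omega)
    classical
    refine ⟨Nat.find hex, ?_, ⟨Nat.find_spec hex, ?_⟩, h3, h4⟩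
    · have h6 : Nat.find hex ≤ z - 1 := by
        apply Nat.find_min' hex
        have h5 : z - 1 + 1 = z := by omega
        rw [h5]
        exact lt_of_le_of_lt (Y_le_one z) (by omega)
      omega
    · rcases Nat.eq_zero_or_pos (Nat.find hex) with h7 | h7
      · rw [h7]
        exact h2
      · have h8 := Nat.find_min hex (m := Nat.find hex - 1) (by omega)
        have h9 : Nat.find hex - 1 + 1 = Nat.find hex := by omega
        rw [h9] at h8
        omega
  · rintro ⟨j, hj, ⟨h1, h2⟩, h3, h4⟩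
    refine ⟨⟨h3.one_le, h2.trans ?_⟩, h3, h4⟩
    have := Y_anti z (Nat.zero_le j)
    exact this

theorem AA_mem {z q j p : ℕ} (h : p ∈ AA z q j) : p.Prime ∧ p ≤ Y z j ∧ ¬ p ∣ q := by
  unfold AA at h
  rw [mem_filter, mem_Ioc] at h
  exact ⟨h.2.1, h.1.2, h.2.2⟩

theorem sum_block (z q j : ℕ) : ∑ p ∈ AA z q j, xp p ≤ 10 := by
  set y := Y z j with hy
  set m := Nat.sqrt y with hm
  have hm1 : Y z (j + 1) = m := rfl
  have hsub : AA z q j ⊆ Helper35.prm m y := by
    intro p hp
    rw [Helper35.mem_prm]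
    unfold AA at hp
    rw [mem_filter, mem_Ioc] at hp
    exact ⟨⟨hp.1.1, hp.1.2⟩, hp.2.1⟩
  have h0 : ∑ p ∈ AA z q j, xp p ≤ ∑ p ∈ Helper35.prm m y, xp p := by
    apply sum_le_sum_of_subset_of_nonneg hsub
    intro p _ _
    unfold xp
    positivity
  refine h0.trans ?_
  rcases Nat.lt_or_ge y 2 with h2 | h2
  · have h3 : Helper35.prm m y = ∅ := by
      rw [Finset.eq_empty_iff_forall_notMem]
      intro p hp
      rw [Helper35.mem_prm] at hp
      have := hp.2.two_le
      omega
    rw [h3, sum_empty]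
    norm_num
  · have hmpos : 1 ≤ m := by
      rw [hm]
      exact Nat.sqrt_pos.2 (by omega)
    have hmy : m ≤ y := Nat.sqrt_le_self y
    have hm0 : (0 : ℝ) < m := by exact_mod_cast hmpos
    have hy0 : (0 : ℝ) < y := by exact_mod_cast (by omega : 0 < y)
    set L : ℝ := Real.log ((m : ℝ) + 1) with hL
    have hL2 : Real.log 2 ≤ L := by
      apply Real.log_le_log (by norm_num)
      have : (1 : ℝ) ≤ m := by exact_mod_cast hmpos
      linarith
    have hlog2 := Real.log_two_gt_d9
    have hlog2' := Real.log_two_lt_d9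
    have hLpos : 0 < L := by linarith
    have h3 : (∑ p ∈ Helper35.prm m y, xp p) * L ≤ ∑ p ∈ Helper35.prm m y, Real.log p / p := by
      rw [sum_mul]
      apply sum_le_sum
      intro p hp
      rw [Helper35.mem_prm] at hp
      have hp0 : (0 : ℝ) < p := by exact_mod_cast hp.2.pos
      have h4 : L ≤ Real.log p := by
        apply Real.log_le_log (by linarith)
        exact_mod_cast hp.1.1
      unfold xp
      rw [div_eq_mul_one_div (Real.log p), mul_comm (Real.log p)]
      exact mul_le_mul_of_nonneg_left h4 (by positivity)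
    have h5 := Helper35.prm_sum_sub (fun p => Real.log p / p) hmy
    have h6 := Helper35.mertens_lower m hmpos
    have h7 := Helper35.mertens_upper y (by omega)
    have h8 : Real.log y ≤ 2 * L := by
      have h9 : (y : ℝ) ≤ ((m : ℝ) + 1) ^ 2 := by
        have h10 := Nat.lt_succ_sqrt y
        have h11 : y ≤ (m + 1) ^ 2 := by
          rw [pow_two]
          exact h10.le
        exact_mod_cast h11
      have h12 := Real.log_le_log hy0 h9
      rw [Real.log_pow] at h12
      push_cast at h12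
      exact h12
    have h9 : L - Real.log 2 ≤ Real.log m := by
      have h10 : L ≤ Real.log (2 * m) := by
        apply Real.log_le_log (by linarith)
        have : (1 : ℝ) ≤ m := by exact_mod_cast hmpos
        linarith
      rw [Real.log_mul (by norm_num) hm0.ne'] at h10
      linarith
    have h10 : (∑ p ∈ Helper35.prm m y, xp p) * L ≤ 10 * L := by
      linarith
    exact le_of_mul_le_mul_right h10 hLpos

theorem prod_block (z q j : ℕ) : Real.exp (-20) ≤ ∏ p ∈ AA z q j, (1 - xp p) := by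
  have h1 : ∏ p ∈ AA z q j, Real.exp (-(2 * xp p)) ≤ ∏ p ∈ AA z q j, (1 - xp p) := by
    apply prod_le_prod
    · intro p _
      exact (Real.exp_pos _).le
    · intro p hp
      have h2 := (AA_mem hp).1.two_le
      have h3 : (2 : ℝ) ≤ p := by exact_mod_cast h2
      have h4 : 0 ≤ xp p := by unfold xp; positivity
      have h5 : xp p ≤ 1 / 2 := by
        unfold xp
        exact one_div_le_one_div_of_le (by norm_num) h3
      rw [Real.exp_neg]
      have h6 : 2 * xp p + 1 ≤ Real.exp (2 * xp p) := Real.add_one_le_exp _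
      have h7 : 0 < Real.exp (2 * xp p) := Real.exp_pos _
      rw [inv_le_iff_one_le_mul₀ h7]
      have h8 : 0 ≤ xp p * (1 - 2 * xp p) := mul_nonneg h4 (by linarith)
      have h9 : (1 - xp p) * (2 * xp p + 1) ≤ (1 - xp p) * Real.exp (2 * xp p) :=
        mul_le_mul_of_nonneg_left h6 (by linarith)
      linarith
  refine le_trans ?_ h1
  rw [← Real.exp_sum, sum_neg_distrib, ← mul_sum]
  apply Real.exp_le_exp.2
  have := sum_block z q j
  linarith

theorem esy_block (z q j r : ℕ) : esy (AA z q j) xp r ≤ Real.exp 20 / 2 ^ r := by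
  rw [le_div_iff₀ (by positivity), mul_comm]
  refine (Helper27.IS.esy_le_single (AA z q j) xp ?_ r 2 (by norm_num)).trans ?_
  · intro p _
    unfold xp
    positivity
  · apply Real.exp_le_exp.2
    have := sum_block z q j
    linarith

end Pool.Agent.RHN
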