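import Pool.Agent.RHN.SBlk

/-!
# RHN / SExp: expansion of the upper and the lower function into monomials

PROOFS.  `alt_eq`: `alt A x r = ∑_{T ⊆ A, |T| ≤ r} (-1)^|T| ∏_T x` (definition, sort by cardinality).
`prod_expand` (general): for pairwise disjoint finite sets `A j`, `j ∈ J`, and families `c j : Finset ℕ → ℝ`:
`∏_{j ∈ J} ∑_{T ⊆ A j} c j T ∏_{p ∈ T} x p = ∑_{T ⊆ ⋃ A j} (∏_{j ∈ J} c j (T ∩ A j)) ∏_{p ∈ T} x p`: induction on `J` (`Finset.induction_on`): for `J = insert i J'`
the subsets of `A i ∪ B`, `B = ⋃_{J'} A j`, correspond to pairs (`T ∩ A i`, `T ∩ B`).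
`up_expand`: apply it with `c j T = (-1)^|T|` if `|T| ≤ bb b j`, `0` otherwise; `∏_j (-1)^{|T ∩ A j|} = (-1)^|T|` for `T ⊆ PZ` (`PZ_eq`).
`lo_expand`: for `l`, `c l T = 1` if `|T| = bb b l + 1`, otherwise `0`, and `c j` as before for `j ≠ l`; the sign is
`(-1)^{|T| - bb b l - 1} = (-1)^{|T|+1}` since `bb b l + 1` is odd.
-/

set_option autoImplicit false

namespace Pool.Agent.RHN

open Finset

open Pool.Agent.Helper27.IS (esy alt)

theorem alt_eq (A : Finset ℕ) (x : ℕ → ℝ) (r : ℕ) :
    alt A x r = ∑ T ∈ A.powerset, (if T.card ≤ r then (-1 : ℝ) ^ T.card else 0) * ∏ p ∈ T, x p := by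
  classical
  have h1 : ∑ T ∈ A.powerset, (if T.card ≤ r then (-1 : ℝ) ^ T.card else 0) * ∏ p ∈ T, x p =
      ∑ T ∈ A.powerset.filter (fun T => T.card ≤ r), (-1 : ℝ) ^ T.card * ∏ p ∈ T, x p := by
    rw [sum_filter]
    refine sum_congr rfl fun T _ => ?_
    split_ifs
    · rfl
    · rw [zero_mul]
  rw [h1]
  have h2 : ∀ T ∈ A.powerset.filter (fun T => T.card ≤ r), T.card ∈ range (r + 1) := by
    intro T hT
    rw [mem_filter] at hT
    rw [mem_range]
    omega
  rw [← sum_fiberwise_of_maps_to h2]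
  unfold alt esy
  refine sum_congr rfl fun j hj => ?_
  rw [mem_range] at hj
  rw [mul_sum]
  have h3 : A.powersetCard j =
      (A.powerset.filter (fun T => T.card ≤ r)).filter (fun T => T.card = j) := by
    ext T
    simp only [mem_powersetCard, mem_filter, mem_powerset]
    constructor
    · rintro ⟨h4, h5⟩
      exact ⟨⟨h4, by omega⟩, h5⟩
    · rintro ⟨⟨h4, _⟩, h5⟩
      exact ⟨h4, h5⟩
  rw [h3]
  refine sum_congr rfl fun T hT => ?_
  rw [(mem_filter.1 hT).2]

theorem prod_expand (J : Finset ℕ) (A : ℕ → Finset ℕ) (hA : ∀ i j, i ≠ j → Disjoint (A i) (A j))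
    (c : ℕ → Finset ℕ → ℝ) (x : ℕ → ℝ) :
    ∏ j ∈ J, ∑ T ∈ (A j).powerset, c j T * ∏ p ∈ T, x p =
      ∑ T ∈ (J.biUnion A).powerset, (∏ j ∈ J, c j (T ∩ A j)) * ∏ p ∈ T, x p := by
  classical
  induction J using Finset.induction_on with
  | empty => simp
  | insert i J' hi ih =>
    rw [prod_insert hi, ih, biUnion_insert, sum_mul_sum, ← sum_product']
    set B := J'.biUnion A with hB
    have hdis : Disjoint (A i) B := by
      rw [hB, disjoint_biUnion_right]
      intro j hj
      exact hA i j fun h => hi (h ▸ hj)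
    refine sum_nbij' (fun P => P.1 ∪ P.2) (fun T => (T ∩ A i, T ∩ B)) ?_ ?_ ?_ ?_ ?_
    · rintro ⟨T1, T2⟩ hT
      rw [mem_product, mem_powerset, mem_powerset] at hT
      rw [mem_powerset]
      exact union_subset_union hT.1 hT.2
    · intro T _
      rw [mem_product, mem_powerset, mem_powerset]
      exact ⟨inter_subset_right, inter_subset_right⟩
    · rintro ⟨T1, T2⟩ hT
      rw [mem_product, mem_powerset, mem_powerset] at hT
      obtain ⟨h1, h2⟩ := hT
      simp only at h1 h2
      have e1 : (T1 ∪ T2) ∩ A i = T1 := by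
        rw [union_inter_distrib_right, inter_eq_left.2 h1,
          disjoint_iff_inter_eq_empty.1 (disjoint_of_subset_left h2 hdis.symm), union_empty]
      have e2 : (T1 ∪ T2) ∩ B = T2 := by
        rw [union_inter_distrib_right, inter_eq_left.2 h2,
          disjoint_iff_inter_eq_empty.1 (disjoint_of_subset_left h1 hdis), empty_union]
      simp only [e1, e2]
    · intro T hT
      rw [mem_powerset] at hT
      simp only
      rw [← inter_union_distrib_left, inter_eq_left.2 hT]
    · rintro ⟨T1, T2⟩ hT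
      rw [mem_product, mem_powerset, mem_powerset] at hT
      obtain ⟨h1, h2⟩ := hT
      simp only at h1 h2 ⊢
      have e1 : (T1 ∪ T2) ∩ A i = T1 := by
        rw [union_inter_distrib_right, inter_eq_left.2 h1,
          disjoint_iff_inter_eq_empty.1 (disjoint_of_subset_left h2 hdis.symm), union_empty]
      have e2 : ∀ j ∈ J', (T1 ∪ T2) ∩ A j = T2 ∩ A j := by
        intro j hj
        have h3 : Disjoint T1 (A j) :=
          disjoint_of_subset_left h1 (hA i j fun h => hi (h ▸ hj))
        rw [union_inter_distrib_right, disjoint_iff_inter_eq_empty.1 h3, empty_union]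
      have h4 : Disjoint T1 T2 := disjoint_of_subset_left h1 (disjoint_of_subset_right h2 hdis)
      have e3 : ∏ j ∈ J', c j ((T1 ∪ T2) ∩ A j) = ∏ j ∈ J', c j (T2 ∩ A j) :=
        prod_congr rfl fun j hj => by rw [e2 j hj]
      rw [prod_insert hi, e1, prod_union h4, e3]
      ring

/-- a subset of `PZ` is the disjoint union of its blocks -/
theorem card_blocks {z q : ℕ} {T : Finset ℕ} (hT : T ⊆ PZ z q) :
    T.card = ∑ j ∈ range z, (T ∩ AA z q j).card := by
  classical
  have h1 : T = (range z).biUnion (fun j => T ∩ AA z q j) := by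
    ext p
    simp only [mem_biUnion, mem_inter]
    constructor
    · intro hp
      have h2 := hT hp
      rw [PZ_eq, mem_biUnion] at h2
      obtain ⟨j, hj, h3⟩ := h2
      exact ⟨j, hj, hp, h3⟩
    · rintro ⟨j, _, h2, _⟩
      exact h2
  conv_lhs => rw [h1]
  refine card_biUnion fun i _ j _ hij => ?_
  exact disjoint_of_subset_left inter_subset_right
    (disjoint_of_subset_right inter_subset_right (AA_disj z q hij))

theorem up_expand (z q b : ℕ) (x : ℕ → ℝ) :
    Up z q b x = ∑ T ∈ AD z q b, (-1 : ℝ) ^ T.card * ∏ p ∈ T, x p := by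
  classical
  unfold Up AD
  rw [sum_filter]
  have h1 := prod_expand (range z) (AA z q) (fun i j hij => AA_disj z q hij)
    (fun j T => if T.card ≤ bb b j then (-1 : ℝ) ^ T.card else 0) x
  rw [← PZ_eq] at h1
  rw [prod_congr rfl fun j _ => alt_eq (AA z q j) x (bb b j), h1]
  refine sum_congr rfl fun T hT => ?_
  rw [mem_powerset] at hT
  split_ifs with h2
  · rw [prod_congr rfl fun j hj => if_pos (h2 j hj), prod_pow_eq_pow_sum, ← card_blocks hT]
  · push Not at h2
    obtain ⟨j, hj, h3⟩ := h2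
    rw [prod_eq_zero hj (if_neg (by omega)), zero_mul]

theorem lo_expand (z q b : ℕ) (x : ℕ → ℝ) :
    Lo z q b x = ∑ T ∈ AD z q b, (-1 : ℝ) ^ T.card * ∏ p ∈ T, x p +
      ∑ l ∈ range z, ∑ T ∈ AL z q b l, (-1 : ℝ) ^ T.card * ∏ p ∈ T, x p := by
  classical
  unfold Lo
  rw [up_expand, sub_eq_add_neg, ← sum_neg_distrib]
  congr 1
  refine sum_congr rfl fun l hl => ?_
  have h1 := prod_expand (range z) (AA z q) (fun i j hij => AA_disj z q hij)
    (fun j T => if j = l then (if T.card = bb b l + 1 then 1 else 0) else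
      (if T.card ≤ bb b j then (-1 : ℝ) ^ T.card else 0)) x
  rw [← PZ_eq] at h1
  have h2 : esy (AA z q l) x (bb b l + 1) * ∏ j ∈ (range z).erase l, alt (AA z q j) x (bb b j) =
      ∏ j ∈ range z, ∑ T ∈ (AA z q j).powerset, (if j = l then (if T.card = bb b l + 1 then 1
        else 0) else (if T.card ≤ bb b j then (-1 : ℝ) ^ T.card else 0)) * ∏ p ∈ T, x p := by
    rw [← mul_prod_erase _ _ hl]
    congr 1
    · unfold esy
      rw [powersetCard_eq_filter, sum_filter]
      refine sum_congr rfl fun T _ => ?_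
      rw [if_pos rfl]
      split_ifs
      · rw [one_mul]
      · rw [zero_mul]
    · refine prod_congr rfl fun j hj => ?_
      rw [alt_eq]
      refine sum_congr rfl fun T _ => ?_
      rw [if_neg (ne_of_mem_erase hj)]
  rw [h2, h1, ← sum_neg_distrib]
  unfold AL
  rw [sum_filter]
  refine sum_congr rfl fun T hT => ?_
  rw [mem_powerset] at hT
  rw [← mul_prod_erase _ _ hl, if_pos rfl]
  split_ifs with h3 h4 h4
  · have h5 : ∏ j ∈ (range z).erase l, (if j = l then (if (T ∩ AA z q j).card = bb b l + 1 then 1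
        else 0) else (if (T ∩ AA z q j).card ≤ bb b j then (-1 : ℝ) ^ (T ∩ AA z q j).card
          else 0)) = (-1 : ℝ) ^ (∑ j ∈ (range z).erase l, (T ∩ AA z q j).card) := by
      rw [← prod_pow_eq_pow_sum]
      refine prod_congr rfl fun j hj => ?_
      rw [if_neg (ne_of_mem_erase hj),
        if_pos (h4.2 j (mem_of_mem_erase hj) (ne_of_mem_erase hj))]
    have h6 : T.card = bb b l + 1 + ∑ j ∈ (range z).erase l, (T ∩ AA z q j).card := by
      rw [card_blocks hT, ← add_sum_erase _ _ hl, h3]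
    rw [h5, h6, pow_add, pow_add, pow_one]
    have h7 : (-1 : ℝ) ^ bb b l = 1 := by
      unfold bb
      rw [pow_mul]
      norm_num
    rw [h7]
    ring
  · push Not at h4
    obtain ⟨j, hj, hjl, h5⟩ := h4 h3
    rw [prod_eq_zero (mem_erase.2 ⟨hjl, hj⟩)
      (by rw [if_neg hjl, if_neg (by omega)])]
    ring
  · exact absurd h4.1 h3
  · ring

end Pool.Agent.RHN
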