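import Pool.Agent.RHN.SFl

/-!
# RHN / SUb: upper bound for rough numbers in short segments of arithmetic progressions

PROOF.  Let `z₁ = ⌊z^{1/40}⌋`.  If `z₁ ≥ 2`: a `z`-rough number is `z₁`-rough, `fl_ap` with `z₁`, `b = 1`, and `VV_le`: the count is
`≤ (1 + C) h/(φ(q) log z₁) + z₁^{12}`, `z₁^{12} ≤ z^{3/10} ≤ √z/log z₁ ≤ h/(q log z₁) ≤ h/(φ(q) log z₁)` (`log z₁ ≤ z₁ ≤ z^{1/40}`), and
`log z₁ ≥ log z/80` (`z₁ ≥ z^{1/40}/2 ≥ z^{1/80}` as `z^{1/80} ≥ 2^{1/2}`.. or: `z₁ ≥ 2` implies `z₁ + 1 ≤ z₁²`, so `z^{1/40} < z₁ + 1 ≤ z₁²`, `log z ≤ 80 log z₁`).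
If `z < 2^{40}`: trivial bound `h/q + 1 ≤ 2h/q ≤ 2 h/φ(q)` (`h ≥ q √z ≥ q`) and `log z ≤ 40 log 2`.
-/

set_option autoImplicit false

namespace Pool.Agent.RHN

open Finset

open Classical in
theorem rough_ub : ∃ C : ℝ, 1 ≤ C ∧ ∀ z q N h c : ℕ, 2 ≤ z → 1 ≤ q → Nat.Coprime c q →
    (q : ℝ) * Real.sqrt z ≤ h →
    (((Ioc N (N + h)).filter (fun n => Rough z n ∧ n ≡ c [MOD q])).card : ℝ) ≤
      C * h / ((q.totient : ℝ) * Real.log z) := by
  obtain ⟨C, hC1, hC⟩ := fl_ap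
  refine ⟨80 * (2 + C), by linarith, ?_⟩
  intro z q N h c hz hq hcq hh
  have hzR : (2 : ℝ) ≤ z := by exact_mod_cast hz
  have hqR : (1 : ℝ) ≤ q := by exact_mod_cast hq
  have hlogz : 0 < Real.log z := Real.log_pos (by linarith)
  have htot : 0 < q.totient := Nat.totient_pos.2 (by omega)
  have htotR : (0 : ℝ) < (q.totient : ℝ) := by exact_mod_cast htot
  have htotq : (q.totient : ℝ) ≤ q := by exact_mod_cast Nat.totient_le q
  have hh0 : (0 : ℝ) ≤ h := by positivity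
  have hsz : (1 : ℝ) ≤ Real.sqrt z := by
    rw [Real.one_le_sqrt]
    linarith
  have hhq : (q : ℝ) ≤ h := by
    have : (q : ℝ) * 1 ≤ q * Real.sqrt z := mul_le_mul_of_nonneg_left hsz (by linarith)
    linarith
  have hlog2 := Real.log_two_lt_d9
  rw [le_div_iff₀ (mul_pos htotR hlogz)]
  rcases Nat.lt_or_ge z (2 ^ 40) with hzs | hzb
  · -- trivial bound
    have h1 := count_ap (N := N) (h := h) (q := q) (d := 1) (c := c) hq le_rfl (Nat.coprime_one_left q)
    have h2 : (((Ioc N (N + h)).filter (fun n => Rough z n ∧ n ≡ c [MOD q])).card : ℝ) ≤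
        (((Ioc N (N + h)).filter (fun n => n ≡ c [MOD q] ∧ 1 ∣ n)).card : ℝ) := by
      exact_mod_cast card_le_card (fun n hn => by
        rw [mem_filter] at hn ⊢
        exact ⟨hn.1, hn.2.2, one_dvd n⟩)
    have h3 := (abs_le.1 h1).2
    have h4 : (h : ℝ) / (q * (1 : ℕ)) = h / q := by simp
    rw [h4] at h3
    have h5 : (1 : ℝ) ≤ h / q := by
      rw [le_div_iff₀ (by linarith)]
      linarith
    have h6 : (((Ioc N (N + h)).filter (fun n => Rough z n ∧ n ≡ c [MOD q])).card : ℝ) ≤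
        2 * (h / q) := by linarith
    have h7 : (h : ℝ) / q * (q.totient : ℝ) ≤ h := by
      rw [div_mul_eq_mul_div, div_le_iff₀ (by linarith)]
      exact mul_le_mul_of_nonneg_left htotq hh0
    have h8 : Real.log z ≤ 40 := by
      have h9 : Real.log z ≤ Real.log (2 ^ 40) := by
        apply Real.log_le_log (by linarith)
        exact_mod_cast hzs.le
      rw [Real.log_pow] at h9
      push_cast at h9
      linarith
    calc (((Ioc N (N + h)).filter (fun n => Rough z n ∧ n ≡ c [MOD q])).card : ℝ) *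
          ((q.totient : ℝ) * Real.log z)
        ≤ 2 * (h / q) * ((q.totient : ℝ) * Real.log z) :=
          mul_le_mul_of_nonneg_right h6 (mul_pos htotR hlogz).le
      _ = 2 * ((h : ℝ) / q * (q.totient : ℝ)) * Real.log z := by ring
      _ ≤ 2 * h * 40 := by
          apply mul_le_mul _ h8 hlogz.le (by positivity)
          linarith
      _ ≤ 80 * (2 + C) * h := by
          have : 0 ≤ (1 + C) * (h : ℝ) := mul_nonneg (by linarith) hh0
          linarith
  · -- sieve with a smaller level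
    set z₁ : ℕ := ⌊(z : ℝ) ^ ((1 : ℝ) / 40)⌋₊ with hz₁
    have hz0 : (0 : ℝ) ≤ z := by linarith
    have hrp0 : 0 ≤ (z : ℝ) ^ ((1 : ℝ) / 40) := Real.rpow_nonneg hz0 _
    have hrp : ((z : ℝ) ^ ((1 : ℝ) / 40)) ^ 40 = z := by
      rw [← Real.rpow_natCast, ← Real.rpow_mul hz0]
      norm_num
    have h2z : 2 ≤ z₁ := by
      rw [hz₁]
      apply Nat.le_floor
      have h1 : ((2 : ℕ) : ℝ) ^ 40 ≤ ((z : ℝ) ^ ((1 : ℝ) / 40)) ^ 40 := by
        rw [hrp]
        exact_mod_cast hzb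
      exact le_of_pow_le_pow_left₀ (by norm_num) hrp0 h1
    have hz1R : (2 : ℝ) ≤ z₁ := by exact_mod_cast h2z
    have hz1le : (z₁ : ℝ) ^ 40 ≤ z := by
      calc (z₁ : ℝ) ^ 40 ≤ ((z : ℝ) ^ ((1 : ℝ) / 40)) ^ 40 :=
            pow_le_pow_left₀ (by positivity) (Nat.floor_le hrp0) 40
        _ = z := hrp
    have hz1lt : (z : ℝ) ≤ ((z₁ : ℝ) + 1) ^ 40 := by
      calc (z : ℝ) = ((z : ℝ) ^ ((1 : ℝ) / 40)) ^ 40 := hrp.symm
        _ ≤ ((z₁ : ℝ) + 1) ^ 40 := pow_le_pow_left₀ hrp0 (Nat.lt_floor_add_one _).le 40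
    have hlog1 : 0 < Real.log z₁ := Real.log_pos (by linarith)
    have hlogle : Real.log z ≤ 80 * Real.log z₁ := by
      have h1 : (z : ℝ) ≤ (z₁ : ℝ) ^ 80 := by
        refine hz1lt.trans ?_
        have h2 : (z₁ : ℝ) + 1 ≤ (z₁ : ℝ) ^ 2 := by nlinarith
        calc ((z₁ : ℝ) + 1) ^ 40 ≤ ((z₁ : ℝ) ^ 2) ^ 40 := pow_le_pow_left₀ (by linarith) h2 40
          _ = (z₁ : ℝ) ^ 80 := by rw [← pow_mul]
      have h3 := Real.log_le_log (by linarith) h1
      rw [Real.log_pow] at h3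
      exact_mod_cast h3
    have hzz : z₁ ≤ z := by
      have h1 : (z₁ : ℝ) ≤ (z₁ : ℝ) ^ 40 := le_self_pow₀ (by linarith) (by norm_num)
      exact_mod_cast h1.trans hz1le
    have hcnt : (((Ioc N (N + h)).filter (fun n => Rough z n ∧ n ≡ c [MOD q])).card : ℝ) ≤
        (((Ioc N (N + h)).filter (fun n => Rough z₁ n ∧ n ≡ c [MOD q])).card : ℝ) := by
      exact_mod_cast card_le_card (fun n hn => by
        rw [mem_filter] at hn ⊢
        exact ⟨hn.1, ⟨hn.2.1.1, fun p hp hpz => hn.2.1.2 p hp (hpz.trans hzz)⟩, hn.2.2⟩)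
    have hfl : (((Ioc N (N + h)).filter (fun n => Rough z₁ n ∧ n ≡ c [MOD q])).card : ℝ) -
        (h : ℝ) / q * VV z₁ q ≤ C * (1 / 2) ^ 1 * ((h : ℝ) / q * VV z₁ q) +
        (z₁ : ℝ) ^ (4 * 1 + 8) := by
      convert (abs_le.1 (hC z₁ 1 q N h c h2z le_rfl hq hcq)).2
    obtain ⟨hV0, hV1⟩ := VV_le h2z hq
    have hmain : (h : ℝ) / q * VV z₁ q ≤ h / ((q.totient : ℝ) * Real.log z₁) := by
      have h1 : (h : ℝ) / q * VV z₁ q = h * (VV z₁ q / q) := by ring
      rw [h1, div_eq_mul_one_div (h : ℝ) ((q.totient : ℝ) * Real.log z₁)]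
      exact mul_le_mul_of_nonneg_left hV1 hh0
    have hmain0 : 0 ≤ (h : ℝ) / q * VV z₁ q := by positivity
    have herr : (z₁ : ℝ) ^ (4 * 1 + 8) ≤ h / ((q.totient : ℝ) * Real.log z₁) := by
      rw [le_div_iff₀ (mul_pos htotR hlog1)]
      have h1 : Real.log z₁ ≤ z₁ := by
        have := Real.log_le_sub_one_of_pos (show (0 : ℝ) < z₁ by linarith)
        linarith
      have h2 : (z₁ : ℝ) ^ 13 ≤ Real.sqrt z := by
        apply Real.le_sqrt_of_sq_le
        calc ((z₁ : ℝ) ^ 13) ^ 2 = (z₁ : ℝ) ^ 26 := by rw [← pow_mul]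
          _ ≤ (z₁ : ℝ) ^ 40 := pow_le_pow_right₀ (by linarith) (by norm_num)
          _ ≤ z := hz1le
      calc (z₁ : ℝ) ^ (4 * 1 + 8) * ((q.totient : ℝ) * Real.log z₁)
          ≤ (z₁ : ℝ) ^ (4 * 1 + 8) * ((q : ℝ) * z₁) := by
            apply mul_le_mul_of_nonneg_left _ (by positivity)
            exact mul_le_mul htotq h1 hlog1.le (by linarith)
        _ = q * (z₁ : ℝ) ^ 13 := by ring
        _ ≤ q * Real.sqrt z := mul_le_mul_of_nonneg_left h2 (by linarith)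
        _ ≤ h := hh
    set M : ℝ := h / ((q.totient : ℝ) * Real.log z₁) with hM
    have hM0 : 0 ≤ M := by positivity
    have hb : (((Ioc N (N + h)).filter (fun n => Rough z₁ n ∧ n ≡ c [MOD q])).card : ℝ) ≤
        (2 + C) * M := by
      have h1 : C * (1 / 2) ^ 1 * ((h : ℝ) / q * VV z₁ q) ≤ C * M := by
        have h2 : C * (1 / 2) ^ 1 * ((h : ℝ) / q * VV z₁ q) =
            C / 2 * ((h : ℝ) / q * VV z₁ q) := by ring
        rw [h2]
        calc C / 2 * ((h : ℝ) / q * VV z₁ q) ≤ C * ((h : ℝ) / q * VV z₁ q) :=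
              mul_le_mul_of_nonneg_right (by linarith) hmain0
          _ ≤ C * M := mul_le_mul_of_nonneg_left hmain (by linarith)
      have h3 : (((Ioc N (N + h)).filter (fun n => Rough z₁ n ∧ n ≡ c [MOD q])).card : ℝ) ≤
          (h : ℝ) / q * VV z₁ q + (C * (1 / 2) ^ 1 * ((h : ℝ) / q * VV z₁ q) +
            (z₁ : ℝ) ^ (4 * 1 + 8)) := by
        rw [← sub_le_iff_le_add']
        exact hfl
      refine h3.trans ?_
      refine (add_le_add hmain (add_le_add h1 herr)).trans (le_of_eq ?_)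
      ring
    have hMl : M * ((q.totient : ℝ) * Real.log z) ≤ 80 * h := by
      have h1 : M * ((q.totient : ℝ) * Real.log z₁) = h := by
        rw [hM]
        field_simp
      calc M * ((q.totient : ℝ) * Real.log z) ≤ M * ((q.totient : ℝ) * (80 * Real.log z₁)) := by
            apply mul_le_mul_of_nonneg_left _ hM0
            exact mul_le_mul_of_nonneg_left hlogle htotR.le
        _ = 80 * (M * ((q.totient : ℝ) * Real.log z₁)) := by ring
        _ = 80 * h := by rw [h1]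
    calc (((Ioc N (N + h)).filter (fun n => Rough z n ∧ n ≡ c [MOD q])).card : ℝ) *
          ((q.totient : ℝ) * Real.log z)
        ≤ (2 + C) * M * ((q.totient : ℝ) * Real.log z) :=
          mul_le_mul_of_nonneg_right (hcnt.trans hb) (mul_pos htotR hlogz).le
      _ = (2 + C) * (M * ((q.totient : ℝ) * Real.log z)) := by ring
      _ ≤ (2 + C) * (80 * h) := mul_le_mul_of_nonneg_left hMl (by linarith)
      _ = 80 * (2 + C) * h := by ring

end Pool.Agent.RHN
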