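import Pool.Agent.RHN.RecD

/-!
# RHN / TypeI: sums of type I on the minor arcs

PROOF.  `L = Nat.log 2 D₀ + 1` dyadic ranges `[2^i, 2^{i+1})` cover `1 ≤ d ≤ D₀`; `L ≤ c₀ log x` (`c₀` absolute, `x ≥ 2`).  Write
`S_d` for the inner sum.  Some range, `Δ = 2^i ≤ D₀`, has `∑_{d} |S_d| ≥ δ x/L = δ₁ x`, `δ₁ = δ/L`.  `|S_d| ≤ x/d ≤ x/Δ`, so the number of `d` of
the range with `|S_d| ≥ (δ₁/2) x/Δ` is `≥ (δ₁/2) Δ`.  For such `d` apply `weyl` to `G.comp (C d * X)` (coefficient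
`g_D d^D`), the interval `[1, x/d]`, `M = x/Δ` (natural division; `x/d ≤ x/Δ`) and `δ₁/2`: `k_d ≤ B`, `B := (2 C₀/δ₁)^{C₀}`,
`nd (k_d g_D d^D) ≤ B/M^D`, `M ≥ x/(2Δ)` (`x ≥ Δ`).  Pigeonhole: one `k ≤ B` for `≥ (δ₁/2) Δ/B` values `d ∈ [Δ, 2Δ)`, call their set `S'`.  Let
`δ₂ = δ₁/(4B)`, so `|S'| ≥ δ₂ (2Δ)`, `σ = B (2Δ/x)^D`.
(i) If `2Δ ≥ (C₁/δ₂)^{C₁}` (`C₁` from `recD`) and `σ ≤ δ₂/C₁`: `recD` with `2Δ`, `γ = k g_D`, `c = 0`: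
`nd (k' k g_D) ≤ (C₁/δ₂)^{C₁} σ/(2Δ)^D = (C₁/δ₂)^{C₁} B/x^D`.
(ii) If `2Δ < (C₁/δ₂)^{C₁}`: take any `d ∈ S'` (nonempty) and `k d^D`: `nd ≤ σ = B (2Δ)^D/x^D`.
(iii) If `σ > δ₂/C₁`: as `Δ ≤ D₀ ≤ √x`, `σ ≤ B 2^D x^{-D/2}`, so `x^D ≤ (B 2^D C₁/δ₂)^2`: take `k = 1`, `nd ≤ 1/2`, which is
`≤ (C log x/δ)^C/x^D` for `C` large.
All the bounds are of the form `A (log x/δ)^n ≤ (C log x/δ)^C` (`log x ≥ log 2`; note that `C log x ≥ 1`).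
-/

set_option autoImplicit false

namespace Pool.Agent.RHN

open Finset Polynomial

/-- the inner sum as a sum over integers -/
private lemma ti_conv (G : ℝ[X]) (d L : ℕ) :
    ∑ m ∈ Icc 1 L, ee (G.eval ((d : ℝ) * (m : ℝ))) =
      ∑ m ∈ Ico (1 : ℤ) (1 + (L : ℤ)), ee ((G.comp (C (d : ℝ) * X)).eval (m : ℝ)) := by
  have h : Ico (1 : ℤ) (1 + (L : ℤ)) = (Icc 1 L).map Nat.castEmbedding := by
    ext m
    simp only [mem_Ico, mem_map, Nat.castEmbedding_apply, mem_Icc]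
    constructor
    · rintro ⟨h1, h2⟩
      exact ⟨m.toNat, by omega, by omega⟩
    · rintro ⟨a, ha, rfl⟩
      constructor <;> omega
  rw [h, sum_map]
  refine sum_congr rfl fun m _ => ?_
  simp [eval_comp]

/-- Weyl for one `d` -/
private lemma ti_one {D C₀ : ℕ} (hw : ∀ δ : ℝ, 0 < δ → δ ≤ 1 → ∀ M : ℕ, 1 ≤ M →
    ∀ G : ℝ[X], G.natDegree ≤ D → ∀ (a : ℤ) (L : ℕ), L ≤ M →
      δ * M ≤ ‖∑ m ∈ Ico a (a + L), ee (G.eval (m : ℝ))‖ →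
      ∃ k : ℕ, 1 ≤ k ∧ (k : ℝ) ≤ (C₀ / δ) ^ C₀ ∧ nd (k * G.coeff D) ≤ (C₀ / δ) ^ C₀ / (M : ℝ) ^ D)
    {δ₁ : ℝ} (h0 : 0 < δ₁) (h1 : δ₁ ≤ 1) {x Δ d : ℕ} (hΔ : 1 ≤ Δ) (hΔx : Δ ≤ x) (hd : Δ ≤ d)
    {G : ℝ[X]} (hG : G.natDegree ≤ D)
    (hS : δ₁ / 2 * ((x : ℝ) / Δ) ≤ ‖∑ m ∈ Icc 1 (x / d), ee (G.eval ((d : ℝ) * (m : ℝ)))‖) :
    ∃ k : ℕ, 1 ≤ k ∧ (k : ℝ) ≤ (C₀ / (δ₁ / 2)) ^ C₀ ∧
      nd (k * G.coeff D * (d : ℝ) ^ D) ≤ (C₀ / (δ₁ / 2)) ^ C₀ * (2 * Δ / x) ^ D := by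
  have hΔ' : (0 : ℝ) < Δ := by exact_mod_cast hΔ
  have hx' : (0 : ℝ) < x := by exact_mod_cast (lt_of_lt_of_le hΔ hΔx)
  have hM : 1 ≤ x / Δ := (Nat.one_le_div_iff hΔ).2 hΔx
  have hMx : ((x / Δ : ℕ) : ℝ) ≤ (x : ℝ) / Δ := Nat.cast_div_le
  have hM' : (1 : ℝ) ≤ ((x / Δ : ℕ) : ℝ) := by exact_mod_cast hM
  have hxM : (x : ℝ) ≤ 2 * Δ * ((x / Δ : ℕ) : ℝ) := by
    have h2 : x < Δ * (x / Δ + 1) := Nat.lt_mul_div_succ x hΔ
    have h3 : (x : ℝ) ≤ Δ * (((x / Δ : ℕ) : ℝ) + 1) := by exact_mod_cast h2.le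
    nlinarith
  have hdeg : (G.comp (C (d : ℝ) * X)).natDegree ≤ D := by
    refine natDegree_comp_le.trans ?_
    have h2 : (C (d : ℝ) * X).natDegree ≤ 1 :=
      (natDegree_C_mul_le _ _).trans natDegree_X_le
    calc G.natDegree * (C (d : ℝ) * X).natDegree ≤ D * 1 := Nat.mul_le_mul hG h2
      _ = D := mul_one D
  have hsum : δ₁ / 2 * ((x / Δ : ℕ) : ℝ) ≤
      ‖∑ m ∈ Ico (1 : ℤ) (1 + ((x / d : ℕ) : ℤ)), ee ((G.comp (C (d : ℝ) * X)).eval (m : ℝ))‖ := by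
    rw [← ti_conv]
    refine le_trans ?_ hS
    exact mul_le_mul_of_nonneg_left hMx (by linarith)
  obtain ⟨k, hk1, hk2, hk3⟩ := hw (δ₁ / 2) (by linarith) (by linarith) (x / Δ) hM
    (G.comp (C (d : ℝ) * X)) hdeg 1 (x / d) (Nat.div_le_div_left hd hΔ) hsum
  refine ⟨k, hk1, hk2, ?_⟩
  rw [comp_C_mul_X_coeff] at hk3
  rw [mul_assoc]
  refine hk3.trans ?_
  rw [div_eq_mul_inv, ← inv_pow]
  refine mul_le_mul_of_nonneg_left (pow_le_pow_left₀ (by positivity) ?_ D) (by positivity)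
  rw [inv_eq_one_div, div_le_div_iff₀ (by linarith) hx']
  linarith

private lemma ti_core (D : ℕ) (hD : 1 ≤ D) : ∃ (A : ℝ) (n : ℕ), ∀ δ₁ : ℝ, 0 < δ₁ → δ₁ ≤ 1 →
    ∀ x Δ : ℕ, 1 ≤ Δ → Δ ^ 2 ≤ x → ∀ T : Finset ℕ, T ⊆ Ico Δ (2 * Δ) → ∀ G : ℝ[X],
      G.natDegree ≤ D →
      δ₁ * x ≤ ∑ d ∈ T, ‖∑ m ∈ Icc 1 (x / d), ee (G.eval ((d : ℝ) * (m : ℝ)))‖ →
      ∃ k : ℕ, 1 ≤ k ∧ (k : ℝ) ≤ A * (1 / δ₁) ^ n ∧
        nd (k * G.coeff D) ≤ A * (1 / δ₁) ^ n / (x : ℝ) ^ D := by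
  classical
  obtain ⟨C₀, hC₀, hw⟩ := weyl D hD
  obtain ⟨C₁, hC₁, hr⟩ := recD D hD
  have hC₀' : (1 : ℝ) ≤ C₀ := by exact_mod_cast hC₀
  have hC₁' : (1 : ℝ) ≤ C₁ := by exact_mod_cast hC₁
  obtain ⟨b, hb⟩ : ∃ b : ℝ, b = (2 * C₀) ^ C₀ := ⟨_, rfl⟩
  refine ⟨b ^ 2 * ((C₁ : ℝ) ^ C₁ * (4 * b) ^ C₁) ^ D * (4 ^ D * (C₁ : ℝ) ^ 2 * (4 * b) ^ 2),
    C₀ * 2 + (C₀ + 1) * C₁ * D + (C₀ + 1) * 2, ?_⟩
  intro δ₁ h0 h1 x Δ hΔ hΔx T hT G hG hsum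
  have hb1 : 1 ≤ b := by
    rw [hb]
    exact one_le_pow₀ (by linarith)
  have hd1 : 1 ≤ 1 / δ₁ := by
    rw [le_div_iff₀ h0]
    linarith
  obtain ⟨B, hB⟩ : ∃ B : ℝ, B = ((C₀ : ℝ) / (δ₁ / 2)) ^ C₀ := ⟨_, rfl⟩
  have hBb : B = b * (1 / δ₁) ^ C₀ := by
    rw [hB, hb, ← mul_pow]
    congr 1
    field_simp
  have hB1 : 1 ≤ B := by
    rw [hBb]
    exact one_le_mul_of_one_le_of_one_le hb1 (one_le_pow₀ hd1)
  have hB0 : 0 < B := by linarith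
  obtain ⟨δ₂, hδ₂⟩ : ∃ δ₂ : ℝ, δ₂ = δ₁ / (4 * B) := ⟨_, rfl⟩
  have hδ₂0 : 0 < δ₂ := by
    rw [hδ₂]
    positivity
  have hδ₂i : 1 / δ₂ = 4 * b * (1 / δ₁) ^ (C₀ + 1) := by
    rw [hδ₂, hBb, pow_succ]
    field_simp
  have hδ₂i1 : 1 ≤ 1 / δ₂ := by
    rw [hδ₂i]
    exact one_le_mul_of_one_le_of_one_le (by linarith) (one_le_pow₀ hd1)
  have hδ₂1 : δ₂ ≤ 1 := by
    rw [le_div_iff₀ hδ₂0] at hδ₂i1
    linarith
  obtain ⟨E, hE⟩ : ∃ E : ℝ, E = ((C₁ : ℝ) / δ₂) ^ C₁ := ⟨_, rfl⟩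
  have hEb : E = (C₁ : ℝ) ^ C₁ * (4 * b) ^ C₁ * (1 / δ₁) ^ ((C₀ + 1) * C₁) := by
    rw [hE, div_eq_mul_one_div, hδ₂i, mul_pow, mul_pow, pow_mul]
    ring
  have hE1 : 1 ≤ E := by
    rw [hE, div_eq_mul_one_div]
    exact one_le_pow₀ (one_le_mul_of_one_le_of_one_le hC₁' hδ₂i1)
  have hE0 : 0 < E := by linarith
  obtain ⟨F, hF⟩ : ∃ F : ℝ, F = 4 ^ D * (C₁ : ℝ) ^ 2 * (1 / δ₂) ^ 2 := ⟨_, rfl⟩
  have hF1 : 1 ≤ F := by
    rw [hF]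
    exact one_le_mul_of_one_le_of_one_le (one_le_mul_of_one_le_of_one_le
      (one_le_pow₀ (by norm_num)) (one_le_pow₀ hC₁')) (one_le_pow₀ hδ₂i1)
  obtain ⟨W, hW⟩ : ∃ W : ℝ, W = B ^ 2 * E ^ D * F := ⟨_, rfl⟩
  have hWA : b ^ 2 * ((C₁ : ℝ) ^ C₁ * (4 * b) ^ C₁) ^ D * (4 ^ D * (C₁ : ℝ) ^ 2 * (4 * b) ^ 2) *
      (1 / δ₁) ^ (C₀ * 2 + (C₀ + 1) * C₁ * D + (C₀ + 1) * 2) = W := by
    rw [hW, hF, hBb, hEb, hδ₂i, pow_add, pow_add, pow_mul, pow_mul _ ((C₀ + 1) * C₁) D,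
      pow_mul _ (C₀ + 1) 2]
    ring
  rw [hWA]
  have hEE : E ≤ E ^ D := le_self_pow₀ hE1 (by omega)
  have hED1 : 1 ≤ E ^ D := one_le_pow₀ hE1
  have hBB : B ≤ B ^ 2 := le_self_pow₀ hB1 (by norm_num)
  have hB21 : 1 ≤ B ^ 2 := one_le_pow₀ hB1
  have w1 : E * B ≤ W := by
    rw [hW]
    calc E * B ≤ E ^ D * B ^ 2 := mul_le_mul hEE hBB hB0.le (by positivity)
      _ = B ^ 2 * E ^ D * 1 := by ring
      _ ≤ B ^ 2 * E ^ D * F := mul_le_mul_of_nonneg_left hF1 (by positivity)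
  have w2 : B * E ^ D ≤ W := by
    rw [hW]
    calc B * E ^ D ≤ B ^ 2 * E ^ D := mul_le_mul_of_nonneg_right hBB (by positivity)
      _ = B ^ 2 * E ^ D * 1 := by ring
      _ ≤ B ^ 2 * E ^ D * F := mul_le_mul_of_nonneg_left hF1 (by positivity)
  have w3 : B ^ 2 * F ≤ W := by
    rw [hW]
    calc B ^ 2 * F = B ^ 2 * 1 * F := by ring
      _ ≤ B ^ 2 * E ^ D * F := by
        refine mul_le_mul_of_nonneg_right ?_ (by linarith)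
        exact mul_le_mul_of_nonneg_left hED1 (by positivity)
  have w4 : 1 ≤ W := le_trans (one_le_mul_of_one_le_of_one_le hB21 hF1) w3
  -- basic facts
  have hΔ' : (0 : ℝ) < Δ := by exact_mod_cast hΔ
  have hΔx1 : Δ ≤ x := le_trans (Nat.le_self_pow (by norm_num) Δ) hΔx
  have hx1 : 1 ≤ x := hΔ.trans hΔx1
  have hx' : (0 : ℝ) < x := by exact_mod_cast hx1
  have hxD : (0 : ℝ) < (x : ℝ) ^ D := by positivity
  -- many large sums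
  obtain ⟨f, hf⟩ : ∃ f : ℕ → ℝ, ∀ d, f d =
      ‖∑ m ∈ Icc 1 (x / d), ee (G.eval ((d : ℝ) * (m : ℝ)))‖ := ⟨_, fun _ => rfl⟩
  have hfle : ∀ d ∈ T, f d ≤ (x : ℝ) / Δ := by
    intro d hd
    have h2 := mem_Ico.1 (hT hd)
    rw [hf]
    refine (norm_sum_le _ _).trans ?_
    simp only [norm_ee, sum_const, Nat.card_Icc, nsmul_eq_mul, mul_one]
    have h3 : x / d + 1 - 1 = x / d := Nat.add_sub_cancel _ _
    rw [h3]
    refine Nat.cast_div_le.trans ?_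
    refine div_le_div_of_nonneg_left hx'.le hΔ' ?_
    exact_mod_cast h2.1
  have hTc : (T.card : ℝ) ≤ Δ := by
    have h2 := card_le_card hT
    rw [Nat.card_Ico] at h2
    have h3 : T.card ≤ Δ := by omega
    exact_mod_cast h3
  obtain ⟨T', hT'⟩ : ∃ T' : Finset ℕ, T' = T.filter (fun d => δ₁ / 2 * ((x : ℝ) / Δ) ≤ f d) :=
    ⟨_, rfl⟩
  have hT'c : δ₁ / 2 * Δ ≤ T'.card := by
    have h2 : ∑ d ∈ T, f d ≤ T'.card * ((x : ℝ) / Δ) + Δ * (δ₁ / 2 * ((x : ℝ) / Δ)) := by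
      rw [← sum_filter_add_sum_filter_not T (fun d => δ₁ / 2 * ((x : ℝ) / Δ) ≤ f d)]
      refine add_le_add ?_ ?_
      · rw [← hT', ← nsmul_eq_mul]
        refine sum_le_card_nsmul _ _ _ fun d hd => hfle d ?_
        rw [hT'] at hd
        exact (mem_filter.1 hd).1
      · calc ∑ d ∈ T with ¬ δ₁ / 2 * ((x : ℝ) / Δ) ≤ f d, f d
            ≤ (T.filter (fun d => ¬ δ₁ / 2 * ((x : ℝ) / Δ) ≤ f d)).card •
              (δ₁ / 2 * ((x : ℝ) / Δ)) := by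
              refine sum_le_card_nsmul _ _ _ fun d hd => ?_
              exact (not_le.1 (mem_filter.1 hd).2).le
          _ = ((T.filter (fun d => ¬ δ₁ / 2 * ((x : ℝ) / Δ) ≤ f d)).card : ℝ) *
              (δ₁ / 2 * ((x : ℝ) / Δ)) := nsmul_eq_mul _ _
          _ ≤ Δ * (δ₁ / 2 * ((x : ℝ) / Δ)) := by
              refine mul_le_mul_of_nonneg_right ?_ (by positivity)
              refine le_trans ?_ hTc
              exact_mod_cast card_le_card (filter_subset _ _)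
    have h3 : δ₁ * x ≤ ∑ d ∈ T, f d := by
      refine hsum.trans (le_of_eq ?_)
      exact sum_congr rfl fun d _ => (hf d).symm
    have h4 : (Δ : ℝ) * (δ₁ / 2 * ((x : ℝ) / Δ)) = δ₁ / 2 * x := by
      field_simp
    rw [h4] at h2
    have h5 : δ₁ / 2 * x ≤ T'.card * ((x : ℝ) / Δ) := by linarith
    have h6 : δ₁ / 2 * Δ * ((x : ℝ) / Δ) ≤ T'.card * ((x : ℝ) / Δ) := by
      refine le_trans (le_of_eq ?_) h5
      field_simp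
    exact le_of_mul_le_mul_right h6 (by positivity)
  -- Weyl
  have hk : ∀ d : ℕ, ∃ k : ℕ, d ∈ T' → 1 ≤ k ∧ (k : ℝ) ≤ B ∧
      nd (k * G.coeff D * (d : ℝ) ^ D) ≤ B * (2 * Δ / x) ^ D := by
    intro d
    by_cases hd : d ∈ T'
    · have hd' := hd
      rw [hT'] at hd'
      obtain ⟨hd1, hd2⟩ := mem_filter.1 hd'
      rw [hf] at hd2
      obtain ⟨k, hk1, hk2, hk3⟩ := ti_one hw h0 h1 hΔ hΔx1 (mem_Ico.1 (hT hd1)).1 hG hd2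
      rw [← hB] at hk2 hk3
      exact ⟨k, fun _ => ⟨hk1, hk2, hk3⟩⟩
    · exact ⟨0, fun h => absurd h hd⟩
  choose κ hκ using hk
  have hmaps : ∀ d ∈ T', κ d ∈ Icc 1 ⌊B⌋₊ := by
    intro d hd
    obtain ⟨h2, h3, -⟩ := hκ d hd
    rw [mem_Icc]
    exact ⟨h2, Nat.le_floor h3⟩
  have hne : (Icc 1 ⌊B⌋₊).Nonempty := by
    refine ⟨1, mem_Icc.2 ⟨le_rfl, Nat.le_floor ?_⟩⟩
    exact_mod_cast hB1
  have hcnt : (Icc 1 ⌊B⌋₊).card • (δ₂ * (2 * Δ)) ≤ (T'.card : ℝ) := by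
    rw [Nat.card_Icc, nsmul_eq_mul]
    have h2 : ⌊B⌋₊ + 1 - 1 = ⌊B⌋₊ := by omega
    rw [h2]
    calc ((⌊B⌋₊ : ℕ) : ℝ) * (δ₂ * (2 * Δ)) ≤ B * (δ₂ * (2 * Δ)) :=
          mul_le_mul_of_nonneg_right (Nat.floor_le hB0.le) (by positivity)
      _ = δ₁ / 2 * Δ := by
          rw [hδ₂]
          field_simp
          norm_num
      _ ≤ T'.card := hT'c
  obtain ⟨k, hkm, hkc⟩ := exists_le_card_fiber_of_nsmul_le_card_of_maps_to hmaps hne hcnt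
  have hk1 : 1 ≤ k := (mem_Icc.1 hkm).1
  have hkB : (k : ℝ) ≤ B := le_trans (by exact_mod_cast (mem_Icc.1 hkm).2) (Nat.floor_le hB0.le)
  obtain ⟨S', hS'⟩ : ∃ S' : Finset ℕ, S' = T'.filter (fun d => κ d = k) := ⟨_, rfl⟩
  rw [← hS'] at hkc
  have hS'1 : ∀ d ∈ S', nd (k * G.coeff D * (d : ℝ) ^ D) ≤ B * (2 * Δ / x) ^ D := by
    intro d hd
    rw [hS'] at hd
    obtain ⟨h2, h3⟩ := mem_filter.1 hd
    rw [← h3]
    exact (hκ d h2).2.2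
  have hS'2 : ∀ d ∈ S', Δ ≤ d ∧ d < 2 * Δ := by
    intro d hd
    rw [hS'] at hd
    obtain ⟨h2, h3⟩ := mem_filter.1 hd
    rw [hT'] at h2
    exact mem_Ico.1 (hT (mem_filter.1 h2).1)
  have hσx : B * (2 * Δ / x) ^ D = B * (2 * Δ) ^ D / (x : ℝ) ^ D := by
    rw [div_pow]
    ring
  by_cases hc1 : E ≤ 2 * Δ
  · by_cases hc2 : B * (2 * Δ / x) ^ D ≤ δ₂ / C₁
    · -- case (i)
      have hS'I : S' ⊆ Icc 1 (2 * Δ) := by
        intro d hd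
        have := hS'2 d hd
        rw [mem_Icc]
        omega
      obtain ⟨k', hk'1, hk'2, hk'3⟩ := hr δ₂ hδ₂0 hδ₂1 (B * (2 * Δ / x) ^ D) (k * G.coeff D) 0
        (by positivity) hc2 (2 * Δ) (by rw [← hE]; push_cast; exact hc1) S' hS'I
        (by push_cast; exact hkc) (fun d hd => by rw [sub_zero]; exact hS'1 d hd)
      rw [← hE] at hk'2 hk'3
      refine ⟨k' * k, Nat.mul_pos hk'1 hk1, ?_, ?_⟩
      · push_cast
        exact le_trans (mul_le_mul hk'2 hkB (Nat.cast_nonneg _) hE0.le) w1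
      · push_cast
        rw [mul_assoc]
        refine hk'3.trans ?_
        rw [hσx]
        push_cast
        have h2 : E * (B * (2 * Δ) ^ D / (x : ℝ) ^ D) / (2 * Δ) ^ D = E * B / (x : ℝ) ^ D := by
          field_simp
        rw [h2]
        exact div_le_div_of_nonneg_right w1 hxD.le
    · -- case (iii)
      push Not at hc2
      refine ⟨1, le_rfl, by simpa using w4, ?_⟩
      rw [Nat.cast_one, one_mul]
      refine (nd_le_half _).trans ?_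
      rw [le_div_iff₀ hxD]
      have h2 : (δ₂ / C₁) ^ 2 ≤ (B * (2 * Δ / x) ^ D) ^ 2 :=
        pow_le_pow_left₀ (by positivity) hc2.le 2
      have h3 : (B * (2 * Δ / x) ^ D) ^ 2 ≤ B ^ 2 * 4 ^ D / (x : ℝ) ^ D := by
        have h4 : ((Δ : ℝ) ^ 2) ^ D ≤ (x : ℝ) ^ D :=
          pow_le_pow_left₀ (by positivity) (by exact_mod_cast hΔx) D
        have h5 : (B * (2 * Δ / x) ^ D) ^ 2 =
            B ^ 2 * 4 ^ D * ((Δ : ℝ) ^ 2) ^ D / ((x : ℝ) ^ D * (x : ℝ) ^ D) := by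
          rw [mul_pow, ← pow_mul, mul_comm D 2, pow_mul, div_pow, mul_pow, div_pow, mul_pow,
            ← mul_pow (x : ℝ) (x : ℝ)]
          norm_num
          ring
        rw [h5, div_le_div_iff₀ (by positivity) hxD]
        have h6 : 0 < B ^ 2 * 4 ^ D := by positivity
        calc B ^ 2 * 4 ^ D * ((Δ : ℝ) ^ 2) ^ D * (x : ℝ) ^ D
            ≤ B ^ 2 * 4 ^ D * (x : ℝ) ^ D * (x : ℝ) ^ D := by
              refine mul_le_mul_of_nonneg_right ?_ hxD.le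
              exact mul_le_mul_of_nonneg_left h4 h6.le
          _ = B ^ 2 * 4 ^ D * ((x : ℝ) ^ D * (x : ℝ) ^ D) := by ring
      have h4 : (δ₂ / C₁) ^ 2 * (x : ℝ) ^ D ≤ B ^ 2 * 4 ^ D := by
        have h5 := h2.trans h3
        rwa [le_div_iff₀ hxD] at h5
      have h5 : (x : ℝ) ^ D ≤ B ^ 2 * F := by
        have h6 : (x : ℝ) ^ D = ((C₁ : ℝ) ^ 2 * (1 / δ₂) ^ 2) * ((δ₂ / C₁) ^ 2 * (x : ℝ) ^ D) := by
          field_simp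
        rw [h6, hF]
        calc ((C₁ : ℝ) ^ 2 * (1 / δ₂) ^ 2) * ((δ₂ / C₁) ^ 2 * (x : ℝ) ^ D)
            ≤ ((C₁ : ℝ) ^ 2 * (1 / δ₂) ^ 2) * (B ^ 2 * 4 ^ D) :=
              mul_le_mul_of_nonneg_left h4 (by positivity)
          _ = B ^ 2 * (4 ^ D * (C₁ : ℝ) ^ 2 * (1 / δ₂) ^ 2) := by ring
      linarith
  · -- case (ii)
    push Not at hc1
    have hpos : 0 < S'.card := by
      have h2 : (0 : ℝ) < S'.card := lt_of_lt_of_le (by positivity) hkc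
      exact_mod_cast h2
    obtain ⟨d, hd⟩ := card_pos.1 hpos
    obtain ⟨hd1, hd2⟩ := hS'2 d hd
    have hdE : (d : ℝ) ≤ E := by
      have h2 : (d : ℝ) ≤ 2 * Δ := by exact_mod_cast hd2.le
      linarith
    refine ⟨k * d ^ D, Nat.mul_pos hk1 (pow_pos (by omega) D), ?_, ?_⟩
    · push_cast
      refine le_trans ?_ w2
      exact mul_le_mul hkB (pow_le_pow_left₀ (Nat.cast_nonneg _) hdE D) (by positivity) hB0.le
    · push_cast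
      have h2 : (k : ℝ) * (d : ℝ) ^ D * G.coeff D = k * G.coeff D * (d : ℝ) ^ D := by ring
      rw [h2]
      refine (hS'1 d hd).trans ?_
      rw [hσx]
      refine div_le_div_of_nonneg_right (le_trans ?_ w2) hxD.le
      exact mul_le_mul_of_nonneg_left (pow_le_pow_left₀ (by positivity) hc1.le D) hB0.le

theorem typeI (D : ℕ) (hD : 1 ≤ D) : ∃ C : ℕ, 1 ≤ C ∧ ∀ δ : ℝ, 0 < δ → δ ≤ 1 → ∀ x D₀ : ℕ, 2 ≤ x →
    D₀ ^ 2 ≤ x → ∀ G : ℝ[X], G.natDegree ≤ D →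
      δ * x ≤ ∑ d ∈ Icc 1 D₀, ‖∑ m ∈ Icc 1 (x / d), ee (G.eval ((d : ℝ) * (m : ℝ)))‖ →
      ∃ k : ℕ, 1 ≤ k ∧ (k : ℝ) ≤ (C * Real.log x / δ) ^ C ∧
        nd (k * G.coeff D) ≤ (C * Real.log x / δ) ^ C / (x : ℝ) ^ D := by
  classical
  obtain ⟨A, n, hcore⟩ := ti_core D hD
  obtain ⟨C₂, hC₂, habs⟩ := absorb A n
  refine ⟨3 * C₂, by omega, ?_⟩
  intro δ h0 h1 x D₀ hx hD₀ G hG hsum
  have hx2 : (2 : ℝ) ≤ x := by exact_mod_cast hx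
  have hx' : (0 : ℝ) < x := by linarith
  have hlog2 : Real.log 2 ≤ Real.log x := Real.log_le_log (by norm_num) hx2
  have hl2 : (1 / 2 : ℝ) < Real.log 2 := by
    have := Real.log_two_gt_d9
    linarith
  have hl : 1 / 2 < Real.log x := by linarith
  have hD₀1 : 1 ≤ D₀ := by
    by_contra h
    have h2 : D₀ = 0 := by omega
    rw [h2] at hsum
    simp only [Finset.Icc_eq_empty (show ¬ (1 : ℕ) ≤ 0 by norm_num), sum_empty] at hsum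
    have := mul_pos h0 hx'
    linarith
  -- the number of dyadic ranges
  have hL : ((Nat.log 2 D₀ + 1 : ℕ) : ℝ) ≤ 3 * Real.log x := by
    have h2 : (2 : ℝ) ^ (Nat.log 2 D₀) ≤ D₀ := by
      exact_mod_cast Nat.pow_log_le_self 2 (by omega)
    have h3 : (Nat.log 2 D₀ : ℝ) * Real.log 2 ≤ Real.log D₀ := by
      rw [← Real.log_pow]
      exact Real.log_le_log (by positivity) h2
    have h4 : 2 * Real.log D₀ ≤ Real.log x := by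
      have h5 : Real.log ((D₀ : ℝ) ^ 2) ≤ Real.log x :=
        Real.log_le_log (by positivity) (by exact_mod_cast hD₀)
      rw [Real.log_pow] at h5
      push_cast at h5
      exact h5
    have h5 : (0 : ℝ) ≤ Nat.log 2 D₀ := Nat.cast_nonneg _
    have h6 : (Nat.log 2 D₀ : ℝ) ≤ Real.log x := by nlinarith
    push_cast
    linarith
  obtain ⟨δ₁, hδ₁⟩ : ∃ δ₁ : ℝ, δ₁ = δ / (3 * Real.log x) := ⟨_, rfl⟩
  have hδ₁0 : 0 < δ₁ := by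
    rw [hδ₁]
    positivity
  have hδ₁1 : δ₁ ≤ 1 := by
    rw [hδ₁, div_le_one (by positivity)]
    linarith
  -- a good range
  obtain ⟨f, hf⟩ : ∃ f : ℕ → ℝ, ∀ d, f d =
      ‖∑ m ∈ Icc 1 (x / d), ee (G.eval ((d : ℝ) * (m : ℝ)))‖ := ⟨_, fun _ => rfl⟩
  have hf0 : ∀ d, 0 ≤ f d := fun d => by
    rw [hf]
    exact norm_nonneg _
  have hfib : ∑ i ∈ range (Nat.log 2 D₀ + 1), ∑ d ∈ Icc 1 D₀ with Nat.log 2 d = i, f d =
      ∑ d ∈ Icc 1 D₀, f d := by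
    refine sum_fiberwise_of_maps_to (fun d hd => ?_) f
    rw [mem_range, Nat.lt_succ_iff]
    exact Nat.log_mono_right (mem_Icc.1 hd).2
  obtain ⟨i, hi⟩ : ∃ i, δ₁ * x ≤ ∑ d ∈ Icc 1 D₀ with Nat.log 2 d = i, f d := by
    by_contra hcon
    push Not at hcon
    have h2 : ∑ i ∈ range (Nat.log 2 D₀ + 1), ∑ d ∈ Icc 1 D₀ with Nat.log 2 d = i, f d <
        ∑ _i ∈ range (Nat.log 2 D₀ + 1), δ₁ * x :=
      sum_lt_sum_of_nonempty ⟨0, by simp⟩ fun i _ => hcon i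
    rw [hfib, sum_const, card_range, nsmul_eq_mul] at h2
    have h3 : ∑ d ∈ Icc 1 D₀, f d =
        ∑ d ∈ Icc 1 D₀, ‖∑ m ∈ Icc 1 (x / d), ee (G.eval ((d : ℝ) * (m : ℝ)))‖ :=
      sum_congr rfl fun d _ => hf d
    rw [← h3] at hsum
    have h4 : ((Nat.log 2 D₀ + 1 : ℕ) : ℝ) * (δ₁ * x) ≤ 3 * Real.log x * (δ₁ * x) :=
      mul_le_mul_of_nonneg_right hL (by positivity)
    have h5 : 3 * Real.log x * (δ₁ * x) = δ * x := by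
      rw [hδ₁]
      field_simp
    linarith
  obtain ⟨d, hd⟩ : ((Icc 1 D₀).filter (fun d => Nat.log 2 d = i)).Nonempty := by
    by_contra hcon
    rw [not_nonempty_iff_eq_empty] at hcon
    rw [hcon, sum_empty] at hi
    have := mul_pos hδ₁0 hx'
    linarith
  obtain ⟨hd1, hd2⟩ := mem_filter.1 hd
  rw [mem_Icc] at hd1
  have hΔD : 2 ^ i ≤ D₀ := by
    rw [← hd2]
    exact (Nat.pow_log_le_self 2 (by omega)).trans hd1.2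
  have hsub : (Icc 1 D₀).filter (fun d => Nat.log 2 d = i) ⊆ Ico (2 ^ i) (2 * 2 ^ i) := by
    intro e he
    obtain ⟨he1, he2⟩ := mem_filter.1 he
    rw [mem_Icc] at he1
    rw [mem_Ico, ← he2]
    refine ⟨Nat.pow_log_le_self 2 (by omega), ?_⟩
    have := Nat.lt_pow_succ_log_self (b := 2) (by norm_num) e
    rwa [pow_succ, mul_comm] at this
  obtain ⟨k, hk1, hk2, hk3⟩ := hcore δ₁ hδ₁0 hδ₁1 x (2 ^ i) (Nat.one_le_two_pow)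
    ((Nat.pow_le_pow_left hΔD 2).trans hD₀) _ hsub G hG
    (hi.trans (le_of_eq (sum_congr rfl fun d _ => hf d)))
  have hfin : A * (1 / δ₁) ^ n ≤ (((3 * C₂ : ℕ) : ℝ) * Real.log x / δ) ^ (3 * C₂) := by
    refine (habs C₂ le_rfl δ₁ hδ₁0 hδ₁1).trans ?_
    have hC₂' : (1 : ℝ) ≤ C₂ := by exact_mod_cast hC₂
    have h2 : (C₂ : ℝ) / δ₁ = ((3 * C₂ : ℕ) : ℝ) * Real.log x / δ := by
      rw [hδ₁]
      push_cast
      field_simp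
    rw [h2]
    refine pow_le_pow_right₀ ?_ (by omega)
    rw [le_div_iff₀ h0]
    push_cast
    nlinarith
  refine ⟨k, hk1, hk2.trans hfin, hk3.trans ?_⟩
  exact div_le_div_of_nonneg_right hfin (by positivity)

end Pool.Agent.RHN
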